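import Mathlib

/-!
# KR, section 3: from vertices with one large body to all scales

Abstract form.  Points `pt v` (vertices) with nonempty supports `T v` of bounded sets `c i` containing them.
If sets of vertices of small diameter, each vertex having a large body in its support, satisfy a bound
`C2 |S| ^ p` with `p > 1`, then all vertices satisfy such a bound.
-/

open Metric Finset

namespace KR

/-- Covering number of balls at relative scale ε. -/
theorem exists_cover (d : ℕ) (ε : ℝ) (hε : 0 < ε) : ∃ M : ℕ, ∀ (x : EuclideanSpace ℝ (Fin d)) (r : ℝ),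
    0 < r → ∃ G : Finset (EuclideanSpace ℝ (Fin d)), G.card ≤ M ∧
      closedBall x r ⊆ ⋃ g ∈ G, closedBall g (ε * r) := by
  obtain ⟨t, -, ht2, ht3⟩ := (isCompact_closedBall (0 : EuclideanSpace ℝ (Fin d)) 1).elim_finite_subcover_image
    (b := Set.univ) (c := fun g => ball g ε) (fun _ _ => isOpen_ball)
    (fun z _ => Set.mem_biUnion (Set.mem_univ z) (mem_ball_self hε))
  classical
  refine ⟨ht2.toFinset.card, fun x r hr => ⟨ht2.toFinset.image fun g => x + r • g, card_image_le, ?_⟩⟩
  intro z hz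
  have h1 : r⁻¹ • (z - x) ∈ closedBall (0 : EuclideanSpace ℝ (Fin d)) 1 := by
    rw [mem_closedBall, dist_zero_right, norm_smul, norm_inv, Real.norm_of_nonneg hr.le]
    rw [mem_closedBall, dist_eq_norm] at hz
    rw [inv_mul_le_iff₀ hr, mul_one]
    exact hz
  obtain ⟨g, hg, hgz⟩ := Set.mem_iUnion₂.1 (ht3 h1)
  refine Set.mem_iUnion₂.2 ⟨x + r • g, mem_image.2 ⟨g, by simpa using hg, rfl⟩, ?_⟩
  rw [mem_ball, dist_eq_norm] at hgz
  rw [mem_closedBall, dist_eq_norm]
  have h2 : z - (x + r • g) = r • (r⁻¹ • (z - x) - g) := by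
    rw [smul_sub, smul_smul, mul_inv_cancel₀ hr.ne', one_smul]
    abel
  rw [h2, norm_smul, Real.norm_of_nonneg hr.le, mul_comm]
  exact mul_le_mul_of_nonneg_right hgz.le hr.le

section
variable {d : ℕ} {ι : Type} [DecidableEq ι]

open Classical in
/-- A ball which contains many of the sets, while no ball of half the radius does. -/
theorem exists_scale (c : ι → Set (EuclideanSpace ℝ (Fin d))) (hb : ∀ i, Bornology.IsBounded (c i))
    (hd : ∀ i, 0 < diam (c i)) (S : Finset ι) (hS : S.Nonempty) (a : ℝ) (ha : 0 < a)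
    (haS : a ≤ S.card) : ∃ (x : EuclideanSpace ℝ (Fin d)) (q : ℝ), 0 < q ∧
      a ≤ ((S.filter fun i => c i ⊆ closedBall x q).card : ℝ) ∧
      ∀ g, ((S.filter fun i => c i ⊆ closedBall g (q / 2)).card : ℝ) < a := by
  obtain ⟨R, hR, hRS⟩ : ∃ R : ℝ, 0 < R ∧ ∀ i ∈ S, c i ⊆ closedBall 0 R := by
    have h1 : Bornology.IsBounded (⋃ i ∈ S, c i) :=
      (Bornology.isBounded_biUnion_finset S).2 fun i _ => hb i
    obtain ⟨R, hR0, hR⟩ := h1.subset_closedBall_lt 0 0
    exact ⟨R, hR0, fun i hi => (Set.subset_biUnion_of_mem (u := fun i => c i) hi).trans hR⟩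
  obtain ⟨δ, hδ, hδS⟩ : ∃ δ : ℝ, 0 < δ ∧ ∀ i ∈ S, δ ≤ diam (c i) := by
    obtain ⟨i0, hi0, h0⟩ := S.exists_min_image (fun i => diam (c i)) hS
    exact ⟨diam (c i0), hd i0, h0⟩
  have hex : ∃ k : ℕ, ∀ g, ((S.filter fun i => c i ⊆ closedBall g (R / 2 ^ k)).card : ℝ) < a := by
    obtain ⟨k, hk⟩ := exists_pow_lt_of_lt_one (show (0 : ℝ) < δ / (2 * R) by positivity)
      (show (1 / 2 : ℝ) < 1 by norm_num)
    refine ⟨k, fun g => ?_⟩
    have h2 : (S.filter fun i => c i ⊆ closedBall g (R / 2 ^ k)) = ∅ := by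
      refine filter_eq_empty_iff.2 fun i hi hic => ?_
      have h3 := (diam_mono hic isBounded_closedBall).trans (diam_closedBall (by positivity))
      have h4 := hδS i hi
      have h5 : 2 * (R / 2 ^ k) < δ := by
        have h6 : (1 / 2 : ℝ) ^ k = 1 / 2 ^ k := by rw [div_pow, one_pow]
        rw [h6, div_lt_div_iff₀ (by positivity) (by positivity)] at hk
        rw [← mul_div_assoc, div_lt_iff₀ (by positivity)]
        linarith
      linarith
    rw [h2, card_empty]
    exact_mod_cast ha
  obtain ⟨k, hk, hmin⟩ : ∃ k : ℕ, (∀ g, ((S.filter fun i => c i ⊆ closedBall g (R / 2 ^ k)).card : ℝ) < a) ∧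
      ∀ m < k, ¬ ∀ g, ((S.filter fun i => c i ⊆ closedBall g (R / 2 ^ m)).card : ℝ) < a :=
    ⟨Nat.find hex, Nat.find_spec hex, fun m hm => Nat.find_min hex hm⟩
  rcases k with _ | k
  · exfalso
    have h1 := hk 0
    have h2 : (S.filter fun i => c i ⊆ closedBall 0 (R / 2 ^ 0)) = S := by
      refine filter_true_of_mem fun i hi => ?_
      simpa using hRS i hi
    rw [h2] at h1
    linarith
  · have h1 := hmin k (Nat.lt_succ_self k)
    push Not at h1
    obtain ⟨x, hx⟩ := h1
    refine ⟨x, R / 2 ^ k, by positivity, hx, fun g => ?_⟩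
    have h2 : R / 2 ^ k / 2 = R / 2 ^ (k + 1) := by
      rw [div_div, pow_succ]
    rw [h2]
    exact hk g

/-- The induction over scales (text, section 3). -/
theorem all_scales (d : ℕ) (p K C2 : ℝ) (hp : 1 < p) (hK : 0 < K) (hC2 : 0 ≤ C2) :
    ∃ C : ℝ, 0 ≤ C ∧ ∀ (ι V : Type) [Fintype ι] [DecidableEq ι]
      (c : ι → Set (EuclideanSpace ℝ (Fin d))), (∀ i, Bornology.IsBounded (c i)) →
      (∀ i, 0 < diam (c i)) → ∀ (pt : V → EuclideanSpace ℝ (Fin d)) (T : V → Finset ι),
      (∀ v, (T v).Nonempty) → (∀ v, ∀ i ∈ T v, pt v ∈ c i) →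
      (∀ (S : Finset ι) (V' : Finset V) (q : ℝ), 0 < q → (∀ v ∈ V', T v ⊆ S) →
        (∀ v ∈ V', ∀ w ∈ V', dist (pt v) (pt w) ≤ q) →
        (∀ v ∈ V', ∃ i ∈ T v, K * q ≤ diam (c i)) → (V'.card : ℝ) ≤ C2 * (S.card : ℝ) ^ p) →
      ∀ V0 : Finset V, (V0.card : ℝ) ≤ C * (Fintype.card ι : ℝ) ^ p := by
  obtain ⟨M1, hM1⟩ := exists_cover d (1 / (8 * K)) (by positivity)
  obtain ⟨M2, hM2⟩ := exists_cover d (1 / 4) (by norm_num)
  obtain ⟨A, hA1, hA2⟩ : ∃ A : ℝ, 1 ≤ A ∧ (M2 : ℝ) * (1 / A) ^ p ≤ 1 / (2 * A) := by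
    have h1 : 0 < p - 1 := by linarith
    obtain ⟨A, hA⟩ := ((tendsto_rpow_atTop h1).eventually_ge_atTop (2 * (M2 : ℝ))).and
      (Filter.eventually_ge_atTop (1 : ℝ)) |>.exists
    refine ⟨A, hA.2, ?_⟩
    have hA0 : 0 < A := by linarith [hA.2]
    have h2 : (1 / A) ^ p = 1 / (A * A ^ (p - 1)) := by
      rw [Real.div_rpow zero_le_one hA0.le, Real.one_rpow]
      congr 1
      rw [← Real.rpow_one_add' hA0.le (by linarith)]
      congr 1
      ring
    have h3 : 0 < A ^ (p - 1) := Real.rpow_pos_of_pos hA0 _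
    rw [h2, mul_one_div, div_le_div_iff₀ (by positivity) (by positivity)]
    nlinarith [hA.1]
  have hA0 : 0 < A := by linarith
  refine ⟨2 * A * M1 * C2, by positivity, ?_⟩
  intro ι V _ _ c hb hd pt T hT hc hLC V0
  classical
  set C : ℝ := 2 * A * M1 * C2 with hCdef
  have hC0 : 0 ≤ C := by positivity
  have main : ∀ (n : ℕ) (S : Finset ι), S.card = n →
      (((V0.filter fun v => T v ⊆ S).card : ℕ) : ℝ) ≤ C * (S.card : ℝ) ^ p := by
    intro n
    induction n using Nat.strong_induction_on with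
    | _ n ih =>
    intro S hSn
    rcases S.eq_empty_or_nonempty with hS | hS
    · have h1 : (V0.filter fun v => T v ⊆ S) = ∅ := by
        refine filter_eq_empty_iff.2 fun v _ hv => ?_
        rw [hS] at hv
        exact (hT v).ne_empty (subset_empty.1 hv)
      rw [h1, card_empty]
      push_cast
      positivity
    · have hScard : (0 : ℝ) < S.card := by exact_mod_cast hS.card_pos
      obtain ⟨x, q, hq, hx, hg⟩ := exists_scale c hb hd S hS (S.card / A) (by positivity)
        (div_le_self hScard.le hA1)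
      set S0 : Finset ι := S.filter fun i => c i ⊆ closedBall x q with hS0
      -- first class
      set Va : Finset V := V0.filter fun v => T v ⊆ S \ S0 with hVa
      have ha : (Va.card : ℝ) ≤ C * ((1 - 1 / A) * (S.card : ℝ) ^ p) := by
        have h1 : (S \ S0).card = S.card - S0.card := card_sdiff_of_subset (filter_subset _ _)
        have h2 : S0.card ≤ S.card := card_le_card (filter_subset _ _)
        have h3 : (0 : ℝ) < S0.card := lt_of_lt_of_le (by positivity) hx
        have h4 : 0 < S0.card := by exact_mod_cast h3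
        have h5 := ih (S \ S0).card (by omega) (S \ S0) rfl
        refine h5.trans (mul_le_mul_of_nonneg_left ?_ hC0)
        have h6 : ((S \ S0).card : ℝ) ≤ (1 - 1 / A) * S.card := by
          rw [h1, Nat.cast_sub h2]
          have : S.card / A = 1 / A * S.card := by ring
          linarith
        have h7 : 0 ≤ 1 - 1 / A := by
          rw [sub_nonneg, div_le_one hA0]
          exact hA1
        have h8 : 1 - 1 / A ≤ 1 := by
          have : 0 < 1 / A := by positivity
          linarith
        calc ((S \ S0).card : ℝ) ^ p ≤ ((1 - 1 / A) * S.card) ^ p :=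
              Real.rpow_le_rpow (Nat.cast_nonneg _) h6 (by linarith)
          _ = (1 - 1 / A) ^ p * (S.card : ℝ) ^ p := Real.mul_rpow h7 (Nat.cast_nonneg _)
          _ ≤ (1 - 1 / A) * (S.card : ℝ) ^ p := by
              refine mul_le_mul_of_nonneg_right ?_ (by positivity)
              calc (1 - 1 / A) ^ p ≤ (1 - 1 / A) ^ (1 : ℝ) :=
                    Real.rpow_le_rpow_of_exponent_ge' h7 h8 zero_le_one hp.le
                _ = 1 - 1 / A := Real.rpow_one _
      -- second class
      set Vb : Finset V := V0.filter fun v => T v ⊆ S ∧ pt v ∈ closedBall x q ∧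
        ∃ i ∈ T v, q / 4 ≤ diam (c i) with hVb
      have hbb : (Vb.card : ℝ) ≤ M1 * (C2 * (S.card : ℝ) ^ p) := by
        obtain ⟨G, hG1, hG2⟩ := hM1 x q hq
        have h1 : Vb ⊆ G.biUnion fun g => Vb.filter fun v => pt v ∈ closedBall g (1 / (8 * K) * q) := by
          intro v hv
          have h2 := (mem_filter.1 hv).2.2.1
          obtain ⟨g, hgG, hgv⟩ := Set.mem_iUnion₂.1 (hG2 h2)
          exact mem_biUnion.2 ⟨g, hgG, mem_filter.2 ⟨hv, hgv⟩⟩
        have h3 : ∀ g ∈ G, ((Vb.filter fun v => pt v ∈ closedBall g (1 / (8 * K) * q)).card : ℝ) ≤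
            C2 * (S.card : ℝ) ^ p := by
          intro g _
          refine hLC S _ (q / (4 * K)) (by positivity) (fun v hv => ?_) (fun v hv w hw => ?_)
            (fun v hv => ?_)
          · exact (mem_filter.1 (mem_filter.1 hv).1).2.1
          · have h4 := (mem_filter.1 hv).2
            have h5 := (mem_filter.1 hw).2
            rw [mem_closedBall] at h4 h5
            have h6 := dist_triangle_right (pt v) (pt w) g
            have h7 : q / (4 * K) = 1 / (8 * K) * q + 1 / (8 * K) * q := by
              field_simp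
              ring
            linarith
          · obtain ⟨i, hi, hi2⟩ := (mem_filter.1 (mem_filter.1 hv).1).2.2.2
            refine ⟨i, hi, ?_⟩
            have h8 : K * (q / (4 * K)) = q / 4 := by
              field_simp
            rw [h8]
            exact hi2
        have h9 : (Vb.card : ℝ) ≤ ∑ g ∈ G, ((Vb.filter fun v => pt v ∈ closedBall g (1 / (8 * K) * q)).card : ℝ) := by
          exact_mod_cast (card_le_card h1).trans card_biUnion_le
        refine h9.trans ((sum_le_sum h3).trans ?_)
        rw [sum_const, nsmul_eq_mul]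
        refine mul_le_mul_of_nonneg_right (by exact_mod_cast hG1) (by positivity)
      -- third class
      set Vc : Finset V := V0.filter fun v => T v ⊆ S ∧ pt v ∈ closedBall x q ∧
        ∀ i ∈ T v, diam (c i) < q / 4 with hVc
      have hcc : (Vc.card : ℝ) ≤ M2 * (C * ((1 / A) ^ p * (S.card : ℝ) ^ p)) := by
        obtain ⟨G, hG1, hG2⟩ := hM2 x q hq
        have h1 : Vc ⊆ G.biUnion fun g => V0.filter fun v =>
            T v ⊆ S.filter fun i => c i ⊆ closedBall g (q / 2) := by
          intro v hv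
          obtain ⟨hv0, hv1, hv2, hv3⟩ := mem_filter.1 hv
          obtain ⟨g, hgG, hgv⟩ := Set.mem_iUnion₂.1 (hG2 hv2)
          refine mem_biUnion.2 ⟨g, hgG, mem_filter.2 ⟨hv0, fun i hi => mem_filter.2 ⟨hv1 hi, fun z hz => ?_⟩⟩⟩
          have h2 := dist_le_diam_of_mem (hb i) hz (hc v i hi)
          have h3 := hv3 i hi
          rw [mem_closedBall] at hgv ⊢
          have h4 := dist_triangle z (pt v) g
          linarith
        have h3 : ∀ g ∈ G, ((V0.filter fun v => T v ⊆ S.filter fun i =>
            c i ⊆ closedBall g (q / 2)).card : ℝ) ≤ C * ((1 / A) ^ p * (S.card : ℝ) ^ p) := by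
          intro g _
          have h5 := hg g
          have h6 : ((S.filter fun i => c i ⊆ closedBall g (q / 2)).card : ℝ) < S.card :=
            h5.trans_le (div_le_self hScard.le hA1)
          have h7 := ih _ (by rw [← hSn]; exact_mod_cast h6)
            (S.filter fun i => c i ⊆ closedBall g (q / 2)) rfl
          refine h7.trans (mul_le_mul_of_nonneg_left ?_ hC0)
          rw [← Real.mul_rpow (by positivity) (Nat.cast_nonneg _)]
          refine Real.rpow_le_rpow (Nat.cast_nonneg _) (h5.le.trans ?_) (by linarith)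
          rw [one_div, inv_mul_eq_div]
        have h9 : (Vc.card : ℝ) ≤ ∑ g ∈ G, ((V0.filter fun v => T v ⊆ S.filter fun i =>
            c i ⊆ closedBall g (q / 2)).card : ℝ) := by
          exact_mod_cast (card_le_card h1).trans card_biUnion_le
        refine h9.trans ((sum_le_sum h3).trans ?_)
        rw [sum_const, nsmul_eq_mul]
        refine mul_le_mul_of_nonneg_right (by exact_mod_cast hG1) (by positivity)
      have hcov : (V0.filter fun v => T v ⊆ S) ⊆ Va ∪ (Vb ∪ Vc) := by
        intro v hv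
        obtain ⟨hv0, hv1⟩ := mem_filter.1 hv
        by_cases h1 : T v ⊆ S \ S0
        · exact mem_union_left _ (mem_filter.2 ⟨hv0, h1⟩)
        · refine mem_union_right _ ?_
          obtain ⟨i, hi, hi2⟩ := not_subset.1 h1
          have hi3 : i ∈ S0 := by
            by_contra hcon
            exact hi2 (mem_sdiff.2 ⟨hv1 hi, hcon⟩)
          have hvx : pt v ∈ closedBall x q := (mem_filter.1 hi3).2 (hc v i hi)
          by_cases h2 : ∃ i ∈ T v, q / 4 ≤ diam (c i)
          · exact mem_union_left _ (mem_filter.2 ⟨hv0, hv1, hvx, h2⟩)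
          · push Not at h2
            exact mem_union_right _ (mem_filter.2 ⟨hv0, hv1, hvx, h2⟩)
      have hcard : (((V0.filter fun v => T v ⊆ S).card : ℕ) : ℝ) ≤ Va.card + (Vb.card + Vc.card) := by
        have h1 := card_le_card hcov
        have h2 := card_union_le Va (Vb ∪ Vc)
        have h3 := card_union_le Vb Vc
        exact_mod_cast (by omega)
      have hX : 0 ≤ (S.card : ℝ) ^ p := by positivity
      have h10 : (M2 : ℝ) * (C * ((1 / A) ^ p * (S.card : ℝ) ^ p)) ≤ C * (1 / (2 * A)) * (S.card : ℝ) ^ p := by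
        calc (M2 : ℝ) * (C * ((1 / A) ^ p * (S.card : ℝ) ^ p)) =
              C * (M2 * (1 / A) ^ p) * (S.card : ℝ) ^ p := by ring
          _ ≤ C * (1 / (2 * A)) * (S.card : ℝ) ^ p := by gcongr
      have h11 : M1 * (C2 * (S.card : ℝ) ^ p) = C * (1 / (2 * A)) * (S.card : ℝ) ^ p := by
        rw [hCdef]
        field_simp
      calc (((V0.filter fun v => T v ⊆ S).card : ℕ) : ℝ) ≤ Va.card + (Vb.card + Vc.card) := hcard
        _ ≤ C * ((1 - 1 / A) * (S.card : ℝ) ^ p) + (C * (1 / (2 * A)) * (S.card : ℝ) ^ p +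
            C * (1 / (2 * A)) * (S.card : ℝ) ^ p) := by
            rw [h11] at hbb
            exact add_le_add ha (add_le_add hbb (hcc.trans h10))
        _ = C * (S.card : ℝ) ^ p := by
            field_simp
            ring
  have h1 := main _ Finset.univ rfl
  rw [Finset.card_univ] at h1
  have h2 : (V0.filter fun v => T v ⊆ Finset.univ) = V0 :=
    filter_true_of_mem fun v _ => subset_univ _
  rw [h2] at h1
  exact h1

end

end KR
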