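import Pool.Agent.KR.B_Round
import Pool.Agent.UC.Poly

/-!
# KR, block B (lower bound): the family of ellipsoids

Body 0 is the unit ball with top point 0; body i >= 1 is a thin perturbation of it which sticks out over the strip
|x_k - a| < w, where k = (i-1) mod N and a = 3 w ((i-1) div N).
-/

open Metric Finset MvPolynomial

namespace KR

open Pool.Agent.MP_5a1161_co

variable {N : ℕ}

/-- The polynomial |x|^2 + 2 x_N. -/
noncomputable def psiP (N : ℕ) : MvPolynomial (Fin (N + 1)) ℝ :=
  ∑ l, X l ^ 2 + C 2 * X (Fin.last N)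

/-- The polynomial of an ellipsoid. -/
noncomputable def ellP {N : ℕ} (k : Fin N) (η a w : ℝ) : MvPolynomial (Fin (N + 1)) ℝ :=
  psiP N + C η * ((X k.castSucc - C a) ^ 2 - C (w ^ 2))

/-- The values of psiP. -/
noncomputable def psi (x : Sp (N + 1)) : ℝ := ∑ l, x l ^ 2 + 2 * x (Fin.last N)

theorem pv_ellP (k : Fin N) (η a w : ℝ) (x : Sp (N + 1)) :
    pv (ellP k η a w) x = psi x + η * ((x k.castSucc - a) ^ 2 - w ^ 2) := by
  simp [pv, ellP, psiP, psi]

theorem ellP_deg (k : Fin N) (η a w : ℝ) : (ellP k η a w).totalDegree ≤ 2 := by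
  have hX : ∀ l : Fin (N + 1), (X l ^ 2 : MvPolynomial (Fin (N + 1)) ℝ).totalDegree ≤ 2 := fun l => by
    refine (totalDegree_pow _ _).trans ?_
    rw [totalDegree_X]
  refine (totalDegree_add _ _).trans (max_le ?_ ?_)
  · refine (totalDegree_add _ _).trans (max_le (totalDegree_finsetSum_le fun l _ => hX l) ?_)
    refine (totalDegree_mul _ _).trans ?_
    rw [totalDegree_C, totalDegree_X]
    omega
  · refine (totalDegree_mul _ _).trans ?_
    rw [totalDegree_C, zero_add]
    refine (totalDegree_sub _ _).trans (max_le ?_ ?_)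
    · refine (totalDegree_pow _ _).trans ?_
      have h1 : (X k.castSucc - C a : MvPolynomial (Fin (N + 1)) ℝ).totalDegree ≤ 1 := by
        refine (totalDegree_sub _ _).trans (max_le ?_ ?_)
        · rw [totalDegree_X]
        · rw [totalDegree_C]; omega
      omega
    · rw [totalDegree_C]; omega

theorem psi_line (x : Sp (N + 1)) (l : Fin (N + 1)) (t : ℝ) :
    psi (x + t • EuclideanSpace.single l (1 : ℝ)) =
      psi x + t * (2 * x l + if l = Fin.last N then 2 else 0) + t ^ 2 := by
  have h0 : ∀ m, (x + t • EuclideanSpace.single l (1 : ℝ)) m = x m + if m = l then t else 0 := by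
    intro m
    by_cases h : m = l
    · subst h; simp
    · simp [h]
  have h1 : ∀ m, (x + t • EuclideanSpace.single l (1 : ℝ)) m ^ 2 =
      x m ^ 2 + if m = l then 2 * t * x l + t ^ 2 else 0 := by
    intro m
    rw [h0]
    by_cases h : m = l
    · subst h; simp; ring
    · simp [h]
  rw [psi, psi, sum_congr rfl fun m _ => h1 m, h0, sum_add_distrib, sum_ite_eq' univ l]
  simp only [mem_univ, if_true]
  by_cases h : l = Fin.last N
  · simp [h]; ring
  · have h' : Fin.last N ≠ l := fun h2 => h h2.symm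
    simp [h, h']
    ring

theorem quad_deriv (A B D : ℝ) : HasDerivAt (fun t : ℝ => A + t * B + t ^ 2 * D) B 0 := by
  have h := (((hasDerivAt_id' (0 : ℝ)).mul_const B).const_add A).fun_add
    ((hasDerivAt_pow 2 (0 : ℝ)).mul_const D)
  simpa using h

theorem diff_pv (P : MvPolynomial (Fin (N + 1)) ℝ) (x : Sp (N + 1)) :
    DifferentiableAt ℝ (pv P) x := by
  have h1 := (UC.Poly_contDiff P).differentiable (by norm_num)
  exact h1 x

theorem fderiv_ellP (k : Fin N) (η a w : ℝ) (x : Sp (N + 1)) (l : Fin (N + 1)) :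
    fderiv ℝ (pv (ellP k η a w)) x (EuclideanSpace.single l 1) =
      2 * x l + (if l = Fin.last N then 2 else 0) +
        (if l = k.castSucc then 2 * η * (x k.castSucc - a) else 0) := by
  have h1 := ((diff_pv (ellP k η a w) x).hasFDerivAt.hasLineDerivAt (EuclideanSpace.single l (1 : ℝ)))
  have h2 : (fun t : ℝ => pv (ellP k η a w) (x + t • EuclideanSpace.single l (1 : ℝ))) = fun t : ℝ =>
      pv (ellP k η a w) x + t * (2 * x l + (if l = Fin.last N then 2 else 0) +
        (if l = k.castSucc then 2 * η * (x k.castSucc - a) else 0)) +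
        t ^ 2 * (1 + if l = k.castSucc then η else 0) := by
    funext t
    rw [pv_ellP, pv_ellP, psi_line]
    by_cases h : l = k.castSucc
    · subst h
      simp
      ring
    · have h' : k.castSucc ≠ l := fun h2 => h h2.symm
      simp [h, h']
      ring
  unfold HasLineDerivAt at h1
  rw [h2] at h1
  have h3 : HasDerivAt (fun t : ℝ => pv (ellP k η a w) x + t * (2 * x l + (if l = Fin.last N then 2 else 0) +
        (if l = k.castSucc then 2 * η * (x k.castSucc - a) else 0)) +
        t ^ 2 * (1 + if l = k.castSucc then η else 0)) (2 * x l + (if l = Fin.last N then 2 else 0) +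
        (if l = k.castSucc then 2 * η * (x k.castSucc - a) else 0)) 0 := by
    exact quad_deriv _ _ _
  exact h1.unique h3

/-- The set where the polynomial is nonpositive is an ellipsoid. -/
theorem ell_eq (k : Fin N) (η a w : ℝ) (hη : 0 ≤ η) (ha : η * a ^ 2 < 1 + η) :
    ∃ ρ : ℝ, 0 < ρ ∧ {x : Sp (N + 1) | pv (ellP k η a w) x ≤ 0} =
      Ell (fun l => if l = k.castSucc then 1 + η else 1)
        (WithLp.toLp 2 fun l => if l = k.castSucc then η * a / (1 + η) else
          if l = Fin.last N then -1 else 0) ρ := by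
  have h1 : 0 < 1 + η := by linarith
  have h2 : 0 < 1 + η * w ^ 2 - η * a ^ 2 / (1 + η) := by
    have h3 : η * a ^ 2 / (1 + η) < 1 := by rwa [div_lt_one h1]
    have h4 : 0 ≤ η * w ^ 2 := by positivity
    linarith
  refine ⟨Real.sqrt (1 + η * w ^ 2 - η * a ^ 2 / (1 + η)), Real.sqrt_pos.2 h2, ?_⟩
  ext x
  simp only [Ell, Set.mem_setOf_eq]
  rw [Real.sq_sqrt h2.le, pv_ellP]
  have hkN : k.castSucc ≠ Fin.last N := (Fin.castSucc_lt_last k).ne
  have h5 : ∀ l : Fin (N + 1), (if l = k.castSucc then 1 + η else 1) *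
      (x l - (if l = k.castSucc then η * a / (1 + η) else if l = Fin.last N then -1 else 0)) ^ 2 =
      x l ^ 2 + ((if l = k.castSucc then η * x l ^ 2 - 2 * η * a * x l + η ^ 2 * a ^ 2 / (1 + η) else 0) +
        (if l = Fin.last N then 2 * x l + 1 else 0)) := by
    intro l
    by_cases h : l = k.castSucc
    · have h' : l ≠ Fin.last N := h ▸ hkN
      simp only [h, if_true, hkN, if_false]
      field_simp
      ring
    · by_cases h' : l = Fin.last N
      · simp only [h', hkN.symm, if_false, if_true]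
        ring
      · simp only [h, h', if_false]
        ring
  simp only [h5]
  rw [sum_add_distrib, sum_add_distrib, sum_ite_eq' univ k.castSucc, sum_ite_eq' univ (Fin.last N)]
  simp only [mem_univ, if_true, psi]
  have h6 : η * a ^ 2 / (1 + η) = η * a ^ 2 - η ^ 2 * a ^ 2 / (1 + η) := by
    field_simp
    ring
  rw [h6]
  constructor <;> intro h <;> nlinarith

theorem round_ellP (κ : ℝ) (hκ : 0 < κ) (k : Fin N) (η a w : ℝ) (hη : 0 ≤ η) (ha : η * a ^ 2 < 1 + η)
    (hκη : 2 * κ * (1 + η) ≤ 1) : IsRound κ {x : Sp (N + 1) | pv (ellP k η a w) x ≤ 0} := by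
  obtain ⟨ρ, hρ, h⟩ := ell_eq k η a w hη ha
  rw [h]
  refine ell_round κ (1 + η) ρ hκ hκη hρ _ _ fun l => ?_
  split_ifs
  · exact ⟨by linarith, le_rfl⟩
  · exact ⟨le_rfl, by linarith⟩

end KR
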