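import Pool.Agent.KR.B_Def

/-!
# KR, block B (lower bound): general position of the family

For n bodies: body 0 has η = 0 (the unit ball ψ ≤ 0), body i >= 1 has k = (i-1) mod N, a = 3 w ((i-1) div N),
η = e (k+1)/N, and w = 1/(4 (N+1) n).
-/

open Metric Finset MvPolynomial

namespace KR

open Pool.Agent.MP_5a1161_co

variable {N : ℕ}

/-- Width of the strips. -/
noncomputable def bw (N n : ℕ) : ℝ := 1 / (4 * (N + 1) * n)

/-- The coordinate of the body i. -/
def bk (hN : 1 ≤ N) {n : ℕ} (i : Fin n) : Fin N := ⟨(i.val - 1) % N, Nat.mod_lt _ hN⟩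

/-- The number of the strip of the body i. -/
def bj (N : ℕ) {n : ℕ} (i : Fin n) : ℕ := (i.val - 1) / N

/-- The parameter η of the body i. -/
noncomputable def bη (hN : 1 ≤ N) (e : ℝ) {n : ℕ} (i : Fin n) : ℝ :=
  if i.val = 0 then 0 else e * ((bk hN i).val + 1) / N

/-- The polynomial of the body i. -/
noncomputable def bP (hN : 1 ≤ N) (e : ℝ) {n : ℕ} (i : Fin n) : MvPolynomial (Fin (N + 1)) ℝ :=
  ellP (bk hN i) (bη hN e i) (3 * bw N n * bj N i) (bw N n)

/-- The family. -/
noncomputable def bD (hN : 1 ≤ N) (e : ℝ) (n : ℕ) (i : Fin n) : Desc (N + 1) 1 where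
  P _ := bP hN e i
  Φ σ := σ 0 ≤ 0

theorem bD_set (hN : 1 ≤ N) (e : ℝ) (n : ℕ) (i : Fin n) :
    (bD hN e n i).set = {x | pv (bP hN e i) x ≤ 0} := by
  ext x
  simp only [Desc.set, bD, Set.mem_setOf_eq]
  rw [← not_lt, ← not_lt]
  refine not_congr ?_
  constructor
  · intro h
    have h1 := SignType.pos_iff.1 h
    exact sign_eq_one_iff.1 h1
  · intro h
    rw [sign_pos h]
    decide

theorem bw_pos {n : ℕ} (hn : 0 < n) : 0 < bw N n := by
  unfold bw
  have : (0 : ℝ) < n := by exact_mod_cast hn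
  positivity

theorem bj_lt (hN : 1 ≤ N) {n : ℕ} (i : Fin n) : bj N i < n := by
  unfold bj
  have h1 : (i.val - 1) / N ≤ i.val - 1 := Nat.div_le_self _ _
  have := i.isLt
  omega

/-- The centres of the strips are small. -/
theorem ba_small (hN : 1 ≤ N) {n : ℕ} (i : Fin n) (t : ℝ) (ht : |t - 3 * bw N n * bj N i| ≤ bw N n) :
    |t| ≤ 1 / (N + 1) := by
  have hn : 0 < n := i.pos
  have hw := bw_pos (N := N) hn
  have h1 : (bj N i : ℝ) + 1 ≤ n := by exact_mod_cast bj_lt hN i
  have h2 : bw N n * n = 1 / (4 * (N + 1)) := by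
    unfold bw
    have : (n : ℝ) ≠ 0 := by exact_mod_cast hn.ne'
    field_simp
  have h3 : |t| ≤ |t - 3 * bw N n * bj N i| + |3 * bw N n * bj N i| := by
    have := abs_add_le (t - 3 * bw N n * bj N i) (3 * bw N n * bj N i)
    simpa using this
  have h4 : |3 * bw N n * bj N i| = 3 * bw N n * bj N i := abs_of_nonneg (by positivity)
  have h5 : |t| ≤ bw N n * (1 + 3 * bj N i) := by linarith
  have h6 : bw N n * (1 + 3 * bj N i) ≤ bw N n * (4 * n) := by
    refine mul_le_mul_of_nonneg_left ?_ hw.le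
    have : (0 : ℝ) ≤ bj N i := Nat.cast_nonneg _
    linarith
  have h7 : bw N n * (4 * n) = 1 / (N + 1) := by
    have : bw N n * (4 * n) = 4 * (bw N n * n) := by ring
    rw [this, h2]
    field_simp
  linarith

/-- Bodies with the same coordinate and the same strip are equal. -/
theorem bkj_inj (hN : 1 ≤ N) {n : ℕ} (i i' : Fin n) (hi : i.val ≠ 0) (hi' : i'.val ≠ 0)
    (hk : bk hN i = bk hN i') (hj : bj N i = bj N i') : i = i' := by
  have h1 : (i.val - 1) % N = (i'.val - 1) % N := congrArg Fin.val hk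
  have h2 : (i.val - 1) / N = (i'.val - 1) / N := hj
  have h3 := Nat.div_add_mod (i.val - 1) N
  have h4 := Nat.div_add_mod (i'.val - 1) N
  rw [h1, h2] at h3
  refine Fin.ext ?_
  omega

theorem bη_pos (hN : 1 ≤ N) {e : ℝ} (he : 0 < e) {n : ℕ} (i : Fin n) (hi : i.val ≠ 0) :
    0 < bη hN e i := by
  unfold bη
  rw [if_neg hi]
  have : (0 : ℝ) < N := by exact_mod_cast hN
  positivity

theorem bη_inj (hN : 1 ≤ N) {e : ℝ} (he : 0 < e) {n : ℕ} (i i' : Fin n) (hi : i.val ≠ 0)
    (hi' : i'.val ≠ 0) (h : bη hN e i = bη hN e i') : bk hN i = bk hN i' := by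
  unfold bη at h
  rw [if_neg hi, if_neg hi'] at h
  have hN0 : (0 : ℝ) < N := by exact_mod_cast hN
  have h1 : ((bk hN i).val : ℝ) = (bk hN i').val := by
    field_simp at h
    linarith
  exact Fin.ext (by exact_mod_cast h1)

theorem bη_nonneg (hN : 1 ≤ N) {e : ℝ} (he : 0 < e) {n : ℕ} (i : Fin n) : 0 ≤ bη hN e i := by
  by_cases hi : i.val = 0
  · unfold bη
    rw [if_pos hi]
  · exact (bη_pos hN he i hi).le

theorem bη_le (hN : 1 ≤ N) {e : ℝ} (he : 0 < e) {n : ℕ} (i : Fin n) : bη hN e i ≤ e := by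
  unfold bη
  have hN0 : (0 : ℝ) < N := by exact_mod_cast hN
  split_ifs
  · exact he.le
  · rw [div_le_iff₀ hN0]
    have h1 : ((bk hN i).val : ℝ) + 1 ≤ N := by exact_mod_cast (bk hN i).isLt
    exact mul_le_mul_of_nonneg_left h1 he.le

theorem pv_bP (hN : 1 ≤ N) (e : ℝ) {n : ℕ} (i : Fin n) (x : Sp (N + 1)) :
    pv (bP hN e i) x = psi x + bη hN e i * ((x (bk hN i).castSucc - 3 * bw N n * bj N i) ^ 2 - bw N n ^ 2) :=
  pv_ellP _ _ _ _ x

theorem psi_eq (x : Sp (N + 1)) : psi x = ∑ k : Fin N, x k.castSucc ^ 2 + (x (Fin.last N) + 1) ^ 2 - 1 := by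
  unfold psi
  rw [Fin.sum_univ_castSucc]
  ring

/-- General position: a linear relation between the gradients of the vanishing polynomials is trivial. -/
theorem gp_core (hN : 1 ≤ N) {e : ℝ} (he : 0 < e) {n : ℕ} (x : Sp (N + 1)) (hx : 0 ≤ psi x)
    (A : Finset (Fin n)) (hA : ∀ i ∈ A, pv (bP hN e i) x = 0) (c : Fin n → ℝ)
    (hc : ∀ l : Fin (N + 1), ∑ i ∈ A, c i * fderiv ℝ (pv (bP hN e i)) x (EuclideanSpace.single l 1) = 0) :
    ∀ i ∈ A, c i = 0 := by
  classical
  have hw : ∀ i : Fin n, 0 < bw N n := fun i => bw_pos i.pos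
  -- active bodies i >= 1 are close to their strips
  have hclose : ∀ i ∈ A, i.val ≠ 0 → |x (bk hN i).castSucc - 3 * bw N n * bj N i| ≤ bw N n := by
    intro i hi hi0
    have h1 := hA i hi
    rw [pv_bP] at h1
    have h2 := bη_pos hN he i hi0
    have h3 : (x (bk hN i).castSucc - 3 * bw N n * bj N i) ^ 2 ≤ bw N n ^ 2 := by
      by_contra hcon
      push Not at hcon
      have : 0 < bη hN e i * ((x (bk hN i).castSucc - 3 * bw N n * bj N i) ^ 2 - bw N n ^ 2) :=
        mul_pos h2 (by linarith)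
      linarith
    exact abs_le_of_sq_le_sq h3 (hw i).le
  have huniq : ∀ i ∈ A, ∀ i' ∈ A, i.val ≠ 0 → i'.val ≠ 0 → bk hN i = bk hN i' → i = i' := by
    intro i hi i' hi' h0 h0' hk
    refine bkj_inj hN i i' h0 h0' hk ?_
    have h1 := abs_le.1 (hclose i hi h0)
    have h2 := abs_le.1 (hclose i' hi' h0')
    rw [hk] at h1
    have hw' := hw i
    by_contra hne
    rcases Nat.lt_or_gt_of_ne hne with h | h
    · have h3 : (bj N i : ℝ) + 1 ≤ bj N i' := by exact_mod_cast h
      nlinarith
    · have h3 : (bj N i' : ℝ) + 1 ≤ bj N i := by exact_mod_cast h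
      nlinarith
  set L := ∑ i ∈ A, c i with hL
  have hcl : ∀ l : Fin (N + 1), L * (2 * x l + if l = Fin.last N then 2 else 0) +
      ∑ i ∈ A, (if l = (bk hN i).castSucc then c i * (2 * bη hN e i * (x (bk hN i).castSucc - 3 * bw N n * bj N i))
        else 0) = 0 := by
    intro l
    refine Eq.trans ?_ (hc l)
    rw [hL, sum_mul, ← sum_add_distrib]
    refine sum_congr rfl fun i _ => ?_
    unfold bP
    rw [fderiv_ellP, mul_add]
    split_ifs <;> ring
  have hlast : L * (2 * x (Fin.last N) + 2) = 0 := by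
    have h1 := hcl (Fin.last N)
    rw [if_pos rfl] at h1
    have h2 : ∀ i ∈ A, (if Fin.last N = (bk hN i).castSucc then
        c i * (2 * bη hN e i * (x (bk hN i).castSucc - 3 * bw N n * bj N i)) else 0) = 0 := fun i _ =>
      if_neg (Fin.castSucc_lt_last _).ne'
    rw [sum_congr rfl h2, sum_const_zero, add_zero] at h1
    exact h1
  have hLz : L = 0 := by
    by_contra hL0
    have hxN : x (Fin.last N) = -1 := by
      have := (mul_eq_zero.1 hlast).resolve_left hL0
      linarith
    have hbound : ∀ k : Fin N, x k.castSucc ^ 2 ≤ (1 / ((N : ℝ) + 1)) ^ 2 := by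
      intro k
      by_cases hk : ∃ i ∈ A, i.val ≠ 0 ∧ bk hN i = k
      · obtain ⟨i, hi, hi0, rfl⟩ := hk
        exact sq_le_sq' (by linarith [(abs_le.1 (ba_small hN i _ (hclose i hi hi0))).1])
          (abs_le.1 (ba_small hN i _ (hclose i hi hi0))).2
      · have h1 := hcl k.castSucc
        rw [if_neg (Fin.castSucc_lt_last k).ne, add_zero] at h1
        have h2 : ∀ i ∈ A, (if k.castSucc = (bk hN i).castSucc then
            c i * (2 * bη hN e i * (x (bk hN i).castSucc - 3 * bw N n * bj N i)) else 0) = 0 := by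
          intro i hi
          by_cases h3 : i.val = 0
          · have h4 : bη hN e i = 0 := by unfold bη; rw [if_pos h3]
            rw [h4]
            simp
          · rw [if_neg]
            intro h4
            exact hk ⟨i, hi, h3, (Fin.castSucc_injective N h4).symm⟩
        rw [sum_congr rfl h2, sum_const_zero, add_zero] at h1
        have h3 := (mul_eq_zero.1 h1).resolve_left hL0
        have h4 : x k.castSucc = 0 := by linarith
        rw [h4, zero_pow two_ne_zero]
        positivity
    have h1 : ∑ k : Fin N, x k.castSucc ^ 2 ≤ N * (1 / ((N : ℝ) + 1)) ^ 2 := by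
      refine (sum_le_sum fun k _ => hbound k).trans ?_
      simp
    have h2 : (N : ℝ) * (1 / ((N : ℝ) + 1)) ^ 2 < 1 := by
      have hN0 : (0 : ℝ) ≤ N := Nat.cast_nonneg _
      rw [div_pow, one_pow, mul_one_div, div_lt_one (by positivity)]
      nlinarith
    rw [psi_eq, hxN] at hx
    linarith
  -- now all c i (i >= 1) with nonzero displacement vanish
  have hzero : ∀ i ∈ A, i.val ≠ 0 → c i * (x (bk hN i).castSucc - 3 * bw N n * bj N i) = 0 := by
    intro i hi hi0
    have h1 := hcl (bk hN i).castSucc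
    rw [hLz, zero_mul, zero_add] at h1
    have h2 : ∑ i' ∈ A, (if (bk hN i).castSucc = (bk hN i').castSucc then
        c i' * (2 * bη hN e i' * (x (bk hN i').castSucc - 3 * bw N n * bj N i')) else 0) =
        c i * (2 * bη hN e i * (x (bk hN i).castSucc - 3 * bw N n * bj N i)) := by
      rw [sum_eq_single_of_mem i hi]
      · rw [if_pos rfl]
      · intro i' hi' hne
        by_cases h3 : i'.val = 0
        · have h4 : bη hN e i' = 0 := by unfold bη; rw [if_pos h3]
          rw [h4]
          simp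
        · rw [if_neg]
          intro h4
          exact hne (huniq i' hi' i hi h3 hi0 (Fin.castSucc_injective N h4).symm)
    rw [h2] at h1
    have h3 := bη_pos hN he i hi0
    have h4 : c i * (2 * bη hN e i * (x (bk hN i).castSucc - 3 * bw N n * bj N i)) =
        2 * bη hN e i * (c i * (x (bk hN i).castSucc - 3 * bw N n * bj N i)) := by ring
    rw [h4] at h1
    exact (mul_eq_zero.1 h1).resolve_left (by positivity)
  by_cases hstar : ∃ i ∈ A, i.val ≠ 0 ∧ x (bk hN i).castSucc - 3 * bw N n * bj N i = 0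
  · obtain ⟨i0, hi0, h0, hd⟩ := hstar
    have hpsi : psi x = bη hN e i0 * bw N n ^ 2 := by
      have h1 := hA i0 hi0
      rw [pv_bP, hd] at h1
      linarith
    have hothers : ∀ i ∈ A, i ≠ i0 → c i = 0 := by
      intro i hi hne
      have hi0' : i.val ≠ 0 := by
        intro h1
        have h2 := hA i hi
        rw [pv_bP] at h2
        have h4 : bη hN e i = 0 := by unfold bη; rw [if_pos h1]
        rw [h4, zero_mul, add_zero, hpsi] at h2
        have := mul_pos (bη_pos hN he i0 h0) (pow_pos (hw i0) 2)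
        linarith
      refine (mul_eq_zero.1 (hzero i hi hi0')).resolve_right fun h1 => hne ?_
      have h2 := hA i hi
      rw [pv_bP, h1, hpsi] at h2
      have h3 : bη hN e i = bη hN e i0 := by
        have h4 := pow_pos (hw i0) 2
        have h5 : (bη hN e i0 - bη hN e i) * bw N n ^ 2 = 0 := by linarith
        have := (mul_eq_zero.1 h5).resolve_right h4.ne'
        linarith
      exact huniq i hi i0 hi0 hi0' h0 (bη_inj hN he i i0 hi0' h0 h3)
    intro i hi
    by_cases hne : i = i0
    · subst hne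
      have h1 : L = c i := by
        rw [hL, sum_eq_single_of_mem i hi]
        exact fun i' hi' hne' => hothers i' hi' hne'
      rw [← h1, hLz]
    · exact hothers i hi hne
  · push Not at hstar
    have hpos : ∀ i ∈ A, i.val ≠ 0 → c i = 0 := fun i hi h0 =>
      (mul_eq_zero.1 (hzero i hi h0)).resolve_right (hstar i hi h0)
    intro i hi
    by_cases h0 : i.val = 0
    · have h1 : L = c i := by
        rw [hL, sum_eq_single_of_mem i hi]
        intro i' hi' hne
        refine hpos i' hi' fun h2 => hne (Fin.ext ?_)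
        rw [h2, h0]
      rw [← h1, hLz]
    · exact hpos i hi h0

end KR
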