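import Pool.Agent.KR.B_Main

/-!
# KR, block B (lower bound) for all s >= 1 and b >= 2

The description of a body is padded with constant polynomials.
-/

open Metric Finset MvPolynomial

namespace KR

open Pool.Agent.MP_5a1161_co

variable {N : ℕ}

/-- The family, each body described by s polynomials. -/
noncomputable def bE (hN : 1 ≤ N) (e : ℝ) (n s : ℕ) (hs : 0 < s) (i : Fin n) : Desc (N + 1) s where
  P j := if j = ⟨0, hs⟩ then bP hN e i else 1
  Φ σ := σ ⟨0, hs⟩ ≤ 0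

theorem pv_one (x : Sp (N + 1)) : pv (1 : MvPolynomial (Fin (N + 1)) ℝ) x = 1 := by
  simp [pv]

theorem bE_set (hN : 1 ≤ N) (e : ℝ) (n s : ℕ) (hs : 0 < s) (i : Fin n) :
    (bE hN e n s hs i).set = (bD hN e n i).set := by
  ext x
  simp only [Desc.set, bE, bD, Set.mem_setOf_eq, if_true]

theorem bE_Un (hN : 1 ≤ N) (e : ℝ) (n s : ℕ) (hs : 0 < s) :
    Un (bE hN e n s hs) = Un (bD hN e n) := by
  simp only [Un, bE_set]

theorem bE_act (hN : 1 ≤ N) (e : ℝ) (n s : ℕ) (hs : 0 < s) (x : Sp (N + 1)) (i : Fin n) (j : Fin s) :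
    (i, j) ∈ act (bE hN e n s hs) x ↔ j = ⟨0, hs⟩ ∧ (i, (0 : Fin 1)) ∈ act (bD hN e n) x := by
  simp only [act, Set.mem_setOf_eq, bE_set]
  constructor
  · rintro ⟨h1, h2⟩
    by_cases h : j = ⟨0, hs⟩
    · refine ⟨h, h1, ?_⟩
      simp only [bE, h, if_true] at h2
      exact h2
    · exfalso
      simp only [bE, h, if_false, pv_one] at h2
      exact one_ne_zero h2
  · rintro ⟨h, h1, h2⟩
    refine ⟨h1, ?_⟩
    simp only [bE, h, if_true]
    exact h2

theorem bE_P (hN : 1 ≤ N) (e : ℝ) (n s : ℕ) (hs : 0 < s) (i : Fin n) :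
    (bE hN e n s hs i).P ⟨0, hs⟩ = bP hN e i := by
  simp only [bE, if_true]

theorem regV_vxE (hN : 1 ≤ N) {e : ℝ} (he : 0 < e) {n : ℕ} (hn : N + 1 ≤ n) (s : ℕ) (hs : 0 < s)
    (J : Fin N → Fin ((n - 1) / N)) :
    RegV (bE hN e n s hs) (vT hN n J) (fun _ => ⟨0, hs⟩) (vx n J) := by
  have h := regV_vx hN he hn J
  refine ⟨h.card, fun i => ?_, fun i hi => ?_, fun i hi l' => ?_, ?_⟩
  · rw [bE_set]; exact h.mem i
  · rw [bE_set]; exact h.front i hi
  · constructor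
    · intro h1
      by_contra hne
      simp only [bE, hne, if_false, pv_one] at h1
      exact one_ne_zero h1
    · rintro rfl
      rw [bE_P]
      exact pv_zero_of_mem hN e J i hi
  · have h2 := h.indep
    simp only [bE_P]
    exact h2

theorem genPos_bE (hN : 1 ≤ N) {e : ℝ} (he : 0 < e) {n : ℕ} (hn : N + 1 ≤ n) (s : ℕ) (hs : 0 < s) :
    GenPos (bE hN e n s hs) := by
  intro x hx
  rw [bE_Un] at hx
  have h1 := genPos_bD hN he hn x hx
  have h2 : ∀ a : act (bE hN e n s hs) x, (a.1.1, (0 : Fin 1)) ∈ act (bD hN e n) x := fun a =>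
    ((bE_act hN e n s hs x a.1.1 a.1.2).1 a.2).2
  have h3 : ∀ a : act (bE hN e n s hs) x, a.1.2 = ⟨0, hs⟩ := fun a =>
    ((bE_act hN e n s hs x a.1.1 a.1.2).1 a.2).1
  have h4 := h1.comp (fun a : act (bE hN e n s hs) x => (⟨(a.1.1, 0), h2 a⟩ : act (bD hN e n) x))
    (fun a a' h => Subtype.ext (Prod.ext (congrArg (fun b => b.1.1) h) ((h3 a).trans (h3 a').symm)))
  have h5 : ∀ a : act (bE hN e n s hs) x, fderiv ℝ (pv ((bE hN e n s hs a.1.1).P a.1.2)) x =
      fderiv ℝ (pv ((bD hN e n a.1.1).P 0)) x := by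
    intro a
    rw [h3 a, bE_P]
    rfl
  simp only [h5]
  exact h4

/-- Block B: the lower bound for all s and b. -/
theorem u3_gen (N : ℕ) (hN : 1 ≤ N) (κ : ℝ) (hκ : 0 < κ) (hκ2 : κ < 1 / 2) (s b : ℕ) (hs : 1 ≤ s)
    (hb : 2 ≤ b) : ∃ c : ℝ, 0 < c ∧ ∀ n : ℕ, N + 1 ≤ n → ∃ D : Fin n → Desc (N + 1) s,
      RoundFam κ b D ∧ GenPos D ∧
      ∃ V : Finset (Sp (N + 1)), (∀ v ∈ V, ∃ T l, RegV D T l v) ∧ c * (n : ℝ) ^ N ≤ (V.card : ℝ) := by
  classical
  have he : 0 < 1 / (2 * κ) - 1 := by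
    rw [sub_pos, lt_div_iff₀ (by positivity)]
    linarith
  have hN0 : (0 : ℝ) < N := by exact_mod_cast hN
  refine ⟨(1 / (4 * N)) ^ N, by positivity, fun n hn => ⟨bE hN (1 / (2 * κ) - 1) n s hs,
    fun i => ⟨?_, fun l => ?_⟩, genPos_bE hN he hn s hs, univ.image (vx n), ?_, ?_⟩⟩
  · rw [bE_set]
    exact (round_bD hN κ hκ hκ2 n i).1
  · simp only [bE]
    split_ifs
    · exact ((round_bD hN κ hκ hκ2 n i).2 0).trans hb
    · rw [totalDegree_one]
      exact Nat.zero_le _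
  · intro v hv
    obtain ⟨J, -, rfl⟩ := mem_image.1 hv
    exact ⟨_, _, regV_vxE hN he hn s hs J⟩
  · rw [card_image_of_injective _ (vx_inj hN hn), card_univ, Fintype.card_fun, Fintype.card_fin,
      Fintype.card_fin, Nat.cast_pow, ← mul_pow]
    refine pow_le_pow_left₀ (by positivity) ?_ _
    have h1 : 1 ≤ (n - 1) / N := (Nat.le_div_iff_mul_le hN).2 (by omega)
    have h2 := Nat.div_add_mod (n - 1) N
    have h3 := Nat.mod_lt (n - 1) hN
    have h4 : n ≤ 4 * N * ((n - 1) / N) := by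
      have h5 : N * 1 ≤ N * ((n - 1) / N) := Nat.mul_le_mul_left N h1
      have h6 : 4 * N * ((n - 1) / N) = 4 * (N * ((n - 1) / N)) := by ring
      omega
    have h5 : (n : ℝ) ≤ 4 * N * (((n - 1) / N : ℕ) : ℝ) := by exact_mod_cast h4
    rw [div_mul_eq_mul_div, one_mul, div_le_iff₀ (by positivity)]
    linarith

end KR
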