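import Pool.Agent.KR.Defs

/-!
# KR (MP_5a1161_co): statements of the blocks
-/

open MvPolynomial Pool.Agent.MP_5a1161_co

namespace KR

/-- Block L (Theorem LC). -/
def LCStatement (N s b : ℕ) (κ ρ : ℝ) : Prop :=
  ∃ K C : ℝ, 0 < K ∧ 0 < C ∧ ∀ (ι : Type) [Fintype ι] [DecidableEq ι]
    (D : ι → Desc (N + 1) s), RoundFam κ b D →
    ∀ (V : Finset (Sp (N + 1))) (q : ℝ), 0 < q →
      (∀ v ∈ V, ∀ w ∈ V, dist v w ≤ q) →
      (∀ v ∈ V, ∃ T l, RegV D T l v ∧ ∃ i ∈ T, K * q ≤ Metric.diam (D i).set) →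
      (V.card : ℝ) ≤ C * (Fintype.card ι : ℝ) ^ ((N : ℝ) + ρ)

/-- Block S, (U1): the number of regular vertices (proved for N ≥ 1). -/
def U1Statement (N s b : ℕ) (κ ρ : ℝ) : Prop :=
  ∃ C : ℝ, 0 < C ∧ ∀ (ι : Type) [Fintype ι] [DecidableEq ι]
    (D : ι → Desc (N + 1) s), RoundFam κ b D →
    {v | ∃ T l, RegV D T l v}.Finite ∧
    ({v | ∃ T l, RegV D T l v}.ncard : ℝ) ≤ C * (Fintype.card ι : ℝ) ^ ((N : ℝ) + ρ)

/-- Block F, (U2): the number of faces of all dimensions in general position (N ≥ 1). -/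
def U2Statement (N s b : ℕ) (κ ρ : ℝ) : Prop :=
  ∃ C : ℝ, 0 < C ∧ ∀ (ι : Type) [Fintype ι] [DecidableEq ι]
    (D : ι → Desc (N + 1) s), RoundFam κ b D → GenPos D →
    (FineFaces D).Finite ∧ (Faces D).Finite ∧ (Faces D).ncard ≤ (FineFaces D).ncard ∧
    ((FineFaces D).ncard : ℝ) ≤ C * (Fintype.card ι : ℝ) ^ ((N : ℝ) + ρ)

/-- Regular vertices are faces (block F). -/
def VertFaceStatement (N s b : ℕ) (κ : ℝ) : Prop :=
  ∀ (ι : Type) [Fintype ι] [DecidableEq ι] (D : ι → Desc (N + 1) s), RoundFam κ b D →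
    ∀ T l v, RegV D T l v → {v} ∈ Faces D

/-- Block B, (U3): the lower bound, with one polynomial of degree 2 for each body
(N ≥ 1, 0 < kappa < 1/2). -/
def U3Statement (N : ℕ) (κ : ℝ) : Prop :=
  ∃ c : ℝ, 0 < c ∧ ∀ n : ℕ, N + 1 ≤ n → ∃ D : Fin n → Desc (N + 1) 1,
    RoundFam κ 2 D ∧ GenPos D ∧
    ∃ V : Finset (Sp (N + 1)), (∀ v ∈ V, ∃ T l, RegV D T l v) ∧ c * (n : ℝ) ^ N ≤ (V.card : ℝ)

end KR
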