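import Pool.Agent.KR.B_GP
import Pool.Agent.KR.Tops

/-!
# KR, block B (lower bound): the vertices of the example
-/

open Metric Finset MvPolynomial

namespace KR

open Pool.Agent.MP_5a1161_co

variable {N : ℕ}

/-- The k-th coordinate of the vertex J. -/
noncomputable def vc (n : ℕ) (J : Fin N → Fin ((n - 1) / N)) (k : Fin N) : ℝ :=
  3 * bw N n * (J k).val + bw N n

/-- The vertex J. -/
noncomputable def vx (n : ℕ) (J : Fin N → Fin ((n - 1) / N)) : Sp (N + 1) :=
  WithLp.toLp 2 (Fin.snoc (vc n J) (-1 + Real.sqrt (1 - ∑ k, vc n J k ^ 2)))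

theorem vx_castSucc (n : ℕ) (J : Fin N → Fin ((n - 1) / N)) (k : Fin N) :
    vx n J k.castSucc = vc n J k := by
  simp [vx]

theorem vx_last (n : ℕ) (J : Fin N → Fin ((n - 1) / N)) :
    vx n J (Fin.last N) = -1 + Real.sqrt (1 - ∑ k, vc n J k ^ 2) := by
  simp [vx]

theorem vJ_lt (hN : 1 ≤ N) {n : ℕ} (J : Fin N → Fin ((n - 1) / N)) (k : Fin N) :
    1 + k.val + N * (J k).val < n := by
  have h1 : (J k).val + 1 ≤ (n - 1) / N := (J k).isLt
  have h2 := Nat.mul_le_mul_left N h1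
  have h3 := Nat.mul_div_le (n - 1) N
  have h4 := k.isLt
  have h5 : N * ((J k).val + 1) = N * (J k).val + N := by ring
  omega

/-- The index of the body of the strip J k. -/
def vi (hN : 1 ≤ N) {n : ℕ} (J : Fin N → Fin ((n - 1) / N)) (k : Fin N) : Fin n :=
  ⟨1 + k.val + N * (J k).val, vJ_lt hN J k⟩

theorem bk_vi (hN : 1 ≤ N) {n : ℕ} (J : Fin N → Fin ((n - 1) / N)) (k : Fin N) :
    bk hN (vi hN J k) = k := by
  refine Fin.ext ?_
  show (1 + k.val + N * (J k).val - 1) % N = k.val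
  have h1 : 1 + k.val + N * (J k).val - 1 = k.val + N * (J k).val := by omega
  rw [h1, Nat.add_mul_mod_self_left, Nat.mod_eq_of_lt k.isLt]

theorem bj_vi (hN : 1 ≤ N) {n : ℕ} (J : Fin N → Fin ((n - 1) / N)) (k : Fin N) :
    bj N (vi hN J k) = (J k).val := by
  show (1 + k.val + N * (J k).val - 1) / N = (J k).val
  have h1 : 1 + k.val + N * (J k).val - 1 = k.val + N * (J k).val := by omega
  rw [h1, Nat.add_mul_div_left _ _ hN, Nat.div_eq_of_lt k.isLt, zero_add]

theorem vc_bound (hN : 1 ≤ N) {n : ℕ} (J : Fin N → Fin ((n - 1) / N)) (k : Fin N) :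
    vc n J k ^ 2 ≤ (1 / ((N : ℝ) + 1)) ^ 2 := by
  have h1 := ba_small hN (vi hN J k) (vc n J k) (by
    rw [bj_vi]
    unfold vc
    have := bw_pos (N := N) (vi hN J k).pos
    rw [add_sub_cancel_left, abs_of_pos this])
  exact sq_le_sq' (by linarith [(abs_le.1 h1).1]) (abs_le.1 h1).2

theorem vsum_lt (hN : 1 ≤ N) {n : ℕ} (J : Fin N → Fin ((n - 1) / N)) :
    ∑ k, vc n J k ^ 2 < 1 := by
  have h1 : ∑ k : Fin N, vc n J k ^ 2 ≤ N * (1 / ((N : ℝ) + 1)) ^ 2 := by
    refine (sum_le_sum fun k _ => vc_bound hN J k).trans ?_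
    simp
  have h2 : (N : ℝ) * (1 / ((N : ℝ) + 1)) ^ 2 < 1 := by
    have hN0 : (0 : ℝ) ≤ N := Nat.cast_nonneg _
    rw [div_pow, one_pow, mul_one_div, div_lt_one (by positivity)]
    nlinarith
  linarith

theorem psi_vx (hN : 1 ≤ N) {n : ℕ} (J : Fin N → Fin ((n - 1) / N)) : psi (vx n J) = 0 := by
  rw [psi_eq, vx_last]
  simp only [vx_castSucc]
  have h1 : (-1 + Real.sqrt (1 - ∑ k, vc n J k ^ 2) + 1) ^ 2 = 1 - ∑ k, vc n J k ^ 2 := by
    have h2 : -1 + Real.sqrt (1 - ∑ k, vc n J k ^ 2) + 1 = Real.sqrt (1 - ∑ k, vc n J k ^ 2) := by ring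
    rw [h2, Real.sq_sqrt (by linarith [vsum_lt hN J])]
  rw [h1]
  ring

theorem vx_last_gt (hN : 1 ≤ N) {n : ℕ} (J : Fin N → Fin ((n - 1) / N)) :
    -1 < vx n J (Fin.last N) := by
  rw [vx_last]
  have : 0 < Real.sqrt (1 - ∑ k, vc n J k ^ 2) := Real.sqrt_pos.2 (by linarith [vsum_lt hN J])
  linarith

open Classical in
/-- The bodies through the vertex J. -/
noncomputable def vT (hN : 1 ≤ N) (n : ℕ) (J : Fin N → Fin ((n - 1) / N)) : Finset (Fin n) :=
  univ.filter fun i => i.val = 0 ∨ (J (bk hN i)).val = bj N i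

theorem pv_zero_of_mem (hN : 1 ≤ N) (e : ℝ) {n : ℕ} (J : Fin N → Fin ((n - 1) / N)) (i : Fin n)
    (hi : i ∈ vT hN n J) : pv (bP hN e i) (vx n J) = 0 := by
  rw [pv_bP, psi_vx hN, vx_castSucc]
  rcases (mem_filter.1 hi).2 with h | h
  · have h4 : bη hN e i = 0 := by unfold bη; rw [if_pos h]
    rw [h4]
    ring
  · unfold vc
    rw [h]
    ring

theorem pv_pos_of_notMem (hN : 1 ≤ N) {e : ℝ} (he : 0 < e) {n : ℕ} (J : Fin N → Fin ((n - 1) / N))
    (i : Fin n) (hi : i ∉ vT hN n J) : 0 < pv (bP hN e i) (vx n J) := by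
  have h0 : ¬ (i.val = 0 ∨ (J (bk hN i)).val = bj N i) := fun h => hi (mem_filter.2 ⟨mem_univ _, h⟩)
  push Not at h0
  have hw := bw_pos (N := N) i.pos
  rw [pv_bP, psi_vx hN, vx_castSucc, zero_add]
  refine mul_pos (bη_pos hN he i h0.1) ?_
  have h1 : vc n J (bk hN i) - 3 * bw N n * bj N i =
      bw N n * (3 * (((J (bk hN i)).val : ℝ) - bj N i) + 1) := by
    unfold vc; ring
  rw [h1, mul_pow]
  have h2 : 1 < (3 * (((J (bk hN i)).val : ℝ) - bj N i) + 1) ^ 2 := by
    rcases Nat.lt_or_gt_of_ne h0.2 with h | h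
    · have h3 : (((J (bk hN i)).val : ℝ)) + 1 ≤ bj N i := by exact_mod_cast h
      nlinarith
    · have h3 : (bj N i : ℝ) + 1 ≤ (J (bk hN i)).val := by exact_mod_cast h
      nlinarith
  have h3 := pow_pos hw 2
  nlinarith

/-- A zero of the polynomial above the equator is a boundary point. -/
theorem front_of_zero (hN : 1 ≤ N) {e : ℝ} (he : 0 < e) {n : ℕ} (i : Fin n) (x : Sp (N + 1))
    (hx : -1 < x (Fin.last N)) (h0 : pv (bP hN e i) x = 0) : x ∈ frontier (bD hN e n i).set := by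
  rw [bD_set]
  refine ⟨subset_closure h0.le, fun hint => ?_⟩
  have h1 : Filter.Tendsto (fun t : ℝ => x + t • EuclideanSpace.single (Fin.last N) (1 : ℝ))
      (nhdsWithin 0 (Set.Ioi 0)) (nhds x) := by
    have h2 : Continuous fun t : ℝ => x + t • EuclideanSpace.single (Fin.last N) (1 : ℝ) := by fun_prop
    have h3 := (h2.tendsto 0).mono_left (nhdsWithin_le_nhds (s := Set.Ioi (0 : ℝ)))
    simpa using h3
  have h2 := h1.eventually (mem_interior_iff_mem_nhds.1 hint)
  obtain ⟨t, ht1, ht2⟩ := (h2.and self_mem_nhdsWithin).exists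
  have ht2' : 0 < t := ht2
  have ht1' : pv (bP hN e i) (x + t • EuclideanSpace.single (Fin.last N) (1 : ℝ)) ≤ 0 := ht1
  rw [pv_bP, psi_line] at ht1'
  rw [pv_bP] at h0
  have hne : (bk hN i).castSucc ≠ Fin.last N := (Fin.castSucc_lt_last _).ne
  have h3 : (x + t • EuclideanSpace.single (Fin.last N) (1 : ℝ)) (bk hN i).castSucc =
      x (bk hN i).castSucc := by simp [hne]
  rw [h3, if_pos rfl] at ht1'
  nlinarith [mul_pos ht2' (by linarith : 0 < 2 * x (Fin.last N) + 2), sq_nonneg t]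

theorem card_vT (hN : 1 ≤ N) {n : ℕ} (hn : N + 1 ≤ n) (J : Fin N → Fin ((n - 1) / N)) :
    (vT hN n J).card = N + 1 := by
  classical
  have hn0 : 0 < n := by omega
  have hinj : Function.Injective fun o : Option (Fin N) => (o.elim (⟨0, hn0⟩ : Fin n) (vi hN J)) := by
    intro o o' h
    rcases o with _ | k <;> rcases o' with _ | k'
    · rfl
    · exfalso
      have h1 : (0 : ℕ) = 1 + k'.val + N * (J k').val := congrArg Fin.val h
      omega
    · exfalso
      have h1 : 1 + k.val + N * (J k).val = (0 : ℕ) := congrArg Fin.val h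
      omega
    · have h1 : vi hN J k = vi hN J k' := h
      have h2 := congrArg (bk hN) h1
      rw [bk_vi, bk_vi] at h2
      rw [h2]
  have h1 : vT hN n J = univ.image fun o : Option (Fin N) => (o.elim (⟨0, hn0⟩ : Fin n) (vi hN J)) := by
    ext i
    rw [mem_image]
    constructor
    · intro hi
      by_cases h0 : i.val = 0
      · exact ⟨none, mem_univ _, Fin.ext h0.symm⟩
      · have h2 := (mem_filter.1 hi).2.resolve_left h0
        refine ⟨some (bk hN i), mem_univ _, ?_⟩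
        refine bkj_inj hN _ _ ?_ h0 (bk_vi hN J _) ?_
        · show 1 + (bk hN i).val + N * (J (bk hN i)).val ≠ 0
          omega
        · show bj N (vi hN J (bk hN i)) = bj N i
          rw [bj_vi, h2]
    · rintro ⟨o, -, rfl⟩
      refine mem_filter.2 ⟨mem_univ _, ?_⟩
      rcases o with _ | k
      · exact Or.inl rfl
      · refine Or.inr ?_
        show (J (bk hN (vi hN J k))).val = bj N (vi hN J k)
        rw [bk_vi, bj_vi]
  rw [h1, card_image_of_injective _ hinj, card_univ, Fintype.card_option, Fintype.card_fin]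

theorem regV_vx (hN : 1 ≤ N) {e : ℝ} (he : 0 < e) {n : ℕ} (hn : N + 1 ≤ n)
    (J : Fin N → Fin ((n - 1) / N)) : RegV (bD hN e n) (vT hN n J) (fun _ => 0) (vx n J) where
  card := card_vT hN hn J
  mem i := by
    rw [bD_set]
    constructor
    · intro h
      by_contra hcon
      exact absurd h (not_le.2 (pv_pos_of_notMem hN he J i hcon))
    · intro h
      exact (pv_zero_of_mem hN e J i h).le
  front i hi := front_of_zero hN he i _ (vx_last_gt hN J) (pv_zero_of_mem hN e J i hi)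
  zero i hi l' := ⟨fun _ => Subsingleton.elim _ _, fun _ => pv_zero_of_mem hN e J i hi⟩
  indep := by
    classical
    rw [Fintype.linearIndependent_iff]
    intro g hg
    have h1 := gp_core hN he (vx n J) (psi_vx hN J).ge (vT hN n J)
      (fun i hi => pv_zero_of_mem hN e J i hi) (fun i => if h : i ∈ vT hN n J then g ⟨i, h⟩ else 0) (by
        intro l
        rw [← sum_coe_sort]
        have h2 := congrArg (fun L : Sp (N + 1) →L[ℝ] ℝ => L (EuclideanSpace.single l 1)) hg
        simp only [ContinuousLinearMap.sum_apply, ContinuousLinearMap.smul_apply, smul_eq_mul,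
          ContinuousLinearMap.zero_apply] at h2
        rw [← h2]
        refine sum_congr rfl fun i _ => ?_
        rw [dif_pos i.2]
        rfl)
    intro i
    have h2 := h1 i.1 i.2
    rwa [dif_pos i.2] at h2

theorem psi_cont : Continuous (psi (N := N)) := by
  unfold psi
  fun_prop

theorem genPos_bD (hN : 1 ≤ N) {e : ℝ} (he : 0 < e) {n : ℕ} (hn : N + 1 ≤ n) :
    GenPos (bD hN e n) := by
  classical
  intro x hx
  have hn0 : 0 < n := by omega
  have hpsi : 0 ≤ psi x := by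
    by_contra hneg
    push Not at hneg
    refine hx.2 ?_
    have h1 : IsOpen {y : Sp (N + 1) | psi y < 0} := isOpen_lt psi_cont continuous_const
    refine mem_interior.2 ⟨_, fun y hy => ?_, h1, hneg⟩
    refine Set.mem_iUnion.2 ⟨⟨0, hn0⟩, ?_⟩
    rw [bD_set]
    show pv (bP hN e ⟨0, hn0⟩) y ≤ 0
    rw [pv_bP]
    have h4 : bη hN e (⟨0, hn0⟩ : Fin n) = 0 := by unfold bη; rw [if_pos rfl]
    rw [h4, zero_mul, add_zero]
    exact le_of_lt hy
  rw [Fintype.linearIndependent_iff]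
  intro g hg
  have h1 := gp_core hN he x hpsi (univ.filter fun i => (i, (0 : Fin 1)) ∈ act (bD hN e n) x)
    (fun i hi => (mem_filter.1 hi).2.2)
    (fun i => if h : (i, (0 : Fin 1)) ∈ act (bD hN e n) x then g ⟨(i, 0), h⟩ else 0) (by
      intro l
      have h2 := congrArg (fun L : Sp (N + 1) →L[ℝ] ℝ => L (EuclideanSpace.single l 1)) hg
      simp only [ContinuousLinearMap.sum_apply, ContinuousLinearMap.smul_apply, smul_eq_mul,
        ContinuousLinearMap.zero_apply] at h2
      refine Eq.trans ?_ h2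
      refine sum_bij' (fun i hi => (⟨(i, 0), (mem_filter.1 hi).2⟩ : act (bD hN e n) x))
        (fun a _ => a.1.1) (fun _ _ => mem_univ _) (fun a _ => ?_) (fun _ _ => rfl) (fun a _ => ?_)
        (fun i hi => ?_)
      · refine mem_filter.2 ⟨mem_univ _, ?_⟩
        have h3 : ((a.1.1, (0 : Fin 1)) : Fin n × Fin 1) = a.1 :=
          Prod.ext rfl (Subsingleton.elim _ _)
        rw [h3]
        exact a.2
      · exact Subtype.ext (Prod.ext rfl (Subsingleton.elim _ _))
      · rw [dif_pos (mem_filter.1 hi).2]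
        rfl)
  intro a
  have h3 : ((a.1.1, (0 : Fin 1)) : Fin n × Fin 1) = a.1 := Prod.ext rfl (Subsingleton.elim _ _)
  have h4 : (a.1.1, (0 : Fin 1)) ∈ act (bD hN e n) x := by rw [h3]; exact a.2
  have h2 := h1 a.1.1 (mem_filter.2 ⟨mem_univ _, h4⟩)
  rw [dif_pos h4] at h2
  rw [← h2]
  congr 1
  exact Subtype.ext h3.symm

theorem round_bD (hN : 1 ≤ N) (κ : ℝ) (hκ : 0 < κ) (hκ2 : κ < 1 / 2) (n : ℕ) :
    RoundFam κ 2 (bD hN (1 / (2 * κ) - 1) n) := by
  have he : 0 < 1 / (2 * κ) - 1 := by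
    rw [sub_pos, lt_div_iff₀ (by positivity)]
    linarith
  intro i
  refine ⟨?_, fun l => ellP_deg _ _ _ _⟩
  rw [bD_set]
  have h1 := bη_le hN he i
  have h0 := bη_nonneg hN he i
  refine round_ellP κ hκ _ _ _ _ h0 ?_ ?_
  · have h2 := ba_small hN i (3 * bw N n * bj N i) (by
      rw [sub_self, abs_zero]
      exact (bw_pos i.pos).le)
    have hN0 : (0 : ℝ) ≤ N := Nat.cast_nonneg _
    have h3 : 1 / ((N : ℝ) + 1) ≤ 1 := by
      rw [div_le_one (by positivity)]
      linarith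
    have h4 : (3 * bw N n * (bj N i : ℝ)) ^ 2 ≤ 1 := by
      have h5 := abs_le.1 (h2.trans h3)
      nlinarith
    nlinarith
  · calc 2 * κ * (1 + bη hN (1 / (2 * κ) - 1) i) ≤ 2 * κ * (1 + (1 / (2 * κ) - 1)) := by gcongr
      _ = 1 := by field_simp; ring

theorem vx_inj (hN : 1 ≤ N) {n : ℕ} (hn : N + 1 ≤ n) :
    Function.Injective (vx (N := N) n) := by
  intro J J' h
  funext k
  have h1 := congrArg (fun x : Sp (N + 1) => x k.castSucc) h
  simp only [vx_castSucc] at h1
  unfold vc at h1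
  have hw := bw_pos (N := N) (n := n) (by omega)
  have h2 : ((J k).val : ℝ) = (J' k).val := by
    have h3 : 3 * bw N n * ((J k).val : ℝ) = 3 * bw N n * (J' k).val := by linarith
    exact mul_left_cancel₀ (by positivity) h3
  exact Fin.ext (by exact_mod_cast h2)

/-- Block B: the lower bound. -/
theorem u3 (N : ℕ) (hN : 1 ≤ N) (κ : ℝ) (hκ : 0 < κ) (hκ2 : κ < 1 / 2) : U3Statement N κ := by
  classical
  have he : 0 < 1 / (2 * κ) - 1 := by
    rw [sub_pos, lt_div_iff₀ (by positivity)]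
    linarith
  have hN0 : (0 : ℝ) < N := by exact_mod_cast hN
  refine ⟨(1 / (4 * N)) ^ N, by positivity, fun n hn => ⟨bD hN (1 / (2 * κ) - 1) n,
    round_bD hN κ hκ hκ2 n, genPos_bD hN he hn, univ.image (vx n), ?_, ?_⟩⟩
  · intro v hv
    obtain ⟨J, -, rfl⟩ := mem_image.1 hv
    exact ⟨_, _, regV_vx hN he hn J⟩
  · rw [card_image_of_injective _ (vx_inj hN hn), card_univ, Fintype.card_fun, Fintype.card_fin,
      Fintype.card_fin, Nat.cast_pow, ← mul_pow]
    refine pow_le_pow_left₀ (by positivity) ?_ _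
    have h1 : 1 ≤ (n - 1) / N := (Nat.le_div_iff_mul_le hN).2 (by omega)
    have h2 := Nat.div_add_mod (n - 1) N
    have h3 := Nat.mod_lt (n - 1) hN
    have h4 : n ≤ 4 * N * ((n - 1) / N) := by
      have h5 : N * 1 ≤ N * ((n - 1) / N) := Nat.mul_le_mul_left N h1
      have h6 : 4 * N * ((n - 1) / N) = 4 * (N * ((n - 1) / N)) := by ring
      omega
    have h5 : (n : ℝ) ≤ 4 * N * (((n - 1) / N : ℕ) : ℝ) := by exact_mod_cast h4
    rw [div_mul_eq_mul_div, one_mul, div_le_iff₀ (by positivity)]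
    linarith

end KR
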