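import Pool.Agent.KR.Defs

/-!
# KR, block B (lower bound): ellipsoids close to a ball are round
-/

open Metric Finset

namespace KR

open Pool.Agent.MP_5a1161_co

/-- The solid ellipsoid with centre z. -/
def Ell {d : ℕ} (α : Fin d → ℝ) (z : Sp d) (ρ : ℝ) : Set (Sp d) :=
  {x | ∑ l, α l * (x l - z l) ^ 2 ≤ ρ ^ 2}

theorem ell_round {d : ℕ} (κ M ρ : ℝ) (hκ : 0 < κ) (hκM : 2 * κ * M ≤ 1) (hρ : 0 < ρ)
    (α : Fin d → ℝ) (z : Sp d) (hα : ∀ l, 1 ≤ α l ∧ α l ≤ M) : IsRound κ (Ell α z ρ) := by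
  have hcont : Continuous fun x : Sp d => ∑ l, α l * (x l - z l) ^ 2 := by fun_prop
  have hsub : Ell α z ρ ⊆ closedBall z ρ := by
    intro x hx
    rw [mem_closedBall, EuclideanSpace.dist_eq]
    refine Real.sqrt_le_iff.2 ⟨hρ.le, le_trans ?_ hx⟩
    refine sum_le_sum fun l _ => ?_
    rw [Real.dist_eq, sq_abs]
    nlinarith [sq_nonneg (x l - z l), (hα l).1]
  have hclosed : IsClosed (Ell α z ρ) := isClosed_le hcont continuous_const
  have hopen : IsOpen {x : Sp d | ∑ l, α l * (x l - z l) ^ 2 < ρ ^ 2} :=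
    isOpen_lt hcont continuous_const
  have hint : {x : Sp d | ∑ l, α l * (x l - z l) ^ 2 < ρ ^ 2} ⊆ interior (Ell α z ρ) :=
    interior_maximal (fun x (hx : ∑ l, α l * (x l - z l) ^ 2 < ρ ^ 2) =>
      (le_of_lt hx : ∑ l, α l * (x l - z l) ^ 2 ≤ ρ ^ 2)) hopen
  have hdiam : diam (Ell α z ρ) ≤ 2 * ρ :=
    (diam_mono hsub isBounded_closedBall).trans (diam_closedBall hρ.le)
  refine ⟨isCompact_of_isClosed_isBounded hclosed (isBounded_closedBall.subset hsub),
    ⟨z, hint ?_⟩, fun p hp => ?_⟩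
  · simp only [Set.mem_setOf_eq, sub_self]
    norm_num
    positivity
  have hp1 : p ∈ Ell α z ρ := hclosed.frontier_subset hp
  have hp2 : ∑ l, α l * (p l - z l) ^ 2 = ρ ^ 2 := by
    refine le_antisymm hp1 (not_lt.1 fun hlt => ?_)
    exact hp.2 (hint hlt)
  obtain ⟨g, hg⟩ : ∃ g : Sp d, ∀ l, g l = α l * (p l - z l) :=
    ⟨WithLp.toLp 2 fun l => α l * (p l - z l), fun l => rfl⟩
  have hgn : ρ ≤ ‖g‖ := by
    rw [EuclideanSpace.norm_eq]
    refine Real.le_sqrt_of_sq_le ?_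
    rw [← hp2]
    refine sum_le_sum fun l _ => ?_
    rw [hg, Real.norm_eq_abs, sq_abs, mul_pow]
    have h1 := (hα l).1
    nlinarith [sq_nonneg (p l - z l), mul_nonneg (mul_nonneg (by linarith : 0 ≤ α l) (by linarith : 0 ≤ α l - 1)) (sq_nonneg (p l - z l))]
  have hg0 : 0 < ‖g‖ := hρ.trans_le hgn
  obtain ⟨r, hr⟩ : ∃ r, r = κ * diam (Ell α z ρ) := ⟨_, rfl⟩
  have hr0 : 0 ≤ r := by rw [hr]; exact mul_nonneg hκ.le diam_nonneg
  have hM0 : 0 ≤ M := by
    by_contra hneg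
    push Not at hneg
    rcases isEmpty_or_nonempty (Fin d) with h | ⟨⟨l⟩⟩
    · have h1 : ‖g‖ = 0 := by
        rw [EuclideanSpace.norm_eq]
        simp
      linarith
    · linarith [(hα l).1, (hα l).2]
  have hMr : M * r ≤ ‖g‖ := by
    have h1 : r ≤ κ * (2 * ρ) := by rw [hr]; exact mul_le_mul_of_nonneg_left hdiam hκ.le
    calc M * r ≤ M * (κ * (2 * ρ)) := mul_le_mul_of_nonneg_left h1 hM0
      _ = (2 * κ * M) * ρ := by ring
      _ ≤ 1 * ρ := mul_le_mul_of_nonneg_right hκM hρ.le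
      _ ≤ ‖g‖ := by rwa [one_mul]
  rw [← hr]
  refine ⟨p - (r / ‖g‖) • g, ?_, fun x hx => ?_⟩
  · rw [mem_closedBall, dist_eq_norm, sub_sub_cancel, norm_smul, Real.norm_of_nonneg (by positivity),
      div_mul_cancel₀ _ hg0.ne']
  · rw [mem_closedBall, dist_eq_norm] at hx
    obtain ⟨u, hu⟩ : ∃ u : Sp d, u = x - p := ⟨_, rfl⟩
    have h1 : x - (p - (r / ‖g‖) • g) = u + (r / ‖g‖) • g := by rw [hu]; abel
    rw [h1] at hx
    have h2 : ‖u‖ ^ 2 + 2 * (r / ‖g‖) * inner ℝ u g ≤ 0 := by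
      have h3 := pow_le_pow_left₀ (norm_nonneg _) hx 2
      rw [norm_add_sq_real, inner_smul_right, norm_smul, Real.norm_of_nonneg (by positivity),
        div_mul_cancel₀ _ hg0.ne'] at h3
      linarith
    have h4 : inner ℝ u g ≤ 0 := by
      rcases hr0.eq_or_lt with h5 | h5
      · rw [← h5, zero_div, mul_zero, zero_mul, add_zero] at h2
        have h6 : ‖u‖ = 0 := by nlinarith [norm_nonneg u]
        rw [norm_eq_zero.1 h6, inner_zero_left]
      · by_contra hneg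
        push Not at hneg
        have h6 : 0 < 2 * (r / ‖g‖) * inner ℝ u g := by positivity
        nlinarith [sq_nonneg ‖u‖]
    have h5 : M * ‖u‖ ^ 2 ≤ - (2 * inner ℝ u g) := by
      have h6 : M * ‖u‖ ^ 2 ≤ M * (- (2 * (r / ‖g‖) * inner ℝ u g)) :=
        mul_le_mul_of_nonneg_left (by linarith) hM0
      have h7 : M * (r / ‖g‖) ≤ 1 := by
        rw [← mul_div_assoc, div_le_one hg0]
        exact hMr
      nlinarith
    have h6 : ∑ l, α l * (x l - z l) ^ 2 = ρ ^ 2 + 2 * inner ℝ u g + ∑ l, α l * (u l) ^ 2 := by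
      rw [← hp2, PiLp.inner_apply, mul_sum, ← sum_add_distrib, ← sum_add_distrib]
      refine sum_congr rfl fun l _ => ?_
      have h7 : u l = x l - p l := by rw [hu]; rfl
      rw [hg]
      simp only [RCLike.inner_apply, conj_trivial]
      rw [h7]
      ring
    have h7 : ∑ l, α l * (u l) ^ 2 ≤ M * ‖u‖ ^ 2 := by
      rw [EuclideanSpace.norm_eq, Real.sq_sqrt (by positivity), mul_sum]
      refine sum_le_sum fun l _ => ?_
      rw [Real.norm_eq_abs, sq_abs]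
      exact mul_le_mul_of_nonneg_right (hα l).2 (sq_nonneg _)
    show ∑ l, α l * (x l - z l) ^ 2 ≤ ρ ^ 2
    rw [h6]
    linarith

end KR
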