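import Pool.Agent.Lib.MP_5a1161_co_h27.Defs

/-!
# KR (MP_5a1161_co): definitions

Descriptions, regular vertices, general position, faces of the union.
-/

open MvPolynomial Pool.Agent.MP_5a1161_co

namespace KR

/-- The value of a polynomial at a point of Euclidean space. -/
noncomputable def pv {d : ℕ} (Q : MvPolynomial (Fin d) ℝ) (x : Sp d) : ℝ :=
  eval (fun i => x i) Q

/-- A description: s polynomials in d variables and a predicate on the vectors of their signs. -/
structure Desc (d s : ℕ) where
  P : Fin s → MvPolynomial (Fin d) ℝ
  Φ : (Fin s → SignType) → Prop

/-- The set described by D. -/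
def Desc.set {d s : ℕ} (D : Desc d s) : Set (Sp d) :=
  {x | D.Φ fun j => SignType.sign (pv (D.P j) x)}

/-- The union of a family. -/
def Un {ι : Type} {d s : ℕ} (D : ι → Desc d s) : Set (Sp d) := ⋃ i, (D i).set

/-- The point x is a regular vertex: it lies in exactly d bodies of the family, those with index
in T; it is on the boundary of each of them; exactly one of the polynomials describing the body i,
the polynomial number l i, vanishes at x; and the gradients of these d polynomials are linearly
independent. -/
structure RegV {ι : Type} {d s : ℕ} (D : ι → Desc d s) (T : Finset ι) (l : ι → Fin s)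
    (x : Sp d) : Prop where
  card : T.card = d
  mem : ∀ i, x ∈ (D i).set ↔ i ∈ T
  front : ∀ i ∈ T, x ∈ frontier (D i).set
  zero : ∀ i ∈ T, ∀ l', pv ((D i).P l') x = 0 ↔ l' = l i
  indep : LinearIndependent ℝ fun i : T => fderiv ℝ (pv ((D i.1).P (l i.1))) x

/-- The pairs (i,l) such that x is on the boundary of the body i and the polynomial number l of
its description vanishes at x. -/
def act {ι : Type} {d s : ℕ} (D : ι → Desc d s) (x : Sp d) : Set (ι × Fin s) :=
  {a | x ∈ frontier (D a.1).set ∧ pv ((D a.1).P a.2) x = 0}

/-- General position: at every point x of the boundary of the union the gradients of the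
polynomials of act D x are linearly independent. -/
def GenPos {ι : Type} {d s : ℕ} (D : ι → Desc d s) : Prop :=
  ∀ x ∈ frontier (Un D), LinearIndependent ℝ
    fun a : act D x => fderiv ℝ (pv ((D a.1.1).P a.1.2)) x

/-- The set of the bodies that have x on their boundary. -/
def bdl {ι : Type} {d s : ℕ} (D : ι → Desc d s) (x : Sp d) : Set ι :=
  {i | x ∈ frontier (D i).set}

/-- The faces of the arrangement of the boundaries that lie on the boundary of the union: the
connected components of the sets of the points of the boundary of the union that are on exactly
the same boundaries. -/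
def Faces {ι : Type} {d s : ℕ} (D : ι → Desc d s) : Set (Set (Sp d)) :=
  {f | ∃ x ∈ frontier (Un D),
    f = connectedComponentIn {y | y ∈ frontier (Un D) ∧ bdl D y = bdl D x} x}

/-- The faces of the finer subdivision of the boundary of the union by the zero sets of the
describing polynomials: reflex edges and corners of one body are separate faces. -/
def FineFaces {ι : Type} {d s : ℕ} (D : ι → Desc d s) : Set (Set (Sp d)) :=
  {f | ∃ x ∈ frontier (Un D),
    f = connectedComponentIn {y | y ∈ frontier (Un D) ∧ act D y = act D x} x}

/-- All members of the family are kappa-round bodies described by polynomials of degree at most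
b. -/
def RoundFam {ι : Type} {d s : ℕ} (κ : ℝ) (b : ℕ) (D : ι → Desc d s) : Prop :=
  ∀ i, IsRound κ (D i).set ∧ ∀ l, ((D i).P l).totalDegree ≤ b

end KR
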