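import Mathlib

/-!
# KR block F: local sectors of independent functions

Near a point x at which the functions f_a (a in a finite type) vanish and have linearly independent
derivatives there are arbitrarily small open U such that for every sign vector σ (zero signs allowed) the
sector {y in U : sign (f_a y) = σ a for all a} is preconnected and has in its closure all the points of U at
which every nonzero f_a has the sign σ a.
-/

open Metric

namespace KR

theorem F_Chart_surj {E : Type*} [NormedAddCommGroup E] [NormedSpace ℝ E] {κ : Type} [Fintype κ]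
    (L : κ → (E →L[ℝ] ℝ)) (hL : LinearIndependent ℝ L) :
    Function.Surjective (ContinuousLinearMap.pi L) := by
  classical
  rw [← ContinuousLinearMap.coe_coe, ← LinearMap.range_eq_top]
  by_contra hne
  obtain ⟨ψ, hψ0, hψ⟩ := Submodule.exists_le_ker_of_lt_top _ (lt_top_iff_ne_top.2 hne)
  have h1 : ∀ z : κ → ℝ, ψ z = ∑ i, z i * ψ (Pi.single i 1) := by
    intro z
    conv_lhs => rw [← Finset.univ_sum_single z]
    rw [map_sum]
    refine Finset.sum_congr rfl fun i _ => ?_
    have h2 : (Pi.single i (z i) : κ → ℝ) = z i • Pi.single i 1 := by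
      rw [← Pi.single_smul, smul_eq_mul, mul_one]
    rw [h2, map_smul, smul_eq_mul]
  have h3 : ∑ i, ψ (Pi.single i 1) • L i = 0 := by
    refine ContinuousLinearMap.ext fun p => ?_
    have h4 : ψ (fun i => L i p) = 0 := hψ ⟨p, rfl⟩
    rw [h1] at h4
    rw [_root_.sum_apply, zero_apply, ← h4]
    refine Finset.sum_congr rfl fun i _ => ?_
    rw [smul_apply, smul_eq_mul, mul_comm]
  have h5 := Fintype.linearIndependent_iff.1 hL _ h3
  refine hψ0 (LinearMap.ext fun z => ?_)
  rw [h1, LinearMap.zero_apply]
  exact Finset.sum_eq_zero fun i _ => by rw [h5 i, mul_zero]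

/-- The set of numbers of a given sign is convex. -/
theorem convex_sign (s : SignType) : Convex ℝ {t : ℝ | SignType.sign t = s} := by
  intro a ha b hb u v hu hv huv
  change SignType.sign a = s at ha
  change SignType.sign b = s at hb
  change SignType.sign (u * a + v * b) = s
  rcases s with _ | _ | _
  · have h1 : a = 0 := sign_eq_zero_iff.1 ha
    have h2 : b = 0 := sign_eq_zero_iff.1 hb
    rw [h1, h2, mul_zero, mul_zero, add_zero]
    exact sign_zero
  · have h1 : a < 0 := sign_eq_neg_one_iff.1 ha
    have h2 : b < 0 := sign_eq_neg_one_iff.1 hb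
    refine sign_eq_neg_one_iff.2 ?_
    rcases hu.eq_or_lt with h0 | h0
    · have h4 : v = 1 := by linarith
      rw [← h0, h4, zero_mul, one_mul, zero_add]
      exact h2
    · have h4 := mul_neg_of_pos_of_neg h0 h1
      have h5 := mul_nonpos_of_nonneg_of_nonpos hv h2.le
      linarith
  · have h1 : 0 < a := sign_eq_one_iff.1 ha
    have h2 : 0 < b := sign_eq_one_iff.1 hb
    refine sign_eq_one_iff.2 ?_
    rcases hu.eq_or_lt with h0 | h0
    · have h4 : v = 1 := by linarith
      rw [← h0, h4, zero_mul, one_mul, zero_add]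
      exact h2
    · have h4 := mul_pos h0 h1
      have h5 := mul_nonneg hv h2.le
      linarith

/-- Local sectors. -/
theorem chart {E : Type*} [NormedAddCommGroup E] [NormedSpace ℝ E] [CompleteSpace E]
    [FiniteDimensional ℝ E] {κ : Type} [Fintype κ] (f : κ → E → ℝ) (f' : κ → (E →L[ℝ] ℝ)) (x : E)
    (hf : ∀ a, HasStrictFDerivAt (f a) (f' a) x) (hli : LinearIndependent ℝ f')
    (hf0 : ∀ a, f a x = 0) (V : Set E) (hV : V ∈ nhds x) :
    ∃ U : Set E, IsOpen U ∧ x ∈ U ∧ U ⊆ V ∧ ∀ σ : κ → SignType,
      IsPreconnected {y | y ∈ U ∧ ∀ a, SignType.sign (f a y) = σ a} ∧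
      ∀ y ∈ U, (∀ a, f a y ≠ 0 → σ a = SignType.sign (f a y)) →
        y ∈ closure {z | z ∈ U ∧ ∀ a, SignType.sign (f a z) = σ a} := by
  classical
  set F : E → (κ → ℝ) := fun y i => f i y with hF
  set F' : E →L[ℝ] (κ → ℝ) := ContinuousLinearMap.pi f' with hF'
  have hFd : HasStrictFDerivAt F F' x := hasStrictFDerivAt_pi.2 fun i => hf i
  have hr : F'.range = ⊤ := LinearMap.range_eq_top.2 (F_Chart_surj f' hli)
  have hFx : F x = 0 := funext fun i => hf0 i
  set e := hFd.implicitToOpenPartialHomeomorph F F' hr with he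
  have e1 : ∀ y, (e y).1 = F y := fun y => hFd.implicitToOpenPartialHomeomorph_fst hr y
  have ex : e x = (0, 0) := by
    have h1 := hFd.implicitToOpenPartialHomeomorph_self hr
    rw [hFx] at h1
    exact h1
  have hxs : x ∈ e.source := hFd.mem_implicitToOpenPartialHomeomorph_source hr
  have hxt : ((0 : κ → ℝ), (0 : F'.ker)) ∈ e.target := by
    rw [← ex]
    exact e.map_source hxs
  have hsx : e.symm (0, 0) = x := by
    rw [← ex]
    exact e.left_inv hxs
  have hnh : e.target ∩ e.symm ⁻¹' V ∈ nhds ((0 : κ → ℝ), (0 : F'.ker)) := by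
    refine Filter.inter_mem (e.open_target.mem_nhds hxt) ?_
    refine (e.continuousAt_symm hxt).preimage_mem_nhds ?_
    rw [hsx]
    exact hV
  obtain ⟨ε, hε, hball⟩ := Metric.mem_nhds_iff.1 hnh
  refine ⟨e.source ∩ e ⁻¹' ball (0, 0) ε, e.isOpen_inter_preimage isOpen_ball,
    ⟨hxs, by
      change e x ∈ ball (0, 0) ε
      rw [ex]
      exact mem_ball_self hε⟩, ?_, ?_⟩
  · rintro y ⟨hy1, hy2⟩
    have h1 := (hball hy2).2
    change e.symm (e y) ∈ V at h1
    rwa [e.left_inv hy1] at h1
  · intro σ
    set Sct : Set E := {y | y ∈ e.source ∩ e ⁻¹' ball (0, 0) ε ∧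
      ∀ a, SignType.sign (f a y) = σ a} with hSct
    set C : Set ((κ → ℝ) × F'.ker) := {v | v ∈ ball (0, 0) ε ∧
      ∀ a, SignType.sign (v.1 a) = σ a} with hC
    have hCS : ∀ v ∈ C, e.symm v ∈ Sct := by
      intro v hv
      have h1 : v ∈ e.target := (hball hv.1).1
      have h2 : e (e.symm v) = v := e.right_inv h1
      have h3 : ∀ i, F (e.symm v) i = v.1 i := fun i => by rw [← e1, h2]
      refine ⟨⟨e.map_target h1, ?_⟩, fun a => ?_⟩
      · change e (e.symm v) ∈ ball (0, 0) ε
        rw [h2]
        exact hv.1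
      · have h4 : f a (e.symm v) = v.1 a := h3 a
        rw [h4]
        exact hv.2 a
    constructor
    · have hconv : Convex ℝ C := by
        intro a ha b hb s t hs ht hst
        refine ⟨(convex_ball _ _) ha.1 hb.1 hs ht hst, fun i => ?_⟩
        exact convex_sign (σ i) (ha.2 i) (hb.2 i) hs ht hst
      have himg : Sct = e.symm '' C := by
        refine Set.Subset.antisymm ?_ ?_
        · rintro y ⟨⟨hy1, hy2⟩, hy3⟩
          refine ⟨e y, ⟨hy2, fun a => ?_⟩, e.left_inv hy1⟩
          rw [e1]
          exact hy3 a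
        · rintro _ ⟨v, hv, rfl⟩
          exact hCS v hv
      rw [himg]
      exact hconv.isPreconnected.image _
        (e.continuousOn_symm.mono fun v hv => (hball hv.1).1)
    · rintro y ⟨hy1, hy2⟩ hy3
      have hw1 : ∀ a, (e y).1 a = f a y := fun a => by rw [e1]
      let u : κ → ℝ := fun a => ((σ a : SignType) : ℝ)
      let γ : ℝ → (κ → ℝ) × F'.ker := fun s =>
        e y + s • ((u, 0) : (κ → ℝ) × F'.ker)
      have hγc : Continuous γ := by
        change Continuous fun s : ℝ => e y + s • ((u, 0) : (κ → ℝ) × F'.ker)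
        fun_prop
      have hγ0 : γ 0 = e y := by
        change e y + (0 : ℝ) • _ = e y
        rw [zero_smul, add_zero]
      have hlim : Filter.Tendsto γ (nhdsWithin 0 (Set.Ioi 0)) (nhds (e y)) := by
        have h1 := hγc.tendsto 0
        rw [hγ0] at h1
        exact h1.mono_left nhdsWithin_le_nhds
      have hyt : e y ∈ e.target := e.map_source hy1
      have hlim2 : Filter.Tendsto (fun s => e.symm (γ s)) (nhdsWithin 0 (Set.Ioi 0))
          (nhds y) := by
        have h1 := (e.continuousAt_symm hyt).tendsto.comp hlim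
        rw [e.left_inv hy1] at h1
        exact h1
      refine mem_closure_of_tendsto hlim2 ?_
      have hb : ∀ᶠ s in nhdsWithin (0:ℝ) (Set.Ioi 0), γ s ∈ ball (0, 0) ε :=
        hlim.eventually (isOpen_ball.mem_nhds hy2)
      filter_upwards [hb, self_mem_nhdsWithin] with s hs hs0
      have hs0' : 0 < s := hs0
      refine hCS _ ⟨hs, fun a => ?_⟩
      change SignType.sign ((e y).1 a + s * u a) = σ a
      rw [hw1]
      by_cases h0 : f a y = 0
      · rw [h0, zero_add, sign_mul, sign_pos hs0', one_mul]
        change SignType.sign (((σ a : SignType) : ℝ)) = σ a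
        rcases σ a with _ | _ | _ <;> simp
      · have h1 := hy3 a h0
        change SignType.sign (f a y + s * ((σ a : SignType) : ℝ)) = σ a
        rcases lt_or_gt_of_ne h0 with h2 | h2
        · rw [sign_neg h2] at h1
          rw [h1]
          refine sign_neg ?_
          rw [SignType.coe_neg_one]
          linarith
        · rw [sign_pos h2] at h1
          rw [h1]
          refine sign_pos ?_
          rw [SignType.coe_one]
          linarith

end KR
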