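import Pool.Agent.KR.F_Defs
import Pool.Agent.KR.F_Chart

/-!
# KR, block F: model neighbourhoods
-/

set_option autoImplicit false

open MvPolynomial Pool.Agent.MP_5a1161_co

namespace KR

variable {d s : ℕ} {ι : Type}

/-- PROOF.  `V` = the set of `y` such that (1) for every `i` with `x ∉ frontier (D i).set`: `y` is
in the interior of `(D i).set` if `x` is, and `y ∉ (D i).set` otherwise (then `x` is not in the
closed set); (2) for all `i, l` with `P i l x ≠ 0`: `P i l y` has the same sign as `P i l x`.  `V`
is a neighbourhood of `x` (finitely many conditions, `pv_cont`).  Apply `chart` with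
`κ = act D x` (finite), `f a = pev (P a.1.1 a.1.2)`, `pv_strict`, `hli = hg`, to `interior V` or `V`.
`conn`, `clos`: `σ a` = the sign at `y`.  `memb`: if `x ∉ frontier (D i).set` both `y, z` are in the
body or both not, by (1).  If `x ∈ frontier (D i).set` the signs of all `P i l` agree at `y` and `z`
(by `Same` if `P i l x = 0`, by (2) otherwise), and membership is `Φ` of the signs (`Desc.set`).
`front`: `U₀ ⊆ V` is open and contained in the interior of the body or disjoint from the body; a
point of an open subset of one of them is not in the frontier.  `nz`: (2). -/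
theorem exists_mod [Finite ι] (D : ι → Desc d s) (hc : ∀ i, IsClosed (D i).set) (x : Sp d)
    (hg : GPat D x) : ∃ U₀, Mod D x U₀ := by
  classical
  have hfr : ∀ i, frontier (D i).set ⊆ (D i).set := fun i => (hc i).frontier_subset
  set V : Set (Sp d) := {y | (∀ i, x ∉ frontier (D i).set →
      (x ∈ (D i).set ∧ y ∈ interior (D i).set) ∨ (x ∉ (D i).set ∧ y ∉ (D i).set)) ∧
    ∀ i l, pv ((D i).P l) x ≠ 0 →
      SignType.sign (pv ((D i).P l) y) = SignType.sign (pv ((D i).P l) x)} with hVdef
  have hV : V ∈ nhds x := by
    have h1 : ∀ᶠ y in nhds x, ∀ i, x ∉ frontier (D i).set →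
        (x ∈ (D i).set ∧ y ∈ interior (D i).set) ∨ (x ∉ (D i).set ∧ y ∉ (D i).set) := by
      rw [Filter.eventually_all]
      intro i
      by_cases hx : x ∈ (D i).set
      · by_cases hxf : x ∈ frontier (D i).set
        · exact Filter.Eventually.of_forall fun y h => absurd hxf h
        · have hxi : x ∈ interior (D i).set := by
            by_contra hni
            exact hxf ⟨subset_closure hx, hni⟩
          filter_upwards [isOpen_interior.mem_nhds hxi] with y hy h
          exact Or.inl ⟨hx, hy⟩
      · filter_upwards [(hc i).isOpen_compl.mem_nhds hx] with y hy h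
        exact Or.inr ⟨hx, hy⟩
    have h2 : ∀ᶠ y in nhds x, ∀ i l, pv ((D i).P l) x ≠ 0 →
        SignType.sign (pv ((D i).P l) y) = SignType.sign (pv ((D i).P l) x) := by
      rw [Filter.eventually_all]
      intro i
      rw [Filter.eventually_all]
      intro l
      by_cases hx : pv ((D i).P l) x = 0
      · exact Filter.Eventually.of_forall fun y h => absurd hx h
      · have hcont : ContinuousAt (pv ((D i).P l)) x := (pv_cont _).continuousAt
        rcases lt_or_gt_of_ne hx with h | h
        · filter_upwards [hcont.eventually (eventually_lt_nhds h)] with y hy _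
          rw [sign_neg hy, sign_neg h]
        · filter_upwards [hcont.eventually (eventually_gt_nhds h)] with y hy _
          rw [sign_pos hy, sign_pos h]
    exact h1.and h2
  have hfin : Finite (act D x) := inferInstance
  letI : Fintype (act D x) := Fintype.ofFinite _
  obtain ⟨U, hUo, hxU, hUV, hU⟩ := chart (fun a : act D x => pv ((D a.1.1).P a.1.2))
    (fun a : act D x => fderiv ℝ (pv ((D a.1.1).P a.1.2)) x) x
    (fun a => pv_strict _ x) hg (fun a => a.2.2) V hV
  have hsec : ∀ y, Sec D (act D x) U y = {z | z ∈ U ∧ ∀ a : act D x,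
      SignType.sign (pv ((D a.1.1).P a.1.2) z) = SignType.sign (pv ((D a.1.1).P a.1.2) y)} := by
    intro y
    ext z
    exact and_congr Iff.rfl ⟨fun h a => h a.1 a.2, fun h a ha => h ⟨a, ha⟩⟩
  refine ⟨U, ⟨hUo, hxU, ?_, ?_, ?_, ?_, ?_⟩⟩
  · intro y
    rw [hsec]
    exact (hU fun a => SignType.sign (pv ((D a.1.1).P a.1.2) y)).1
  · intro y z hz h
    rw [hsec]
    exact (hU fun a => SignType.sign (pv ((D a.1.1).P a.1.2) y)).2 z hz
      fun a ha => h a.1 a.2 ha
  · intro y hy z hz h i
    by_cases hx : x ∈ frontier (D i).set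
    · have hs : (fun j => SignType.sign (pv ((D i).P j) y)) =
          fun j => SignType.sign (pv ((D i).P j) z) := by
        funext j
        by_cases h0 : pv ((D i).P j) x = 0
        · exact (h (i, j) ⟨hx, h0⟩).symm
        · rw [(hUV hy).2 i j h0, (hUV hz).2 i j h0]
      exact iff_of_eq (congrArg (D i).Φ hs)
    · rcases (hUV hy).1 i hx with ⟨h1, h2⟩ | ⟨h1, h2⟩
      · rcases (hUV hz).1 i hx with ⟨_, h4⟩ | ⟨h3, _⟩
        · exact iff_of_true (interior_subset h2) (interior_subset h4)
        · exact absurd h1 h3
      · rcases (hUV hz).1 i hx with ⟨h3, _⟩ | ⟨_, h4⟩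
        · exact absurd h3 h1
        · exact iff_of_false h2 h4
  · intro i hx y hy hyf
    rcases (hUV hy).1 i hx with ⟨_, h2⟩ | ⟨_, h2⟩
    · exact hyf.2 h2
    · exact h2 (hfr i hyf)
  · intro i l _ h0 y hy hy0
    have h1 := (hUV hy).2 i l h0
    rw [hy0, sign_zero] at h1
    exact h0 (sign_eq_zero_iff.1 h1.symm)

end KR
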