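import Pool.Agent.KR.F_Top1
import Pool.Agent.KR.F_Model

/-!
# KR, block F: the faces at a point
-/

set_option autoImplicit false

open MvPolynomial Pool.Agent.MP_5a1161_co

namespace KR

variable {d s : ℕ} {ι : Type}

/-- PROOF.  `act D x` is finite and its derivatives, in the dual of `Sp d`, which has dimension `d`,
are linearly independent (`LinearIndependent.fintype_card_le_finrank`, `Set.ncard` of a finite
set; `finrank` of `Sp d →L[ℝ] ℝ` is `d`: `ContinuousLinearMap` dual, e.g. compose with
`InnerProductSpace.toDual`, or evaluate at the basis vectors). -/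
theorem act_le [Finite ι] {D : ι → Desc d s} {x : Sp d} (hg : GPat D x) :
    (act D x).ncard ≤ d := by
  classical
  have : Fintype (act D x) := Fintype.ofFinite _
  have h1 := LinearIndependent.fintype_card_le_finrank hg
  have h2 : Module.finrank ℝ (Sp d →L[ℝ] ℝ) = d := by
    rw [← (LinearMap.toContinuousLinearMap : (Sp d →ₗ[ℝ] ℝ) ≃ₗ[ℝ] (Sp d →L[ℝ] ℝ)).finrank_eq,
      Module.finrank_linearMap]
    simp [Sp]
  rw [h2, ← Nat.card_eq_fintype_card, Nat.card_coe_set_eq] at h1
  exact h1

/-- PROOF.  Take a model neighbourhood `U₀` of `z` (`exists_mod`).  For `f ∈ F` there is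
`y f ∈ f ∩ U₀` (`z ∈ closure f`), and `f = face D (y f)` (`face_eq`).  If `y f` and `y f'` have the
same signs for all `a ∈ act D z` then `y f'` is in the sector of `y f`, which is contained in
`face D (y f) = f` (`sec_sub_face`), so `f' = face D (y f') = f` (`face_eq`).  So `f ↦` the sign
vector of `y f` on `act D z` is injective on `F`; there are `3 ^ (act D z).ncard ≤ 3 ^ d` sign
vectors (`act_le`; `Fintype.card SignType = 3`). -/
theorem card_faces_at [Finite ι] {D : ι → Desc d s} (hc : ∀ i, IsClosed (D i).set) {z : Sp d}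
    (hg : GPat D z) (F : Finset (Set (Sp d))) (hF : ∀ f ∈ F, f ∈ FineFaces D ∧ z ∈ closure f) :
    F.card ≤ 3 ^ d := by
  classical
  have : Fintype (act D z) := Fintype.ofFinite _
  obtain ⟨U₀, hM⟩ := exists_mod D hc z hg
  have hy : ∀ f : F, ∃ y, y ∈ U₀ ∧ y ∈ f.1 := by
    intro f
    obtain ⟨y, h1, h2⟩ := mem_closure_iff.1 (hF f.1 f.2).2 U₀ hM.isOpen hM.mem
    exact ⟨y, h1, h2⟩
  choose y hyU hyf using hy
  have hface : ∀ f : F, y f ∈ frontier (Un D) ∧ face D (y f) = f.1 := by
    intro f
    obtain ⟨x, _, hfx⟩ := mem_fineFaces.1 (hF f.1 f.2).1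
    have h1 : y f ∈ face D x := by
      rw [← hfx]
      exact hyf f
    obtain ⟨h2, _, h3⟩ := face_eq h1
    exact ⟨h2, h3.trans hfx.symm⟩
  let g : F → (act D z → SignType) := fun f a =>
    SignType.sign (pv ((D a.1.1).P a.1.2) (y f))
  have hinj : Function.Injective g := by
    intro f f' hff
    have h1 : y f' ∈ Sec D (act D z) U₀ (y f) := by
      refine ⟨hyU f', fun a ha => ?_⟩
      exact (congrFun hff ⟨a, ha⟩).symm
    have h2 := sec_sub_face hM (hyU f) (hface f).1 h1
    have h3 := (face_eq h2).2.2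
    rw [(hface f).2, (hface f').2] at h3
    exact Subtype.ext h3.symm
  have h1 := Fintype.card_le_of_injective g hinj
  rw [Fintype.card_fun, Fintype.card_coe] at h1
  have h2 : Fintype.card SignType = 3 := by decide
  rw [h2] at h1
  refine h1.trans (Nat.pow_le_pow_right (by norm_num) ?_)
  have h3 := act_le hg
  rw [← Nat.card_coe_set_eq, Nat.card_eq_fintype_card] at h3
  exact h3

end KR
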