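import Pool.Agent.Lib.Warren46.Cells

/-!
# KR block F: compact pieces of a real algebraic set

Pairwise disjoint nonempty compact sets, each relatively open in the zero set of a nonnegative polynomial of
degree at most D in d variables: there are at most (d D + 1)^d of them.
-/

open Metric MvPolynomial

namespace KR

theorem card_comp_pi (d D : ℕ) (Q : MvPolynomial (Fin d) ℝ) (hD : Q.totalDegree ≤ D)
    (hQ : ∀ x, 0 ≤ eval x Q) (K : Type) [Fintype K] (g : K → Set (Fin d → ℝ))
    (hne : ∀ k, (g k).Nonempty) (hcomp : ∀ k, IsCompact (g k))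
    (hzero : ∀ k, ∀ x ∈ g k, eval x Q = 0)
    (hopen : ∀ k, ∃ W : Set (Fin d → ℝ), IsOpen W ∧ g k ⊆ W ∧ ∀ x ∈ W, eval x Q = 0 → x ∈ g k)
    (hdisj : ∀ k l, k ≠ l → Disjoint (g k) (g l)) :
    Fintype.card K ≤ (d * D + 1) ^ d := by
  classical
  choose W hWo hWg hWz using hopen
  have hQc : Continuous fun x : Fin d → ℝ => eval x Q := MvPolynomial.continuous_eval Q
  have hδ1 : ∀ k, ∀ᶠ δ in nhdsWithin (0:ℝ) (Set.Ioi 0), cthickening δ (g k) ⊆ W k := by
    intro k
    obtain ⟨δ, hδ, h1⟩ := (hcomp k).exists_cthickening_subset_open (hWo k) (hWg k)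
    filter_upwards [Ioo_mem_nhdsGT hδ] with t ht
    exact (cthickening_mono ht.2.le _).trans h1
  have hδ2 : ∀ k l, k ≠ l → ∀ᶠ δ in nhdsWithin (0:ℝ) (Set.Ioi 0),
      Disjoint (thickening δ (g k)) (thickening δ (g l)) := by
    intro k l hkl
    obtain ⟨δ, hδ, h1⟩ := (hdisj k l hkl).exists_thickenings (hcomp k) (hcomp l).isClosed
    filter_upwards [Ioo_mem_nhdsGT hδ] with t ht
    exact h1.mono (thickening_mono ht.2.le _) (thickening_mono ht.2.le _)
  have hδ3 : ∀ᶠ δ in nhdsWithin (0:ℝ) (Set.Ioi 0), (0 < δ ∧ (∀ k, cthickening δ (g k) ⊆ W k)) ∧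
      ∀ k l, k ≠ l → Disjoint (thickening δ (g k)) (thickening δ (g l)) := by
    refine (Filter.Eventually.and self_mem_nhdsWithin (Filter.eventually_all.2 hδ1)).and ?_
    refine Filter.eventually_all.2 fun k => Filter.eventually_all.2 fun l => ?_
    by_cases hkl : k = l
    · exact Filter.Eventually.of_forall fun _ h => (h hkl).elim
    · filter_upwards [hδ2 k l hkl] with δ h _
      exact h
  obtain ⟨δ, ⟨hδ0, hδW⟩, hδd⟩ := hδ3.exists
  set T : K → Set (Fin d → ℝ) := fun k => thickening δ (g k) with hT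
  have hTo : ∀ k, IsOpen (T k) := fun k => isOpen_thickening
  have hTb : ∀ k, Bornology.IsBounded (T k) := fun k => (hcomp k).isBounded.thickening
  have hgT : ∀ k, g k ⊆ T k := fun k => self_subset_thickening hδ0 _
  have hη1 : ∀ k, ∀ᶠ η in nhdsWithin (0:ℝ) (Set.Ioi 0), ∀ x ∈ frontier (T k), η < eval x Q := by
    intro k
    have hpos : ∀ x ∈ frontier (T k), 0 < eval x Q := by
      intro x hx
      refine lt_of_le_of_ne (hQ x) fun h0 => ?_
      have h1 : x ∈ W k := hδW k (closure_thickening_subset_cthickening _ _ hx.1)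
      have h2 : x ∈ T k := hgT k (hWz k x h1 h0.symm)
      have h3 := hx.2
      rw [(hTo k).interior_eq] at h3
      exact h3 h2
    have hfc : IsCompact (frontier (T k)) :=
      isCompact_of_isClosed_isBounded isClosed_frontier
        ((hTb k).closure.subset frontier_subset_closure)
    rcases (frontier (T k)).eq_empty_or_nonempty with he | hn
    · refine Filter.Eventually.of_forall fun η x hx => ?_
      rw [he] at hx
      exact hx.elim
    · obtain ⟨z, hz, hmin⟩ := hfc.exists_isMinOn hn hQc.continuousOn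
      filter_upwards [Ioo_mem_nhdsGT (hpos z hz)] with η hη x hx
      exact lt_of_lt_of_le hη.2 (hmin hx)
  have hη2 : ∀ᶠ η in nhdsWithin (0:ℝ) (Set.Ioi 0), 0 < η ∧
      ∀ k, ∀ x ∈ frontier (T k), η < eval x Q := by
    refine Filter.Eventually.and ?_ (Filter.eventually_all.2 hη1)
    exact self_mem_nhdsWithin
  obtain ⟨η, hη0', hη⟩ := hη2.exists
  have h := Pool.Agent.Warren46.card_cells (Q - C η) D (fun j => ?_)
    (fun k => {y | y ∈ T k ∧ eval y Q < η}) (fun k => ?_) (fun k => ?_) (fun k => ?_)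
    (fun k l hkl => ?_) (fun k x hx => ?_) (fun k x hx hx0 => ?_)
  · rwa [Fintype.card_fin] at h
  · refine (degreeOf_le_totalDegree _ _).trans ?_
    exact (totalDegree_sub_C_le _ _).trans hD
  · obtain ⟨x, hx⟩ := hne k
    refine ⟨x, hgT k hx, ?_⟩
    rw [hzero k x hx]
    exact hη0'
  · exact (hTo k).inter (isOpen_lt hQc continuous_const)
  · exact (hTb k).subset fun y hy => hy.1
  · exact (hδd k l hkl).mono (fun y hy => hy.1) fun y hy => hy.1
  · rw [map_sub, eval_C]
    exact sub_ne_zero.2 hx.2.ne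
  · rw [map_sub, eval_C, sub_ne_zero] at hx0
    have h1 : x ∈ closure (T k) := closure_mono (fun y hy => hy.1) hx
    have h2 : eval x Q ≤ η := by
      have h3 : {y : Fin d → ℝ | y ∈ T k ∧ eval y Q < η} ⊆ {y | eval y Q ≤ η} :=
        fun y hy => hy.2.le
      exact (closure_minimal h3 (isClosed_le hQc continuous_const)) hx
    have h4 : eval x Q < η := lt_of_le_of_ne h2 hx0
    refine ⟨?_, h4⟩
    by_contra h5
    have h6 : x ∈ frontier (T k) := ⟨h1, by rwa [(hTo k).interior_eq]⟩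
    exact absurd (hη k x h6) (not_lt.2 h4.le)

theorem card_comp (d D : ℕ) (Q : MvPolynomial (Fin d) ℝ) (hD : Q.totalDegree ≤ D)
    (hQ : ∀ x, 0 ≤ eval x Q) (K : Type) [Fintype K] (g : K → Set (EuclideanSpace ℝ (Fin d)))
    (hne : ∀ k, (g k).Nonempty) (hcomp : ∀ k, IsCompact (g k))
    (hzero : ∀ k, ∀ x ∈ g k, eval (fun i => x i) Q = 0)
    (hopen : ∀ k, ∃ W : Set (EuclideanSpace ℝ (Fin d)), IsOpen W ∧ g k ⊆ W ∧
      ∀ x ∈ W, eval (fun i => x i) Q = 0 → x ∈ g k)
    (hdisj : ∀ k l, k ≠ l → Disjoint (g k) (g l)) :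
    Fintype.card K ≤ (d * D + 1) ^ d := by
  classical
  let e := (EuclideanSpace.equiv (Fin d) ℝ).toHomeomorph
  have hev : ∀ x : EuclideanSpace ℝ (Fin d), e x = fun i => x i := fun x => rfl
  refine card_comp_pi d D Q hD hQ K (fun k => e '' g k) (fun k => (hne k).image _)
    (fun k => (hcomp k).image e.continuous) ?_ ?_ ?_
  · rintro k _ ⟨x, hx, rfl⟩
    exact hzero k x hx
  · intro k
    obtain ⟨W, hW, hgW, hz⟩ := hopen k
    refine ⟨e '' W, e.isOpenMap W hW, Set.image_mono hgW, ?_⟩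
    rintro _ ⟨x, hx, rfl⟩ h0
    exact ⟨x, hz x hx h0, rfl⟩
  · intro k l hkl
    exact (Set.disjoint_image_iff e.injective).2 (hdisj k l hkl)

end KR
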