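import Pool.Agent.KR.F_Top2
import Pool.Agent.KR.F_Cells

/-!
# KR, block F: the number of components
-/

set_option autoImplicit false

open MvPolynomial Pool.Agent.MP_5a1161_co

namespace KR

variable {d s : ℕ} {ι : Type}

/-- The number of different components of the maximal points with a given active set `A`.
PROOF.  The components `g x = connectedComponentIn (Zer D A) x`, `x ∈ X`, are pairwise disjoint
(different components), nonempty, closed (`Zer D A` is closed, and `closure (g x)` is preconnected
and contained in it, so contained in `g x`) and contained in `closure f ⊆ frontier (Un D)`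
(`comp_max`, `exists_max`), which is compact (the union of finitely many compact sets is compact),
so compact; the union of the sets `W` of `comp_max` gives `hopen`.  Apply `card_comp` to
`Q = ∑ a ∈ A, (P a)^2`, of degree `≤ 2 b`, `pv Q x = 0 ↔ x ∈ Zer D A`. -/
theorem card_comps [Finite ι] {D : ι → Desc d s} (hc : ∀ i, IsCompact (D i).set) (b : ℕ)
    (hb : ∀ i l, ((D i).P l).totalDegree ≤ b) (hg : ∀ x ∈ frontier (Un D), GPat D x)
    (A : Set (ι × Fin s)) (X : Finset (Sp d))
    (hX : ∀ x ∈ X, act D x = A ∧ ∃ f ∈ FineFaces D, x ∈ closure f ∧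
      ∀ z ∈ closure f, (act D z).ncard ≤ (act D x).ncard)
    (hinj : Set.InjOn (fun x => connectedComponentIn (Zer D A) x) (X : Set (Sp d))) :
    X.card ≤ (d * (2 * b) + 1) ^ d := by
  classical
  have hfin : A.Finite := Set.toFinite A
  obtain ⟨Q, hQ⟩ : ∃ Q : MvPolynomial (Fin d) ℝ,
      Q = ∑ a ∈ hfin.toFinset, ((D a.1).P a.2) ^ 2 := ⟨_, rfl⟩
  have hev : ∀ x : Sp d, eval (fun i => x i) Q =
      ∑ a ∈ hfin.toFinset, (pv ((D a.1).P a.2) x) ^ 2 := by
    intro x
    rw [hQ, map_sum]
    refine Finset.sum_congr rfl fun a _ => ?_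
    rw [map_pow]
    rfl
  have hzer : ∀ x : Sp d, eval (fun i => x i) Q = 0 ↔ x ∈ Zer D A := by
    intro x
    rw [hev, Finset.sum_eq_zero_iff_of_nonneg fun a _ => sq_nonneg _]
    constructor
    · intro h a ha
      exact pow_eq_zero_iff two_ne_zero |>.1 (h a (hfin.mem_toFinset.2 ha))
    · intro h a ha
      rw [h a (hfin.mem_toFinset.1 ha)]
      norm_num
  have hdeg : Q.totalDegree ≤ 2 * b := by
    rw [hQ]
    refine totalDegree_finsetSum_le fun a _ => ?_
    refine (totalDegree_pow _ _).trans ?_
    exact Nat.mul_le_mul_left 2 (hb a.1 a.2)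
  have hnn : ∀ x, 0 ≤ eval x Q := by
    intro x
    rw [hQ, map_sum]
    refine Finset.sum_nonneg fun a _ => ?_
    rw [map_pow]
    exact sq_nonneg _
  have hclosed : IsClosed (Zer D A) := by
    have : Zer D A = ⋂ a ∈ A, {z | pv ((D a.1).P a.2) z = 0} := by
      ext z
      simp only [Zer, Set.mem_iInter, Set.mem_ofPred_eq]
    rw [this]
    exact isClosed_biInter fun a _ => isClosed_eq (pv_cont _) continuous_const
  have hUn : IsCompact (frontier (Un D)) := by
    have h1 : IsCompact (Un D) := isCompact_iUnion hc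
    exact h1.of_isClosed_subset isClosed_frontier
      (frontier_subset_closure.trans h1.isClosed.closure_subset)
  have hmem : ∀ x ∈ X, x ∈ Zer D A := by
    intro x hx a ha
    rw [← (hX x hx).1] at ha
    exact ha.2
  have hmain : ∀ x ∈ X, (∃ f ∈ FineFaces D, connectedComponentIn (Zer D A) x ⊆ closure f) ∧
      ∀ z ∈ connectedComponentIn (Zer D A) x, ∃ W : Set (Sp d), IsOpen W ∧ z ∈ W ∧
        Zer D A ∩ W ⊆ connectedComponentIn (Zer D A) x := by
    intro x hx
    obtain ⟨hA, f, hf, hxf, hmax⟩ := hX x hx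
    have h := comp_max (fun i => (hc i).isClosed) hg hf hxf hmax
    rw [hA] at h
    exact ⟨⟨f, hf, h.1⟩, fun z hz => (h.2 z hz).2⟩
  have h := card_comp d (2 * b) Q hdeg hnn {x // x ∈ X}
    (fun x => connectedComponentIn (Zer D A) x.1) (fun x => ?_) (fun x => ?_) (fun x z hz => ?_)
    (fun x => ?_) (fun x y hxy => ?_)
  · rwa [Fintype.card_coe] at h
  · exact ⟨x.1, mem_connectedComponentIn (hmem x.1 x.2)⟩
  · obtain ⟨f, hf, hsub⟩ := (hmain x.1 x.2).1
    have hcl : IsClosed (connectedComponentIn (Zer D A) x.1) := by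
      refine isClosed_of_closure_subset ?_
      exact isPreconnected_connectedComponentIn.closure.subset_connectedComponentIn
        (subset_closure (mem_connectedComponentIn (hmem x.1 x.2)))
        (closure_minimal (connectedComponentIn_subset _ _) hclosed)
    exact hUn.of_isClosed_subset hcl (hsub.trans (exists_max hf).1)
  · exact (hzer z).2 (connectedComponentIn_subset _ _ hz)
  · have h2 := (hmain x.1 x.2).2
    choose! W hW1 hW2 hW3 using h2
    refine ⟨⋃ z ∈ connectedComponentIn (Zer D A) x.1, W z, isOpen_biUnion hW1, fun z hz => ?_,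
      fun z hz hz0 => ?_⟩
    · exact Set.mem_biUnion hz (hW2 z hz)
    · obtain ⟨y, hy, hzy⟩ := Set.mem_iUnion₂.1 hz
      exact hW3 y hy ⟨(hzer z).1 hz0, hzy⟩
  · refine Set.disjoint_left.2 fun z hz hz' => hxy ?_
    have e : connectedComponentIn (Zer D A) x.1 = connectedComponentIn (Zer D A) y.1 :=
      (connectedComponentIn_eq hz).trans (connectedComponentIn_eq hz').symm
    exact Subtype.ext (hinj x.2 y.2 e)

end KR
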