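import Mathlib

/-!
# KR block F: the number of active sets

The number of sets of pairs (body, polynomial) which involve at most m bodies.
-/

open Finset

namespace KR

theorem exists_fun_covering {ι : Type} [DecidableEq ι] [Nonempty ι] (m : ℕ) (T : Finset ι)
    (hT : T.card ≤ m) : ∃ f : Fin m → ι, ∀ i ∈ T, ∃ k, f k = i := by
  classical
  refine ⟨fun k => if h : (k : ℕ) < T.card then (T.equivFin.symm ⟨k, h⟩ : ι)
    else Classical.arbitrary ι, fun i hi => ?_⟩
  refine ⟨⟨T.equivFin ⟨i, hi⟩, lt_of_lt_of_le (T.equivFin ⟨i, hi⟩).2 hT⟩, ?_⟩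
  have h : ((T.equivFin ⟨i, hi⟩ : Fin T.card) : ℕ) < T.card := (T.equivFin ⟨i, hi⟩).2
  simp only [h, dite_true, Fin.eta, Equiv.symm_apply_apply]

theorem card_act (ι : Type) [Fintype ι] [DecidableEq ι] [Nonempty ι] (s m : ℕ) :
    (univ.filter (fun A : Finset (ι × Fin s) => (A.image Prod.fst).card ≤ m)).card ≤
      (Fintype.card ι) ^ m * 2 ^ (m * s) := by
  classical
  set Ψ : (Fin m → ι) × Finset (Fin m × Fin s) → Finset (ι × Fin s) :=
    fun p => p.2.image fun q => (p.1 q.1, q.2) with hΨ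
  have h1 : (univ.filter (fun A : Finset (ι × Fin s) => (A.image Prod.fst).card ≤ m)) ⊆
      univ.image Ψ := by
    intro A hA
    rw [mem_filter] at hA
    obtain ⟨f, hf⟩ := exists_fun_covering m (A.image Prod.fst) hA.2
    refine mem_image.2 ⟨(f, univ.filter fun q => (f q.1, q.2) ∈ A), mem_univ _, ?_⟩
    ext ⟨i, l⟩
    rw [hΨ]
    simp only [mem_image, mem_filter, mem_univ, true_and, Prod.mk.injEq, Prod.exists]
    constructor
    · rintro ⟨k, l', h2, rfl, rfl⟩
      exact h2
    · intro h2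
      obtain ⟨k, hk⟩ := hf i (mem_image.2 ⟨(i, l), h2, rfl⟩)
      exact ⟨k, l, by rw [hk]; exact h2, hk, rfl⟩
  calc (univ.filter (fun A : Finset (ι × Fin s) => (A.image Prod.fst).card ≤ m)).card
      ≤ (univ.image Ψ).card := card_le_card h1
    _ ≤ (univ : Finset ((Fin m → ι) × Finset (Fin m × Fin s))).card := card_image_le
    _ = (Fintype.card ι) ^ m * 2 ^ (m * s) := by
      rw [card_univ, Fintype.card_prod, Fintype.card_fun, Fintype.card_fin, Fintype.card_finset,
        Fintype.card_prod, Fintype.card_fin, Fintype.card_fin]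

end KR
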