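import Pool.Agent.KR.Defs

/-!
# KR, block F (faces of all dimensions): definitions

At a point `x` only the ACTIVE polynomials matter: the `P i l` with `x` on the boundary of the body
`i` and `P i l x = 0` (`act D x`).
-/

set_option autoImplicit false

open MvPolynomial Pool.Agent.MP_5a1161_co

namespace KR

variable {d s : ℕ} {ι : Type}

/-- Polynomial functions are smooth. -/
theorem pv_contDiff2 (p : MvPolynomial (Fin d) ℝ) : ContDiff ℝ 2 (pv p) := by
  induction p using MvPolynomial.induction_on with
  | C a =>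
    have h : pv (C a : MvPolynomial (Fin d) ℝ) = fun _ => a := by
      funext x
      simp [pv]
    rw [h]
    exact contDiff_const
  | add p q hp hq =>
    have h : pv (p + q) = fun x => pv p x + pv q x := by
      funext x
      simp [pv]
    rw [h]
    exact hp.add hq
  | mul_X p j hp =>
    have h : pv (p * X j) = fun x => pv p x * x j := by
      funext x
      simp [pv]
    rw [h]
    exact hp.mul (EuclideanSpace.proj j : Sp d →L[ℝ] ℝ).contDiff

theorem pv_cont (p : MvPolynomial (Fin d) ℝ) : Continuous (pv p) := (pv_contDiff2 p).continuous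

theorem pv_strict (p : MvPolynomial (Fin d) ℝ) (x : Sp d) :
    HasStrictFDerivAt (pv p) (fderiv ℝ (pv p) x) x :=
  (pv_contDiff2 p).contDiffAt.hasStrictFDerivAt (by norm_num)

/-- General position at `x`. -/
def GPat (D : ι → Desc d s) (x : Sp d) : Prop :=
  LinearIndependent ℝ fun a : act D x => fderiv ℝ (pv ((D a.1.1).P a.1.2)) x

/-- The polynomials of `A` have the same signs at `y` and `z`. -/
def Same (D : ι → Desc d s) (A : Set (ι × Fin s)) (y z : Sp d) : Prop :=
  ∀ a ∈ A, SignType.sign (pv ((D a.1).P a.2) z) = SignType.sign (pv ((D a.1).P a.2) y)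

/-- The sector of `y`: the points of `U₀` at which the polynomials of `A` have the same signs as
at `y`. -/
def Sec (D : ι → Desc d s) (A : Set (ι × Fin s)) (U₀ : Set (Sp d)) (y : Sp d) : Set (Sp d) :=
  {z | z ∈ U₀ ∧ Same D A y z}

/-- `U₀` is a model neighbourhood of `x`. -/
structure Mod (D : ι → Desc d s) (x : Sp d) (U₀ : Set (Sp d)) : Prop where
  isOpen : IsOpen U₀
  mem : x ∈ U₀
  conn : ∀ y, IsPreconnected (Sec D (act D x) U₀ y)
  clos : ∀ y, ∀ z ∈ U₀, (∀ a ∈ act D x, pv ((D a.1).P a.2) z ≠ 0 →
    SignType.sign (pv ((D a.1).P a.2) y) = SignType.sign (pv ((D a.1).P a.2) z)) →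
    z ∈ closure (Sec D (act D x) U₀ y)
  memb : ∀ y ∈ U₀, ∀ z ∈ U₀, Same D (act D x) y z → ∀ i, (y ∈ (D i).set ↔ z ∈ (D i).set)
  front : ∀ i, x ∉ frontier (D i).set → ∀ y ∈ U₀, y ∉ frontier (D i).set
  nz : ∀ i l, x ∈ frontier (D i).set → pv ((D i).P l) x ≠ 0 → ∀ y ∈ U₀, pv ((D i).P l) y ≠ 0

/-- The stratum of `x`: the points of the boundary of the union with the same active polynomials
as `x`. -/
def stratum (D : ι → Desc d s) (x : Sp d) : Set (Sp d) :=
  {y | y ∈ frontier (Un D) ∧ act D y = act D x}

/-- The fine face through `x`. -/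
def face (D : ι → Desc d s) (x : Sp d) : Set (Sp d) := connectedComponentIn (stratum D x) x

theorem mem_fineFaces {D : ι → Desc d s} {f : Set (Sp d)} :
    f ∈ FineFaces D ↔ ∃ x ∈ frontier (Un D), f = face D x := Iff.rfl

/-- The common zeros of the polynomials of `A`. -/
def Zer (D : ι → Desc d s) (A : Set (ι × Fin s)) : Set (Sp d) :=
  {z | ∀ a ∈ A, pv ((D a.1).P a.2) z = 0}

/-- The full vertices: `d` active polynomials, which belong to `d` different bodies. -/
def FullV (D : ι → Desc d s) : Set (Sp d) :=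
  {x | x ∈ frontier (Un D) ∧ (act D x).ncard = d ∧ Set.InjOn Prod.fst (act D x)}

end KR
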