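import Pool.Agent.KR.F_Zero

/-!
# KR, block F: full vertices are regular vertices
-/

set_option autoImplicit false

open MvPolynomial Pool.Agent.MP_5a1161_co

namespace KR

variable {d s : ℕ} {ι : Type}

/-- PROOF.  `T` = the image of `act D x` under `Prod.fst` (as a finset), `l i` = the index with
`(i, l i) ∈ act D x`.  `card`: `Set.ncard_image_of_injOn`.  `mem`: if `x ∈ (D i).set` then `x` is not
in its interior (`x ∉ interior (Un D)`), so `x` is in its frontier and `exists_zero` gives `l` with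
`(i, l) ∈ act D x`; conversely `i ∈ T` gives `x ∈ frontier (D i).set ⊆ (D i).set` (closed).  `zero`:
`P i l' x = 0` gives `(i, l') ∈ act D x`, and `Prod.fst` is injective on `act D x`.  `indep`:
`hg.comp` with the map `T → act D x`, `i ↦ (i, l i)`. -/
theorem fullV_regV [Fintype ι] [DecidableEq ι] {D : ι → Desc d s} (hd : 0 < d)
    (hc : ∀ i, IsClosed (D i).set) (hg : ∀ x ∈ frontier (Un D), GPat D x) {x : Sp d}
    (hx : x ∈ FullV D) : ∃ T l, RegV D T l x := by
  classical
  obtain ⟨hfr, hcard, hinj⟩ := hx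
  have hfin : (act D x).Finite := Set.toFinite _
  obtain ⟨a0, ha0⟩ : (act D x).Nonempty := by
    rw [← Set.ncard_pos hfin, hcard]
    exact hd
  obtain ⟨T, hT⟩ : ∃ T : Finset ι, T = (hfin.image Prod.fst).toFinset := ⟨_, rfl⟩
  have hTmem : ∀ i, i ∈ T ↔ ∃ l, (i, l) ∈ act D x := by
    intro i
    rw [hT, Set.Finite.mem_toFinset]
    constructor
    · rintro ⟨⟨j, l⟩, h1, h2⟩
      have h3 : j = i := h2
      subst h3
      exact ⟨l, h1⟩
    · rintro ⟨l, hl⟩
      exact ⟨(i, l), hl, rfl⟩
  obtain ⟨l, hl⟩ : ∃ l : ι → Fin s, ∀ i ∈ T, (i, l i) ∈ act D x := by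
    have h1 : ∀ i, ∃ l : Fin s, i ∈ T → (i, l) ∈ act D x := by
      intro i
      by_cases hi : i ∈ T
      · obtain ⟨l, hl⟩ := (hTmem i).1 hi
        exact ⟨l, fun _ => hl⟩
      · exact ⟨a0.2, fun h => absurd h hi⟩
    choose l hl using h1
    exact ⟨l, hl⟩
  refine ⟨T, l, ⟨?_, ?_, ?_, ?_, ?_⟩⟩
  · rw [hT, ← Set.ncard_eq_toFinset_card, hinj.ncard_image, hcard]
  · intro i
    constructor
    · intro hi
      have h1 : x ∈ frontier (D i).set := by
        refine ⟨subset_closure hi, fun h2 => hfr.2 ?_⟩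
        exact interior_mono (Set.subset_iUnion (fun j => (D j).set) i) h2
      obtain ⟨l', hl'⟩ := exists_zero h1
      exact (hTmem i).2 ⟨l', h1, hl'⟩
    · intro hi
      have h1 := (hl i hi).1
      exact (hc i).frontier_subset h1
  · intro i hi
    exact (hl i hi).1
  · intro i hi l'
    constructor
    · intro h1
      have h2 : (i, l') ∈ act D x := ⟨(hl i hi).1, h1⟩
      have h3 := hinj h2 (hl i hi) rfl
      exact (Prod.mk.inj h3).2
    · rintro rfl
      exact (hl i hi).2
  · have h1 : LinearIndependent ℝ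
        (fun a : act D x => fderiv ℝ (pv ((D a.1.1).P a.1.2)) x) := hg x hfr
    have h2 : Function.Injective
        (fun i : T => (⟨(i.1, l i.1), hl i.1 i.2⟩ : act D x)) := by
      intro i j hij
      have h3 := congrArg (fun a : act D x => a.1.1) hij
      exact Subtype.ext h3
    have h3 := h1.comp (fun i : T => (⟨(i.1, l i.1), hl i.1 i.2⟩ : act D x)) h2
    have h4 : ((fun a : act D x => fderiv ℝ (pv ((D a.1.1).P a.1.2)) x) ∘
        (fun i : T => (⟨(i.1, l i.1), hl i.1 i.2⟩ : act D x))) =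
        fun i : T => fderiv ℝ (pv ((D i.1).P (l i.1))) x := by
      funext i
      rfl
    rw [h4] at h3
    exact h3

end KR
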