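import Pool.Agent.KR.F_Top2
import Pool.Agent.KR.F_At
import Pool.Agent.KR.F_Comps
import Pool.Agent.KR.F_Count

/-!
# KR, block F: the number of faces
-/

set_option autoImplicit false

open MvPolynomial Pool.Agent.MP_5a1161_co

namespace KR

variable {d s : ℕ} {ι : Type}

/-- PROOF.  For every `f ∈ F` choose the maximal point `x f` (`exists_max`).  Type 1: `x f ∈ FullV`;
for a given point `x` at most `3 ^ d` faces `f` have `x f = x` (`card_faces_at`), so there are at most
`3 ^ d |FullV|` faces of type 1.  Type 2: then `A = act D (x f)`, which has at most `d` elements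
(`act_le`), involves at most `d - 1` bodies: `(A.image Prod.fst).card ≤ d - 1`; there are at most
`n^(d-1) 2^((d-1) s)` such `A` (`card_act`).  For given `A` there are at most
`(d * (2 * b) + 1) ^ d` components `connectedComponentIn (Zer D A) (x f)` (`card_comps`, one point
for each component), and for a given component `g` all `f` with this component have `g ⊆ closure f`
(`comp_max`), so `z ∈ closure f` for a fixed `z ∈ g`: at most `3 ^ d` (`card_faces_at`). -/
theorem faces_le (d s b : ℕ) (hd : 2 ≤ d) (ι : Type) [Fintype ι] [Nonempty ι]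
    {D : ι → Desc d s} (hc : ∀ i, IsCompact (D i).set)
    (hb : ∀ i l, ((D i).P l).totalDegree ≤ b) (hg : ∀ x ∈ frontier (Un D), GPat D x)
    (hV : (FullV D).Finite) (F : Finset (Set (Sp d))) (hF : ∀ f ∈ F, f ∈ FineFaces D) :
    F.card ≤ 3 ^ d * (FullV D).ncard +
      3 ^ d * ((d * (2 * b) + 1) ^ d * ((Fintype.card ι) ^ (d - 1) * 2 ^ ((d - 1) * s))) := by
  classical
  have hcl : ∀ i, IsClosed (D i).set := fun i => (hc i).isClosed
  have hex : ∀ f : Set (Sp d), ∃ x : Sp d, f ∈ FineFaces D → x ∈ closure f ∧
      ∀ z ∈ closure f, (act D z).ncard ≤ (act D x).ncard := by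
    intro f
    by_cases hf : f ∈ FineFaces D
    · obtain ⟨-, x, h1, h2⟩ := exists_max hf
      exact ⟨x, fun _ => ⟨h1, h2⟩⟩
    · exact ⟨0, fun h => absurd h hf⟩
  choose x hx using hex
  have hfr : ∀ f ∈ FineFaces D, x f ∈ frontier (Un D) := fun f hf =>
    (exists_max hf).1 (hx f hf).1
  rw [← Finset.card_filter_add_card_filter_not (fun f => x f ∈ FullV D)]
  refine add_le_add ?_ ?_
  · -- type 1
    rw [Set.ncard_eq_toFinset_card _ hV]
    refine Finset.card_le_mul_card_image_of_maps_to (f := x) (fun f hf => ?_) _ fun z hz => ?_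
    · rw [Set.Finite.mem_toFinset]
      exact (Finset.mem_filter.1 hf).2
    · rw [Set.Finite.mem_toFinset] at hz
      refine card_faces_at hcl (hg z hz.1) _ fun f hf => ?_
      rw [Finset.mem_filter, Finset.mem_filter] at hf
      obtain ⟨⟨h1, h2⟩, rfl⟩ := hf
      exact ⟨hF f h1, (hx f (hF f h1)).1⟩
  · -- type 2
    rw [← mul_assoc]
    set F2 := F.filter (fun f => ¬ x f ∈ FullV D) with hF2
    set Af : Set (Sp d) → Finset (ι × Fin s) := fun f => Finset.univ.filter fun a => a ∈ act D (x f)
      with hAf
    have hAc : ∀ f, ((Af f : Finset (ι × Fin s)) : Set (ι × Fin s)) = act D (x f) := by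
      intro f
      ext a
      simp [hAf]
    have hF2' : ∀ f ∈ F2, f ∈ FineFaces D ∧ x f ∉ FullV D := fun f hf =>
      ⟨hF f (Finset.mem_filter.1 hf).1, (Finset.mem_filter.1 hf).2⟩
    refine (Finset.card_le_mul_card_image_of_maps_to (f := Af)
      (t := Finset.univ.filter (fun A : Finset (ι × Fin s) => (A.image Prod.fst).card ≤ d - 1))
      (fun f hf => ?_) (3 ^ d * (d * (2 * b) + 1) ^ d) fun A _ => ?_).trans
      (Nat.mul_le_mul_left _ (card_act ι s (d - 1)))
    · obtain ⟨h1, h2⟩ := hF2' f hf
      refine Finset.mem_filter.2 ⟨Finset.mem_univ _, ?_⟩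
      have h3 : (act D (x f)).ncard ≤ d := act_le (hg _ (hfr f h1))
      have h4 : (Af f).card = (act D (x f)).ncard := by
        rw [← hAc f, Set.ncard_coe_finset]
      have h5 : ((Af f).image Prod.fst).card ≤ (Af f).card := Finset.card_image_le
      rcases Nat.lt_or_ge (act D (x f)).ncard d with h6 | h6
      · omega
      · have h7 : ((Af f).image Prod.fst).card ≠ (Af f).card := by
          intro h8
          refine h2 ⟨hfr f h1, le_antisymm h3 h6, ?_⟩
          rw [← hAc f]
          exact Finset.card_image_iff.1 h8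
        omega
    · -- the faces with a given active set
      set G : Sp d → Set (Sp d) := fun z =>
        connectedComponentIn (Zer D ((A : Finset (ι × Fin s)) : Set (ι × Fin s))) z with hG
      set FA := F2.filter (fun f => Af f = A) with hFA
      have hFA' : ∀ f ∈ FA, f ∈ FineFaces D ∧
          act D (x f) = ((A : Finset (ι × Fin s)) : Set (ι × Fin s)) := by
        intro f hf
        rw [hFA, Finset.mem_filter] at hf
        refine ⟨(hF2' f hf.1).1, ?_⟩
        rw [← hAc f, hf.2]
      have hGsub : ∀ f ∈ FA, G (x f) ⊆ closure f := by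
        intro f hf
        obtain ⟨h1, h2⟩ := hFA' f hf
        have h3 := (comp_max hcl hg h1 (hx f h1).1 (hx f h1).2).1
        rw [h2] at h3
        exact h3
      obtain ⟨X, hXsub, hXinj, hXim⟩ := Finset.exists_subset_injOn_image_eq_of_surjOn
        (f := G) (s := ((FA.image x : Finset (Sp d)) : Set (Sp d))) (t := (FA.image x).image G) (by
          intro c hc'
          rw [Finset.mem_coe, Finset.mem_image] at hc'
          obtain ⟨z, h1, h2⟩ := hc'
          exact ⟨z, Finset.mem_coe.2 h1, h2⟩)
      have hXc : X.card ≤ (d * (2 * b) + 1) ^ d := by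
        refine card_comps hc b hb hg (A : Set (ι × Fin s)) X (fun z hz => ?_) hXinj
        obtain ⟨f, hf, rfl⟩ := Finset.mem_image.1 (hXsub hz)
        obtain ⟨h1, h2⟩ := hFA' f hf
        exact ⟨h2, f, h1, (hx f h1).1, (hx f h1).2⟩
      have hXc' : (FA.image fun f => G (x f)).card ≤ (d * (2 * b) + 1) ^ d := by
        refine le_trans ?_ hXc
        have h1 : (FA.image fun f => G (x f)) = X.image G := by
          rw [hXim, Finset.image_image]
          rfl
        rw [h1]
        exact Finset.card_image_le
      refine (Finset.card_le_mul_card_image (f := fun f => G (x f)) FA (3 ^ d)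
        fun c hc' => ?_).trans (Nat.mul_le_mul_left _ hXc')
      obtain ⟨f₀, hf₀, hc0⟩ := Finset.mem_image.1 hc'
      obtain ⟨h1, h2⟩ := hFA' f₀ hf₀
      have hz : x f₀ ∈ G (x f₀) := by
        refine mem_connectedComponentIn fun a ha => ?_
        rw [← h2] at ha
        exact ha.2
      refine card_faces_at hcl (hg _ (hfr f₀ h1)) _ fun f hf => ?_
      obtain ⟨h3, h4⟩ := Finset.mem_filter.1 hf
      refine ⟨(hFA' f h3).1, hGsub f h3 ?_⟩
      have h5 : G (x f) = G (x f₀) := h4.trans hc0.symm
      rw [h5]
      exact hz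

end KR
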