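import Pool.Agent.KR.F_Trans

/-!
# KR, block F: sectors and faces
-/

set_option autoImplicit false

open MvPolynomial Pool.Agent.MP_5a1161_co

namespace KR

variable {d s : ℕ} {ι : Type}

/-- PROOF.  `y ∈ stratum D x` (`connectedComponentIn_subset`), so the strata of `x` and `y` are the
same set; `connectedComponentIn_eq`. -/
theorem face_eq {D : ι → Desc d s} {x y : Sp d} (hy : y ∈ face D x) :
    y ∈ frontier (Un D) ∧ act D y = act D x ∧ face D y = face D x := by
  have h1 : y ∈ stratum D x := connectedComponentIn_subset _ _ hy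
  refine ⟨h1.1, h1.2, ?_⟩
  have h2 : stratum D y = stratum D x := by
    ext z
    change z ∈ frontier (Un D) ∧ act D z = act D y ↔ z ∈ frontier (Un D) ∧ act D z = act D x
    rw [h1.2]
  unfold face
  rw [h2]
  exact (connectedComponentIn_eq hy).symm

/-- PROOF.  `y` is in its sector; all points `z` of the sector are in `stratum D y`
(`hM.frontierU_iff`, `hM.act_eq`); the sector is preconnected (`hM.conn`):
`IsPreconnected.subset_connectedComponentIn`. -/
theorem sec_sub_face [Finite ι] {D : ι → Desc d s} {x : Sp d} {U₀ : Set (Sp d)}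
    (hM : Mod D x U₀) {y : Sp d} (hy : y ∈ U₀) (hyU : y ∈ frontier (Un D)) :
    Sec D (act D x) U₀ y ⊆ face D y := by
  have h1 : y ∈ Sec D (act D x) U₀ y := ⟨hy, fun a _ => rfl⟩
  refine (hM.conn y).subset_connectedComponentIn h1 ?_
  intro z hz
  exact ⟨(hM.frontierU_iff hy hz.1 hz.2).1 hyU, hM.act_eq hy hz.1 hz.2⟩

/-- PROOF.  `f = face D x₀`, `x₀ ∈ f`, `closure f ⊆ frontier (Un D)` (`face_eq`, the frontier is
closed).  The numbers `(act D z).ncard` are at most `Nat.card (ι × Fin s)`: take a point of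
`closure f` at which it is maximal. -/
theorem exists_max [Finite ι] {D : ι → Desc d s} {f : Set (Sp d)} (hf : f ∈ FineFaces D) :
    closure f ⊆ frontier (Un D) ∧ ∃ x ∈ closure f, ∀ z ∈ closure f,
      (act D z).ncard ≤ (act D x).ncard := by
  classical
  obtain ⟨x₀, hx₀, rfl⟩ := mem_fineFaces.1 hf
  have hx : x₀ ∈ face D x₀ := mem_connectedComponentIn ⟨hx₀, rfl⟩
  refine ⟨closure_minimal (fun y hy => (face_eq hy).1) isClosed_frontier, ?_⟩
  have hb : ∀ z, (act D z).ncard ≤ Nat.card (ι × Fin s) := by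
    intro z
    rw [← Set.ncard_univ]
    exact Set.ncard_le_ncard (Set.subset_univ _) Set.finite_univ
  obtain ⟨x, hx1, hx2⟩ := Nat.findGreatest_spec (P := fun k => ∃ x ∈ closure (face D x₀),
    (act D x).ncard = k) (hb x₀) ⟨x₀, subset_closure hx, rfl⟩
  refine ⟨x, hx1, fun z hz => ?_⟩
  rw [hx2]
  exact Nat.le_findGreatest (hb z) ⟨z, hz, rfl⟩

/-- PROOF.  `Same D (act D x) x z` (both values are 0).  So `act D z = act D x` (`hM.act_eq`). -/
theorem Mod.act_zero [Finite ι] {D : ι → Desc d s} {x : Sp d} {U₀ : Set (Sp d)}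
    (hM : Mod D x U₀) {z : Sp d} (hz : z ∈ U₀) (hz0 : z ∈ Zer D (act D x)) :
    act D z = act D x := by
  refine hM.act_eq hM.mem hz fun a ha => ?_
  rw [hz0 a ha, ha.2]

/-- PROOF.  `f` meets `U₀` in a point `y` (`x ∈ closure f`, `U₀` is a neighbourhood of `x`), and
`f = face D y` (`face_eq`).  `hM.clos y z` (the condition is void, `z` is a common zero):
`z ∈ closure (Sec ..) ⊆ closure f` (`sec_sub_face`). -/
theorem zer_sub_closure [Finite ι] {D : ι → Desc d s} {x : Sp d} {U₀ : Set (Sp d)}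
    (hM : Mod D x U₀) {f : Set (Sp d)} (hf : f ∈ FineFaces D) (hx : x ∈ closure f) {z : Sp d}
    (hz : z ∈ U₀) (hz0 : z ∈ Zer D (act D x)) : z ∈ closure f := by
  obtain ⟨y, hyU, hyf⟩ := mem_closure_iff_nhds.1 hx U₀ (hM.isOpen.mem_nhds hM.mem)
  obtain ⟨x₀, hx₀, rfl⟩ := mem_fineFaces.1 hf
  obtain ⟨h1, -, h3⟩ := face_eq hyf
  have h4 : z ∈ closure (Sec D (act D x) U₀ y) :=
    hM.clos y z hz fun a ha h0 => absurd (hz0 a ha) h0
  rw [← h3]
  exact closure_mono (sec_sub_face hM hyU h1) h4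

end KR
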