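import Pool.Agent.KR.F_Top1
import Pool.Agent.KR.F_Model

/-!
# KR, block F: the compact component of a face
-/

set_option autoImplicit false

open MvPolynomial Pool.Agent.MP_5a1161_co

namespace KR

variable {d s : ℕ} {ι : Type}

/-- PROOF.  Put `A = act D x`, `M = Zer D A` (closed), `g` the component, and
`G = {z ∈ closure f | act D z = A}`.  (1) `G` is closed: if `z ∈ closure G` then `z ∈ closure f`,
and `A ⊆ act D z` (frontiers and zero sets are closed, `G` is contained in them), so
`act D z = A` because `(act D z).ncard ≤ A.ncard` (`hmax`; `Set.eq_of_subset_of_ncard_le`).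
(2) every `z ∈ G` has an open neighbourhood `U₀` with `M ∩ U₀ ⊆ G`: `exists_mod` at `z`
(`z ∈ closure f ⊆ frontier (Un D)`, `exists_max`), `Mod.act_zero` and `zer_sub_closure` at `z`
(`act D z = A`).  (3) `g ⊆ G`: `g` is preconnected, `g ⊆ M`, `x ∈ g ∩ G`; with the open set
`O = ⋃` of the neighbourhoods of (2) and the open set `Gᶜ`: `g ⊆ O ∪ Gᶜ`, `g ∩ O ∩ Gᶜ = ∅`
(`M ∩ O ⊆ G`), so `g ⊆ O` and `g ⊆ G` (`IsPreconnected.subset_left_of_subset_union` or
`isPreconnected_iff_subset_of_disjoint`).  (4) for `z ∈ g` and the model neighbourhood `U₀` of `z`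
the set `M ∩ U₀ = Sec D A U₀ z` (the signs at `z` are 0) is preconnected, contains `z` and is
contained in `M`, so it is contained in the component `g` of `z`
(`connectedComponentIn_eq`, `IsPreconnected.subset_connectedComponentIn`). -/
theorem comp_max [Finite ι] {D : ι → Desc d s} (hc : ∀ i, IsClosed (D i).set)
    (hg : ∀ x ∈ frontier (Un D), GPat D x) {f : Set (Sp d)} (hf : f ∈ FineFaces D) {x : Sp d}
    (hx : x ∈ closure f) (hmax : ∀ z ∈ closure f, (act D z).ncard ≤ (act D x).ncard) :
    connectedComponentIn (Zer D (act D x)) x ⊆ closure f ∧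
    ∀ z ∈ connectedComponentIn (Zer D (act D x)) x, act D z = act D x ∧
      ∃ W : Set (Sp d), IsOpen W ∧ z ∈ W ∧
        Zer D (act D x) ∩ W ⊆ connectedComponentIn (Zer D (act D x)) x := by
  classical
  obtain ⟨hfr, -⟩ := exists_max hf
  have hxM : x ∈ Zer D (act D x) := fun a ha => ha.2
  set M : Set (Sp d) := Zer D (act D x) with hMdef
  set g : Set (Sp d) := connectedComponentIn M x with hgdef
  let G : Set (Sp d) := {z | z ∈ closure f ∧ act D z = act D x}
  have hxG : x ∈ G := ⟨hx, rfl⟩
  have hGc : IsClosed G := by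
    refine isClosed_of_closure_subset fun z hz => ?_
    have h1 : z ∈ closure f := closure_minimal (fun w hw => hw.1) isClosed_closure hz
    have h2 : act D x ⊆ act D z := by
      intro a ha
      have h3 : G ⊆ frontier (D a.1).set ∩ {w | pv ((D a.1).P a.2) w = 0} := by
        intro w hw
        have h4 : a ∈ act D w := by
          rw [hw.2]
          exact ha
        exact h4
      have h5 : IsClosed (frontier (D a.1).set ∩ {w | pv ((D a.1).P a.2) w = 0}) :=
        isClosed_frontier.inter (isClosed_eq (pv_cont _) continuous_const)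
      exact closure_minimal h3 h5 hz
    exact ⟨h1, (Set.eq_of_subset_of_ncard_le h2 (hmax z h1) (Set.toFinite _)).symm⟩
  have hloc : ∀ z ∈ G, ∃ U₀ : Set (Sp d), IsOpen U₀ ∧ z ∈ U₀ ∧ M ∩ U₀ ⊆ G ∧
      IsPreconnected (M ∩ U₀) := by
    intro z hz
    obtain ⟨U₀, hM⟩ := exists_mod D hc z (hg z (hfr hz.1))
    have h0 : ∀ w ∈ M ∩ U₀, w ∈ Zer D (act D z) := by
      intro w hw
      rw [hz.2]
      exact hw.1
    refine ⟨U₀, hM.isOpen, hM.mem, fun w hw => ⟨?_, ?_⟩, ?_⟩
    · exact zer_sub_closure hM hf hz.1 hw.2 (h0 w hw)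
    · rw [hM.act_zero hw.2 (h0 w hw), hz.2]
    · have h1 : M ∩ U₀ = Sec D (act D z) U₀ z := by
        ext w
        constructor
        · intro hw
          refine ⟨hw.2, fun a ha => ?_⟩
          rw [h0 w hw a ha, ha.2]
        · rintro ⟨hw1, hw2⟩
          refine ⟨?_, hw1⟩
          intro a ha
          rw [← hz.2] at ha
          have h3 := hw2 a ha
          rw [ha.2, sign_zero] at h3
          exact sign_eq_zero_iff.1 h3
      rw [h1]
      exact hM.conn z
  choose! U hUo hUm hUG hUc using hloc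
  have hgM : g ⊆ M := connectedComponentIn_subset _ _
  have hgG : g ⊆ G := by
    have h1 : IsOpen (⋃ z ∈ G, U z) := isOpen_biUnion fun z hz => hUo z hz
    have h2 : IsPreconnected g := isPreconnected_connectedComponentIn
    have h3 := isPreconnected_iff_subset_of_disjoint.1 h2 (⋃ z ∈ G, U z) Gᶜ h1
      hGc.isOpen_compl ?_ ?_
    · rcases h3 with h3 | h3
      · intro w hw
        obtain ⟨z, hz, hw2⟩ := Set.mem_iUnion₂.1 (h3 hw)
        exact hUG z hz ⟨hgM hw, hw2⟩
      · exact absurd hxG (h3 (mem_connectedComponentIn hxM))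
    · intro w _
      by_cases hw : w ∈ G
      · exact Or.inl (Set.mem_iUnion₂.2 ⟨w, hw, hUm w hw⟩)
      · exact Or.inr hw
    · refine Set.eq_empty_iff_forall_notMem.2 ?_
      rintro w ⟨hw1, hw2, hw3⟩
      obtain ⟨z, hz, hw4⟩ := Set.mem_iUnion₂.1 hw2
      exact hw3 (hUG z hz ⟨hgM hw1, hw4⟩)
  refine ⟨fun w hw => (hgG hw).1, fun z hz => ⟨(hgG hz).2, U z, hUo z (hgG hz),
    hUm z (hgG hz), ?_⟩⟩
  have h4 : g = connectedComponentIn M z := connectedComponentIn_eq hz
  rw [h4]
  exact (hUc z (hgG hz)).subset_connectedComponentIn ⟨hgM hz, hUm z (hgG hz)⟩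
    Set.inter_subset_left

end KR
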