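import Pool.Agent.KR.F_Defs

/-!
# KR, block F: in a model neighbourhood everything is determined by the signs
-/

set_option autoImplicit false

open MvPolynomial Pool.Agent.MP_5a1161_co

namespace KR

variable {d s : ℕ} {ι : Type}

/-- PROOF.  Let `W` be a neighbourhood of `z`.  The set of the `w ∈ U₀` with the same sign as `y`
for every `a ∈ act D x` with `P a y ≠ 0` is a neighbourhood of `y` (`ι` finite, continuity of `pv`),
so it contains a point `w ∈ X` (`y ∈ closure X`).  For `a ∈ act D x` with `P a z ≠ 0` also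
`P a y ≠ 0` (same sign) and `w` has the sign of `y`, so that of `z`.  So `hM.clos w z` applies:
`z ∈ closure (Sec D (act D x) U₀ w)`, and there is `w' ∈ W ∩ U₀` with the signs of `w`; `hX`:
`w' ∈ X`. -/
theorem Mod.closure_mem [Finite ι] {D : ι → Desc d s} {x : Sp d} {U₀ : Set (Sp d)}
    (hM : Mod D x U₀) {X : Set (Sp d)}
    (hX : ∀ y ∈ U₀, ∀ z ∈ U₀, Same D (act D x) y z → y ∈ X → z ∈ X) {y z : Sp d} (hy : y ∈ U₀)
    (hz : z ∈ U₀) (hyz : Same D (act D x) y z) (h : y ∈ closure X) : z ∈ closure X := by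
  classical
  have : Fintype ι := Fintype.ofFinite ι
  rw [mem_closure_iff_nhds]
  intro W hW
  have hN : {w | w ∈ U₀ ∧ ∀ a ∈ act D x, pv ((D a.1).P a.2) y ≠ 0 →
      SignType.sign (pv ((D a.1).P a.2) w) = SignType.sign (pv ((D a.1).P a.2) y)} ∈ nhds y := by
    refine Filter.inter_mem (hM.isOpen.mem_nhds hy) ?_
    change {w | ∀ a ∈ act D x, pv ((D a.1).P a.2) y ≠ 0 →
      SignType.sign (pv ((D a.1).P a.2) w) = SignType.sign (pv ((D a.1).P a.2) y)} ∈ nhds y
    have h1 : ∀ a : ι × Fin s, ∀ᶠ w in nhds y, a ∈ act D x → pv ((D a.1).P a.2) y ≠ 0 →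
        SignType.sign (pv ((D a.1).P a.2) w) = SignType.sign (pv ((D a.1).P a.2) y) := by
      intro a
      by_cases h0 : pv ((D a.1).P a.2) y = 0
      · exact Filter.Eventually.of_forall fun w _ h2 => absurd h0 h2
      · rcases lt_or_gt_of_ne h0 with h2 | h2
        · filter_upwards [(pv_cont ((D a.1).P a.2)).continuousAt.eventually_lt
            continuousAt_const h2] with w hw _ _
          rw [sign_neg h2, sign_neg hw]
        · filter_upwards [continuousAt_const.eventually_lt
            (pv_cont ((D a.1).P a.2)).continuousAt h2] with w hw _ _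
          rw [sign_pos h2, sign_pos hw]
    have h2 := Filter.eventually_all.2 h1
    filter_upwards [h2] with w hw a ha h0
    exact hw a ha h0
  obtain ⟨w, ⟨hwU, hws⟩, hwX⟩ := mem_closure_iff_nhds.1 h _ hN
  have hcl : z ∈ closure (Sec D (act D x) U₀ w) := by
    refine hM.clos w z hz fun a ha h0 => ?_
    have h1 := hyz a ha
    have h2 : pv ((D a.1).P a.2) y ≠ 0 := by
      intro h3
      rw [h3, sign_zero, sign_eq_zero_iff] at h1
      exact h0 h1
    rw [hws a ha h2, h1]
  obtain ⟨w', hw'W, hw'U, hw's⟩ := mem_closure_iff_nhds.1 hcl W hW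
  exact ⟨w', hw'W, hX w hwU w' hw'U hw's hwX⟩

/-- PROOF.  `frontier = closure ∩ closure of the complement` (`frontier_eq_closure_inter_closure`);
`closure_mem` for the body and its complement (`hM.memb`), in both directions (`Same` is
symmetric). -/
theorem Mod.frontier_iff [Finite ι] {D : ι → Desc d s} {x : Sp d} {U₀ : Set (Sp d)}
    (hM : Mod D x U₀) {y z : Sp d} (hy : y ∈ U₀) (hz : z ∈ U₀) (hyz : Same D (act D x) y z)
    (i : ι) : y ∈ frontier (D i).set ↔ z ∈ frontier (D i).set := by
  have hsym : ∀ {y z : Sp d}, Same D (act D x) y z → Same D (act D x) z y :=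
    fun h a ha => (h a ha).symm
  have key : ∀ {y z : Sp d}, y ∈ U₀ → z ∈ U₀ → Same D (act D x) y z →
      y ∈ frontier (D i).set → z ∈ frontier (D i).set := by
    intro y z hy hz hyz h
    rw [frontier_eq_closure_inter_closure] at h ⊢
    exact ⟨hM.closure_mem (fun u hu v hv huv h1 => (hM.memb u hu v hv huv i).1 h1) hy hz hyz h.1,
      hM.closure_mem (X := ((D i).set)ᶜ)
        (fun u hu v hv huv h1 h2 => h1 ((hM.memb u hu v hv huv i).2 h2)) hy hz hyz h.2⟩
  exact ⟨key hy hz hyz, key hz hy (hsym hyz)⟩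

/-- PROOF.  The same for the union (membership in the union is membership in some body). -/
theorem Mod.frontierU_iff [Finite ι] {D : ι → Desc d s} {x : Sp d} {U₀ : Set (Sp d)}
    (hM : Mod D x U₀) {y z : Sp d} (hy : y ∈ U₀) (hz : z ∈ U₀) (hyz : Same D (act D x) y z) :
    y ∈ frontier (Un D) ↔ z ∈ frontier (Un D) := by
  have hsym : ∀ {y z : Sp d}, Same D (act D x) y z → Same D (act D x) z y :=
    fun h a ha => (h a ha).symm
  have hmem : ∀ u ∈ U₀, ∀ v ∈ U₀, Same D (act D x) u v → u ∈ Un D → v ∈ Un D := by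
    intro u hu v hv huv h
    obtain ⟨i, hi⟩ := Set.mem_iUnion.1 h
    exact Set.mem_iUnion.2 ⟨i, (hM.memb u hu v hv huv i).1 hi⟩
  have key : ∀ {y z : Sp d}, y ∈ U₀ → z ∈ U₀ → Same D (act D x) y z →
      y ∈ frontier (Un D) → z ∈ frontier (Un D) := by
    intro y z hy hz hyz h
    rw [frontier_eq_closure_inter_closure] at h ⊢
    exact ⟨hM.closure_mem hmem hy hz hyz h.1,
      hM.closure_mem (X := (Un D)ᶜ)
        (fun u hu v hv huv h1 h2 => h1 (hmem v hv u hu (hsym huv) h2)) hy hz hyz h.2⟩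
  exact ⟨key hy hz hyz, key hz hy (hsym hyz)⟩

/-- PROOF.  `a = (i, l)` with `y ∈ frontier (D i).set`, `P i l y = 0`: then `x` is in the frontier
by `hM.front` and `P i l x = 0` by `hM.nz`, so `a ∈ act D x`.  Now `frontier_iff` and the equality of
the signs (`sign = 0` iff the value is `0`), in both directions. -/
theorem Mod.act_eq [Finite ι] {D : ι → Desc d s} {x : Sp d} {U₀ : Set (Sp d)}
    (hM : Mod D x U₀) {y z : Sp d} (hy : y ∈ U₀) (hz : z ∈ U₀) (hyz : Same D (act D x) y z) :
    act D z = act D y := by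
  have hsym : ∀ {y z : Sp d}, Same D (act D x) y z → Same D (act D x) z y :=
    fun h a ha => (h a ha).symm
  have key : ∀ {y z : Sp d}, y ∈ U₀ → z ∈ U₀ → Same D (act D x) y z →
      act D y ⊆ act D z := by
    intro y z hy hz hyz a ha
    have h1 : x ∈ frontier (D a.1).set := by
      by_contra h2
      exact hM.front a.1 h2 y hy ha.1
    have h3 : pv ((D a.1).P a.2) x = 0 := by
      by_contra h2
      exact hM.nz a.1 a.2 h1 h2 y hy ha.2
    have h4 := hyz a ⟨h1, h3⟩
    rw [ha.2, sign_zero, sign_eq_zero_iff] at h4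
    exact ⟨(hM.frontier_iff hy hz hyz a.1).1 ha.1, h4⟩
  exact Set.Subset.antisymm (key hz hy (hsym hyz)) (key hy hz hyz)

end KR
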