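import Pool.Agent.KR.F_Main
import Pool.Agent.KR.F_FullV
import Pool.Agent.KR.Tops

/-!
# KR, block F: the bound for the faces of all dimensions
-/

set_option autoImplicit false

open MvPolynomial Pool.Agent.MP_5a1161_co

namespace KR

variable {d s : ℕ} {ι : Type}

/-- PROOF.  `Faces D` is the image of `FineFaces D`: let `φ f` be the coarse component of a chosen
point of `f` (`f` is nonempty).  If `F` is the coarse component of `x`, let `f = face D x` and let
`y ∈ f` be the chosen point: `act D y = act D x` (`face_eq`), so `bdl D y = bdl D x` (`bdl D y` is the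
set of the first components of `act D y`, `exists_zero`), the strata of `x` and `y` are the same
set, `f` is preconnected, contained in the coarse stratum and contains `x` and `y`, so
`y ∈ F` and `φ f = F` (`connectedComponentIn_eq`).  `Set.Finite.subset`, `Set.ncard_image_le`. -/
theorem coarse_le {D : ι → Desc d s} (hF : (FineFaces D).Finite) :
    (Faces D).Finite ∧ (Faces D).ncard ≤ (FineFaces D).ncard := by
  classical
  have hbdl : ∀ y z : Sp d, act D y = act D z → bdl D y = bdl D z := by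
    have h1 : ∀ y : Sp d, bdl D y = {i | ∃ l, (i, l) ∈ act D y} := by
      intro y
      ext i
      constructor
      · intro hi
        obtain ⟨l, hl⟩ := exists_zero hi
        exact ⟨l, hi, hl⟩
      · rintro ⟨l, hl⟩
        exact hl.1
    intro y z h
    rw [h1, h1, h]
  obtain ⟨φ, hφ⟩ : ∃ φ : Set (Sp d) → Set (Sp d), ∀ (f : Set (Sp d)) (h : f.Nonempty), φ f =
      connectedComponentIn {y | y ∈ frontier (Un D) ∧ bdl D y = bdl D h.some} h.some := by
    refine ⟨fun f => if h : f.Nonempty then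
      connectedComponentIn {y | y ∈ frontier (Un D) ∧ bdl D y = bdl D h.some} h.some else ∅,
      fun f h => dif_pos h⟩
  have hsub : Faces D ⊆ φ '' FineFaces D := by
    rintro F ⟨x, hx, rfl⟩
    have hxs : x ∈ stratum D x := ⟨hx, rfl⟩
    have hxf : x ∈ face D x := mem_connectedComponentIn hxs
    refine ⟨face D x, ⟨x, hx, rfl⟩, ?_⟩
    have hne : (face D x).Nonempty := ⟨x, hxf⟩
    rw [hφ _ hne]
    have hy : hne.some ∈ face D x := hne.some_mem
    have hsubC : face D x ⊆ {y | y ∈ frontier (Un D) ∧ bdl D y = bdl D x} := by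
      intro z hz
      have h1 : z ∈ stratum D x := connectedComponentIn_subset _ _ hz
      exact ⟨h1.1, hbdl _ _ h1.2⟩
    have hb : bdl D hne.some = bdl D x := (hsubC hy).2
    rw [hb]
    have h2 : face D x ⊆ connectedComponentIn {y | y ∈ frontier (Un D) ∧ bdl D y = bdl D x} x :=
      isPreconnected_connectedComponentIn.subset_connectedComponentIn hxf hsubC
    exact (connectedComponentIn_eq (h2 hy)).symm
  exact ⟨(hF.image φ).subset hsub, (Set.ncard_le_ncard hsub (hF.image φ)).trans
    (Set.ncard_image_le hF)⟩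

/-- PROOF.  If `ι` is empty then `Un D = ∅` and there are no faces.  Otherwise `faces_le` with
`d = N + 1 ≥ 2` bounds all finite sets of fine faces, so `FineFaces D` is finite and has at most
`3^d |FullV D| + 3^d (...) n^N` elements; `FullV D ⊆ {v | ∃ T l, RegV D T l v}` (`fullV_regV`),
whose number is at most `C n^(N+ρ)`, and `n^N ≤ n^(N+ρ)` (`n ≥ 1`, `ρ > 0`). -/
theorem u2 (N s b : ℕ) (κ ρ : ℝ) (hN : 1 ≤ N) (hρ : 0 < ρ) (h1 : U1Statement N s b κ ρ) :
    U2Statement N s b κ ρ := by
  obtain ⟨C, hC, h1⟩ := h1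
  refine ⟨3 ^ (N + 1) * C + 3 ^ (N + 1) * (((N + 1) * (2 * b) + 1) ^ (N + 1) * 2 ^ (N * s)),
    by positivity, ?_⟩
  intro ι _ _ D hR hG
  rcases isEmpty_or_nonempty ι with hι | hι
  · have hUn : frontier (Un D) = ∅ := by
      have h2 : Un D = ∅ := Set.iUnion_of_empty _
      rw [h2, frontier_empty]
    have h2 : FineFaces D = ∅ := by
      rw [Set.eq_empty_iff_forall_notMem]
      rintro f ⟨x, hx, -⟩
      rw [hUn] at hx
      exact hx
    have h3 := coarse_le (D := D) (by rw [h2]; exact Set.finite_empty)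
    refine ⟨by rw [h2]; exact Set.finite_empty, h3.1, h3.2, ?_⟩
    rw [h2, Set.ncard_empty, Nat.cast_zero]
    positivity
  · obtain ⟨hfin, hcard⟩ := h1 ι D hR
    have hc : ∀ i, IsCompact (D i).set := fun i => (hR i).1.compact
    have hsubV : FullV D ⊆ {v | ∃ T l, RegV D T l v} := fun x hx =>
      fullV_regV (Nat.succ_pos N) (fun i => (hc i).isClosed) hG hx
    have hVfin : (FullV D).Finite := hfin.subset hsubV
    have key : ∀ F : Finset (Set (Sp (N + 1))), (∀ f ∈ F, f ∈ FineFaces D) → F.card ≤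
        3 ^ (N + 1) * (FullV D).ncard + 3 ^ (N + 1) * (((N + 1) * (2 * b) + 1) ^ (N + 1) *
          ((Fintype.card ι) ^ N * 2 ^ (N * s))) := fun F hF =>
      faces_le (N + 1) s b (by omega) ι hc (fun i l => (hR i).2 l) hG hVfin F hF
    have hFfin : (FineFaces D).Finite := by
      by_contra hinf
      obtain ⟨F, hF1, hF2⟩ := Set.Infinite.exists_subset_card_eq hinf
        (3 ^ (N + 1) * (FullV D).ncard + 3 ^ (N + 1) * (((N + 1) * (2 * b) + 1) ^ (N + 1) *
          ((Fintype.card ι) ^ N * 2 ^ (N * s))) + 1)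
      have h2 := key F fun f hf => hF1 (Finset.mem_coe.2 hf)
      omega
    have h3 := coarse_le hFfin
    refine ⟨hFfin, h3.1, h3.2, ?_⟩
    have h4 : (FineFaces D).ncard ≤ 3 ^ (N + 1) * (FullV D).ncard +
        3 ^ (N + 1) * (((N + 1) * (2 * b) + 1) ^ (N + 1) * ((Fintype.card ι) ^ N * 2 ^ (N * s))) := by
      rw [Set.ncard_eq_toFinset_card _ hFfin]
      exact key _ fun f hf => (Set.Finite.mem_toFinset hFfin).1 hf
    have h5 : ((FullV D).ncard : ℝ) ≤ C * (Fintype.card ι : ℝ) ^ ((N : ℝ) + ρ) := by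
      refine le_trans ?_ hcard
      exact_mod_cast Set.ncard_le_ncard hsubV hfin
    have hn : (1 : ℝ) ≤ Fintype.card ι := by exact_mod_cast Fintype.card_pos
    have h6 : (Fintype.card ι : ℝ) ^ N ≤ (Fintype.card ι : ℝ) ^ ((N : ℝ) + ρ) := by
      rw [← Real.rpow_natCast]
      exact Real.rpow_le_rpow_of_exponent_le hn (by linarith)
    have h7 : ((FineFaces D).ncard : ℝ) ≤ 3 ^ (N + 1) * ((FullV D).ncard : ℝ) +
        3 ^ (N + 1) * (((N + 1) * (2 * b) + 1) ^ (N + 1) * ((Fintype.card ι : ℝ) ^ N * 2 ^ (N * s))) := by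
      exact_mod_cast h4
    calc ((FineFaces D).ncard : ℝ) ≤ 3 ^ (N + 1) * ((FullV D).ncard : ℝ) +
        3 ^ (N + 1) * (((N + 1) * (2 * b) + 1) ^ (N + 1) * ((Fintype.card ι : ℝ) ^ N * 2 ^ (N * s))) := h7
      _ ≤ 3 ^ (N + 1) * (C * (Fintype.card ι : ℝ) ^ ((N : ℝ) + ρ)) +
        3 ^ (N + 1) * (((N + 1) * (2 * b) + 1) ^ (N + 1) *
          ((Fintype.card ι : ℝ) ^ ((N : ℝ) + ρ) * 2 ^ (N * s))) := by gcongr
      _ = _ := by ring

end KR
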