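import Pool.Agent.KR.F_Defs

/-!
# KR, block F: boundary points are zeros
-/

set_option autoImplicit false

open MvPolynomial Pool.Agent.MP_5a1161_co

namespace KR

variable {d s : ℕ} {ι : Type}

/-- PROOF.  Otherwise all `P i l y` are not 0, so their signs are constant near `y` (`pv_cont`), so
membership in the body is constant near `y`, and `y` is not in the frontier. -/
theorem exists_zero {D : Desc d s} {y : Sp d} (hy : y ∈ frontier D.set) :
    ∃ l, pv (D.P l) y = 0 := by
  by_contra hcon
  push Not at hcon
  have h1 : ∀ l, ∀ᶠ z in nhds y, SignType.sign (pv (D.P l) z) = SignType.sign (pv (D.P l) y) := by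
    intro l
    rcases lt_or_gt_of_ne (hcon l) with h2 | h2
    · filter_upwards [(pv_cont (D.P l)).continuousAt.eventually_lt continuousAt_const h2]
        with w hw
      rw [sign_neg h2, sign_neg hw]
    · filter_upwards [continuousAt_const.eventually_lt (pv_cont (D.P l)).continuousAt h2]
        with w hw
      rw [sign_pos h2, sign_pos hw]
  have h2 : ∀ᶠ z in nhds y, (z ∈ D.set ↔ y ∈ D.set) := by
    filter_upwards [Filter.eventually_all.2 h1] with z hz
    change D.Φ (fun j => SignType.sign (pv (D.P j) z)) ↔
      D.Φ (fun j => SignType.sign (pv (D.P j) y))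
    rw [show (fun j => SignType.sign (pv (D.P j) z)) = fun j => SignType.sign (pv (D.P j) y) from
      funext hz]
  rw [frontier_eq_closure_inter_closure] at hy
  obtain ⟨z, hz1, hz2⟩ := mem_closure_iff_nhds.1 hy.1 _ h2
  obtain ⟨w, hw1, hw2⟩ := mem_closure_iff_nhds.1 hy.2 _ h2
  exact hw2 (hw1.2 (hz1.1 hz2))

end KR
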