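import Pool.Agent.KR.Tops
import Pool.Agent.KR.F_Zero
import Pool.Agent.KR.F_Chart

/-!
# KR, block F: regular vertices are faces
-/

set_option autoImplicit false

open MvPolynomial Pool.Agent.MP_5a1161_co

namespace KR

variable {d s : ℕ} {ι : Type}

/-- Near `v` the signs of the polynomials that do not vanish at `v` are constant. -/
private theorem F_Vert_sign (Q : MvPolynomial (Fin d) ℝ) (v : Sp d) (h : pv Q v ≠ 0) :
    ∀ᶠ y in nhds v, SignType.sign (pv Q y) = SignType.sign (pv Q v) := by
  rcases lt_or_gt_of_ne h with h1 | h1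
  · have h2 : ∀ᶠ y in nhds v, pv Q y < 0 := (pv_cont Q).continuousAt.eventually_lt_const h1
    filter_upwards [h2] with y hy
    rw [sign_neg hy, sign_neg h1]
  · have h2 : ∀ᶠ y in nhds v, 0 < pv Q y := (pv_cont Q).continuousAt.eventually_const_lt h1
    filter_upwards [h2] with y hy
    rw [sign_pos hy, sign_pos h1]

/-- Near a regular vertex the body `i` is determined by the sign of one polynomial. -/
private theorem F_Vert_memb {D : ι → Desc d s} {T : Finset ι} {l : ι → Fin s} {v : Sp d}
    (hv : RegV D T l v) (i : ι) (hi : i ∈ T) :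
    ∀ᶠ y in nhds v, (y ∈ (D i).set ↔ (D i).Φ (Function.update
      (fun j => SignType.sign (pv ((D i).P j) v)) (l i)
        (SignType.sign (pv ((D i).P (l i)) y)))) := by
  have h1 : ∀ j, ∀ᶠ y in nhds v, j ≠ l i →
      SignType.sign (pv ((D i).P j) y) = SignType.sign (pv ((D i).P j) v) := by
    intro j
    by_cases hj : j = l i
    · exact Filter.Eventually.of_forall fun y h => absurd hj h
    · have h2 : pv ((D i).P j) v ≠ 0 := fun h => hj ((hv.zero i hi j).1 h)
      filter_upwards [F_Vert_sign _ v h2] with y hy _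
      exact hy
  filter_upwards [Filter.eventually_all.2 h1] with y hy
  change (D i).Φ (fun j => SignType.sign (pv ((D i).P j) y)) ↔ _
  have h3 : (fun j => SignType.sign (pv ((D i).P j) y)) = Function.update
      (fun j => SignType.sign (pv ((D i).P j) v)) (l i)
        (SignType.sign (pv ((D i).P (l i)) y)) := by
    funext j
    by_cases hj : j = l i
    · subst hj
      rw [Function.update_self]
    · rw [Function.update_of_ne hj]
      exact hy j hj
  rw [h3]

/-- PROOF.  `v` is in the union and not in its interior: for `i ∈ T` the body is determined near `v`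
by the sign of `P i (l i)` (the other polynomials do not vanish at `v`), and `v` is in the frontier,
so there is a sign `ε i` (`1` or `-1`; not `0`, as `v ∈ (D i).set`) such that the points near `v`
with this sign of `P i (l i)` are not in the body `i`.  By `chart` (with `V` small; the bodies which
do not contain `v` do not meet `V`), `v` is in the closure of the set of the points with the signs
`ε i` for all `i ∈ T`, and these are in no body. -/
theorem regV_frontier [Fintype ι] [DecidableEq ι] {D : ι → Desc d s}
    (hc : ∀ i, IsClosed (D i).set) {T : Finset ι} {l : ι → Fin s} {v : Sp d} (hd : 0 < d)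
    (hv : RegV D T l v) : v ∈ frontier (Un D) := by
  classical
  have hT : T.Nonempty := by
    rw [← Finset.card_pos, hv.card]
    exact hd
  -- the signs
  have h1 : ∀ i ∈ T, ∃ ε : SignType, ¬ (D i).Φ (Function.update
      (fun j => SignType.sign (pv ((D i).P j) v)) (l i) ε) := by
    intro i hi
    have h2 := (hv.front i hi)
    rw [frontier_eq_closure_inter_closure] at h2
    have h3 := mem_closure_iff_frequently.1 h2.2
    obtain ⟨y, hy1, hy2⟩ := (h3.and_eventually (F_Vert_memb hv i hi)).exists
    exact ⟨_, fun h => hy1 (hy2.2 h)⟩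
  choose ε hε using h1
  -- the neighbourhood
  have h4 : ∀ i, ∀ᶠ y in nhds v, (∀ _ : i ∈ T, (y ∈ (D i).set ↔ (D i).Φ (Function.update
      (fun j => SignType.sign (pv ((D i).P j) v)) (l i)
        (SignType.sign (pv ((D i).P (l i)) y))))) ∧ (i ∉ T → y ∉ (D i).set) := by
    intro i
    by_cases hi : i ∈ T
    · filter_upwards [F_Vert_memb hv i hi] with y hy
      exact ⟨fun _ => hy, fun h => absurd hi h⟩
    · have h5 : v ∉ (D i).set := fun h => hi ((hv.mem i).1 h)
      filter_upwards [(hc i).isOpen_compl.mem_nhds h5] with y hy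
      exact ⟨fun h => absurd h hi, fun _ => hy⟩
  have h5 := Filter.eventually_all.2 h4
  obtain ⟨U, -, hvU, hUV, hU⟩ := chart (κ := T)
    (fun a y => pv ((D a.1).P (l a.1)) y) (fun a => fderiv ℝ (pv ((D a.1).P (l a.1))) v) v
    (fun a => pv_strict _ v) hv.indep (fun a => (hv.zero a.1 a.2 _).2 rfl) _ h5
  have h6 := (hU fun a => ε a.1 a.2).2 v hvU
    (fun a ha => absurd ((hv.zero a.1 a.2 _).2 rfl) ha)
  rw [frontier_eq_closure_inter_closure]
  constructor
  · obtain ⟨i, hi⟩ := hT
    exact subset_closure (Set.mem_iUnion.2 ⟨i, (hv.mem i).2 hi⟩)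
  · refine closure_mono ?_ h6
    rintro z ⟨hz1, hz2⟩ hz3
    obtain ⟨i, hi⟩ := Set.mem_iUnion.1 hz3
    have h7 := hUV hz1 i
    by_cases hiT : i ∈ T
    · have h8 := (h7.1 hiT).1 hi
      have h9 := hz2 ⟨i, hiT⟩
      rw [h9] at h8
      exact hε i hiT h8
    · exact h7.2 hiT hi

/-- PROOF.  `bdl D v = T` (as a set: `v` is in the frontier of the body `i` iff `i ∈ T`).  If
`y ≠ v` is near `v` and `bdl D y = T` then for `i ∈ T`: `y` is in the frontier of the body `i`, so
some `P i l' y = 0` (`exists_zero`), near `v` only `l' = l i` is possible.  But the map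
`y ↦ (P i (l i) y)`, `i ∈ T`, has an injective derivative at `v` (`card T = d` independent linear
forms on a space of dimension `d`), so `HasFDerivAt.eventually_ne`: it is not 0 for `y ≠ v` near
`v`.  So `v` is isolated in the stratum, and its component is `{v}` (a preconnected subset of the
stratum which contains `v` is contained in `{v}`: `isPreconnected_iff_subset_of_disjoint` or
`IsPreconnected.subset_left_of_subset_union` with the open sets `W` and `{v}ᶜ`).
`regV_frontier`. -/
theorem vert_face (N s b : ℕ) (κ : ℝ) : VertFaceStatement N s b κ := by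
  classical
  intro ι _ _ D hD T l v hv
  have hc : ∀ i, IsClosed (D i).set := fun i => (hD i).1.compact.isClosed
  have hvf : v ∈ frontier (Un D) := regV_frontier hc (Nat.succ_pos N) hv
  refine ⟨v, hvf, ?_⟩
  set S : Set (Sp (N + 1)) := {y | y ∈ frontier (Un D) ∧ bdl D y = bdl D v} with hS
  have hvS : v ∈ S := ⟨hvf, rfl⟩
  -- the map to R^T
  set F : Sp (N + 1) → (T → ℝ) := fun y a => pv ((D a.1).P (l a.1)) y with hF
  set F' : Sp (N + 1) →L[ℝ] (T → ℝ) :=
    ContinuousLinearMap.pi fun a : T => fderiv ℝ (pv ((D a.1).P (l a.1))) v with hF'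
  have hFd : HasFDerivAt F F' v :=
    hasFDerivAt_pi.2 fun a => (pv_strict ((D a.1).P (l a.1)) v).hasFDerivAt
  have hFv : F v = 0 := funext fun a => (hv.zero a.1 a.2 _).2 rfl
  have hsurj : Function.Surjective F' := F_Chart_surj _ hv.indep
  have hfr : Module.finrank ℝ (Sp (N + 1)) = Module.finrank ℝ (T → ℝ) := by
    rw [finrank_euclideanSpace, Fintype.card_fin, Module.finrank_fintype_fun_eq_card,
      Fintype.card_coe, hv.card]
  have hinj : Function.Injective F' := by
    have h1 : Function.Injective (F' : Sp (N + 1) →ₗ[ℝ] (T → ℝ)) :=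
      (LinearMap.injective_iff_surjective_of_finrank_eq_finrank hfr).2 hsurj
    exact h1
  obtain ⟨K, -, hK⟩ := (LinearMap.injective_iff_antilipschitz
    (F' : Sp (N + 1) →ₗ[ℝ] (T → ℝ))).1 hinj
  have hne : ∀ᶠ z in nhdsWithin v {v}ᶜ, F z ≠ F v := by
    exact hFd.eventually_ne ⟨K, hK⟩
  have h2 : ∀ i, ∀ᶠ y in nhds v, i ∈ T → ∀ l', l' ≠ l i → pv ((D i).P l') y ≠ 0 := by
    intro i
    by_cases hi : i ∈ T
    · have h3 : ∀ l', ∀ᶠ y in nhds v, l' ≠ l i → pv ((D i).P l') y ≠ 0 := by
        intro l'
        by_cases hl : l' = l i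
        · exact Filter.Eventually.of_forall fun y h => absurd hl h
        · have h4 : pv ((D i).P l') v ≠ 0 := fun h => hl ((hv.zero i hi l').1 h)
          filter_upwards [(pv_cont ((D i).P l')).continuousAt.eventually_ne h4] with y hy _
          exact hy
      filter_upwards [Filter.eventually_all.2 h3] with y hy _
      exact hy
    · exact Filter.Eventually.of_forall fun y h => absurd h hi
  have h3 := Filter.eventually_all.2 h2
  rw [eventually_nhdsWithin_iff] at hne
  obtain ⟨W, hW1, hW2, hW3⟩ := mem_nhds_iff.1 (hne.and h3)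
  have hSW : ∀ y ∈ S, y ∈ W → y = v := by
    intro y hy hyW
    by_contra hyv
    obtain ⟨h4, h5⟩ := hW1 hyW
    refine h4 hyv ?_
    rw [hFv]
    funext a
    have h6 : a.1 ∈ bdl D y := by
      rw [hy.2]
      exact hv.front a.1 a.2
    obtain ⟨l', hl'⟩ := exists_zero h6
    by_cases hl : l' = l a.1
    · rw [hl] at hl'
      exact hl'
    · exact absurd hl' (h5 a.1 a.2 l' hl)
  -- the component
  refine Set.Subset.antisymm ?_ ?_
  · rintro y rfl
    exact mem_connectedComponentIn hvS
  · intro y hy
    by_contra hyv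
    have hpre : IsPreconnected (connectedComponentIn S v) := isPreconnected_connectedComponentIn
    obtain ⟨z, hz1, hz2, hz3⟩ := hpre W {v}ᶜ hW2 isOpen_compl_singleton
      (fun z _ => by
        by_cases hzv : z = v
        · left
          rw [hzv]
          exact hW3
        · right
          exact hzv) ⟨v, mem_connectedComponentIn hvS, hW3⟩ ⟨y, hy, hyv⟩
    exact hz3 (hSW z (connectedComponentIn_subset S v hz1) hz2)

end KR
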