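import Pool.Agent.KR.L_Loc

open MvPolynomial Metric Filter Topology Pool.Agent.MP_5a1161_co
open UC (E)

namespace KR

/-- The square of the norm of a difference after a step. -/
private theorem l_ball_sq {d : ℕ} (x z v : Sp d) (t : ℝ) :
    ‖x + t • v - z‖ ^ 2 = ‖x - z‖ ^ 2 - 2 * t * inner ℝ (z - x) v + t ^ 2 * ‖v‖ ^ 2 := by
  have h1 : x + t • v - z = (x - z) + t • v := by abel
  rw [h1, norm_add_sq_real, inner_smul_right, norm_smul, Real.norm_eq_abs, mul_pow, sq_abs]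
  have h2 : inner ℝ (x - z) v = - inner ℝ (z - x) v := by
    rw [← inner_neg_left, neg_sub]
  rw [h2]
  ring

private theorem l_ball_dist {d s : ℕ} (D : Desc d s) (l : Fin s) (τ : SignType)
    (σ : Fin s → SignType) (x : Sp d) (ha : Adm D l τ σ) (ht : Typ D l σ x) (z : Sp d) (r : ℝ)
    (hz : closedBall z r ⊆ D.set) (hx : x ∈ closedBall z r) : ‖x - z‖ = r := by
  have h1 : dist x z ≤ r := mem_closedBall.mp hx
  rcases h1.lt_or_eq with h | h
  · exfalso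
    have h2 : x ∈ interior D.set := by
      refine interior_mono hz ?_
      exact ball_subset_interior_closedBall (mem_ball.mpr h)
    exact (typ_frontier D l τ σ x ha ht).2 h2
  · rw [← h, dist_eq_norm]

private theorem l_ball_a {d s : ℕ} (D : Desc d s) (l : Fin s) (τ : SignType)
    (σ : Fin s → SignType) (x : Sp d) (ha : Adm D l τ σ) (ht : Typ D l σ x) (z : Sp d) (r : ℝ)
    (hr : 0 < r) (hz : closedBall z r ⊆ D.set) (hx : x ∈ closedBall z r) (v : Sp d)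
    (hv : 0 < inner ℝ (z - x) v) : 0 ≤ (τ : ℝ) * fderiv ℝ (pv (D.P l)) x v := by
  have hd : ‖x - z‖ = r := l_ball_dist D l τ σ x ha ht z r hz hx
  have hf : HasFDerivAt (pv (D.P l)) (fderiv ℝ (pv (D.P l)) x) x :=
    ((pv_contDiff (D.P l) 1).differentiable one_ne_zero x).hasFDerivAt
  have hl : HasDerivAt (fun t : ℝ => pv (D.P l) (x + t • v)) (fderiv ℝ (pv (D.P l)) x v) 0 :=
    hf.hasLineDerivAt v
  have hg : HasDerivAt (fun t : ℝ => (τ : ℝ) * pv (D.P l) (x + t • v))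
      ((τ : ℝ) * fderiv ℝ (pv (D.P l)) x v) 0 := hl.const_mul _
  have hs := hasDerivAt_iff_tendsto_slope.mp hg
  have hs2 : Tendsto (slope (fun t : ℝ => (τ : ℝ) * pv (D.P l) (x + t • v)) 0) (𝓝[>] 0)
      (𝓝 ((τ : ℝ) * fderiv ℝ (pv (D.P l)) x v)) := by
    refine hs.mono_left (nhdsWithin_mono 0 ?_)
    intro t ht0
    exact ne_of_gt ht0
  have hc1 : Tendsto (fun t : ℝ => x + t • v) (𝓝 0) (𝓝 x) := by
    have hcc : Continuous (fun t : ℝ => x + t • v) := by fun_prop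
    have := hcc.tendsto 0
    simpa using this
  have he1 : ∀ᶠ t : ℝ in 𝓝[>] 0, (x + t • v ∈ D.set ↔ 0 ≤ (τ : ℝ) * pv (D.P l) (x + t • v)) :=
    nhdsWithin_le_nhds (hc1.eventually (typ_local D l τ σ x ha ht))
  have he2 : ∀ᶠ t : ℝ in 𝓝[>] 0, t * ‖v‖ ^ 2 < 2 * inner ℝ (z - x) v := by
    have hc2 : Tendsto (fun t : ℝ => t * ‖v‖ ^ 2) (𝓝 0) (𝓝 (0 * ‖v‖ ^ 2)) := by
      have hcc : Continuous (fun t : ℝ => t * ‖v‖ ^ 2) := by fun_prop
      exact hcc.tendsto 0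
    rw [zero_mul] at hc2
    exact nhdsWithin_le_nhds (hc2.eventually (eventually_lt_nhds (by linarith)))
  have he3 : ∀ᶠ t : ℝ in 𝓝[>] 0, (0 : ℝ) < t := eventually_mem_nhdsWithin
  refine ge_of_tendsto hs2 ?_
  filter_upwards [he1, he2, he3] with t h1 h2 h3
  have hmem : x + t • v ∈ D.set := by
    apply hz
    rw [mem_closedBall, dist_eq_norm]
    have h4 : ‖x + t • v - z‖ ^ 2 ≤ r ^ 2 := by
      rw [l_ball_sq, hd]
      nlinarith
    exact le_of_sq_le_sq h4 hr.le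
  have h5 := h1.mp hmem
  have h6 : (τ : ℝ) * pv (D.P l) (x + (0 : ℝ) • v) = 0 := by
    rw [zero_smul, add_zero, ht.zero, mul_zero]
  rw [slope_def_field]
  rw [h6, sub_zero, sub_zero]
  exact div_nonneg h5 h3.le

private theorem l_ball_b {d s : ℕ} (D : Desc d s) (l : Fin s) (τ : SignType)
    (σ : Fin s → SignType) (x : Sp d) (ha : Adm D l τ σ) (ht : Typ D l σ x) (z : Sp d) (r : ℝ)
    (hr : 0 < r) (hz : closedBall z r ⊆ D.set) (hx : x ∈ closedBall z r) (v : Sp d)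
    (hv : inner ℝ (z - x) v = 0) : 0 ≤ (τ : ℝ) * fderiv ℝ (pv (D.P l)) x v := by
  have hd : ‖x - z‖ = r := l_ball_dist D l τ σ x ha ht z r hz hx
  have hnn : inner ℝ (z - x) (z - x) = r ^ 2 := by
    rw [real_inner_self_eq_norm_sq, norm_sub_rev, hd]
  have hr2 : 0 < r ^ 2 := by positivity
  have hn : 0 ≤ (τ : ℝ) * fderiv ℝ (pv (D.P l)) x (z - x) :=
    l_ball_a D l τ σ x ha ht z r hr hz hx (z - x) (by rw [hnn]; exact hr2)
  set c : ℝ := (τ : ℝ) * fderiv ℝ (pv (D.P l)) x (z - x) with hc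
  by_contra hneg
  push Not at hneg
  set a : ℝ := (τ : ℝ) * fderiv ℝ (pv (D.P l)) x v with haa
  have hc1 : 0 < 2 * (c + 1) := by linarith
  set ε : ℝ := -a / (2 * (c + 1)) with hε
  have hεpos : 0 < ε := div_pos (by linarith) hc1
  have hεe : ε * (2 * (c + 1)) = -a := by
    rw [hε]
    field_simp
  have h1 : 0 < inner ℝ (z - x) (v + ε • (z - x)) := by
    rw [inner_add_right, inner_smul_right, hv, hnn, zero_add]
    positivity
  have h2 := l_ball_a D l τ σ x ha ht z r hr hz hx (v + ε • (z - x)) h1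
  rw [map_add, map_smul, smul_eq_mul, mul_add] at h2
  have h3 : (τ : ℝ) * (ε * fderiv ℝ (pv (D.P l)) x (z - x)) = ε * c := by
    rw [hc]
    ring
  rw [h3, ← haa] at h2
  nlinarith

private theorem l_ball_c {d s : ℕ} (D : Desc d s) (l : Fin s) (τ : SignType)
    (σ : Fin s → SignType) (x : Sp d) (ha : Adm D l τ σ) (ht : Typ D l σ x) (z : Sp d) (r : ℝ)
    (hr : 0 < r) (hz : closedBall z r ⊆ D.set) (hx : x ∈ closedBall z r) (v : Sp d) :
    (τ : ℝ) * fderiv ℝ (pv (D.P l)) x v =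
      ((τ : ℝ) * fderiv ℝ (pv (D.P l)) x (z - x) / r ^ 2) * inner ℝ (z - x) v := by
  have hd : ‖x - z‖ = r := l_ball_dist D l τ σ x ha ht z r hz hx
  have hnn : inner ℝ (z - x) (z - x) = r ^ 2 := by
    rw [real_inner_self_eq_norm_sq, norm_sub_rev, hd]
  have hr2 : r ^ 2 ≠ 0 := by positivity
  have hw : inner ℝ (z - x) (v - (inner ℝ (z - x) v / r ^ 2) • (z - x)) = 0 := by
    rw [inner_sub_right, inner_smul_right, hnn]
    field_simp
    ring
  have hw2 : inner ℝ (z - x) (-(v - (inner ℝ (z - x) v / r ^ 2) • (z - x))) = 0 := by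
    rw [inner_neg_right, hw, neg_zero]
  have h1 := l_ball_b D l τ σ x ha ht z r hr hz hx _ hw
  have h2 := l_ball_b D l τ σ x ha ht z r hr hz hx _ hw2
  rw [map_neg] at h2
  rw [map_sub, map_smul, smul_eq_mul] at h1 h2
  have h3 : (τ : ℝ) * (fderiv ℝ (pv (D.P l)) x v -
      inner ℝ (z - x) v / r ^ 2 * fderiv ℝ (pv (D.P l)) x (z - x)) = 0 := by
    linarith
  have h4 : (τ : ℝ) * fderiv ℝ (pv (D.P l)) x v =
      (τ : ℝ) * (inner ℝ (z - x) v / r ^ 2 * fderiv ℝ (pv (D.P l)) x (z - x)) := by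
    linarith
  rw [h4]
  ring

/-- (0.1) A ball in the set through a boundary point of admissible type is on the inner normal.
Proof: write L = DP_l(x) (a continuous linear map, nonzero), n = z - x.  dist x z = r: otherwise x is in the open
ball, which is in the interior of D.set, contradiction to typ_frontier.
(a) If ⟪n, v⟫ > 0 then 0 ≤ τ L v: for small t > 0, ‖x + t v - z‖² = r² - 2 t ⟪n, v⟫ + t² ‖v‖² ≤ r², so
x + t v ∈ D.set, so 0 ≤ τ P_l(x + t v) (typ_local) and P_l x = 0; the derivative at 0 of t ↦ τ P_l(x + t v) is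
τ L v, so it is ≥ 0.
(b) If ⟪n, v⟫ = 0 then τ L v = 0: for ε > 0, ⟪n, v + ε n⟫ = ε r² > 0, so 0 ≤ τ L v + ε τ L n for all ε > 0, so
0 ≤ τ L v; the same for -v.
(c) So for all v: τ L v = μ ⟪n, v⟫ with μ = τ L n / r² (apply (b) to v - (⟪n,v⟫/r²) n), μ ≥ 0 by (a), and
μ ≠ 0 since L ≠ 0 and τ = ±1.  ‖L‖ = |τ| ‖L‖ = μ ‖n‖ = μ r (norm of the functional μ ⟪n, ·⟫, `innerSL_apply_norm`).
Hence ⟪n, u⟫ = τ L u / μ = r τ L u / ‖L‖. -/
theorem typ_ball {d s : ℕ} (D : Desc d s) (l : Fin s) (τ : SignType) (σ : Fin s → SignType) (x : Sp d)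
    (ha : Adm D l τ σ) (ht : Typ D l σ x) (z : Sp d) (r : ℝ) (hr : 0 < r) (hz : closedBall z r ⊆ D.set)
    (hx : x ∈ closedBall z r) (u : Sp d) :
    inner ℝ (z - x) u = r * ((τ : ℝ) * fderiv ℝ (pv (D.P l)) x u / ‖fderiv ℝ (pv (D.P l)) x‖) := by
  have hd : ‖x - z‖ = r := l_ball_dist D l τ σ x ha ht z r hz hx
  have hnn : inner ℝ (z - x) (z - x) = r ^ 2 := by
    rw [real_inner_self_eq_norm_sq, norm_sub_rev, hd]
  have hn : 0 ≤ (τ : ℝ) * fderiv ℝ (pv (D.P l)) x (z - x) :=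
    l_ball_a D l τ σ x ha ht z r hr hz hx (z - x) (by rw [hnn]; positivity)
  have hall := l_ball_c D l τ σ x ha ht z r hr hz hx
  set μ : ℝ := (τ : ℝ) * fderiv ℝ (pv (D.P l)) x (z - x) / r ^ 2 with hμ
  have hμ0 : 0 ≤ μ := div_nonneg hn (by positivity)
  have hL : (τ : ℝ) • fderiv ℝ (pv (D.P l)) x = μ • innerSL ℝ (z - x) := by
    ext v
    have h1 := hall v
    rw [inner_sub_left] at h1
    simpa using h1
  have hτ : |(τ : ℝ)| = 1 := by
    rcases ha.1 with h | h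
    · rw [h]
      simp
    · rw [h]
      simp
  have hnorm : ‖fderiv ℝ (pv (D.P l)) x‖ = μ * r := by
    have h1 : ‖(τ : ℝ) • fderiv ℝ (pv (D.P l)) x‖ = ‖fderiv ℝ (pv (D.P l)) x‖ := by
      rw [norm_smul, Real.norm_eq_abs, hτ, one_mul]
    rw [← h1, hL, norm_smul, innerSL_apply_norm, Real.norm_eq_abs, abs_of_nonneg hμ0,
      norm_sub_rev, hd]
  have hpos : 0 < ‖fderiv ℝ (pv (D.P l)) x‖ := norm_pos_iff.mpr ht.grad
  have hμpos : μ ≠ 0 := by
    intro h0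
    rw [hnorm, h0, zero_mul] at hpos
    exact lt_irrefl _ hpos
  rw [hall u, hnorm]
  field_simp

/-- (0.3) The segment above a steep boundary point is in the interior.
Proof: by roundness (x is on the frontier, typ_frontier) there is z with x ∈ closedBall z r ⊆ D.set,
r = κ diam > 0.  By typ_ball ⟪z - x, u⟫ = r τ DP u / ‖DP‖ ≥ r c1 (‖DP‖ > 0).
‖x + t u - z‖² = ‖x - z‖² - 2 t ⟪z - x, u⟫ + t² ≤ r² - 2 t r c1 + t² < r² since t < 2 c1 r.  So x + t u is in the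
open ball, which is contained in the interior of D.set. -/
theorem typ_seg {d s : ℕ} (D : Desc d s) (l : Fin s) (τ : SignType) (σ : Fin s → SignType) (x : Sp d)
    (ha : Adm D l τ σ) (ht : Typ D l σ x) (κ : ℝ) (hκ : 0 < κ) (hround : IsRound κ D.set)
    (hdiam : 0 < diam D.set) (u : Sp d) (hu : ‖u‖ = 1) (c1 : ℝ)
    (hc : c1 * ‖fderiv ℝ (pv (D.P l)) x‖ ≤ (τ : ℝ) * fderiv ℝ (pv (D.P l)) x u)
    (t : ℝ) (ht0 : 0 < t) (ht1 : t < 2 * c1 * (κ * diam D.set)) : x + t • u ∈ interior D.set := by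
  have hr : 0 < κ * diam D.set := mul_pos hκ hdiam
  obtain ⟨q, hq1, hq2⟩ := hround.round x (typ_frontier D l τ σ x ha ht)
  have hd : ‖x - q‖ = κ * diam D.set := l_ball_dist D l τ σ x ha ht q _ hq2 hq1
  have hb := typ_ball D l τ σ x ha ht q _ hr hq2 hq1 u
  have hpos : 0 < ‖fderiv ℝ (pv (D.P l)) x‖ := norm_pos_iff.mpr ht.grad
  have h1 : c1 ≤ (τ : ℝ) * fderiv ℝ (pv (D.P l)) x u / ‖fderiv ℝ (pv (D.P l)) x‖ := by
    rw [le_div_iff₀ hpos]
    exact hc
  have h2 : (κ * diam D.set) * c1 ≤ inner ℝ (q - x) u := by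
    rw [hb]
    exact mul_le_mul_of_nonneg_left h1 hr.le
  set r : ℝ := κ * diam D.set with hrr
  refine interior_mono hq2 (ball_subset_interior_closedBall ?_)
  rw [mem_ball, dist_eq_norm]
  have h3 : ‖x + t • u - q‖ ^ 2 < r ^ 2 := by
    rw [l_ball_sq, hd, hu]
    have h4 : t * (r * c1) ≤ t * inner ℝ (q - x) u := mul_le_mul_of_nonneg_left h2 ht0.le
    have h5 : t * t < t * (2 * c1 * r) := mul_lt_mul_of_pos_left ht1 ht0
    nlinarith
  exact lt_of_pow_lt_pow_left₀ 2 hr.le h3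

end KR
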