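import Pool.Agent.KR.L_Defs

open MvPolynomial Metric Filter Topology Pool.Agent.MP_5a1161_co
open UC (E)

namespace KR

/-- The number of grid cubes met by a set of small diameter.
Proof: Y empty: 0 ≤ ..; otherwise fix y0 ∈ Y.  For y ∈ Y, |y k - y0 k| ≤ R, so
|⌊y k / a⌋ - ⌊y0 k / a⌋| ≤ R/a + 1, so with m = ⌊R/a⌋₊ + 1 the image is contained in
Fintype.piFinset (fun k => Finset.Icc (⌊y0 k / a⌋ - m) (⌊y0 k / a⌋ + m)), of cardinality (2 m + 1)^N
(Fintype.card_piFinset, Int.card_Icc), and 2 m + 1 ≤ 2 (R/a) + 3. -/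
theorem card_cubes {N : ℕ} (Y : Finset (E N)) (a R : ℝ) (ha : 0 < a) (hR : 0 ≤ R)
    (h : ∀ y ∈ Y, ∀ y' ∈ Y, dist y y' ≤ R) :
    ((Y.image (cubeOf a)).card : ℝ) ≤ (2 * (R / a) + 3) ^ N := by
  classical
  rcases Y.eq_empty_or_nonempty with rfl | ⟨y0, hy0⟩
  · rw [Finset.image_empty, Finset.card_empty, Nat.cast_zero]
    have := div_nonneg hR ha.le
    positivity
  have hRa : 0 ≤ R / a := div_nonneg hR ha.le
  have hm0 : 0 ≤ ⌊R / a⌋ := Int.floor_nonneg.2 hRa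
  have hsub : Y.image (cubeOf a) ⊆ Fintype.piFinset
      (fun k => Finset.Icc (⌊y0 k / a⌋ - (⌊R / a⌋ + 1)) (⌊y0 k / a⌋ + (⌊R / a⌋ + 1))) := by
    intro β hβ
    obtain ⟨y, hy, rfl⟩ := Finset.mem_image.1 hβ
    rw [Fintype.mem_piFinset]
    intro k
    rw [Finset.mem_Icc]
    have h1 : |y k - y0 k| ≤ R := by
      have h2 := PiLp.norm_apply_le (y - y0) k
      rw [← dist_eq_norm, PiLp.sub_apply, Real.norm_eq_abs] at h2
      exact h2.trans (h y hy y0 hy0)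
    obtain ⟨h2, h3⟩ := abs_le.1 h1
    have h4 : y k / a ≤ y0 k / a + R / a := by
      rw [← add_div]
      exact div_le_div_of_nonneg_right (by linarith) ha.le
    have h5 : y0 k / a ≤ y k / a + R / a := by
      rw [← add_div]
      exact div_le_div_of_nonneg_right (by linarith) ha.le
    have h6 := Int.floor_le_floor h4
    have h7 := Int.floor_le_floor h5
    have h8 := Int.le_floor_add_floor (y0 k / a) (R / a)
    have h9 := Int.le_floor_add_floor (y k / a) (R / a)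
    have h10 : cubeOf a y k = ⌊y k / a⌋ := rfl
    rw [h10]
    omega
  have hcard := Finset.card_le_card hsub
  rw [Fintype.card_piFinset] at hcard
  have h1 : ∀ k : Fin N, ((Finset.Icc (⌊y0 k / a⌋ - (⌊R / a⌋ + 1))
      (⌊y0 k / a⌋ + (⌊R / a⌋ + 1))).card : ℝ) ≤ 2 * (R / a) + 3 := by
    intro k
    rw [Int.card_Icc]
    have h2 : ⌊y0 k / a⌋ + (⌊R / a⌋ + 1) + 1 - (⌊y0 k / a⌋ - (⌊R / a⌋ + 1)) =
        2 * ⌊R / a⌋ + 3 := by ring
    rw [h2]
    have h3 : (((2 * ⌊R / a⌋ + 3).toNat : ℕ) : ℝ) = ((2 * ⌊R / a⌋ + 3 : ℤ) : ℝ) := by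
      have : ((2 * ⌊R / a⌋ + 3).toNat : ℤ) = 2 * ⌊R / a⌋ + 3 := Int.toNat_of_nonneg (by omega)
      exact_mod_cast this
    rw [h3]
    push_cast
    have := Int.floor_le (R / a)
    linarith
  calc ((Y.image (cubeOf a)).card : ℝ)
      ≤ ((∏ k : Fin N, (Finset.Icc (⌊y0 k / a⌋ - (⌊R / a⌋ + 1))
      (⌊y0 k / a⌋ + (⌊R / a⌋ + 1))).card : ℕ) : ℝ) := by exact_mod_cast hcard
    _ = ∏ k : Fin N, ((Finset.Icc (⌊y0 k / a⌋ - (⌊R / a⌋ + 1))
      (⌊y0 k / a⌋ + (⌊R / a⌋ + 1))).card : ℝ) := by push_cast; rfl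
    _ ≤ ∏ _k : Fin N, (2 * (R / a) + 3) :=
        Finset.prod_le_prod (fun k _ => Nat.cast_nonneg _) fun k _ => h1 k
    _ = (2 * (R / a) + 3) ^ N := by
        rw [Finset.prod_const, Finset.card_univ, Fintype.card_fin]

/-- A point is in its cube. -/
theorem cubeOf_mem {N : ℕ} (a : ℝ) (ha : 0 < a) (y : E N) (k : Fin N) :
    (cubeOf a y k : ℝ) * a ≤ y k ∧ y k < (cubeOf a y k : ℝ) * a + a := by
  have h1 : (cubeOf a y k : ℝ) ≤ y k / a := Int.floor_le _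
  have h2 : y k / a < (cubeOf a y k : ℝ) + 1 := Int.lt_floor_add_one _
  rw [le_div_iff₀ ha] at h1
  rw [div_lt_iff₀ ha] at h2
  exact ⟨h1, by linarith⟩

/-- A point of the half open cube with number β has this number: Int.floor_eq_iff. -/
theorem cubeOf_eq {N : ℕ} (a : ℝ) (ha : 0 < a) (y : E N) (β : Fin N → ℤ)
    (h : ∀ k, (β k : ℝ) * a ≤ y k ∧ y k < (β k : ℝ) * a + a) : cubeOf a y = β := by
  funext k
  obtain ⟨h1, h2⟩ := h k
  change ⌊y k / a⌋ = β k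
  rw [Int.floor_eq_iff, le_div_iff₀ ha, div_lt_iff₀ ha]
  exact ⟨h1, by linarith⟩

/-- A vector with small coordinates is short: ‖y‖² = ∑ |y k|² ≤ N m² ≤ (N m)² (1 ≤ N; for N = 0 the norm is 0). -/
theorem norm_le_of_coord {N : ℕ} (y : E N) (m : ℝ) (hm : 0 ≤ m) (h : ∀ k, |y k| ≤ m) : ‖y‖ ≤ N * m := by
  rw [EuclideanSpace.norm_eq]
  apply Real.sqrt_le_iff.2
  refine ⟨by positivity, ?_⟩
  have h1 : ∑ k : Fin N, ‖y k‖ ^ 2 ≤ ∑ _k : Fin N, m ^ 2 :=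
    Finset.sum_le_sum fun k _ => by
      rw [Real.norm_eq_abs]
      exact pow_le_pow_left₀ (abs_nonneg _) (h k) 2
  rw [Finset.sum_const, Finset.card_univ, Fintype.card_fin, nsmul_eq_mul] at h1
  refine h1.trans ?_
  rw [mul_pow]
  refine mul_le_mul_of_nonneg_right ?_ (sq_nonneg m)
  have h2 : N ≤ N ^ 2 := Nat.le_self_pow (by norm_num) N
  exact_mod_cast h2

end KR
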