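import Pool.Agent.KR.L_Loc

open MvPolynomial Metric Filter Topology Pool.Agent.MP_5a1161_co
open UC (E)

namespace KR

/-- A round body in dimension at least one has positive diameter.
Proof: its interior is nonempty, so it contains a ball `ball q r`, r > 0, which contains q and q + (r/2) e for
a unit vector e (EuclideanSpace.single 0 1), at distance r/2; the body is bounded (compact), so
r/2 ≤ diam (`Metric.dist_le_diam_of_mem`). -/
theorem round_diam_pos {d : ℕ} {κ : ℝ} {c : Set (Sp (d + 1))} (h : IsRound κ c) : 0 < diam c := by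
  obtain ⟨q, hq⟩ := h.body
  obtain ⟨r, hr, hball⟩ := Metric.isOpen_iff.1 isOpen_interior q hq
  obtain ⟨e, he⟩ : ∃ e : Sp (d + 1), ‖e‖ = 1 :=
    ⟨EuclideanSpace.single 0 1, by simp⟩
  have h1 : dist (q + (r / 2) • e) q = r / 2 := by
    rw [dist_eq_norm, add_sub_cancel_left, norm_smul, he, mul_one,
      Real.norm_of_nonneg (by positivity)]
  have h2 : q + (r / 2) • e ∈ c := interior_subset (hball (by
    rw [mem_ball, h1]
    linarith))
  have h3 := Metric.dist_le_diam_of_mem h.compact.isBounded h2 (interior_subset hq)
  rw [h1] at h3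
  linarith

theorem l_reg_near {d s : ℕ} (D : Desc d s) (l : Fin s) (x : Sp d)
    (h : ∀ l', l' ≠ l → pv (D.P l') x ≠ 0) :
    ∀ᶠ z in 𝓝 x, D.sv z = Function.update (D.sv x) l (SignType.sign (pv (D.P l) z)) := by
  have h1 : ∀ l', ∀ᶠ z in 𝓝 x, l' ≠ l →
      SignType.sign (pv (D.P l') z) = SignType.sign (pv (D.P l') x) := by
    intro l'
    by_cases hl : l' = l
    · exact Eventually.of_forall fun z hz => absurd hl hz
    have hc : ContinuousAt (pv (D.P l')) x := (pv_contDiff (D.P l') 0).continuous.continuousAt
    rcases lt_or_gt_of_ne (h l' hl) with h2 | h2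
    · filter_upwards [hc.eventually_lt_const h2] with z hz _
      rw [sign_neg hz, sign_neg h2]
    · filter_upwards [hc.eventually_const_lt h2] with z hz _
      rw [sign_pos hz, sign_pos h2]
  filter_upwards [eventually_all.2 h1] with z hz
  funext l'
  by_cases hl : l' = l
  · rw [hl, Function.update_self]
    rfl
  · rw [Function.update_of_ne hl]
    exact hz l' hl

/-- (0.2) At a regular vertex every body of the support has an admissible type.
Proof: write D for `D i`, l for `l i`, σ for `D.sv x` (so σ l = 0 since P_l(x) = 0, and σ l' ≠ 0 for l' ≠ l, both by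
RegV.zero).  The derivative of P_l at x is nonzero (a member of a linearly independent family,
`LinearIndependent.ne_zero`).  This gives Typ.
Φ(update σ l 0) = Φ(σ) holds because x ∈ D.set (RegV.mem; update σ l 0 = σ).
Near x all signs of the others are σ, so near x: z ∈ D.set ↔ Φ(update σ l (sign (P_l z))).
If Φ(update σ l 1) and Φ(update σ l (-1)) were both true, all z near x would be in D.set (the sign is 1, 0 or -1),
so x would be an interior point, contradiction to x ∈ frontier.
If both were false: D.set near x would be contained in {P_l = 0}.  But by roundness x ∈ closedBall q r ⊆ D.set,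
r = κ diam D.set > 0 (round_diam_pos).  The points x + t (q - x) + t w', hmm: simply: the open ball `ball q r` has
points arbitrarily near x (x ∈ closure (ball q r), `closure_ball`), let z0 be such a point; a neighbourhood of z0 is
in D.set and near x, so P_l vanishes on a nonempty open set U near x where DP_l ≠ 0 (continuity of the derivative
near x), but the derivative of a function which vanishes on an open set is 0 there: contradiction.
So exactly one of the two is true: τ = 1 or τ = -1. -/
theorem reg_typ {d s : ℕ} {ι : Type} {D : ι → Desc (d + 1) s} {T : Finset ι} {l : ι → Fin s} {x : Sp (d + 1)}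
    {κ : ℝ} (hκ : 0 < κ) (hv : RegV D T l x) (i : ι) (hi : i ∈ T) (hround : IsRound κ (D i).set) :
    (∃ τ, Adm (D i) (l i) τ ((D i).sv x)) ∧ Typ (D i) (l i) ((D i).sv x) x := by
  have hz0 : pv ((D i).P (l i)) x = 0 := (hv.zero i hi (l i)).2 rfl
  have hzn : ∀ l', l' ≠ l i → pv ((D i).P l') x ≠ 0 := fun l' hl h0 =>
    hl ((hv.zero i hi l').1 h0)
  have hgrad : fderiv ℝ (pv ((D i).P (l i))) x ≠ 0 := hv.indep.ne_zero ⟨i, hi⟩
  have hT : Typ (D i) (l i) ((D i).sv x) x := by
    refine ⟨hz0, fun l' _ => rfl, fun l' hl h0 => hzn l' hl ?_, hgrad⟩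
    exact sign_eq_zero_iff.1 h0
  refine ⟨?_, hT⟩
  have hσ0 : (D i).sv x (l i) = 0 := by
    change SignType.sign (pv ((D i).P (l i)) x) = 0
    rw [hz0, sign_zero]
  have hΦ0 : (D i).Φ (Function.update ((D i).sv x) (l i) 0) := by
    have h1 : Function.update ((D i).sv x) (l i) 0 = (D i).sv x := by
      rw [← hσ0]
      exact Function.update_eq_self _ _
    rw [h1]
    exact (hv.mem i).2 hi
  have hnear := l_reg_near (D i) (l i) x hzn
  have hfr := hv.front i hi
  by_cases h1 : (D i).Φ (Function.update ((D i).sv x) (l i) 1)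
  · by_cases h2 : (D i).Φ (Function.update ((D i).sv x) (l i) (-1))
    · exfalso
      have h3 : (D i).set ∈ 𝓝 x := by
        filter_upwards [hnear] with z hz
        change (D i).Φ ((D i).sv z)
        rw [hz]
        rcases lt_trichotomy (pv ((D i).P (l i)) z) 0 with h4 | h4 | h4
        · rw [sign_neg h4]
          exact h2
        · rw [h4, sign_zero]
          exact hΦ0
        · rw [sign_pos h4]
          exact h1
      exact hfr.2 (mem_interior_iff_mem_nhds.2 h3)
    · exact ⟨1, Or.inl rfl, h1, hΦ0, h2⟩
  · by_cases h2 : (D i).Φ (Function.update ((D i).sv x) (l i) (-1))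
    · refine ⟨-1, Or.inr rfl, h2, hΦ0, ?_⟩
      rw [neg_neg]
      exact h1
    · exfalso
      have h3 : ∀ᶠ z in 𝓝 x, z ∈ (D i).set → pv ((D i).P (l i)) z = 0 := by
        filter_upwards [hnear] with z hz hzm
        change (D i).Φ ((D i).sv z) at hzm
        rw [hz] at hzm
        rcases lt_trichotomy (pv ((D i).P (l i)) z) 0 with h4 | h4 | h4
        · rw [sign_neg h4] at hzm
          exact absurd hzm h2
        · exact h4
        · rw [sign_pos h4] at hzm
          exact absurd hzm h1
      have h4 : ∀ᶠ z in 𝓝 x, fderiv ℝ (pv ((D i).P (l i))) z ≠ 0 := by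
        have hc : Continuous (fderiv ℝ (pv ((D i).P (l i)))) :=
          (pv_contDiff ((D i).P (l i)) 1).continuous_fderiv (by norm_num)
        exact hc.continuousAt.eventually_ne hgrad
      obtain ⟨q, hq1, hq2⟩ := hround.round x hfr
      have hr : 0 < κ * diam (D i).set := mul_pos hκ (round_diam_pos hround)
      rw [← closure_ball q hr.ne', mem_closure_iff_frequently] at hq1
      obtain ⟨z, hz1, hz2, hz3⟩ := (hq1.and_eventually (h3.eventually_nhds.and h4)).exists
      apply hz3
      have h5 : pv ((D i).P (l i)) =ᶠ[𝓝 z] fun _ => (0:ℝ) := by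
        filter_upwards [hz2, isOpen_ball.mem_nhds hz1] with w hw1 hw2
        exact hw1 (hq2 (ball_subset_closedBall hw2))
      rw [h5.fderiv_eq]
      simp

/-- The admissible sign is unique: Φ(update σ l τ) is true and Φ(update σ l (-τ)) is false, with τ = ±1. -/
theorem adm_unique {d s : ℕ} {D : Desc d s} {l : Fin s} {τ τ' : SignType} {σ : Fin s → SignType}
    (h : Adm D l τ σ) (h' : Adm D l τ' σ) : τ = τ' := by
  obtain ⟨h1, h2, -, h4⟩ := h
  obtain ⟨h1', h2', -, h4'⟩ := h'
  rcases h1 with rfl | rfl <;> rcases h1' with rfl | rfl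
  · rfl
  · exact absurd h2' h4
  · exact absurd h2 h4'
  · rfl

/-- A regular vertex is not an interior point of any body.
Proof: i ∈ T: it is on the frontier (`frontier` is disjoint from the interior); i ∉ T: it is not in the set. -/
theorem reg_not_interior {d s : ℕ} {ι : Type} {D : ι → Desc d s} {T : Finset ι} {l : ι → Fin s} {x : Sp d}
    (hv : RegV D T l x) (i : ι) : x ∉ interior (D i).set := by
  intro hx
  by_cases hi : i ∈ T
  · exact (hv.front i hi).2 hx
  · exact hi ((hv.mem i).1 (interior_subset hx))

end KR
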