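import Pool.Agent.KR.L_Data
import Pool.Agent.KR.L_Cube
import Pool.Agent.KR.L_Reg

open MvPolynomial Metric Filter Topology Pool.Agent.MP_5a1161_co
open UC (E)

namespace KR

/-- the projection of the chart does not increase distances -/
theorem l_card_dist {N : ℕ} {J : (E N × ℝ) ≃ₗ[ℝ] Sp (N + 1)} (hJ : IsChart J) (v w : Sp (N + 1)) :
    dist (J.symm v).1 (J.symm w).1 ≤ dist v w := by
  have h1 := hJ (J.symm (v - w))
  rw [LinearEquiv.apply_symm_apply] at h1
  rw [dist_eq_norm, dist_eq_norm]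
  have h2 : (J.symm (v - w)).1 = (J.symm v).1 - (J.symm w).1 := by
    rw [map_sub]
    rfl
  rw [← h2]
  have h3 : ‖(J.symm (v - w)).1‖ ^ 2 ≤ ‖v - w‖ ^ 2 := by
    rw [h1]
    nlinarith [sq_nonneg (J.symm (v - w)).2]
  exact (sq_le_sq₀ (norm_nonneg _) (norm_nonneg _)).1 h3

open Classical in
/-- the projections of the vertices in the body i -/
noncomputable def l_card_Y {N : ℕ} {ι : Type} (J : (E N × ℝ) ≃ₗ[ℝ] Sp (N + 1))
    (V : Finset (Sp (N + 1))) (T : Sp (N + 1) → Finset ι) (i : ι) : Finset (E N) :=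
  (V.filter fun v => i ∈ T v).image fun v => (J.symm v).1

theorem l_card_cubes {N s : ℕ} {ι : Type} {b : ℕ} {κ c0 : ℝ} {D : ι → Desc (N + 1) s}
    {J : (E N × ℝ) ≃ₗ[ℝ] Sp (N + 1)} {V : Finset (Sp (N + 1))} {T : Sp (N + 1) → Finset ι}
    {l : Sp (N + 1) → ι → Fin s} {τ : Sp (N + 1) → ι → SignType} {q : ℝ}
    (h : LHyp b κ c0 D J V T l τ q) (i : ι) :
    (((l_card_Y J V T i).image (cubeOf (asd N κ c0 (D i)))).card : ℝ) ≤
      (2 * (32 * N / (c0 ^ 2 * κ)) + 3) ^ N := by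
  classical
  have hround : IsRound κ (D i).set := (h.round i).1
  have hR := round_diam_pos hround
  have hN : (0 : ℝ) < N := by exact_mod_cast h.hN
  have hk := h.kpos
  have hc := h.cpos
  have ha : 0 < asd N κ c0 (D i) := by
    unfold asd
    positivity
  have hRa : diam (D i).set / asd N κ c0 (D i) = 32 * N / (c0 ^ 2 * κ) := by
    unfold asd
    field_simp
  rw [← hRa]
  refine card_cubes _ _ _ ha hR.le ?_
  intro y hy y' hy'
  unfold l_card_Y at hy hy'
  rw [Finset.mem_image] at hy hy'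
  obtain ⟨v, hv, rfl⟩ := hy
  obtain ⟨w, hw, rfl⟩ := hy'
  have hv := Finset.mem_filter.1 hv
  have hw := Finset.mem_filter.1 hw
  refine (l_card_dist h.chart v w).trans ?_
  exact Metric.dist_le_diam_of_mem hround.compact.isBounded
    (((h.reg v hv.1).mem i).2 hv.2) (((h.reg w hw.1).mem i).2 hw.2)

/-- The number of the indices is linear in the number of the bodies.
Proof: IX is contained in the union over (χ, i, l, τ, σ) of the images of the cubes
Y_i.image (cubeOf (asd (D i))) with Y_i = (V.filter (i ∈ T ·)).image (fun v => (J.symm v).1), so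
card IX ≤ ∑_i 2 * s * 3 * 3^s * card (Y_i.image ..) (card SignType = 3; the map
(χ, l, τ, σ, β) ↦ (χ, i, l, τ, σ, β) on univ ×ˢ univ ×ˢ univ ×ˢ univ ×ˢ Y_i.image ..).
For v, w with i ∈ T v, T w: v, w ∈ (D i).set (RegV.mem), which is compact, so dist v w ≤ diam (D i).set =: R > 0
(round_diam_pos), and ‖(J.symm v).1 - (J.symm w).1‖ ≤ dist v w (IsChart for J.symm v - J.symm w:
‖v - w‖² = ‖..‖² + (..)²).  card_cubes with a = asd, R / a = 32 N / (c0² κ). -/
theorem card_IX {N s : ℕ} {ι : Type} [Fintype ι] {b : ℕ} {κ c0 : ℝ} {D : ι → Desc (N + 1) s}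
    {J : (E N × ℝ) ≃ₗ[ℝ] Sp (N + 1)} {V : Finset (Sp (N + 1))} {T : Sp (N + 1) → Finset ι}
    {l : Sp (N + 1) → ι → Fin s} {τ : Sp (N + 1) → ι → SignType} {q : ℝ}
    (h : LHyp b κ c0 D J V T l τ q) :
    ((IX κ c0 D J V T l τ).card : ℝ) ≤
      (2 * s * 3 * 3 ^ s * (2 * (32 * N / (c0 ^ 2 * κ)) + 3) ^ N) * (Fintype.card ι : ℝ) := by
  classical
  let B : ι → Finset (Fin N → ℤ) := fun i =>
    (l_card_Y J V T i).image (cubeOf (asd N κ c0 (D i)))
  let S : ι → Finset (Bool × Fin s × SignType × (Fin s → SignType) × (Fin N → ℤ)) := fun i =>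
    (Finset.univ : Finset Bool) ×ˢ (Finset.univ : Finset (Fin s)) ×ˢ
      (Finset.univ : Finset SignType) ×ˢ (Finset.univ : Finset (Fin s → SignType)) ×ˢ B i
  have hsub : IX κ c0 D J V T l τ ⊆ Finset.univ.biUnion fun i =>
      (S i).image fun a => ((a.1, i, a.2.1, a.2.2.1, a.2.2.2.1, a.2.2.2.2) : LIdx N s ι) := by
    intro a ha
    unfold IX at ha
    rw [Finset.mem_biUnion] at ha
    obtain ⟨v, hv, ha⟩ := ha
    rw [Finset.mem_image] at ha
    obtain ⟨i, hi, rfl⟩ := ha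
    rw [Finset.mem_biUnion]
    refine ⟨i, Finset.mem_univ i, ?_⟩
    rw [Finset.mem_image]
    refine ⟨(decide (0 < (τ v i : ℝ) * fderiv ℝ (pv ((D i).P (l v i))) v (J (0, 1))), l v i,
      τ v i, (D i).sv v, cubeOf (asd N κ c0 (D i)) (J.symm v).1), ?_, rfl⟩
    simp only [S, Finset.mem_product, Finset.mem_univ, true_and]
    refine Finset.mem_image_of_mem _ ?_
    unfold l_card_Y
    exact Finset.mem_image_of_mem (fun v => (J.symm v).1) (Finset.mem_filter.2 ⟨hv, hi⟩)
  have hcard : (IX κ c0 D J V T l τ).card ≤ ∑ i, (S i).card := by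
    refine (Finset.card_le_card hsub).trans (Finset.card_biUnion_le.trans ?_)
    exact Finset.sum_le_sum fun i _ => Finset.card_image_le
  have hS : ∀ i, ((S i).card : ℝ) ≤
      2 * s * 3 * 3 ^ s * (2 * (32 * N / (c0 ^ 2 * κ)) + 3) ^ N := by
    intro i
    have h1 := l_card_cubes h i
    have h2 : (S i).card = 2 * (s * (3 * (3 ^ s * (B i).card))) := by
      simp only [S, Finset.card_product, Finset.card_univ, Fintype.card_bool, Fintype.card_fin,
        Fintype.card_fun]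
      rfl
    rw [h2]
    push_cast
    have h3 : (0 : ℝ) ≤ 2 * s * 3 * 3 ^ s := by positivity
    calc (2 : ℝ) * (s * (3 * (3 ^ s * ((B i).card : ℝ))))
        = (2 * s * 3 * 3 ^ s) * ((B i).card : ℝ) := by ring
      _ ≤ (2 * s * 3 * 3 ^ s) * (2 * (32 * N / (c0 ^ 2 * κ)) + 3) ^ N :=
          mul_le_mul_of_nonneg_left h1 h3
  calc ((IX κ c0 D J V T l τ).card : ℝ) ≤ ((∑ i, (S i).card : ℕ) : ℝ) := by
        exact_mod_cast hcard
    _ = ∑ i, ((S i).card : ℝ) := by push_cast; rfl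
    _ ≤ ∑ _i : ι, 2 * s * 3 * 3 ^ s * (2 * (32 * N / (c0 ^ 2 * κ)) + 3) ^ N :=
        Finset.sum_le_sum fun i _ => hS i
    _ = _ := by
        rw [Finset.sum_const, Finset.card_univ, nsmul_eq_mul]
        ring

end KR
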