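import Pool.Agent.KR.L_Defs

open MvPolynomial Metric Filter Topology Pool.Agent.MP_5a1161_co
open UC (E)

namespace KR

/-- The standard chart. -/
noncomputable def l_chart_J0 (N : ℕ) : (E N × ℝ) ≃ₗ[ℝ] Sp (N + 1) where
  toFun z := pt z.1 z.2
  map_add' z w := (ptL N).map_add z w
  map_smul' r z := (ptL N).map_smul r z
  invFun x := (bs x, ht x)
  left_inv z := by
    simp
  right_inv x := pt_bs_ht x

theorem l_chart_J0_apply (N : ℕ) (z : E N × ℝ) : l_chart_J0 N z = pt z.1 z.2 := rfl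

theorem l_chart_J0_isChart (N : ℕ) : IsChart (l_chart_J0 N) := by
  intro z
  rw [l_chart_J0_apply, EuclideanSpace.norm_sq_eq, EuclideanSpace.norm_sq_eq,
    Fin.sum_univ_castSucc]
  simp

/-- Every unit vector is the vertical vector of a chart.
Proof: the standard chart J0 (y, h) = pt y h (KR/Pt.lean: pt, bs, ht, pt_bs_ht; ‖pt y h‖² = ‖y‖² + h² by
EuclideanSpace.norm_sq_eq, Fin.sum_univ_castSucc) has J0 (0,1) = the last basis vector e.  If e = u take J0; else
compose with the reflection in the hyperplane orthogonal to e - u, which maps e to u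
(Mathlib: `reflection_sub`, `Submodule.reflection`, for ‖e‖ = ‖u‖; it is a linear isometry equivalence). -/
theorem exists_chart (N : ℕ) (u : Sp (N + 1)) (hu : ‖u‖ = 1) :
    ∃ J : (E N × ℝ) ≃ₗ[ℝ] Sp (N + 1), IsChart J ∧ J (0, 1) = u := by
  have h1 : ‖l_chart_J0 N (0, 1)‖ = 1 := by
    have h := l_chart_J0_isChart N (0, 1)
    simp only [norm_zero] at h
    have h2 : ‖l_chart_J0 N (0, 1)‖ ^ 2 = 1 ^ 2 := by
      rw [h]
      norm_num
    exact (sq_eq_sq₀ (norm_nonneg _) zero_le_one).1 h2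
  set e : Sp (N + 1) := l_chart_J0 N (0, 1) with he
  let R : Sp (N + 1) ≃ₗᵢ[ℝ] Sp (N + 1) := (Submodule.span ℝ {e - u})ᗮ.reflection
  have hR : R e = u := Submodule.reflection_sub (h1.trans hu.symm)
  refine ⟨(l_chart_J0 N).trans R.toLinearEquiv, fun z => ?_, ?_⟩
  · have h3 : ((l_chart_J0 N).trans R.toLinearEquiv) z = R (l_chart_J0 N z) := rfl
    rw [h3, R.norm_map]
    exact l_chart_J0_isChart N z
  · exact hR

/-- Polarization: ‖J (z + w)‖² - ‖J z‖² - ‖J w‖² = 2 ⟪J z, J w⟫ and the same on the right. -/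
theorem chart_inner {N : ℕ} {J : (E N × ℝ) ≃ₗ[ℝ] Sp (N + 1)} (hJ : IsChart J) (z w : E N × ℝ) :
    inner ℝ (J z) (J w) = inner ℝ z.1 w.1 + z.2 * w.2 := by
  have h := hJ (z + w)
  have hz := hJ z
  have hw := hJ w
  rw [map_add, norm_add_sq_real, Prod.fst_add, Prod.snd_add, norm_add_sq_real, hz, hw] at h
  linarith [h]

/-- The chart with the vertical direction reversed for the colour `false`:
`cht J χ (y, h) = J (y, sg χ * h)`. -/
noncomputable def cht {N : ℕ} (J : (E N × ℝ) ≃ₗ[ℝ] Sp (N + 1)) (χ : Bool) : (E N × ℝ) ≃ₗ[ℝ] Sp (N + 1) where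
  toFun z := J (z.1, UC.sg χ * z.2)
  map_add' z w := by
    rw [← map_add]; congr 1; ext <;> simp [mul_add]
  map_smul' r z := by
    rw [RingHom.id_apply, ← map_smul]; congr 1; ext <;> simp [mul_left_comm]
  invFun x := ((J.symm x).1, UC.sg χ * (J.symm x).2)
  left_inv z := by
    have h : UC.sg χ * UC.sg χ = 1 := by cases χ <;> simp [UC.sg]
    simp [← mul_assoc, h]
  right_inv x := by
    have h : UC.sg χ * UC.sg χ = 1 := by cases χ <;> simp [UC.sg]
    simp [← mul_assoc, h]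

theorem cht_apply {N : ℕ} (J : (E N × ℝ) ≃ₗ[ℝ] Sp (N + 1)) (χ : Bool) (y : E N) (h : ℝ) :
    cht J χ (y, h) = J (y, UC.sg χ * h) := rfl

theorem cht_up {N : ℕ} (J : (E N × ℝ) ≃ₗ[ℝ] Sp (N + 1)) (χ : Bool) :
    cht J χ (0, 1) = UC.sg χ • J (0, 1) := by
  rw [cht_apply, ← map_smul]; congr 1; ext <;> simp

theorem cht_hor {N : ℕ} (J : (E N × ℝ) ≃ₗ[ℝ] Sp (N + 1)) (χ : Bool) (e : E N) :
    cht J χ (e, 0) = J (e, 0) := by
  rw [cht_apply, mul_zero]

/-- (sg χ h)² = h². -/
theorem cht_isChart {N : ℕ} {J : (E N × ℝ) ≃ₗ[ℝ] Sp (N + 1)} (hJ : IsChart J) (χ : Bool) :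
    IsChart (cht J χ) := by
  intro z
  have h1 : UC.sg χ * UC.sg χ = 1 := by cases χ <;> simp [UC.sg]
  have h2 : cht J χ z = J (z.1, UC.sg χ * z.2) := rfl
  rw [h2, hJ]
  have h3 : (UC.sg χ * z.2) ^ 2 = UC.sg χ * UC.sg χ * z.2 ^ 2 := by ring
  simp only [h3, h1, one_mul]

/-- Substituting polynomials of degree at most one does not increase the degree. -/
theorem l_chart_deg {σ τ : Type} (f : σ → MvPolynomial τ ℝ) (hf : ∀ k, (f k).totalDegree ≤ 1)
    (P : MvPolynomial σ ℝ) : (bind₁ f P).totalDegree ≤ P.totalDegree := by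
  conv_lhs => rw [P.as_sum, map_sum]
  refine totalDegree_finsetSum_le fun d hd => ?_
  rw [bind₁_monomial]
  refine (totalDegree_mul _ _).trans ?_
  rw [totalDegree_C, zero_add]
  refine (totalDegree_finsetProd _ _).trans ?_
  refine le_trans (Finset.sum_le_sum fun k _ => ?_) (le_totalDegree hd)
  refine (totalDegree_pow _ _).trans ?_
  exact (Nat.mul_le_mul_left _ (hf k)).trans_eq (Nat.mul_one _)

/-- The pull back of a polynomial by a linear chart is a polynomial of no larger degree in the coordinates.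
Proof: Q = aeval (fun k => ∑ j, C (a k j) * X j) P where J (y,h) k = ∑ a k j * (pt y h) j, that is
a k j.castSucc = J (e_j, 0) k and a k (last) = J (0,1) k; (y,h) = ∑ y_j (e_j, 0) + h (0,1) and J is linear.
Evaluation: MvPolynomial.induction_on or `MvPolynomial.eval` of `aeval`/`bind₁`.  Degree: every variable is
replaced by a polynomial of degree at most 1: `MvPolynomial.aeval_totalDegree_le`-type lemma, or
totalDegree of a sum over the monomials of P (see UC/Gen or Lib lemmas; write P = ∑ monomials,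
`MvPolynomial.totalDegree_finset_sum`, `totalDegree_mul`, `totalDegree_pow`, `totalDegree_finsetProd`). -/
theorem chart_poly {N : ℕ} (J : (E N × ℝ) ≃ₗ[ℝ] Sp (N + 1)) (P : MvPolynomial (Fin (N + 1)) ℝ) :
    ∃ Q : MvPolynomial (Fin (N + 1)) ℝ, Q.totalDegree ≤ P.totalDegree ∧
      ∀ z : E N × ℝ, UC.pev Q (pt z.1 z.2) = pv P (J z) := by
  let K : Sp (N + 1) →ₗ[ℝ] Sp (N + 1) :=
    J.toLinearMap.comp (l_chart_J0 N).symm.toLinearMap
  let a : Fin (N + 1) → Fin (N + 1) → ℝ :=
    fun k j => K (EuclideanSpace.basisFun (Fin (N + 1)) ℝ j) k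
  have hK : ∀ (x : Sp (N + 1)) (k : Fin (N + 1)), K x k = ∑ j, a k j * x j := by
    intro x k
    have h1 : ∑ j, x j • EuclideanSpace.basisFun (Fin (N + 1)) ℝ j = x := by
      have := (EuclideanSpace.basisFun (Fin (N + 1)) ℝ).sum_repr x
      simpa using this
    conv_lhs => rw [← h1, map_sum]
    rw [WithLp.ofLp_sum, Finset.sum_apply]
    refine Finset.sum_congr rfl fun j _ => ?_
    rw [map_smul, PiLp.smul_apply, smul_eq_mul, mul_comm]
  have hJK : ∀ z : E N × ℝ, J z = K (pt z.1 z.2) := by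
    intro z
    have : (l_chart_J0 N).symm (pt z.1 z.2) = z := by
      rw [LinearEquiv.symm_apply_eq]
      rfl
    change J z = J ((l_chart_J0 N).symm (pt z.1 z.2))
    rw [this]
  refine ⟨bind₁ (fun k => ∑ j, C (a k j) * X j) P, l_chart_deg _ (fun k => ?_) P, fun z => ?_⟩
  · refine totalDegree_finsetSum_le fun j _ => ?_
    refine (totalDegree_mul _ _).trans ?_
    rw [totalDegree_C, zero_add]
    exact (totalDegree_X j).le
  · unfold UC.pev pv
    rw [hJK z]
    have h := MvPolynomial.eval₂Hom_bind₁ (RingHom.id ℝ) (fun k => pt z.1 z.2 k)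
      (fun k => ∑ j, C (a k j) * X j) P
    refine Eq.trans h ?_
    have h2 : (fun i => eval₂Hom (RingHom.id ℝ) (fun k => pt z.1 z.2 k)
        (∑ j, C (a i j) * X j)) = fun k => K (pt z.1 z.2) k := by
      funext i
      rw [hK, map_sum]
      refine Finset.sum_congr rfl fun j _ => ?_
      simp
    rw [h2]
    rfl

end KR
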