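import Pool.Agent.KR.L_On

open MvPolynomial Metric Filter Topology Pool.Agent.MP_5a1161_co
open UC (E)

namespace KR

/-- No other patch is on or below a vertex.  Here χ is the colour of the index α = lidx w i.
Proof.  Let z = (y, s0) with y = (J.symm v).1, and h' = sg χ * (J.symm v).2, so cht J χ (y, h') = v (cht_zpt).
STEP 1: s0 = h'.  Suppose s0 < h'.  |s0 - sg χ h_w| < 2 H (zone), |h' - sg χ h_w| = |h_v - h_w| ≤ 4/c0 ‖y - w.1‖
(lip) ≤ 4/c0 * (N * (2 a)) = H where a = asd, H = hsd (zone: cnr k - a < y k < cnr k + 2 a and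
cnr k ≤ w.1 k < cnr k + a by cubeOf_mem, so |y k - w.1 k| ≤ 2 a; norm_le_of_coord;
4/c0 * N * 2 * (c0² κ diam / (32 N)) = c0 κ diam / 4 = H).  So h' - s0 < 3 H < 4 H = c0 (κ diam), and by zone_above
v = cht J χ (y, h') is an interior point of (D i).set: contradiction to reg_not_interior.
STEP 2: z = zpt J χ v is in the zone, so v = cht J χ z is of type (l w i, sv w) (zone_typ; LHyp.typ.ne), and on the
frontier (typ_frontier with LHyp.adm), so v ∈ (D i).set (compact, so closed: frontier ⊆ closure = set), so i ∈ T v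
(RegV.mem).  P_(l w i)(v) = 0, so l w i = l v i (RegV.zero).  For l' ≠ l w i the sign of P_l' at v is sv w l'; for
l' = l w i both sv v l' and sv w l' are sign 0 = 0.  So sv v = sv w, τ v i = τ w i by adm_unique.
colour: in the zone 0 ≤ c0/2 ‖DP‖ < τ DP(v)(cht J χ (0,1)) = sg χ * (τ DP(v) u) (cht_up), so 0 < τ DP u iff
χ = true.
STEP 3: if all penalties are ≥ 0, then cnr k ≤ y k ≤ cnr k + a - θ < cnr k + a for all k, so
cubeOf a y = cubeOf a w.1 (cubeOf_eq), and α = lidx v i: contradiction to the hypothesis that α is not of this form.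
-/
theorem off_pp {N s : ℕ} {ι : Type} {b : ℕ} {κ c0 : ℝ} {D : ι → Desc (N + 1) s}
    {J : (E N × ℝ) ≃ₗ[ℝ] Sp (N + 1)} {V : Finset (Sp (N + 1))} {T : Sp (N + 1) → Finset ι}
    {l : Sp (N + 1) → ι → Fin s} {τ : Sp (N + 1) → ι → SignType} {q θ : ℝ}
    (h : LHyp b κ c0 D J V T l τ q) (hθ : Marg κ c0 D J V T l θ) (v w : Sp (N + 1)) (hv : v ∈ V)
    (hw : w ∈ V) (i : ι) (hiw : i ∈ T w) (s0 : ℝ)
    (hs : s0 ≤ (zpt J (lidx κ c0 D J l τ w i).1 v).2)
    (hz : ((J.symm v).1, s0) ∈ zn κ c0 D J l τ (lidx κ c0 D J l τ w i).1 i w)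
    (hno : ¬ (i ∈ T v ∧ lidx κ c0 D J l τ v i = lidx κ c0 D J l τ w i)) :
    s0 = (zpt J (lidx κ c0 D J l τ w i).1 v).2 ∧
    ∃ j, pn κ c0 D J l τ θ (lidx κ c0 D J l τ w i).1 i w j ((J.symm v).1, s0) < 0 := by
  classical
  have hχ : (lidx κ c0 D J l τ w i).1 =
      decide (0 < (τ w i : ℝ) * fderiv ℝ (pv ((D i).P (l w i))) w (J (0, 1))) := by
    unfold lidx
    exact decide_eq_decide.2 Iff.rfl
  generalize (lidx κ c0 D J l τ w i).1 = χ at hs hz hχ ⊢
  have hsg : UC.sg χ = 1 ∨ UC.sg χ = -1 := by cases χ <;> simp [UC.sg]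
  obtain ⟨hz1, hz2, hz3, hz4, hz5⟩ := id hz
  have ha := (asd_pos h i).1
  have hH := (asd_pos h i).2
  have hc0 := h.cpos
  have hdiam : 0 < diam (D i).set := round_diam_pos (h.round i).1
  have hadm := h.adm w hw i hiw
  have hσ : ∀ l', l' ≠ l w i → (D i).sv w l' ≠ 0 := (h.typ w hw i hiw).ne
  have hβ : ∀ k, cnr κ c0 (D i) J w k =
      (cubeOf (asd N κ c0 (D i)) (J.symm w).1 k : ℝ) * asd N κ c0 (D i) := fun k => rfl
  have hcw : ∀ k, cnr κ c0 (D i) J w k ≤ (J.symm w).1 k ∧
      (J.symm w).1 k < cnr κ c0 (D i) J w k + asd N κ c0 (D i) := fun k =>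
    cubeOf_mem _ ha _ k
  have hnorm : ‖(J.symm v).1 - (J.symm w).1‖ ≤ N * (2 * asd N κ c0 (D i)) := by
    apply norm_le_of_coord _ _ (by positivity)
    intro k
    have h1 := hz4 k
    have h2 := hcw k
    rw [PiLp.sub_apply, abs_le]
    constructor <;> linarith [h1.1, h1.2, h2.1, h2.2]
  have hlip : |(J.symm w).2 - (J.symm v).2| ≤ hsd κ c0 (D i) := by
    have h1 := lip h v w hv hw
    have h2 : (0 : ℝ) < N := by exact_mod_cast h.hN
    have h3 : 4 / c0 * ‖(J.symm v).1 - (J.symm w).1‖ ≤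
        4 / c0 * (N * (2 * asd N κ c0 (D i))) :=
      mul_le_mul_of_nonneg_left hnorm (by positivity)
    have h4 : 4 / c0 * (N * (2 * asd N κ c0 (D i))) = hsd κ c0 (D i) := by
      unfold asd hsd
      field_simp
      ring
    linarith
  have hlip' : |UC.sg χ * (J.symm v).2 - UC.sg χ * (J.symm w).2| ≤ hsd κ c0 (D i) := by
    rw [← mul_sub, abs_mul, abs_sub_comm]
    rcases hsg with h1 | h1 <;> rw [h1] <;> simpa using hlip
  have hcv : cht J χ ((J.symm v).1, UC.sg χ * (J.symm v).2) = v := cht_zpt J χ v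
  have hs' : s0 ≤ UC.sg χ * (J.symm v).2 := hs
  have hstep1 : s0 = UC.sg χ * (J.symm v).2 := by
    by_contra hne
    have hlt : s0 < UC.sg χ * (J.symm v).2 := lt_of_le_of_ne hs' hne
    have h4H : 4 * hsd κ c0 (D i) = c0 * (κ * diam (D i).set) := by
      unfold hsd
      ring
    have h1 := (abs_lt.1 hz5).1
    have h2 := (abs_le.1 hlip').2
    have h3 : UC.sg χ * (J.symm v).2 < s0 + c0 * (κ * diam (D i).set) := by
      rw [← h4H]
      dsimp only at h1
      linarith
    have h5 := zone_above (cht_isChart h.chart χ) hc0 hσ hadm h.kpos (h.round i).1 hdiam hz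
      (UC.sg χ * (J.symm v).2) hlt h3
    dsimp only at h5
    rw [hcv] at h5
    exact reg_not_interior (h.reg v hv) i h5
  subst hstep1
  have htyp : Typ (D i) (l w i) ((D i).sv w) v := by
    have h1 := zone_typ hc0 hσ hz
    rwa [hcv] at h1
  have hfr : v ∈ frontier (D i).set := typ_frontier (D i) (l w i) (τ w i) ((D i).sv w) v hadm htyp
  have hmem : v ∈ (D i).set := (h.round i).1.compact.isClosed.frontier_subset hfr
  have hiv : i ∈ T v := ((h.reg v hv).mem i).1 hmem
  have hl : l w i = l v i := ((h.reg v hv).zero i hiv (l w i)).1 htyp.zero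
  have hsv : (D i).sv v = (D i).sv w := by
    funext l'
    by_cases h1 : l' = l w i
    · have h2 : (D i).sv v l' = 0 := by
        change SignType.sign (pv ((D i).P l') v) = 0
        rw [h1, htyp.zero, sign_zero]
      have h3 : (D i).sv w l' = 0 := by
        change SignType.sign (pv ((D i).P l') w) = 0
        rw [h1, (h.typ w hw i hiw).zero, sign_zero]
      rw [h2, h3]
    · exact htyp.sign l' h1
  have hτ : τ v i = τ w i := by
    have h1 := h.adm v hv i hiv
    rw [hsv, ← hl] at h1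
    exact adm_unique h1 hadm
  have hcol : decide (0 < (τ v i : ℝ) * fderiv ℝ (pv ((D i).P (l v i))) v (J (0, 1))) = χ := by
    rw [hcv, cht_up, map_smul, smul_eq_mul] at hz3
    rw [hτ, ← hl]
    have h1 : 0 ≤ c0 / 2 * ‖fderiv ℝ (pv ((D i).P (l w i))) v‖ := by positivity
    cases χ
    · rw [decide_eq_false_iff_not]
      simp only [UC.sg] at hz3
      intro h2
      linarith
    · rw [decide_eq_true_eq]
      simp only [UC.sg] at hz3
      linarith
  refine ⟨rfl, ?_⟩
  by_contra hcon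
  push Not at hcon
  have hcube : cubeOf (asd N κ c0 (D i)) (J.symm v).1 = cubeOf (asd N κ c0 (D i)) (J.symm w).1 := by
    apply cubeOf_eq _ ha
    intro k
    have h1 := hcon (.inr (.inl (k, true)))
    have h2 := hcon (.inr (.inl (k, false)))
    have h3 : (0 : ℝ) ≤ (J.symm v).1 k - cnr κ c0 (D i) J w k := h1
    have h4 : (0 : ℝ) ≤ cnr κ c0 (D i) J w k + asd N κ c0 (D i) - θ - (J.symm v).1 k := h2
    rw [hβ] at h3 h4
    have h5 := hθ.pos
    constructor <;> linarith
  apply hno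
  refine ⟨hiv, ?_⟩
  unfold lidx
  refine Prod.ext ?_ ?_
  · refine (decide_eq_decide.2 ?_)
    rw [← decide_eq_decide, hcol, hχ]
  · simp only [hcube, hsv, hτ, ← hl]

end KR
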