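import Pool.Agent.KR.L_Data
import Pool.Agent.KR.L_Cube
import Pool.Agent.KR.L_Reg

open MvPolynomial Metric Filter Topology Pool.Agent.MP_5a1161_co
open UC (E)

namespace KR

/-- The sides are positive (round_diam_pos, 1 ≤ N). -/
theorem asd_pos {N s : ℕ} {ι : Type} {b : ℕ} {κ c0 : ℝ} {D : ι → Desc (N + 1) s}
    {J : (E N × ℝ) ≃ₗ[ℝ] Sp (N + 1)} {V : Finset (Sp (N + 1))} {T : Sp (N + 1) → Finset ι}
    {l : Sp (N + 1) → ι → Fin s} {τ : Sp (N + 1) → ι → SignType} {q : ℝ}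
    (h : LHyp b κ c0 D J V T l τ q) (i : ι) : 0 < asd N κ c0 (D i) ∧ 0 < hsd κ c0 (D i) := by
  have h1 : 0 < diam (D i).set := round_diam_pos (h.round i).1
  have h2 : (0 : ℝ) < N := by exact_mod_cast h.hN
  have h3 := h.kpos
  have h4 := h.cpos
  unfold asd hsd
  constructor <;> positivity

/-- A finite family of positive numbers has a positive lower bound. -/
theorem l_marg_lb {α : Type} (A : Finset α) (f : α → ℝ) (hf : ∀ a ∈ A, 0 < f a) :
    ∃ θ, 0 < θ ∧ ∀ a ∈ A, θ ≤ f a := by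
  classical
  induction A using Finset.induction_on with
  | empty => exact ⟨1, one_pos, by simp⟩
  | insert a A ha ih =>
    obtain ⟨θ, h1, h2⟩ := ih fun a' ha' => hf a' (Finset.mem_insert_of_mem ha')
    refine ⟨min (f a) θ, lt_min (hf a (Finset.mem_insert_self _ _)) h1, fun a' ha' => ?_⟩
    rcases Finset.mem_insert.1 ha' with rfl | h3
    · exact min_le_left _ _
    · exact (min_le_right _ _).trans (h2 a' h3)

/-- There is a margin.
Proof: finitely many positive numbers have a positive lower bound.  V and the T v are finite, Fin s and Fin N too.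
Positive: |pv P_l' v| for l' ≠ l v i (RegV.zero); |DP(J (0,1))| ≥ c0 ‖DP‖ > 0 (steep, Typ.grad);
cnr + asd - (J.symm v).1 k > 0 (cubeOf_mem with a = asd > 0).
Helper: for a finite type/finset of positive reals there is θ > 0 below all of them (Finset.induction_on with min,
or `Finset.exists_min_image`/`Finset.inf'`); apply it to the finset union, or three times and take the minimum. -/
theorem exists_marg {N s : ℕ} {ι : Type} {b : ℕ} {κ c0 : ℝ} {D : ι → Desc (N + 1) s}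
    {J : (E N × ℝ) ≃ₗ[ℝ] Sp (N + 1)} {V : Finset (Sp (N + 1))} {T : Sp (N + 1) → Finset ι}
    {l : Sp (N + 1) → ι → Fin s} {τ : Sp (N + 1) → ι → SignType} {q : ℝ}
    (h : LHyp b κ c0 D J V T l τ q) : ∃ θ, Marg κ c0 D J V T l θ := by
  classical
  let A : Finset (Sp (N + 1) × ι) := V.biUnion fun v => (T v).image fun i => (v, i)
  have hA : ∀ v ∈ V, ∀ i ∈ T v, (v, i) ∈ A := fun v hv i hi =>
    Finset.mem_biUnion.2 ⟨v, hv, Finset.mem_image.2 ⟨i, hi, rfl⟩⟩
  have hA' : ∀ p ∈ A, p.1 ∈ V ∧ p.2 ∈ T p.1 := by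
    intro p hp
    obtain ⟨v, hv, hp⟩ := Finset.mem_biUnion.1 hp
    obtain ⟨i, hi, rfl⟩ := Finset.mem_image.1 hp
    exact ⟨hv, hi⟩
  obtain ⟨θ1, h1, h1'⟩ := l_marg_lb (A ×ˢ (Finset.univ : Finset (Fin s)))
    (fun p => if p.2 = l p.1.1 p.1.2 then 1 else |pv ((D p.1.2).P p.2) p.1.1|) (by
      intro p hp
      obtain ⟨h2, h3⟩ := hA' p.1 (Finset.mem_product.1 hp).1
      show 0 < if p.2 = l p.1.1 p.1.2 then (1:ℝ) else |pv ((D p.1.2).P p.2) p.1.1|
      split_ifs with h4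
      · exact one_pos
      · exact abs_pos.2 fun h5 => h4 (((h.reg p.1.1 h2).zero p.1.2 h3 p.2).1 h5))
  obtain ⟨θ2, h2, h2'⟩ := l_marg_lb A
    (fun p => |fderiv ℝ (pv ((D p.2).P (l p.1 p.2))) p.1 (J (0, 1))|) (by
      intro p hp
      obtain ⟨h2, h3⟩ := hA' p hp
      have h4 := (h.typ p.1 h2 p.2 h3).grad
      have h5 := h.steep p.1 h2 p.2 h3
      have h6 : 0 < c0 * ‖fderiv ℝ (pv ((D p.2).P (l p.1 p.2))) p.1‖ :=
        mul_pos h.cpos (norm_pos_iff.2 h4)
      exact h6.trans_le h5)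
  obtain ⟨θ3, h3, h3'⟩ := l_marg_lb (A ×ˢ (Finset.univ : Finset (Fin N)))
    (fun p => cnr κ c0 (D p.1.2) J p.1.1 p.2 + asd N κ c0 (D p.1.2) - (J.symm p.1.1).1 p.2) (by
      intro p hp
      have h4 := (cubeOf_mem (asd N κ c0 (D p.1.2)) (asd_pos h p.1.2).1 (J.symm p.1.1).1 p.2).2
      have h5 : cnr κ c0 (D p.1.2) J p.1.1 p.2 =
        (cubeOf (asd N κ c0 (D p.1.2)) (J.symm p.1.1).1 p.2 : ℝ) * asd N κ c0 (D p.1.2) := rfl
      dsimp only
      rw [h5]
      linarith)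
  refine ⟨min θ1 (min θ2 θ3), lt_min h1 (lt_min h2 h3), ?_, ?_, ?_⟩
  · intro v hv i hi l' hl
    have h4 := h1' ((v, i), l') (Finset.mem_product.2 ⟨hA v hv i hi, Finset.mem_univ _⟩)
    dsimp only at h4
    rw [if_neg hl] at h4
    exact (min_le_left _ _).trans h4
  · intro v hv i hi
    exact ((min_le_right _ _).trans (min_le_left _ _)).trans (h2' (v, i) (hA v hv i hi))
  · intro v hv i hi k
    have h4 := h3' ((v, i), k) (Finset.mem_product.2 ⟨hA v hv i hi, Finset.mem_univ _⟩)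
    have h5 : min θ1 (min θ2 θ3) ≤ θ3 := (min_le_right _ _).trans (min_le_right _ _)
    dsimp only at h4
    linarith

end KR
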