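import Pool.Agent.KR.L_Ball
import Pool.Agent.KR.L_Chart

open MvPolynomial Metric Filter Topology Pool.Agent.MP_5a1161_co
open UC (E)

namespace KR

/-- In the zone the point is of type (l, σ): the derivative is nonzero since its value at the vertical vector is
(c0 / 2 * ‖..‖ < τ * .. forces it; 0 ≤ c0/2 ‖..‖). -/
theorem zone_typ {N s : ℕ} {J : (E N × ℝ) ≃ₗ[ℝ] Sp (N + 1)} {D : Desc (N + 1) s} {l : Fin s} {τ : SignType}
    {σ : Fin s → SignType} {c0 : ℝ} {β : Fin N → ℝ} {a hw H : ℝ} (hc0 : 0 < c0)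
    (hσ : ∀ l', l' ≠ l → σ l' ≠ 0) {z : E N × ℝ} (hz : z ∈ Zone J D l τ σ c0 β a hw H) :
    Typ D l σ (J z) := by
  obtain ⟨h1, h2, h3, -, -⟩ := hz
  refine ⟨h1, h2, hσ, fun h => ?_⟩
  rw [h, norm_zero, mul_zero, zero_apply, mul_zero] at h3
  exact lt_irrefl _ h3

/-- Above a point of the zone there is the interior of the body (typ_seg with c1 = c0 / 2, u = J (0,1),
‖u‖ = 1 by IsChart; J (z.1, h) = J z + (h - z.2) • J (0,1) by linearity). -/
theorem zone_above {N s : ℕ} {J : (E N × ℝ) ≃ₗ[ℝ] Sp (N + 1)} (hJ : IsChart J) {D : Desc (N + 1) s} {l : Fin s}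
    {τ : SignType} {σ : Fin s → SignType} {c0 : ℝ} {β : Fin N → ℝ} {a hw H : ℝ} (hc0 : 0 < c0)
    (hσ : ∀ l', l' ≠ l → σ l' ≠ 0) (ha : Adm D l τ σ) {κ : ℝ} (hκ : 0 < κ) (hround : IsRound κ D.set)
    (hdiam : 0 < diam D.set) {z : E N × ℝ} (hz : z ∈ Zone J D l τ σ c0 β a hw H) (h : ℝ) (h1 : z.2 < h)
    (h2 : h < z.2 + c0 * (κ * diam D.set)) : J (z.1, h) ∈ interior D.set := by
  obtain ⟨-, -, h3, -, -⟩ := id hz
  have hu : ‖J (0, 1)‖ = 1 := by
    have h4 : ‖J (0, 1)‖ ^ 2 = ‖(0 : E N)‖ ^ 2 + (1 : ℝ) ^ 2 := hJ (0, 1)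
    rw [norm_zero] at h4
    have h5 := norm_nonneg (J (0, 1))
    nlinarith
  have h4 : J (z.1, h) = J z + (h - z.2) • J (0, 1) := by
    rw [← map_smul, ← map_add]
    congr 1
    refine Prod.ext ?_ ?_
    · simp
    · simp
  rw [h4]
  refine typ_seg D l τ σ (J z) ha (zone_typ hc0 hσ hz) κ hκ hround hdiam (J (0, 1)) hu (c0 / 2)
    h3.le (h - z.2) (by linarith) ?_
  have h5 : 2 * (c0 / 2) * (κ * diam D.set) = c0 * (κ * diam D.set) := by ring
  linarith

private theorem l_zone_aux {N s : ℕ} {J : (E N × ℝ) ≃ₗ[ℝ] Sp (N + 1)} (hJ : IsChart J)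
    {D : Desc (N + 1) s} {l : Fin s}
    {τ : SignType} {σ : Fin s → SignType} {c0 : ℝ} {β : Fin N → ℝ} {a hw H : ℝ} (hc0 : 0 < c0)
    (hσ : ∀ l', l' ≠ l → σ l' ≠ 0) (ha : Adm D l τ σ) {κ : ℝ} (hκ : 0 < κ)
    (hround : IsRound κ D.set) (hdiam : 0 < diam D.set) (hH : 4 * H ≤ c0 * (κ * diam D.set))
    {y : E N} {t t' : ℝ} (h : (y, t) ∈ Zone J D l τ σ c0 β a hw H)
    (h' : (y, t') ∈ Zone J D l τ σ c0 β a hw H) (hlt : t < t') : False := by
  have h1 : |t - hw| < 2 * H := h.2.2.2.2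
  have h2 : |t' - hw| < 2 * H := h'.2.2.2.2
  rw [abs_lt] at h1 h2
  have h3 := zone_above hJ hc0 hσ ha hκ hround hdiam h t' hlt (by
    show t' < t + c0 * (κ * diam D.set)
    linarith [h1.1, h2.2])
  have h4 := typ_frontier D l τ σ (J (y, t')) ha (zone_typ hc0 hσ h')
  exact h4.2 h3

/-- The zone is single valued.
Proof: two points (y,t), (y,t') of the zone with t < t': t' - t ≤ |t' - hw| + |t - hw| < 4 H ≤ c0 κ diam, so
J (y,t') is an interior point by zone_above; but it is on the frontier (typ_frontier, zone_typ). -/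
theorem zone_single {N s : ℕ} {J : (E N × ℝ) ≃ₗ[ℝ] Sp (N + 1)} (hJ : IsChart J) {D : Desc (N + 1) s} {l : Fin s}
    {τ : SignType} {σ : Fin s → SignType} {c0 : ℝ} {β : Fin N → ℝ} {a hw H : ℝ} (hc0 : 0 < c0)
    (hσ : ∀ l', l' ≠ l → σ l' ≠ 0) (ha : Adm D l τ σ) {κ : ℝ} (hκ : 0 < κ) (hround : IsRound κ D.set)
    (hdiam : 0 < diam D.set) (hH : 4 * H ≤ c0 * (κ * diam D.set)) :
    UC3.Single (Zone J D l τ σ c0 β a hw H) := by
  intro y t t' h h'
  rcases lt_trichotomy t t' with h1 | h1 | h1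
  · exact (l_zone_aux hJ hc0 hσ ha hκ hround hdiam hH h h' h1).elim
  · exact h1
  · exact (l_zone_aux hJ hc0 hσ ha hκ hround hdiam hH h' h h1).elim

/-- The zone is relatively open in {P_l = 0}.
Proof: all the other conditions of the definition are open: signs of P_l' equal to σ l' ≠ 0 (continuity), the
strict inequality between continuous functions (fderiv of the smooth function pv is continuous; J is linear on a
finite dimensional space, so continuous: `LinearMap.continuous_of_finiteDimensional`,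
`LinearEquiv.toContinuousLinearEquiv`), finitely many strict inequalities for the coordinates, |z.2 - hw| < 2 H. -/
theorem zone_open {N s : ℕ} {J : (E N × ℝ) ≃ₗ[ℝ] Sp (N + 1)} {D : Desc (N + 1) s} {l : Fin s} {τ : SignType}
    {σ : Fin s → SignType} {c0 : ℝ} {β : Fin N → ℝ} {a hw H : ℝ} (hσ : ∀ l', l' ≠ l → σ l' ≠ 0) :
    ∀ z ∈ Zone J D l τ σ c0 β a hw H, ∀ᶠ z' in 𝓝 z, pv (D.P l) (J z') = 0 →
      z' ∈ Zone J D l τ σ c0 β a hw H := by
  rintro z ⟨-, h2, h3, h4, h5⟩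
  have hJc : Continuous (fun z : E N × ℝ => J z) := J.toLinearMap.continuous_of_finiteDimensional
  have hPc : ∀ l', Continuous (fun z : E N × ℝ => pv (D.P l') (J z)) := fun l' =>
    (pv_contDiff (D.P l') 1).continuous.comp hJc
  have hFc : Continuous (fun z : E N × ℝ => fderiv ℝ (pv (D.P l)) (J z)) :=
    ((pv_contDiff (D.P l) 1).continuous_fderiv (by norm_num)).comp hJc
  have e2 : ∀ᶠ z' in 𝓝 z, ∀ l', l' ≠ l → SignType.sign (pv (D.P l') (J z')) = σ l' := by
    rw [eventually_all]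
    intro l'
    by_cases hl : l' = l
    · exact Eventually.of_forall fun z' h => absurd hl h
    · have h6 : pv (D.P l') (J z) ≠ 0 := by
        intro h7
        have h8 := h2 l' hl
        rw [h7, sign_zero] at h8
        exact hσ l' hl h8.symm
      have h7 : ContinuousAt (fun z' : E N × ℝ => SignType.sign (pv (D.P l') (J z'))) z :=
        ContinuousAt.comp (f := fun z' : E N × ℝ => pv (D.P l') (J z')) (g := SignType.sign)
          (continuousAt_sign_of_ne_zero h6) (hPc l').continuousAt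
      have h8 : ∀ᶠ z' in 𝓝 z, SignType.sign (pv (D.P l') (J z')) ∈ ({σ l'} : Set SignType) :=
        h7.eventually_mem ((isOpen_discrete _).mem_nhds (h2 l' hl))
      exact h8.mono fun z' h _ => h
  have e3 : ∀ᶠ z' in 𝓝 z, c0 / 2 * ‖fderiv ℝ (pv (D.P l)) (J z')‖ <
      (τ : ℝ) * fderiv ℝ (pv (D.P l)) (J z') (J (0, 1)) := by
    have h6 : IsOpen {z' : E N × ℝ | c0 / 2 * ‖fderiv ℝ (pv (D.P l)) (J z')‖ <
      (τ : ℝ) * fderiv ℝ (pv (D.P l)) (J z') (J (0, 1))} :=
      isOpen_lt (continuous_const.mul hFc.norm)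
        (continuous_const.mul (hFc.clm_apply continuous_const))
    exact h6.mem_nhds h3
  have e4 : ∀ᶠ z' : E N × ℝ in 𝓝 z, ∀ k, β k - a < z'.1 k ∧ z'.1 k < β k + 2 * a := by
    rw [eventually_all]
    intro k
    have hc : Continuous (fun z' : E N × ℝ => z'.1 k) :=
      (EuclideanSpace.proj (𝕜 := ℝ) k).continuous.comp continuous_fst
    have h6 : IsOpen {z' : E N × ℝ | β k - a < z'.1 k} := isOpen_lt continuous_const hc
    have h7 : IsOpen {z' : E N × ℝ | z'.1 k < β k + 2 * a} := isOpen_lt hc continuous_const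
    exact Filter.inter_mem (h6.mem_nhds (h4 k).1) (h7.mem_nhds (h4 k).2)
  have e5 : ∀ᶠ z' : E N × ℝ in 𝓝 z, |z'.2 - hw| < 2 * H := by
    have h6 : IsOpen {z' : E N × ℝ | |z'.2 - hw| < 2 * H} :=
      isOpen_lt (continuous_snd.sub continuous_const).abs continuous_const
    exact h6.mem_nhds h5
  filter_upwards [e2, e3, e4, e5] with z' f2 f3 f4 f5 f1
  exact ⟨f1, f2, f3, f4, f5⟩

/-- The closed box. -/
def ZBox {N : ℕ} (β : Fin N → ℝ) (a hw H : ℝ) : Set (E N × ℝ) :=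
  {z | (∀ k, β k - a ≤ z.1 k ∧ z.1 k ≤ β k + 2 * a) ∧ |z.2 - hw| ≤ 2 * H}

/-- It is compact: closed and bounded in a finite dimensional (proper) space (or product of compact sets;
the set of the y with bounded coordinates is the preimage of a product of intervals under the homeomorphism
EuclideanSpace.equiv). -/
theorem zbox_compact {N : ℕ} (β : Fin N → ℝ) (a hw H : ℝ) : IsCompact (ZBox β a hw H : Set (E N × ℝ)) := by
  have h1 : (ZBox β a hw H : Set (E N × ℝ)) =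
      ((EuclideanSpace.equiv (Fin N) ℝ).toHomeomorph ⁻¹'
        (Set.univ.pi fun k => Set.Icc (β k - a) (β k + 2 * a))) ×ˢ
      (closedBall hw (2 * H) : Set ℝ) := by
    ext z
    constructor
    · rintro ⟨h2, h3⟩
      refine ⟨fun k _ => h2 k, ?_⟩
      rw [mem_closedBall, Real.dist_eq]
      exact h3
    · rintro ⟨h2, h3⟩
      refine ⟨fun k => h2 k (Set.mem_univ k), ?_⟩
      rw [mem_closedBall, Real.dist_eq] at h3
      exact h3
  rw [h1]
  refine IsCompact.prod ?_ (isCompact_closedBall _ _)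
  rw [Homeomorph.isCompact_preimage]
  exact isCompact_univ_pi fun k => isCompact_Icc

/-- A zero of P_l in the box at which all penalty functions are ≥ 0 is in the zone.
Proof: from `pp (inl (inl l'))`, l' ≠ l: σ l' * P_l' ≥ θ > 0, so the sign of P_l' is σ l' (σ l' is 1 or -1, or 0
which is impossible).  From `pp (inl (inr true))`: τ G ≥ θ > 0 where G = DP_l(J z)(J (0,1)); from
`pp (inl (inr false))`: G² ≥ c0² ‖DP_l‖², so |G| ≥ c0 ‖DP_l‖; τ G = |G| (τ = ±1, τ G > 0; even |τ| ≤ 1 suffices: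
τ G > 0 forces τ = ±1 and τ G = |G|); ‖DP_l‖ > 0 as G ≠ 0; so τ G ≥ c0 ‖DP‖ > c0/2 ‖DP‖.  From the faces:
β k ≤ z.1 k ≤ β k + a - θ and |z.2 - hw| ≤ H, which are strictly inside as a, H > 0. -/
theorem zone_of_pp {N s : ℕ} {J : (E N × ℝ) ≃ₗ[ℝ] Sp (N + 1)} {D : Desc (N + 1) s} {l : Fin s} {τ : SignType}
    {σ : Fin s → SignType} {c0 : ℝ} {β : Fin N → ℝ} {a hw H θ : ℝ} (hc0 : 0 < c0) (ha : 0 < a) (hH : 0 < H)
    (hθ : 0 < θ) {z : E N × ℝ} (hz : pv (D.P l) (J z) = 0)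
    (hp : ∀ j, 0 ≤ pp J D l τ σ c0 β a hw H θ j z) : z ∈ Zone J D l τ σ c0 β a hw H := by
  refine ⟨hz, ?_, ?_, ?_, ?_⟩
  · intro l' hl
    have h1 : 0 ≤ pp J D l τ σ c0 β a hw H θ (.inl (.inl l')) z := hp _
    have h2 : pp J D l τ σ c0 β a hw H θ (.inl (.inl l')) z =
        (σ l' : ℝ) * pv (D.P l') (J z) - θ := by
      simp only [pp]
      rw [if_neg hl]
    rw [h2] at h1
    have h3 : 0 < (σ l' : ℝ) * pv (D.P l') (J z) := by linarith
    have h4 : σ l' = 0 ∨ σ l' = 1 ∨ σ l' = -1 := by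
      cases σ l' <;> simp
    rcases h4 with h4 | h4 | h4
    · rw [h4, SignType.coe_zero, zero_mul] at h3
      exact absurd h3 (lt_irrefl _)
    · rw [h4, SignType.coe_one, one_mul] at h3
      rw [h4, sign_pos h3]
    · rw [h4, SignType.coe_neg_one] at h3
      rw [h4, sign_neg (by linarith)]
  · have h1 : 0 ≤ (τ : ℝ) * fderiv ℝ (pv (D.P l)) (J z) (J (0, 1)) - θ := hp (.inl (.inr true))
    have h2 : 0 ≤ (fderiv ℝ (pv (D.P l)) (J z) (J (0, 1))) ^ 2
      - c0 ^ 2 * ‖fderiv ℝ (pv (D.P l)) (J z)‖ ^ 2 := hp (.inl (.inr false))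
    generalize fderiv ℝ (pv (D.P l)) (J z) = L at h1 h2 ⊢
    have h3 : 0 < (τ : ℝ) * L (J (0, 1)) := by linarith
    have h4 : L ≠ 0 := by
      rintro rfl
      rw [zero_apply, mul_zero] at h3
      exact lt_irrefl _ h3
    have h5 : 0 < ‖L‖ := norm_pos_iff.2 h4
    have h6 : ((τ : ℝ) * L (J (0, 1))) ^ 2 = (L (J (0, 1))) ^ 2 := by
      have h7 : τ = 0 ∨ τ = 1 ∨ τ = -1 := by
        cases τ <;> simp
      rcases h7 with h7 | h7 | h7
      · rw [h7, SignType.coe_zero, zero_mul] at h3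
        exact absurd h3 (lt_irrefl _)
      · rw [h7, SignType.coe_one, one_mul]
      · rw [h7, SignType.coe_neg_one]
        ring
    have h7 : c0 * ‖L‖ ≤ (τ : ℝ) * L (J (0, 1)) := by
      refine (pow_le_pow_iff_left₀ (by positivity) h3.le two_ne_zero).1 ?_
      rw [h6, mul_pow]
      linarith
    have h8 : 0 < c0 * ‖L‖ := mul_pos hc0 h5
    linarith
  · intro k
    have h1 : 0 ≤ z.1 k - β k := hp (.inr (.inl (k, true)))
    have h2 : 0 ≤ β k + a - θ - z.1 k := hp (.inr (.inl (k, false)))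
    constructor <;> linarith
  · have h1 : 0 ≤ z.2 - hw + H := hp (.inr (.inr true))
    have h2 : 0 ≤ hw + H - z.2 := hp (.inr (.inr false))
    rw [abs_lt]
    constructor <;> linarith

end KR
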