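import Pool.Agent.KR.L_Lip
import Pool.Agent.KR.L_Marg
import Pool.Agent.KR.L_Zone

open MvPolynomial Metric Filter Topology Pool.Agent.MP_5a1161_co
open UC (E)

namespace KR

/-- The chart point of v: `cht J χ (zpt J χ v) = v` since sg χ * (sg χ * h) = h. -/
theorem cht_zpt {N : ℕ} (J : (E N × ℝ) ≃ₗ[ℝ] Sp (N + 1)) (χ : Bool) (v : Sp (N + 1)) :
    cht J χ (zpt J χ v) = v := by
  exact (cht J χ).apply_symm_apply v

theorem l_on_sq (χ : Bool) : UC.sg χ * UC.sg χ = 1 := by cases χ <;> simp [UC.sg]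

theorem l_on_abs (χ : Bool) : |UC.sg χ| = 1 := by cases χ <;> simp [UC.sg]

/-- the vertical distance of two vertices in the same cube -/
theorem l_on_height {N s : ℕ} {ι : Type} {b : ℕ} {κ c0 : ℝ} {D : ι → Desc (N + 1) s}
    {J : (E N × ℝ) ≃ₗ[ℝ] Sp (N + 1)} {V : Finset (Sp (N + 1))} {T : Sp (N + 1) → Finset ι}
    {l : Sp (N + 1) → ι → Fin s} {τ : Sp (N + 1) → ι → SignType} {q : ℝ}
    (h : LHyp b κ c0 D J V T l τ q) (v w : Sp (N + 1)) (hv : v ∈ V) (hw : w ∈ V) (i : ι)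
    (he : cubeOf (asd N κ c0 (D i)) (J.symm v).1 = cubeOf (asd N κ c0 (D i)) (J.symm w).1)
    (χ : Bool) : |UC.sg χ * (J.symm v).2 - UC.sg χ * (J.symm w).2| ≤ hsd κ c0 (D i) := by
  obtain ⟨ha, hH⟩ := asd_pos h i
  have h1 := lip h v w hv hw
  have h2 : ‖(J.symm v).1 - (J.symm w).1‖ ≤ N * asd N κ c0 (D i) := by
    refine norm_le_of_coord _ _ ha.le fun k => ?_
    have e1 := cubeOf_mem (asd N κ c0 (D i)) ha (J.symm v).1 k
    have e2 := cubeOf_mem (asd N κ c0 (D i)) ha (J.symm w).1 k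
    rw [he] at e1
    rw [PiLp.sub_apply, abs_le]
    constructor <;> linarith [e1.1, e1.2, e2.1, e2.2]
  have hN : (0 : ℝ) < N := by
    have := h.hN
    exact_mod_cast this
  have hc := h.cpos
  have h3 : 4 / c0 * (N * asd N κ c0 (D i)) = hsd κ c0 (D i) / 2 := by
    unfold asd hsd
    field_simp
    ring
  have h4 : 4 / c0 * ‖(J.symm v).1 - (J.symm w).1‖ ≤ 4 / c0 * (N * asd N κ c0 (D i)) :=
    mul_le_mul_of_nonneg_left h2 (by positivity)
  rw [← mul_sub, abs_mul, l_on_abs, one_mul, abs_sub_comm]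
  linarith

/-- At a vertex v all the penalties of its own patches are nonnegative, for any representative w with the same
index.
Proof: the equality of the indices gives: same χ, l w i = l v i, τ, (D i).sv w = (D i).sv v, same cube, so
cnr κ c0 (D i) J w = cnr κ c0 (D i) J v.  At z = zpt J χ v, cht J χ z = v (cht_zpt).  The penalties:
(inl (inl l')): l' = l: 1 ≥ 0.  Else (sign x) * x = |x| ≥ θ with x = pv P_l' v (Marg.val), sign x = sv v l'.
(inl (inr true)): τ DP(v) (cht J χ (0,1)) = sg χ * (τ DP(v) u), u = J (0,1) (cht_up), and this is |DP u| ≥ θ by the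
definition of χ (χ = true iff 0 < τ DP u; |τ| = 1; if not 0 < τ DP u then - τ DP u = |DP u|) and Marg.der.
(inl (inr false)): (sg χ * DP u)² = |DP u|² ≥ (c0 ‖DP‖)² by steep.
faces: cnr ≤ (J.symm v).1 k (cubeOf_mem) and Marg.cub.
height: |sg χ * h_v - sg χ * h_w| = |h_v - h_w| ≤ 4/c0 ‖v.1 - w.1‖ (lip) ≤ 4/c0 * (N * a) with a = asd (same cube:
the coordinates differ by at most a; norm_le_of_coord) = c0 κ diam / 8 ≤ hsd. -/
theorem on_pp {N s : ℕ} {ι : Type} {b : ℕ} {κ c0 : ℝ} {D : ι → Desc (N + 1) s}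
    {J : (E N × ℝ) ≃ₗ[ℝ] Sp (N + 1)} {V : Finset (Sp (N + 1))} {T : Sp (N + 1) → Finset ι}
    {l : Sp (N + 1) → ι → Fin s} {τ : Sp (N + 1) → ι → SignType} {q θ : ℝ}
    (h : LHyp b κ c0 D J V T l τ q) (hθ : Marg κ c0 D J V T l θ) (v w : Sp (N + 1)) (hv : v ∈ V)
    (hw : w ∈ V) (i : ι) (hiv : i ∈ T v) (hiw : i ∈ T w)
    (he : lidx κ c0 D J l τ v i = lidx κ c0 D J l τ w i) (j : PIdx N s) :
    0 ≤ pn κ c0 D J l τ θ (lidx κ c0 D J l τ w i).1 i w j (zpt J (lidx κ c0 D J l τ w i).1 v) := by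
  classical
  obtain ⟨ha, hH⟩ := asd_pos h i
  have e1 : (lidx κ c0 D J l τ v i).1 = (lidx κ c0 D J l τ w i).1 := by rw [he]
  have e2 : l w i = l v i := (congrArg (fun a : LIdx N s ι => a.2.2.1) he).symm
  have e3 : τ w i = τ v i := (congrArg (fun a : LIdx N s ι => a.2.2.2.1) he).symm
  have e4 : (D i).sv w = (D i).sv v := (congrArg (fun a : LIdx N s ι => a.2.2.2.2.1) he).symm
  have e5 : cubeOf (asd N κ c0 (D i)) (J.symm v).1 = cubeOf (asd N κ c0 (D i)) (J.symm w).1 :=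
    congrArg (fun a : LIdx N s ι => a.2.2.2.2.2) he
  have e6 : cnr κ c0 (D i) J w = cnr κ c0 (D i) J v := by
    unfold cnr
    rw [e5]
  obtain ⟨u, hu⟩ : ∃ u : Sp (N + 1), u = J (0, 1) := ⟨_, rfl⟩
  obtain ⟨x, hx⟩ : ∃ x : ℝ, x = fderiv ℝ (pv ((D i).P (l v i))) v (J (0, 1)) := ⟨_, rfl⟩
  obtain ⟨χ, hχ⟩ : ∃ χ : Bool, χ = (lidx κ c0 D J l τ w i).1 := ⟨_, rfl⟩
  have hχ2 : χ = decide (0 < (τ v i : ℝ) * x) := by
    rw [hχ, ← e1, hx]
    rfl
  have hτ : |(τ v i : ℝ)| = 1 := by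
    rcases (h.adm v hv i hiv).1 with h1 | h1
    · rw [h1]
      simp
    · rw [h1]
      simp
  have hτx : |(τ v i : ℝ) * x| = |x| := by rw [abs_mul, hτ, one_mul]
  have hsgx : UC.sg χ * ((τ v i : ℝ) * x) = |x| := by
    rw [← hτx]
    by_cases h1 : 0 < (τ v i : ℝ) * x
    · rw [hχ2, decide_eq_true h1, abs_of_pos h1]
      simp [UC.sg]
    · rw [hχ2, decide_eq_false h1, abs_of_nonpos (not_lt.1 h1)]
      simp [UC.sg]
  have hder : θ ≤ |x| := by
    rw [hx]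
    exact hθ.der v hv i hiv
  have hup : fderiv ℝ (pv ((D i).P (l v i))) v (cht J χ (0, 1)) = UC.sg χ * x := by
    rw [cht_up, map_smul, smul_eq_mul, hx]
  have hheight := abs_le.1 (l_on_height h v w hv hw i e5 χ)
  rw [← hχ]
  unfold pn
  rw [e2, e3, e4, e6]
  rcases j with (l' | b') | (⟨k, b'⟩ | b')
  · change 0 ≤ (if l' = l v i then (1 : ℝ) else
      ((D i).sv v l' : ℝ) * pv ((D i).P l') (cht J χ (zpt J χ v)) - θ)
    split_ifs with h1
    · exact zero_le_one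
    · rw [cht_zpt]
      have h2 : ((D i).sv v l' : ℝ) * pv ((D i).P l') v = |pv ((D i).P l') v| :=
        sign_mul_self _
      rw [h2]
      have h3 := hθ.val v hv i hiv l' h1
      linarith
  · cases b'
    · change 0 ≤ (fderiv ℝ (pv ((D i).P (l v i))) (cht J χ (zpt J χ v)) (cht J χ (0, 1))) ^ 2
        - c0 ^ 2 * ‖fderiv ℝ (pv ((D i).P (l v i))) (cht J χ (zpt J χ v))‖ ^ 2
      rw [cht_zpt, hup]
      have h1 := h.steep v hv i hiv
      rw [← hx] at h1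
      have h2 : (c0 * ‖fderiv ℝ (pv ((D i).P (l v i))) v‖) ^ 2 ≤ |x| ^ 2 :=
        pow_le_pow_left₀ (mul_nonneg h.cpos.le (norm_nonneg _)) h1 2
      rw [sq_abs, mul_pow] at h2
      have h3 : (UC.sg χ * x) ^ 2 = x ^ 2 := by
        rw [mul_pow, sq, l_on_sq, one_mul]
      rw [h3]
      linarith
    · change 0 ≤ (τ v i : ℝ) * fderiv ℝ (pv ((D i).P (l v i))) (cht J χ (zpt J χ v))
        (cht J χ (0, 1)) - θ
      rw [cht_zpt, hup]
      have h1 : (τ v i : ℝ) * (UC.sg χ * x) = |x| := by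
        rw [← hsgx]
        ring
      rw [h1]
      linarith
  · have hcub := cubeOf_mem (asd N κ c0 (D i)) ha (J.symm v).1 k
    cases b'
    · change 0 ≤ cnr κ c0 (D i) J v k + asd N κ c0 (D i) - θ - (J.symm v).1 k
      have h1 := hθ.cub v hv i hiv k
      linarith
    · change 0 ≤ (J.symm v).1 k - cnr κ c0 (D i) J v k
      have h1 : cnr κ c0 (D i) J v k =
        (cubeOf (asd N κ c0 (D i)) (J.symm v).1 k : ℝ) * asd N κ c0 (D i) := rfl
      rw [h1]
      linarith [hcub.1]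
  · cases b'
    · change 0 ≤ UC.sg χ * (J.symm w).2 + hsd κ c0 (D i) - UC.sg χ * (J.symm v).2
      linarith [hheight.2]
    · change 0 ≤ UC.sg χ * (J.symm v).2 - UC.sg χ * (J.symm w).2 + hsd κ c0 (D i)
      linarith [hheight.1]

end KR
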