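import Pool.Agent.KR.TDefs

open MvPolynomial

namespace KR

open UC

/-- The degree of the system.
Proof.  As `UC.lagSys_deg` in Pool/Agent/UC/PolyND.lean: totalDegree_sub, totalDegree_add,
totalDegree_mul, totalDegree_rename_le, UC.totalDegree_pderiv_le_of, totalDegree_finsetSum_le. -/
theorem tsys_deg {N : ℕ} {ι : Type} [DecidableEq ι] (P Ξ : ι → MvPolynomial (Fin (N + 1)) ℝ)
    (col : ι → Bool) (a : ι → ℝ) (b : ι → E N) (T : Finset ι) (D : ℕ)
    (hD : ∀ i, (P i).totalDegree ≤ D ∧ (Ξ i).totalDegree ≤ D) (k : TI N T) :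
    (tsys P Ξ col a b T k).totalDegree ≤ D + 1 := by
  have hrn : ∀ (i : {i // i ∈ T}) (Q : MvPolynomial (Fin (N + 1)) ℝ), Q.totalDegree ≤ D →
      (rename (emb (N := N) i) Q).totalDegree ≤ D := fun i Q hQ =>
    (MvPolynomial.totalDegree_rename_le _ _).trans hQ
  have hCX : ∀ (r : ℝ) (k : TI N T), (C r * X k : MvPolynomial (TI N T) ℝ).totalDegree ≤
      D + 1 := by
    intro r k
    refine (MvPolynomial.totalDegree_mul _ _).trans ?_
    rw [MvPolynomial.totalDegree_C, MvPolynomial.totalDegree_X]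
    omega
  have hXQ : ∀ (k : TI N T) (Q : MvPolynomial (TI N T) ℝ), Q.totalDegree ≤ D →
      (X k * Q).totalDegree ≤ D + 1 := by
    intro k Q hQ
    refine (MvPolynomial.totalDegree_mul _ _).trans ?_
    rw [MvPolynomial.totalDegree_X]
    omega
  have hadd : ∀ (A B : MvPolynomial (TI N T) ℝ) (n : ℕ), A.totalDegree ≤ n → B.totalDegree ≤ n →
      (A + B).totalDegree ≤ n := fun A B n hA hB =>
    (MvPolynomial.totalDegree_add _ _).trans (max_le hA hB)
  have hC : ∀ (r : ℝ) (n : ℕ), (C r : MvPolynomial (TI N T) ℝ).totalDegree ≤ n := by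
    intro r n
    rw [MvPolynomial.totalDegree_C]
    omega
  have hX : ∀ k : TI N T, (X k : MvPolynomial (TI N T) ℝ).totalDegree ≤ D + 1 := by
    intro k
    rw [MvPolynomial.totalDegree_X]
    omega
  rcases k with l | i | i | i | β
  · refine (MvPolynomial.totalDegree_sub _ _).trans (max_le (hCX _ _) ?_)
    refine MvPolynomial.totalDegree_finsetSum_le fun i _ => ?_
    refine hadd _ _ _ (hXQ _ _ (hadd _ _ _ (hrn i _ ?_) (hC _ _))) (hXQ _ _ (hrn i _ ?_))
    · exact totalDegree_pderiv_le_of _ _ D (hD _).2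
    · exact totalDegree_pderiv_le_of _ _ D (hD _).1
  · refine hadd _ _ _ (hXQ _ _ (hrn i _ ?_)) (hXQ _ _ (hrn i _ ?_))
    · exact totalDegree_pderiv_le_of _ _ D (hD _).2
    · exact totalDegree_pderiv_le_of _ _ D (hD _).1
  · exact (hrn i _ (hD _).1).trans (Nat.le_succ _)
  · refine (MvPolynomial.totalDegree_sub _ _).trans (max_le ?_ (hX _))
    refine hadd _ _ _ (hadd _ _ _ ((hrn i _ (hD _).2).trans (Nat.le_succ _)) (hC _ _)) ?_
    exact MvPolynomial.totalDegree_finsetSum_le fun l _ => hCX _ _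
  · refine MvPolynomial.totalDegree_finsetSum_le fun i _ => ?_
    split_ifs
    · exact hX _
    · rw [MvPolynomial.totalDegree_zero]
      omega

end KR
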