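import Pool.Agent.KR.TLem

open MvPolynomial

namespace KR

open UC

private theorem TInj_hd {N : ℕ} {ι : Type} (φ : ι → E N → ℝ) (hφ : ∀ i, ContDiff ℝ 2 (φ i))
    (a : ι → ℝ) (b : ι → E N) (i : ι) (y : E N) :
    fderiv ℝ (pert φ a b i) y = fderiv ℝ (φ i) y + innerSL ℝ (b i) := by
  have h2 := ((hφ i).differentiable (by norm_num) y).hasFDerivAt
  have h1 : HasFDerivAt (pert φ a b i) (fderiv ℝ (φ i) y + innerSL ℝ (b i)) y :=
    (h2.add_const (a i)).add (innerSL ℝ (b i)).hasFDerivAt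
  exact h1.fderiv

private theorem TInj_fd {N : ℕ} {ι : Type} (φ : ι → E N → ℝ) (hφ : ∀ i, ContDiff ℝ 2 (φ i))
    (a : ι → ℝ) (b : ι → E N) (i : ι) (y e : E N) :
    fderiv ℝ (pert φ a b i) y e = fderiv ℝ (φ i) y e + ∑ l, b i l * e l := by
  rw [TInj_hd φ hφ a b i y]
  simp [PiLp.inner_apply, mul_comm]

private theorem TInj_fd2 {N : ℕ} {ι : Type} (φ : ι → E N → ℝ) (hφ : ∀ i, ContDiff ℝ 2 (φ i))
    (a : ι → ℝ) (b : ι → E N) (i : ι) (y : E N) :
    fderiv ℝ (fun x => fderiv ℝ (pert φ a b i) x) y = fderiv ℝ (fun x => fderiv ℝ (φ i) x) y := by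
  have h1 : (fun x => fderiv ℝ (pert φ a b i) x) =
      fun x => fderiv ℝ (φ i) x + innerSL ℝ (b i) := by
    funext x
    exact TInj_hd φ hφ a b i x
  rw [h1, fderiv_add_const]

/-- The derivative of the system is injective at nondegenerate critical points.
Proof.  w = tpt T u t' mu' c' s' with c' = 0 outside T (exists_tpt).  Write x_i = pt y (t i),
P_h, Ξ_h for the vertical and P_l, Ξ_l for the base derivatives.  Use UC.ddir_add, ddir_sub,
ddir_mul, ddir_sum, ddir_X, ddir_C, ddir_emb, eval_emb.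
* Third group: dv x_i (pt u (t' i)) (P i) = 0.  With hη and dv_pt (P_h ≠ 0, linear in the last
coordinate) t' i = dη i u.
* Fourth group: dv x_i (pt u (dη i u)) (Ξ i) + ∑ b_il u_l = s' (col i).  The left side is
fderiv (pert φ a b i) y u: by hd, hη (dv_pt) and hlam:
dv x_i (pt u (dη)) Ξ = ∑ Ξ_l u_l + Ξ_h dη = ∑ Ξ_l u_l - lam P_h dη = ∑ (Ξ_l + lam P_l) u_l.
So the tangency condition of hnd holds.
* Fifth group: Coef col T c' (UC.sum_attach_if).
* Second group: c' Ξ_h + c dv(Ξ_h) + mu' P_h + c lam dv(P_h) = 0 (dv in direction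
pt u (dη i u)).  With hlam and h2 (dlam P_h + lam dv P_h + dv Ξ_h = 0): mu' P_h =
c' lam P_h + c dlam(u) P_h, so mu' i = lam i c' i + c i dlam i u.
* First group, for each l: 2 u_l = ∑_i [c'_i (Ξ_l + b_il) + c_i dv Ξ_l + mu'_i P_l +
c_i lam_i dv P_l] = ∑_i [c'_i (Ξ_l + lam_i P_l + b_il) + c_i (dv Ξ_l + lam_i dv P_l + dlam_i(u) P_l)].
Multiply by e_l and sum over l: this is the Hessian condition of hnd (second derivative of
pert φ a b i = second derivative of φ i; UC.pev_rr, UC.pev_fderiv2, UC.pderiv_rr for rr; h2d).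
* hnd gives u = 0, c' = 0; then t' i = dη i 0 = 0 for i ∈ T (from dv_pt, P_h ≠ 0), mu' i = dlam i 0 *
c i = 0 (from h2 with u = 0: dlam i 0 * P_h = 0, because dv in direction pt 0 (dη i 0) = 0 is 0),
s' β = 0 (fourth group for tt β).  So w = 0 (cases).  As in UC.lag_inj of
Pool/Agent/UC/PolyND.lean. -/
theorem tsys_inj {N : ℕ} {ι : Type} [DecidableEq ι] (P Ξ : ι → MvPolynomial (Fin (N + 1)) ℝ)
    (φ : ι → E N → ℝ) (hφ : ∀ i, ContDiff ℝ 2 (φ i)) (col : ι → Bool) (a : ι → ℝ)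
    (b : ι → E N) (T : Finset ι) (tt : Bool → ι) (htt : ∀ β, tt β ∈ T ∧ col (tt β) = β)
    (y : E N) (c t lam : ι → ℝ) (s : Bool → ℝ) (dη dlam : ι → E N → ℝ)
    (hnd : ∀ (u : E N) (g : ι → ℝ), Coef col T g →
      (∀ i ∈ T, ∀ j ∈ T, col i = col j →
        fderiv ℝ (pert φ a b i) y u = fderiv ℝ (pert φ a b j) y u) →
      (fderiv ℝ (fun x => fderiv ℝ (rr (N := N)) x) y u
        - ∑ i ∈ T, c i • fderiv ℝ (fun x => fderiv ℝ (pert φ a b i) x) y u
        - ∑ i ∈ T, g i • fderiv ℝ (pert φ a b i) y = 0) → u = 0 ∧ g = 0)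
    (hPh : ∀ i ∈ T, pev (pderiv (Fin.last N) (P i)) (pt y (t i)) ≠ 0)
    (hlam : ∀ i ∈ T, lam i * pev (pderiv (Fin.last N) (P i)) (pt y (t i)) +
      pev (pderiv (Fin.last N) (Ξ i)) (pt y (t i)) = 0)
    (hη : ∀ i ∈ T, ∀ u, dv (pt y (t i)) (pt u (dη i u)) (P i) = 0)
    (hd : ∀ i ∈ T, ∀ e, fderiv ℝ (φ i) y e =
      ∑ l : Fin N, (pev (pderiv l.castSucc (Ξ i)) (pt y (t i)) +
        lam i * pev (pderiv l.castSucc (P i)) (pt y (t i))) * e l)
    (h2 : ∀ i ∈ T, ∀ u, dlam i u * pev (pderiv (Fin.last N) (P i)) (pt y (t i)) +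
        lam i * dv (pt y (t i)) (pt u (dη i u)) (pderiv (Fin.last N) (P i)) +
        dv (pt y (t i)) (pt u (dη i u)) (pderiv (Fin.last N) (Ξ i)) = 0)
    (h2d : ∀ i ∈ T, ∀ u e, fderiv ℝ (fun z => fderiv ℝ (φ i) z) y u e =
        ∑ l : Fin N, (dv (pt y (t i)) (pt u (dη i u)) (pderiv l.castSucc (Ξ i)) +
          lam i * dv (pt y (t i)) (pt u (dη i u)) (pderiv l.castSucc (P i)) +
          dlam i u * pev (pderiv l.castSucc (P i)) (pt y (t i))) * e l)
    (w : TI N T → ℝ)
    (hw : ∀ k, ddir (tpt T y t (fun i => c i * lam i) c s) w (tsys P Ξ col a b T k) = 0) :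
    w = 0 := by
  classical
  obtain ⟨u, t', mu', c', s', hc', rfl⟩ := exists_tpt w
  -- third group
  have e3 : ∀ i ∈ T, dv (pt y (t i)) (pt u (t' i)) (P i) = 0 := by
    intro i hi
    have h1 := hw (Sum.inr (Sum.inr (Sum.inl ⟨i, hi⟩)))
    rw [tsys, ddir_emb] at h1
    exact h1
  have et : ∀ i ∈ T, t' i = dη i u := by
    intro i hi
    have h1 := e3 i hi
    have h2 := hη i hi u
    rw [dv_pt] at h1 h2
    have h3 : pev (pderiv (Fin.last N) (P i)) (pt y (t i)) * (t' i - dη i u) = 0 := by linarith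
    rcases mul_eq_zero.1 h3 with h | h
    · exact absurd h (hPh i hi)
    · linarith
  -- fourth group
  have e4 : ∀ i ∈ T, dv (pt y (t i)) (pt u (dη i u)) (Ξ i) + ∑ l, b i l * u l = s' (col i) := by
    intro i hi
    have h1 := hw (Sum.inr (Sum.inr (Sum.inr (Sum.inl ⟨i, hi⟩))))
    rw [tsys, ddir_sub, ddir_add, ddir_add, ddir_emb, ddir_C, ddir_sum, ddir_X] at h1
    have h2 : ∀ l : Fin N, ddir (tpt T y t (fun i => c i * lam i) c s)
        (tpt T u t' mu' c' s') (C (b i l) * X (vY l)) = b i l * u l := by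
      intro l
      rw [ddir_mul, ddir_C, ddir_X, eval_C, zero_mul, add_zero]
      rfl
    have h3 : tpt T u t' mu' c' s' (vS (col i)) = s' (col i) := rfl
    simp only [h2, h3, et i hi] at h1
    linarith
  have htan : ∀ i ∈ T, fderiv ℝ (pert φ a b i) y u = s' (col i) := by
    intro i hi
    rw [TInj_fd φ hφ, hd i hi, ← e4 i hi, dv_pt]
    have h1 := hη i hi u
    rw [dv_pt] at h1
    have h2 := hlam i hi
    have h3 : ∑ l : Fin N, (pev (pderiv l.castSucc (Ξ i)) (pt y (t i)) +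
        lam i * pev (pderiv l.castSucc (P i)) (pt y (t i))) * u l =
        ∑ l : Fin N, pev (pderiv l.castSucc (Ξ i)) (pt y (t i)) * u l +
        lam i * ∑ l : Fin N, pev (pderiv l.castSucc (P i)) (pt y (t i)) * u l := by
      rw [Finset.mul_sum, ← Finset.sum_add_distrib]
      exact Finset.sum_congr rfl fun l _ => by ring
    rw [h3]
    have h4 : ∑ l : Fin N, pev (pderiv l.castSucc (P i)) (pt y (t i)) * u l =
        - (pev (pderiv (Fin.last N) (P i)) (pt y (t i)) * dη i u) := by linarith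
    have h5 : pev (pderiv (Fin.last N) (Ξ i)) (pt y (t i)) =
        - (lam i * pev (pderiv (Fin.last N) (P i)) (pt y (t i))) := by linarith
    rw [h4, h5]
    ring
  -- fifth group
  have hcoef : Coef col T c' := by
    refine ⟨hc', fun β => ?_⟩
    have h1 := hw (Sum.inr (Sum.inr (Sum.inr (Sum.inr β))))
    rw [tsys, ddir_sum] at h1
    have h2 : ∀ i : {i // i ∈ T}, ddir (tpt T y t (fun i => c i * lam i) c s)
        (tpt T u t' mu' c' s') (if col i.1 = β then X (vC i) else 0) =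
        if col i.1 = β then c' i.1 else 0 := by
      intro i
      split_ifs
      · rw [ddir_X]
        rfl
      · simp [ddir]
    rw [Finset.sum_congr rfl fun i _ => h2 i, sum_attach_if T (fun i => col i = β) c'] at h1
    exact h1
  -- second group
  have hmu : ∀ i ∈ T, mu' i = lam i * c' i + c i * dlam i u := by
    intro i hi
    have h1 := hw (Sum.inr (Sum.inl ⟨i, hi⟩))
    rw [tsys, ddir_add, ddir_mul, ddir_mul, ddir_emb, ddir_emb, ddir_X, ddir_X, eval_emb,
      eval_emb, eval_X, eval_X] at h1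
    have a1 : tpt T y t (fun i => c i * lam i) c s (vC ⟨i, hi⟩) = c i := rfl
    have a2 : tpt T y t (fun i => c i * lam i) c s (vM ⟨i, hi⟩) = c i * lam i := rfl
    have a3 : tpt T u t' mu' c' s' (vC ⟨i, hi⟩) = c' i := rfl
    have a4 : tpt T u t' mu' c' s' (vM ⟨i, hi⟩) = mu' i := rfl
    rw [a1, a2, a3, a4] at h1
    simp only [et i hi] at h1
    have h3 := h2 i hi u
    have h4 := hlam i hi
    have h5 : pev (pderiv (Fin.last N) (P i)) (pt y (t i)) *
        (mu' i - (lam i * c' i + c i * dlam i u)) = 0 := by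
      linear_combination h1 - c i * h3 - c' i * h4
    rcases mul_eq_zero.1 h5 with h | h
    · exact absurd h (hPh i hi)
    · linarith
  -- first group
  have hfirst : ∀ l : Fin N, 2 * u l = ∑ i ∈ T,
      (c i * (dv (pt y (t i)) (pt u (dη i u)) (pderiv l.castSucc (Ξ i)) +
          lam i * dv (pt y (t i)) (pt u (dη i u)) (pderiv l.castSucc (P i)) +
          dlam i u * pev (pderiv l.castSucc (P i)) (pt y (t i))) +
        c' i * (pev (pderiv l.castSucc (Ξ i)) (pt y (t i)) +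
          lam i * pev (pderiv l.castSucc (P i)) (pt y (t i)) + b i l)) := by
    intro l
    have h1 := hw (Sum.inl l)
    rw [tsys, ddir_sub, ddir_mul, ddir_C, ddir_X, eval_C, zero_mul, add_zero, ddir_sum,
      sub_eq_zero] at h1
    have a0 : tpt T u t' mu' c' s' (vY l) = u l := rfl
    rw [a0] at h1
    rw [h1, ← Finset.sum_coe_sort T fun i =>
      (c i * (dv (pt y (t i)) (pt u (dη i u)) (pderiv l.castSucc (Ξ i)) +
          lam i * dv (pt y (t i)) (pt u (dη i u)) (pderiv l.castSucc (P i)) +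
          dlam i u * pev (pderiv l.castSucc (P i)) (pt y (t i))) +
        c' i * (pev (pderiv l.castSucc (Ξ i)) (pt y (t i)) +
          lam i * pev (pderiv l.castSucc (P i)) (pt y (t i)) + b i l))]
    refine Finset.sum_congr rfl fun i _ => ?_
    rw [ddir_add, ddir_mul, ddir_mul, ddir_add, ddir_emb, ddir_emb, ddir_X, ddir_X, ddir_C,
      map_add, eval_emb, eval_emb, eval_X, eval_X, eval_C]
    have a1 : tpt T y t (fun i => c i * lam i) c s (vC i) = c i.1 := rfl
    have a2 : tpt T y t (fun i => c i * lam i) c s (vM i) = c i.1 * lam i.1 := rfl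
    have a3 : tpt T u t' mu' c' s' (vC i) = c' i.1 := rfl
    have a4 : tpt T u t' mu' c' s' (vM i) = mu' i.1 := rfl
    rw [a1, a2, a3, a4, et i.1 i.2, hmu i.1 i.2]
    ring
  have h0 := hnd u c' hcoef (fun i hi j hj hij => by rw [htan i hi, htan j hj, hij]) (by
    ext e
    simp only [_root_.sub_apply, _root_.sum_apply, _root_.smul_apply, _root_.zero_apply,
      smul_eq_mul]
    have r1 : fderiv ℝ (fun x => fderiv ℝ (rr (N := N)) x) y u e = ∑ l : Fin N, 2 * u l * e l := by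
      rw [pev_rr, pev_fderiv2]
      refine Finset.sum_congr rfl fun l _ => ?_
      rw [pderiv_rr, ddir_mul, ddir_C, ddir_X, eval_C]
      ring
    have r2 : ∑ i ∈ T, c i * fderiv ℝ (fun x => fderiv ℝ (pert φ a b i) x) y u e =
        ∑ i ∈ T, c i * ∑ l : Fin N,
          (dv (pt y (t i)) (pt u (dη i u)) (pderiv l.castSucc (Ξ i)) +
          lam i * dv (pt y (t i)) (pt u (dη i u)) (pderiv l.castSucc (P i)) +
          dlam i u * pev (pderiv l.castSucc (P i)) (pt y (t i))) * e l := by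
      refine Finset.sum_congr rfl fun i hi => ?_
      rw [TInj_fd2 φ hφ, h2d i hi]
    have r3 : ∑ i ∈ T, c' i * fderiv ℝ (pert φ a b i) y e =
        ∑ i ∈ T, c' i * (∑ l : Fin N, (pev (pderiv l.castSucc (Ξ i)) (pt y (t i)) +
        lam i * pev (pderiv l.castSucc (P i)) (pt y (t i))) * e l + ∑ l, b i l * e l) := by
      refine Finset.sum_congr rfl fun i hi => ?_
      rw [TInj_fd φ hφ, hd i hi]
    rw [r1, r2, r3]
    simp only [hfirst, Finset.mul_sum, Finset.sum_mul, mul_add, Finset.sum_add_distrib, add_mul]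
    have sw : ∀ F : Fin N → ι → ℝ, ∑ l, ∑ i ∈ T, F l i = ∑ i ∈ T, ∑ l, F l i := fun F =>
      Finset.sum_comm
    simp only [sw, mul_assoc]
    ring)
  obtain ⟨hu, hc0⟩ := h0
  subst hu
  have hd0 : ∀ i ∈ T, t' i = 0 := by
    intro i hi
    have h1 := e3 i hi
    rw [dv_pt] at h1
    have h3 : pev (pderiv (Fin.last N) (P i)) (pt y (t i)) * t' i = 0 := by
      simpa using h1
    rcases mul_eq_zero.1 h3 with h | h
    · exact absurd h (hPh i hi)
    · exact h
  have hpt0 : ∀ i ∈ T, ∀ Q : MvPolynomial (Fin (N + 1)) ℝ,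
      dv (pt y (t i)) (pt 0 (dη i 0)) Q = 0 := by
    intro i hi Q
    rw [← et i hi, hd0 i hi, dv_pt]
    simp
  have hmu0 : ∀ i ∈ T, mu' i = 0 := by
    intro i hi
    have h1 := h2 i hi 0
    rw [hpt0 i hi, hpt0 i hi] at h1
    have h3 : dlam i 0 * pev (pderiv (Fin.last N) (P i)) (pt y (t i)) = 0 := by linarith
    rcases mul_eq_zero.1 h3 with h | h
    · rw [hmu i hi, h, hc0]
      simp
    · exact absurd h (hPh i hi)
  funext k
  rcases k with l | i | i | i | β
  · rfl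
  · exact hd0 i.1 i.2
  · exact hmu0 i.1 i.2
  · exact congrFun hc0 i.1
  · have h1 := htan (tt β) (htt β).1
    rw [map_zero, (htt β).2] at h1
    exact h1.symm

end KR
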