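import Pool.Agent.KR.TLem

open MvPolynomial

namespace KR

open UC

private theorem TZero_fd {N : ℕ} {ι : Type} (φ : ι → E N → ℝ) (hφ : ∀ i, ContDiff ℝ 2 (φ i))
    (a : ι → ℝ) (b : ι → E N) (i : ι) (y e : E N) :
    fderiv ℝ (pert φ a b i) y e = fderiv ℝ (φ i) y e + inner ℝ (b i) e := by
  have h1 : HasFDerivAt (φ i) (fderiv ℝ (φ i) y) y :=
    ((hφ i).differentiable (by norm_num) y).hasFDerivAt
  have h2 : HasFDerivAt (fun z => φ i z + a i + innerSL ℝ (b i) z)
      (fderiv ℝ (φ i) y + innerSL ℝ (b i)) y :=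
    (h1.add_const (a i)).add (innerSL ℝ (b i)).hasFDerivAt
  have h3 : HasFDerivAt (pert φ a b i) (fderiv ℝ (φ i) y + innerSL ℝ (b i)) y := h2
  rw [h3.fderiv]
  rfl

private theorem TZero_sum {N : ℕ} (Q : Fin N → ℝ) (l : Fin N) :
    ∑ l' : Fin N, Q l' * (EuclideanSpace.single l (1 : ℝ) : E N) l' = Q l := by
  rw [Finset.sum_eq_single l]
  · simp
  · intro b _ hb
    simp [hb]
  · intro h
    exact absurd (Finset.mem_univ _) h

private theorem TZero_inner {N : ℕ} (b y : E N) : inner ℝ b y = ∑ l : Fin N, b l * y l := by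
  rw [PiLp.inner_apply]
  refine Finset.sum_congr rfl fun l _ => ?_
  simp [mul_comm]

/-- Critical points are zeros of the system.
Proof.  Cases of k; eval_emb and eval_X for the variables (tpt T y t mu c s (vY l) = y l etc. by
rfl).
* third group: hP.  second group: c_i Ξ_h + c_i lam_i P_h = c_i (lam_i P_h + Ξ_h) = 0 by hlam.
* fourth group: polyFun-like: φ_i(y) + a_i + <b_i,y> = pert φ a b i y is equal to s (col i) (hs and
hgam); inner ℝ (b i) y = ∑ l, b i l * y l (PiLp.inner_apply, mul_comm).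
* fifth group: hc.1.2 β, with the sum over the subtype (UC.sum_attach_if).
* first group: apply hc.2 (an equality of functionals) to e = EuclideanSpace.single l 1:
fderiv rr y e = 2 y_l (UC.pev_rr, UC.pev_fderiv_sum, UC.pderiv_rr), and
fderiv (pert φ a b i) y e = fderiv (φ i) y e + b i l (the derivative of z ↦ a + inner (b i) z; φ i is
differentiable by hφ), and fderiv (φ i) y e = Ξ_l + lam_i P_l by hd.  As in UC.lag_zero of
Pool/Agent/UC/PolyND.lean. -/
theorem tsys_zero {N : ℕ} {ι : Type} [DecidableEq ι] (P Ξ : ι → MvPolynomial (Fin (N + 1)) ℝ)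
    (φ : ι → E N → ℝ) (hφ : ∀ i, ContDiff ℝ 2 (φ i)) (col : ι → Bool) (a : ι → ℝ)
    (b : ι → E N) (T : Finset ι) (tt : Bool → ι) (htt : ∀ β, tt β ∈ T ∧ col (tt β) = β)
    (y : E N) (c t lam : ι → ℝ)
    (hy : y ∈ Gam Set.univ (pert φ a b) col T) (hc : IsMult (pert φ a b) col T y c)
    (hP : ∀ i ∈ T, pev (P i) (pt y (t i)) = 0)
    (hΞ : ∀ i ∈ T, φ i y = pev (Ξ i) (pt y (t i)))
    (hlam : ∀ i ∈ T, lam i * pev (pderiv (Fin.last N) (P i)) (pt y (t i)) +
      pev (pderiv (Fin.last N) (Ξ i)) (pt y (t i)) = 0)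
    (hd : ∀ i ∈ T, ∀ e, fderiv ℝ (φ i) y e =
      ∑ l : Fin N, (pev (pderiv l.castSucc (Ξ i)) (pt y (t i)) +
        lam i * pev (pderiv l.castSucc (P i)) (pt y (t i))) * e l)
    (k : TI N T) :
    eval (tpt T y t (fun i => c i * lam i) c fun β => pert φ a b (tt β) y)
      (tsys P Ξ col a b T k) = 0 := by
  rcases k with l | i | i | i | β
  · have h1 := congrArg (fun L : E N →L[ℝ] ℝ => L (EuclideanSpace.single l 1)) hc.2
    simp only [_root_.sum_apply, _root_.smul_apply, pev_rr, pev_fderiv_sum, pderiv_rr,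
      smul_eq_mul] at h1
    rw [TZero_sum (fun l' => pev (MvPolynomial.C 2 * MvPolynomial.X l') y) l] at h1
    have h2 : ∀ i ∈ T, c i * fderiv ℝ (pert φ a b i) y (EuclideanSpace.single l 1) =
        c i * (pev (pderiv l.castSucc (Ξ i)) (pt y (t i)) + b i l) +
          c i * lam i * pev (pderiv l.castSucc (P i)) (pt y (t i)) := by
      intro i hi
      rw [TZero_fd φ hφ, hd i hi, TZero_inner, TZero_sum (fun l' =>
        pev (pderiv l'.castSucc (Ξ i)) (pt y (t i)) +
          lam i * pev (pderiv l'.castSucc (P i)) (pt y (t i))) l, TZero_sum (fun l' => b i l') l]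
      ring
    rw [Finset.sum_congr rfl h2] at h1
    rw [pev] at h1
    simp only [map_mul, MvPolynomial.eval_X, MvPolynomial.eval_C] at h1
    have h3 : tsys P Ξ col a b T (Sum.inl l) = C 2 * X (vY l) - ∑ i : {i // i ∈ T},
      (X (vC i) * (rename (emb i) (pderiv l.castSucc (Ξ i.1)) + C (b i.1 l)) +
        X (vM i) * rename (emb i) (pderiv l.castSucc (P i.1))) := rfl
    rw [h3]
    simp only [map_sub, map_mul, map_sum, map_add, eval_emb, eval_X, eval_C]
    rw [sub_eq_zero]
    refine Eq.trans h1 ?_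
    exact (Finset.sum_coe_sort T fun i =>
      c i * (pev (pderiv l.castSucc (Ξ i)) (pt y (t i)) + b i l) +
          c i * lam i * pev (pderiv l.castSucc (P i)) (pt y (t i))).symm
  · have h3 : tsys P Ξ col a b T (Sum.inr (Sum.inl i)) =
      X (vC i) * rename (emb i) (pderiv (Fin.last N) (Ξ i.1)) +
      X (vM i) * rename (emb i) (pderiv (Fin.last N) (P i.1)) := rfl
    rw [h3]
    simp only [map_mul, map_add, eval_emb, eval_X]
    have h4 : tpt T y t (fun i => c i * lam i) c (fun β => pert φ a b (tt β) y) (vC i) = c i.1 :=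
      rfl
    have h5 : tpt T y t (fun i => c i * lam i) c (fun β => pert φ a b (tt β) y) (vM i) =
        c i.1 * lam i.1 := rfl
    rw [h4, h5]
    linear_combination c i.1 * hlam i.1 i.2
  · have h3 : tsys P Ξ col a b T (Sum.inr (Sum.inr (Sum.inl i))) = rename (emb i) (P i.1) := rfl
    rw [h3, eval_emb]
    exact hP i.1 i.2
  · have h3 : tsys P Ξ col a b T (Sum.inr (Sum.inr (Sum.inr (Sum.inl i)))) =
      rename (emb i) (Ξ i.1) + C (a i.1) +
      ∑ l : Fin N, C (b i.1 l) * X (vY l) - X (vS (col i.1)) := rfl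
    rw [h3]
    simp only [map_sub, map_mul, map_sum, map_add, eval_emb, eval_X, eval_C]
    rw [sub_eq_zero]
    have h4 := hy.2 i.1 i.2 (tt (col i.1)) (htt _).1 (htt _).2.symm
    refine Eq.trans ?_ h4
    show _ = φ i.1 y + a i.1 + inner ℝ (b i.1) y
    rw [hΞ i.1 i.2, TZero_inner]
    rfl
  · have h3 : tsys P Ξ col a b T (Sum.inr (Sum.inr (Sum.inr (Sum.inr β)))) =
      ∑ i : {i // i ∈ T}, if col i.1 = β then X (vC i) else 0 := rfl
    rw [h3, map_sum]
    have h1 : ∀ i : {i // i ∈ T}, eval (tpt T y t (fun i => c i * lam i) c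
        fun β => pert φ a b (tt β) y) (if col i.1 = β then X (vC i) else 0) =
        if col i.1 = β then c i.1 else 0 := by
      intro i
      split_ifs
      · rw [eval_X]
        rfl
      · exact map_zero _
    rw [Finset.sum_congr rfl fun i _ => h1 i, sum_attach_if T (fun i => col i = β) c]
    exact hc.1.2 β

end KR
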