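import Pool.Agent.KR.TJet
import Pool.Agent.KR.TDeg
import Pool.Agent.KR.TZero
import Pool.Agent.KR.TInj

open MvPolynomial

namespace KR

open UC

/-- A finite union of finite sets of bounded size. -/
theorem ncard_union_le {α β : Type} [Fintype β] (S : Set α) (f : β → Set α) (M : ℕ)
    (hS : S ⊆ ⋃ b, f b) (hf : ∀ b, (f b).Finite ∧ (f b).ncard ≤ M) :
    S.Finite ∧ S.ncard ≤ Fintype.card β * M := by
  classical
  have hfin : (⋃ b, f b).Finite := Set.finite_iUnion fun b => (hf b).1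
  refine ⟨hfin.subset hS, (Set.ncard_le_ncard hS hfin).trans ?_⟩
  have h2 : (⋃ b, f b) = ((Finset.univ.biUnion fun b => (hf b).1.toFinset : Finset α) : Set α) := by
    ext x
    simp
  rw [h2, Set.ncard_coe_finset]
  refine Finset.card_biUnion_le.trans ?_
  calc ∑ b, ((hf b).1.toFinset).card ≤ ∑ _b : β, M := by
        refine Finset.sum_le_sum fun b _ => ?_
        have h3 := (hf b).2
        rwa [Set.ncard_eq_toFinset_card _ (hf b).1] at h3
    _ = Fintype.card β * M := by rw [Finset.sum_const, Finset.card_univ, smul_eq_mul]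

/-- Tame families have a bounded number of nondegenerate critical points on every tie set. -/
theorem tame_ND (N D m : ℕ) : ∃ C0 : ℕ, ∀ (ι : Type) [Fintype ι] [DecidableEq ι]
    (φ : ι → E N → ℝ), (∀ i, Tame D m (φ i)) → (∀ i, ContDiff ℝ 2 (φ i)) →
    ∀ (col : ι → Bool) (a : ι → ℝ) (b : ι → E N) (T : Finset ι), Both col T → T.card ≤ N + 2 →
      {y | y ∈ Gam Set.univ (pert φ a b) col T ∧ IsND (pert φ a b) col T y}.Finite ∧
      {y | y ∈ Gam Set.univ (pert φ a b) col T ∧ IsND (pert φ a b) col T y}.ncard ≤ C0 := by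
  refine ⟨(m + 1) ^ (N + 2) * ((4 * N + 8) * (D + 1) + 1) ^ (4 * N + 8), ?_⟩
  intro ι _ _ φ hT hφ col a b T hTb hcard
  classical
  choose P Ξ hdeg htype using hT
  choose tt htt using hTb
  have hm : 0 < m := by
    obtain ⟨r, -⟩ := htype (tt true) 0
    exact r.pos
  -- the pieces
  let ext : ({i // i ∈ T} → Fin m) → ι → Fin m := fun r i =>
    if h : i ∈ T then r ⟨i, h⟩ else ⟨0, hm⟩
  let S : ({i // i ∈ T} → Fin m) → Set (E N) := fun r =>
    {y | (y ∈ Gam Set.univ (pert φ a b) col T ∧ IsND (pert φ a b) col T y) ∧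
      ∀ i ∈ T, HasType (P i (ext r i)) (Ξ i (ext r i)) (φ i) y}
  have hcover : {y | y ∈ Gam Set.univ (pert φ a b) col T ∧ IsND (pert φ a b) col T y} ⊆
      ⋃ r, S r := by
    intro y hy
    choose r hr using fun i => htype i y
    refine Set.mem_iUnion.2 ⟨fun i => r i.1, hy, fun i hi => ?_⟩
    have h1 : ext (fun i => r i.1) i = r i := by simp [ext, hi]
    rw [h1]
    exact hr i
  have hpiece : ∀ r, (S r).Finite ∧ (S r).ncard ≤ ((4 * N + 8) * (D + 1) + 1) ^ (4 * N + 8) := by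
    intro r
    let P' : ι → MvPolynomial (Fin (N + 1)) ℝ := fun i => P i (ext r i)
    let Ξ' : ι → MvPolynomial (Fin (N + 1)) ℝ := fun i => Ξ i (ext r i)
    have hex : ∀ y : E N, ∃ (c t lam : ι → ℝ) (dη dlam : ι → E N → ℝ), y ∈ S r →
        IsMult (pert φ a b) col T y c ∧
        (∀ (u : E N) (g : ι → ℝ), Coef col T g →
          (∀ i ∈ T, ∀ j ∈ T, col i = col j →
            fderiv ℝ (pert φ a b i) y u = fderiv ℝ (pert φ a b j) y u) →
          (fderiv ℝ (fun x => fderiv ℝ (rr (N := N)) x) y u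
            - ∑ i ∈ T, c i • fderiv ℝ (fun x => fderiv ℝ (pert φ a b i) x) y u
            - ∑ i ∈ T, g i • fderiv ℝ (pert φ a b i) y = 0) → u = 0 ∧ g = 0) ∧
        (∀ i ∈ T, pev (P' i) (pt y (t i)) = 0) ∧
        (∀ i ∈ T, pev (pderiv (Fin.last N) (P' i)) (pt y (t i)) ≠ 0) ∧
        (∀ i ∈ T, φ i y = pev (Ξ' i) (pt y (t i))) ∧
        (∀ i ∈ T, lam i * pev (pderiv (Fin.last N) (P' i)) (pt y (t i)) +
          pev (pderiv (Fin.last N) (Ξ' i)) (pt y (t i)) = 0) ∧
        (∀ i ∈ T, ∀ u, dv (pt y (t i)) (pt u (dη i u)) (P' i) = 0) ∧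
        (∀ i ∈ T, ∀ e, fderiv ℝ (φ i) y e =
          ∑ l : Fin N, (pev (pderiv l.castSucc (Ξ' i)) (pt y (t i)) +
            lam i * pev (pderiv l.castSucc (P' i)) (pt y (t i))) * e l) ∧
        (∀ i ∈ T, ∀ u, dlam i u * pev (pderiv (Fin.last N) (P' i)) (pt y (t i)) +
          lam i * dv (pt y (t i)) (pt u (dη i u)) (pderiv (Fin.last N) (P' i)) +
          dv (pt y (t i)) (pt u (dη i u)) (pderiv (Fin.last N) (Ξ' i)) = 0) ∧
        (∀ i ∈ T, ∀ u e, fderiv ℝ (fun z => fderiv ℝ (φ i) z) y u e =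
          ∑ l : Fin N, (dv (pt y (t i)) (pt u (dη i u)) (pderiv l.castSucc (Ξ' i)) +
            lam i * dv (pt y (t i)) (pt u (dη i u)) (pderiv l.castSucc (P' i)) +
            dlam i u * pev (pderiv l.castSucc (P' i)) (pt y (t i))) * e l) := by
      intro y
      by_cases hy : y ∈ S r
      · obtain ⟨⟨-, c, hc1, hc2⟩, hty⟩ := hy
        have hj : ∀ i, ∃ (t lam : ℝ) (dη dlam : E N → ℝ), i ∈ T →
            pev (P' i) (pt y t) = 0 ∧ pev (pderiv (Fin.last N) (P' i)) (pt y t) ≠ 0 ∧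
            φ i y = pev (Ξ' i) (pt y t) ∧
            lam * pev (pderiv (Fin.last N) (P' i)) (pt y t) +
              pev (pderiv (Fin.last N) (Ξ' i)) (pt y t) = 0 ∧
            (∀ u, dv (pt y t) (pt u (dη u)) (P' i) = 0) ∧
            (∀ e, fderiv ℝ (φ i) y e = ∑ l : Fin N, (pev (pderiv l.castSucc (Ξ' i)) (pt y t) +
              lam * pev (pderiv l.castSucc (P' i)) (pt y t)) * e l) ∧
            (∀ u, dlam u * pev (pderiv (Fin.last N) (P' i)) (pt y t) +
              lam * dv (pt y t) (pt u (dη u)) (pderiv (Fin.last N) (P' i)) +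
              dv (pt y t) (pt u (dη u)) (pderiv (Fin.last N) (Ξ' i)) = 0) ∧
            (∀ u e, fderiv ℝ (fun z => fderiv ℝ (φ i) z) y u e =
              ∑ l : Fin N, (dv (pt y t) (pt u (dη u)) (pderiv l.castSucc (Ξ' i)) +
                lam * dv (pt y t) (pt u (dη u)) (pderiv l.castSucc (P' i)) +
                dlam u * pev (pderiv l.castSucc (P' i)) (pt y t)) * e l) := by
          intro i
          by_cases hi : i ∈ T
          · obtain ⟨t, lam, dη, dlam, h⟩ := type_jet (hty i hi)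
            exact ⟨t, lam, dη, dlam, fun _ => h⟩
          · exact ⟨0, 0, 0, 0, fun h => absurd h hi⟩
        choose t lam dη dlam hj using hj
        exact ⟨c, t, lam, dη, dlam, fun _ => ⟨hc1, hc2, fun i hi => (hj i hi).1,
          fun i hi => (hj i hi).2.1, fun i hi => (hj i hi).2.2.1,
          fun i hi => (hj i hi).2.2.2.1, fun i hi => (hj i hi).2.2.2.2.1,
          fun i hi => (hj i hi).2.2.2.2.2.1, fun i hi => (hj i hi).2.2.2.2.2.2.1,
          fun i hi => (hj i hi).2.2.2.2.2.2.2⟩⟩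
      · exact ⟨0, 0, 0, 0, 0, fun h => absurd h hy⟩
    choose c t lam dη dlam hex using hex
    obtain ⟨hfin, hle⟩ := bezout_set (D + 1) (tsys P' Ξ' col a b T)
      (tsys_deg P' Ξ' col a b T D fun i => hdeg i _) (S r)
      (fun y => tpt T y (t y) (fun i => c y i * lam y i) (c y)
        fun β => pert φ a b (tt β) y) (by
        intro y _ y' _ h
        ext l
        exact congrFun h (vY l)) (by
        intro y hy
        obtain ⟨h1, h2, h3, h4, h5, h6, h7, h8, h9, h10⟩ := hex y hy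
        refine ⟨fun k => tsys_zero P' Ξ' φ hφ col a b T tt htt y (c y) (t y) (lam y)
          hy.1.1 h1 h3 h5 h6 h8 k, ?_⟩
        intro w hw
        exact tsys_inj P' Ξ' φ hφ col a b T tt htt y (c y) (t y) (lam y) _ (dη y) (dlam y)
          h2 h4 h6 h7 h8 h9 h10 w hw)
    refine ⟨hfin, hle.trans ?_⟩
    have h1 : Fintype.card (TI N T) ≤ 4 * N + 8 := by
      simp only [TI, Fintype.card_sum, Fintype.card_fin, Fintype.card_coe, Fintype.card_bool]
      omega
    exact (Nat.pow_le_pow_left (Nat.succ_le_succ (Nat.mul_le_mul_right _ h1)) _).trans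
      (Nat.pow_le_pow_right (Nat.succ_pos _) h1)
  obtain ⟨hfin, hle⟩ := ncard_union_le _ S _ hcover hpiece
  refine ⟨hfin, hle.trans (Nat.mul_le_mul_right _ ?_)⟩
  rw [Fintype.card_fun, Fintype.card_fin, Fintype.card_coe]
  exact (Nat.pow_le_pow_left (Nat.le_succ m) _).trans (Nat.pow_le_pow_right (Nat.succ_pos _) hcard)

end KR
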