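import Pool.Agent.KR.Pt

/-!
# KR (MP_5a1161_co): the polynomial system of the critical points of tame families

Unknowns y_l, h_i, mu_i, c_i (i in T), s_beta (beta a colour).
-/

open MvPolynomial

namespace KR

open UC

section
variable {ι : Type} [DecidableEq ι]

/-- The index set of the unknowns and of the equations. -/
abbrev TI (N : ℕ) (T : Finset ι) : Type :=
  Fin N ⊕ ({i // i ∈ T} ⊕ ({i // i ∈ T} ⊕ ({i // i ∈ T} ⊕ Bool)))

variable {N : ℕ}

/-- The unknown y_l. -/
def vY {T : Finset ι} (l : Fin N) : TI N T := Sum.inl l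
/-- The unknown h_i. -/
def vH {T : Finset ι} (i : {i // i ∈ T}) : TI N T := Sum.inr (Sum.inl i)
/-- The unknown mu_i. -/
def vM {T : Finset ι} (i : {i // i ∈ T}) : TI N T := Sum.inr (Sum.inr (Sum.inl i))
/-- The unknown c_i. -/
def vC {T : Finset ι} (i : {i // i ∈ T}) : TI N T := Sum.inr (Sum.inr (Sum.inr (Sum.inl i)))
/-- The unknown s_β. -/
def vS {T : Finset ι} (β : Bool) : TI N T := Sum.inr (Sum.inr (Sum.inr (Sum.inr β)))

/-- The variables (y, h_i). -/
def emb {T : Finset ι} (i : {i // i ∈ T}) : Fin (N + 1) → TI N T :=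
  Fin.lastCases (motive := fun _ => TI N T) (vH i) fun l => vY l

/-- The system. -/
noncomputable def tsys (P Ξ : ι → MvPolynomial (Fin (N + 1)) ℝ) (col : ι → Bool) (a : ι → ℝ)
    (b : ι → E N) (T : Finset ι) : TI N T → MvPolynomial (TI N T) ℝ
  | Sum.inl l => C 2 * X (vY l) - ∑ i : {i // i ∈ T},
      (X (vC i) * (rename (emb i) (pderiv l.castSucc (Ξ i.1)) + C (b i.1 l)) +
        X (vM i) * rename (emb i) (pderiv l.castSucc (P i.1)))
  | Sum.inr (Sum.inl i) => X (vC i) * rename (emb i) (pderiv (Fin.last N) (Ξ i.1)) +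
      X (vM i) * rename (emb i) (pderiv (Fin.last N) (P i.1))
  | Sum.inr (Sum.inr (Sum.inl i)) => rename (emb i) (P i.1)
  | Sum.inr (Sum.inr (Sum.inr (Sum.inl i))) => rename (emb i) (Ξ i.1) + C (a i.1) +
      ∑ l : Fin N, C (b i.1 l) * X (vY l) - X (vS (col i.1))
  | Sum.inr (Sum.inr (Sum.inr (Sum.inr β))) =>
      ∑ i : {i // i ∈ T}, if col i.1 = β then X (vC i) else 0

/-- The point of the system with the given values. -/
noncomputable def tpt (T : Finset ι) (y : E N) (t mu c : ι → ℝ) (s : Bool → ℝ) : TI N T → ℝ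
  | Sum.inl l => y l
  | Sum.inr (Sum.inl i) => t i.1
  | Sum.inr (Sum.inr (Sum.inl i)) => mu i.1
  | Sum.inr (Sum.inr (Sum.inr (Sum.inl i))) => c i.1
  | Sum.inr (Sum.inr (Sum.inr (Sum.inr β))) => s β

end

end KR
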