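import Pool.Agent.KR.Pt

/-!
# KR (MP_5a1161_co), module TJet: 1-jet and 2-jet of an implicitly given function
-/

open MvPolynomial Filter Topology

namespace KR

open UC

private theorem TJet_comp {N : ℕ} {η : E N → ℝ} {z : E N} (hη : DifferentiableAt ℝ η z)
    (Q : MvPolynomial (Fin (N + 1)) ℝ) :
    ∃ L : E N →L[ℝ] ℝ, HasFDerivAt (fun w => pev Q (pt w (η w))) L z ∧
      ∀ u, L u = dv (pt z (η z)) (pt u (fderiv ℝ η z u)) Q := by
  have h1 : HasFDerivAt (fun w => ptL N (w, η w))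
      ((ptL N).comp ((ContinuousLinearMap.id ℝ (E N)).prod (fderiv ℝ η z))) z :=
    (ptL N).hasFDerivAt.comp z ((hasFDerivAt_id z).prodMk hη.hasFDerivAt)
  have h2 : HasFDerivAt (pev Q) (fderiv ℝ (pev Q) (pt z (η z))) (ptL N (z, η z)) :=
    (pev_hasFDerivAt Q (pt z (η z))).differentiableAt.hasFDerivAt
  have h3 : HasFDerivAt (fun w => pev Q (ptL N (w, η w))) ((fderiv ℝ (pev Q) (pt z (η z))).comp
      ((ptL N).comp ((ContinuousLinearMap.id ℝ (E N)).prod (fderiv ℝ η z)))) z :=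
    HasFDerivAt.comp (g := pev Q) z h2 h1
  refine ⟨_, h3, fun u => ?_⟩
  rw [← dv_fderiv]
  rfl

/-- The 2-jet of F(z) = Ξ(z, η(z)), P(z, η(z)) = 0, in terms of the derivatives of P and Ξ.
Proof.  Let x(z) = pt z (η z) = ptL N (z, η z), t = η y, P_h = pderiv last P, Ξ_h = pderiv last Ξ.
η is C^2 at y, so η is differentiable near y and fderiv η is differentiable at y (`ContDiffAt`,
order 2).  x is differentiable near y with derivative u ↦ pt u (dη_z u) (chain rule with ptL, or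
fderiv of z ↦ ptL N (z, η z)).  P_h(x(z)) ≠ 0 near y by continuity.  Put, near y,
lam(z) = - pev Ξ_h (x z) / pev P_h (x z), differentiable at y.
(1) Near y: P ∘ x = 0 eventually, so for z near y the derivative of P ∘ x at z is 0:
0 = dv (x z) (pt e (dη_z e)) P = sum_l P_l(x z) e_l + P_h(x z) dη_z(e)   (dv_pt, dv_fderiv).
(2) Near y: G(z) := pev Ξ (x z) has derivative dv (x z) (pt e (dη_z e)) Ξ
= sum_l Ξ_l(x z) e_l + Ξ_h(x z) dη_z(e) = sum_l (Ξ_l + lam(z) P_l)(x z) e_l, by (1).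
(3) Differentiate (2) at y in direction u (as a map z ↦ fderiv G z; it is near y equal to
z ↦ sum_l (pev (Ξ_l) (x z) + lam z * pev P_l (x z)) • EuclideanSpace.proj l): the derivative of
z ↦ pev Q (x z) at y in direction u is dv (x y) (pt u (dη u)) Q; so the value at e is
sum_l (dv Ξ_l + lam dv P_l + dlam(u) P_l) e_l, dlam = fderiv of lam at y.
(4) Near y: lam(z) P_h(x z) + Ξ_h(x z) = 0; differentiate at y in direction u.
F has the same 2-jet at y as G, by J2.  Take t = η y, lam = lam(y), dη = fderiv η y,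
dlam = fderiv lam y. -/
theorem type_jet {N : ℕ} {P Ξ : MvPolynomial (Fin (N + 1)) ℝ} {F : E N → ℝ} {y : E N}
    (h : HasType P Ξ F y) :
    ∃ (t lam : ℝ) (dη dlam : E N → ℝ),
      pev P (pt y t) = 0 ∧ pev (pderiv (Fin.last N) P) (pt y t) ≠ 0 ∧ F y = pev Ξ (pt y t) ∧
      lam * pev (pderiv (Fin.last N) P) (pt y t) + pev (pderiv (Fin.last N) Ξ) (pt y t) = 0 ∧
      (∀ u, dv (pt y t) (pt u (dη u)) P = 0) ∧
      (∀ e, fderiv ℝ F y e = ∑ l : Fin N, (pev (pderiv l.castSucc Ξ) (pt y t) +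
        lam * pev (pderiv l.castSucc P) (pt y t)) * e l) ∧
      (∀ u, dlam u * pev (pderiv (Fin.last N) P) (pt y t) +
        lam * dv (pt y t) (pt u (dη u)) (pderiv (Fin.last N) P) +
        dv (pt y t) (pt u (dη u)) (pderiv (Fin.last N) Ξ) = 0) ∧
      (∀ u e, fderiv ℝ (fun z => fderiv ℝ F z) y u e =
        ∑ l : Fin N, (dv (pt y t) (pt u (dη u)) (pderiv l.castSucc Ξ) +
          lam * dv (pt y t) (pt u (dη u)) (pderiv l.castSucc P) +
          dlam u * pev (pderiv l.castSucc P) (pt y t)) * e l) := by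
  obtain ⟨η, hη, hP, hPh, hJ0, hJ1, hJ2⟩ := h
  have hev : ∀ᶠ z in 𝓝 y, DifferentiableAt ℝ η z :=
    (hη.eventually (by simp)).mono fun z hz => hz.differentiableAt (by norm_num)
  have hd : DifferentiableAt ℝ η y := hev.self_of_nhds
  obtain ⟨LPh, hLPh, hLPh'⟩ := TJet_comp hd (pderiv (Fin.last N) P)
  obtain ⟨LXh, hLXh, hLXh'⟩ := TJet_comp hd (pderiv (Fin.last N) Ξ)
  have hne : ∀ᶠ z in 𝓝 y, pev (pderiv (Fin.last N) P) (pt z (η z)) ≠ 0 :=
    hLPh.continuousAt.eventually_ne hPh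
  obtain ⟨lam, hlamdef⟩ : ∃ lam : E N → ℝ, ∀ z, lam z =
      -pev (pderiv (Fin.last N) Ξ) (pt z (η z)) / pev (pderiv (Fin.last N) P) (pt z (η z)) :=
    ⟨_, fun z => rfl⟩
  have hlamd : DifferentiableAt ℝ lam y := by
    have h1 : lam = fun z => -pev (pderiv (Fin.last N) Ξ) (pt z (η z)) /
        pev (pderiv (Fin.last N) P) (pt z (η z)) := funext hlamdef
    rw [h1]
    have h2 := hLXh.differentiableAt
    have h3 := hLPh.differentiableAt
    fun_prop (disch := exact hPh)
  have hlam : ∀ z, pev (pderiv (Fin.last N) P) (pt z (η z)) ≠ 0 →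
      lam z * pev (pderiv (Fin.last N) P) (pt z (η z)) +
        pev (pderiv (Fin.last N) Ξ) (pt z (η z)) = 0 := by
    intro z hz
    rw [hlamdef z, div_mul_cancel₀ _ hz]
    ring
  -- the derivative of P along the graph
  have s1 : ∀ᶠ z in 𝓝 y, ∀ e, dv (pt z (η z)) (pt e (fderiv ℝ η z e)) P = 0 := by
    filter_upwards [hev, eventually_eventually_nhds.2 hP] with z hz hz2 e
    obtain ⟨L, h1, h2⟩ := TJet_comp hz P
    have h3 : (fun w => pev P (pt w (η w))) =ᶠ[𝓝 z] fun _ => 0 := hz2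
    rw [← h2, ← h1.fderiv, h3.fderiv_eq, fderiv_fun_const]
    rfl
  -- the derivative of Ξ along the graph
  have s2 : ∀ᶠ z in 𝓝 y, fderiv ℝ (fun w => pev Ξ (pt w (η w))) z =
      ∑ l : Fin N, (pev (pderiv l.castSucc Ξ) (pt z (η z)) +
        lam z * pev (pderiv l.castSucc P) (pt z (η z))) •
          (EuclideanSpace.proj l : E N →L[ℝ] ℝ) := by
    filter_upwards [hev, hne, s1] with z hz hz2 hz3
    obtain ⟨L, h1, h2⟩ := TJet_comp hz Ξ
    rw [h1.fderiv]
    ext e
    rw [h2 e, dv_pt]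
    have h4 := hz3 e
    rw [dv_pt] at h4
    have h5 := hlam z hz2
    have h6 : (∑ l : Fin N, (pev (pderiv l.castSucc Ξ) (pt z (η z)) +
        lam z * pev (pderiv l.castSucc P) (pt z (η z))) •
          (EuclideanSpace.proj l : E N →L[ℝ] ℝ)) e =
        ∑ l : Fin N, pev (pderiv l.castSucc Ξ) (pt z (η z)) * e l +
          lam z * ∑ l : Fin N, pev (pderiv l.castSucc P) (pt z (η z)) * e l := by
      rw [Finset.mul_sum, ← Finset.sum_add_distrib]
      simp only [_root_.sum_apply, _root_.smul_apply, smul_eq_mul, PiLp.proj_apply]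
      exact Finset.sum_congr rfl fun l _ => by ring
    rw [h6]
    linear_combination (-lam z) * h4 + fderiv ℝ η z e * h5
  have hF1 : ∀ e, fderiv ℝ F y e = ∑ l : Fin N, (pev (pderiv l.castSucc Ξ) (pt y (η y)) +
        lam y * pev (pderiv l.castSucc P) (pt y (η y))) * e l := by
    intro e
    rw [hJ1, s2.self_of_nhds]
    simp only [_root_.sum_apply, _root_.smul_apply, smul_eq_mul, PiLp.proj_apply]
  -- the derivative of lam
  have s4 : ∀ u, fderiv ℝ lam y u * pev (pderiv (Fin.last N) P) (pt y (η y)) +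
      lam y * dv (pt y (η y)) (pt u (fderiv ℝ η y u)) (pderiv (Fin.last N) P) +
      dv (pt y (η y)) (pt u (fderiv ℝ η y u)) (pderiv (Fin.last N) Ξ) = 0 := by
    intro u
    have h1 := (hlamd.hasFDerivAt.mul hLPh).add hLXh
    have h2 : (fun z => lam z * pev (pderiv (Fin.last N) P) (pt z (η z)) +
        pev (pderiv (Fin.last N) Ξ) (pt z (η z))) =ᶠ[𝓝 y] fun _ => 0 :=
      hne.mono fun z hz => hlam z hz
    have h3 := h1.unique (h2.hasFDerivAt_iff.2 (hasFDerivAt_const (0 : ℝ) y))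
    have h4 := congrArg (fun L : E N →L[ℝ] ℝ => L u) h3
    simp only [_root_.add_apply, _root_.smul_apply, smul_eq_mul, _root_.zero_apply, hLPh', hLXh']
      at h4
    linarith
  -- the second derivative
  have s3 : ∀ u e, fderiv ℝ (fun z => fderiv ℝ F z) y u e =
        ∑ l : Fin N, (dv (pt y (η y)) (pt u (fderiv ℝ η y u)) (pderiv l.castSucc Ξ) +
          lam y * dv (pt y (η y)) (pt u (fderiv ℝ η y u)) (pderiv l.castSucc P) +
          fderiv ℝ lam y u * pev (pderiv l.castSucc P) (pt y (η y))) * e l := by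
    intro u e
    rw [hJ2, Filter.EventuallyEq.fderiv_eq s2]
    choose LX hLX hLX' using fun l : Fin N => TJet_comp hd (pderiv l.castSucc Ξ)
    choose LP hLP hLP' using fun l : Fin N => TJet_comp hd (pderiv l.castSucc P)
    have h1 : HasFDerivAt (fun z => ∑ l : Fin N, (pev (pderiv l.castSucc Ξ) (pt z (η z)) +
        lam z * pev (pderiv l.castSucc P) (pt z (η z))) •
          (EuclideanSpace.proj l : E N →L[ℝ] ℝ))
        (∑ l : Fin N, (LX l + (lam y • LP l + pev (pderiv l.castSucc P) (pt y (η y)) •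
          fderiv ℝ lam y)).smulRight (EuclideanSpace.proj l : E N →L[ℝ] ℝ)) y := by
      refine HasFDerivAt.fun_sum fun l _ => ?_
      have h7 : HasFDerivAt (fun z => pev (pderiv l.castSucc Ξ) (pt z (η z)) +
          lam z * pev (pderiv l.castSucc P) (pt z (η z)))
          (LX l + (lam y • LP l + pev (pderiv l.castSucc P) (pt y (η y)) • fderiv ℝ lam y)) y :=
        (hLX l).add (hlamd.hasFDerivAt.mul (hLP l))
      exact h7.smul_const (EuclideanSpace.proj l : E N →L[ℝ] ℝ)
    rw [h1.fderiv]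
    simp only [_root_.sum_apply, _root_.smul_apply, _root_.add_apply, smul_eq_mul,
      ContinuousLinearMap.smulRight_apply, PiLp.proj_apply, hLX', hLP']
    exact Finset.sum_congr rfl fun l _ => by ring
  exact ⟨η y, lam y, fun u => fderiv ℝ η y u, fun u => fderiv ℝ lam y u, hP.self_of_nhds, hPh,
    hJ0, hlam y hPh, s1.self_of_nhds, hF1, s4, s3⟩

end KR
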