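import Pool.Agent.UC.VDefs
import Pool.Agent.KR.TJet
import Pool.Agent.KR.TDefs

open MvPolynomial

namespace KR

open UC

/-- The index set of the unknowns and of the equations: y_l and t, and h_i. -/
private abbrev TV_K {ι : Type} (N : ℕ) (T : Finset ι) : Type := Option (Fin N) ⊕ {i // i ∈ T}

section aux
variable {N : ℕ} {ι : Type} [DecidableEq ι] {T : Finset ι}

/-- The variables (y, h_i). -/
private def TV_emb (i : {i // i ∈ T}) : Fin (N + 1) → TV_K N T :=
  Fin.lastCases (motive := fun _ => TV_K N T) (Sum.inr i) fun l => Sum.inl (some l)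

/-- The point of the system. -/
private noncomputable def TV_pt (T : Finset ι) (y : E N) (s : ℝ) (t : ι → ℝ) : TV_K N T → ℝ
  | Sum.inl none => s
  | Sum.inl (some l) => y l
  | Sum.inr i => t i.1

omit [DecidableEq ι] in
private theorem TV_comp (y : E N) (s : ℝ) (t : ι → ℝ) (i : {i // i ∈ T}) :
    TV_pt T y s t ∘ TV_emb i = fun k => pt y (t i.1) k := by
  funext k
  refine Fin.lastCases ?_ (fun l => ?_) k
  · rw [pt_last, Function.comp_apply, TV_emb, Fin.lastCases_last]
    rfl
  · rw [pt_castSucc, Function.comp_apply, TV_emb, Fin.lastCases_castSucc]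
    rfl

omit [DecidableEq ι] in
private theorem TV_eval (y : E N) (s : ℝ) (t : ι → ℝ) (i : {i // i ∈ T})
    (Q : MvPolynomial (Fin (N + 1)) ℝ) :
    eval (TV_pt T y s t) (rename (TV_emb i) Q) = pev Q (pt y (t i.1)) := by
  rw [eval_rename, TV_comp]
  rfl

private theorem TV_ddir (y u : E N) (s s' : ℝ) (t t' : ι → ℝ) (i : {i // i ∈ T})
    (Q : MvPolynomial (Fin (N + 1)) ℝ) :
    ddir (TV_pt T y s t) (TV_pt T u s' t') (rename (TV_emb i) Q) =
      dv (pt y (t i.1)) (pt u (t' i.1)) Q := by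
  rw [ddir_rename, TV_comp, TV_comp]
  rfl

private theorem TV_exists (w : TV_K N T → ℝ) : ∃ (u : E N) (s : ℝ) (t : ι → ℝ),
    w = TV_pt T u s t := by
  refine ⟨WithLp.toLp 2 fun l => w (Sum.inl (some l)), w (Sum.inl none),
    fun i => if h : i ∈ T then w (Sum.inr ⟨i, h⟩) else 0, ?_⟩
  funext k
  rcases k with (_ | l) | i
  · rfl
  · rfl
  · show w (Sum.inr i) = if h : i.1 ∈ T then w (Sum.inr ⟨i.1, h⟩) else 0
    rw [dif_pos i.2]

/-- The system. -/
private noncomputable def TV_sys (P Ξ : ι → MvPolynomial (Fin (N + 1)) ℝ) (col : ι → Bool)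
    (a : ι → ℝ) (b : ι → E N) (e : Option (Fin N) → {i // i ∈ T}) :
    TV_K N T → MvPolynomial (TV_K N T) ℝ
  | Sum.inl k => rename (TV_emb (e k)) (Ξ (e k).1) + C (a (e k).1) +
      ∑ l : Fin N, C (b (e k).1 l) * X (Sum.inl (some l)) -
      C (sg (col (e k).1)) * X (Sum.inl none)
  | Sum.inr i => rename (TV_emb i) (P i.1)

omit [DecidableEq ι] in
private theorem TV_deg (P Ξ : ι → MvPolynomial (Fin (N + 1)) ℝ) (col : ι → Bool)
    (a : ι → ℝ) (b : ι → E N) (e : Option (Fin N) → {i // i ∈ T}) (D : ℕ)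
    (hD : ∀ i, (P i).totalDegree ≤ D ∧ (Ξ i).totalDegree ≤ D) (k : TV_K N T) :
    (TV_sys P Ξ col a b e k).totalDegree ≤ D + 1 := by
  rcases k with k | i
  · refine (totalDegree_sub _ _).trans (max_le ?_ ?_)
    · refine (totalDegree_add _ _).trans (max_le ?_ ?_)
      · refine (totalDegree_add _ _).trans (max_le ?_ ?_)
        · exact ((totalDegree_rename_le _ _).trans (hD _).2).trans (Nat.le_succ _)
        · rw [totalDegree_C]
          exact Nat.zero_le _
      · refine totalDegree_finsetSum_le fun l _ => ?_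
        refine (totalDegree_mul _ _).trans ?_
        rw [totalDegree_C, totalDegree_X]
        omega
    · refine (totalDegree_mul _ _).trans ?_
      rw [totalDegree_C, totalDegree_X]
      omega
  · exact ((totalDegree_rename_le _ _).trans (hD _).1).trans (Nat.le_succ _)

private theorem TV_inner (b u : E N) : inner ℝ b u = ∑ l : Fin N, b l * u l := by
  rw [PiLp.inner_apply]
  refine Finset.sum_congr rfl fun l _ => ?_
  simp [mul_comm]

omit [DecidableEq ι] in
private theorem TV_pert (φ : ι → E N → ℝ) (hφ : ∀ i, ContDiff ℝ 2 (φ i)) (a : ι → ℝ)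
    (b : ι → E N) (i : ι) (y u : E N) :
    fderiv ℝ (pert φ a b i) y u = fderiv ℝ (φ i) y u + ∑ l : Fin N, b i l * u l := by
  have h1 : DifferentiableAt ℝ (φ i) y := (hφ i).differentiable (by norm_num) y
  have h2 : HasFDerivAt (pert φ a b i) (fderiv ℝ (φ i) y + innerSL ℝ (b i)) y :=
    (h1.hasFDerivAt.add_const (a i)).add (innerSL ℝ (b i)).hasFDerivAt
  rw [h2.fderiv, ← TV_inner]
  rfl

/-- The derivative of the system is injective at transversal vertices. -/
private theorem TV_inj (P Ξ : ι → MvPolynomial (Fin (N + 1)) ℝ)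
    (φ : ι → E N → ℝ) (hφ : ∀ i, ContDiff ℝ 2 (φ i)) (col : ι → Bool) (a : ι → ℝ)
    (b : ι → E N) (e : Option (Fin N) ≃ {i // i ∈ T}) (y : E N) (s : ℝ) (t lam : ι → ℝ)
    (dη : ι → E N → ℝ) (hv : IsV Set.univ (pert φ a b) col T y s)
    (hPh : ∀ i ∈ T, pev (pderiv (Fin.last N) (P i)) (pt y (t i)) ≠ 0)
    (hlam : ∀ i ∈ T, lam i * pev (pderiv (Fin.last N) (P i)) (pt y (t i)) +
      pev (pderiv (Fin.last N) (Ξ i)) (pt y (t i)) = 0)
    (hη : ∀ i ∈ T, ∀ u, dv (pt y (t i)) (pt u (dη i u)) (P i) = 0)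
    (hd : ∀ i ∈ T, ∀ e, fderiv ℝ (φ i) y e =
      ∑ l : Fin N, (pev (pderiv l.castSucc (Ξ i)) (pt y (t i)) +
        lam i * pev (pderiv l.castSucc (P i)) (pt y (t i))) * e l)
    (w : TV_K N T → ℝ)
    (hw : ∀ k, ddir (TV_pt T y s t) w (TV_sys P Ξ col a b e k) = 0) : w = 0 := by
  classical
  obtain ⟨u, s', t', rfl⟩ := TV_exists w
  -- the heights
  have ht' : ∀ i : {i // i ∈ T}, t' i.1 = dη i.1 u := by
    intro i
    have h1 : ddir (TV_pt T y s t) (TV_pt T u s' t') (rename (TV_emb i) (P i.1)) = 0 :=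
      hw (Sum.inr i)
    rw [TV_ddir, dv_pt] at h1
    have h2 := hη i.1 i.2 u
    rw [dv_pt] at h2
    have h3 : pev (pderiv (Fin.last N) (P i.1)) (pt y (t i.1)) * (t' i.1 - dη i.1 u) = 0 := by
      linear_combination h1 - h2
    rcases mul_eq_zero.1 h3 with h4 | h4
    · exact absurd h4 (hPh i.1 i.2)
    · exact sub_eq_zero.1 h4
  -- the coefficients of the derivatives
  obtain ⟨g, hg⟩ : ∃ g : ι → Fin N → ℝ, ∀ i l, g i l =
      pev (pderiv l.castSucc (Ξ i)) (pt y (t i)) +
        lam i * pev (pderiv l.castSucc (P i)) (pt y (t i)) + b i l := ⟨_, fun _ _ => rfl⟩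
  have hgd : ∀ i ∈ T, ∀ u' : E N, fderiv ℝ (pert φ a b i) y u' = ∑ l, g i l * u' l := by
    intro i hi u'
    rw [TV_pert φ hφ a b i y u', hd i hi u', ← Finset.sum_add_distrib]
    refine Finset.sum_congr rfl fun l _ => ?_
    rw [hg]
    ring
  have heq : ∀ k, ∑ l, g (e k).1 l * u l - sg (col (e k).1) * s' = 0 := by
    intro k
    have h1 : ddir (TV_pt T y s t) (TV_pt T u s' t')
        (rename (TV_emb (e k)) (Ξ (e k).1) + C (a (e k).1) +
          ∑ l : Fin N, C (b (e k).1 l) * X (Sum.inl (some l)) -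
          C (sg (col (e k).1)) * X (Sum.inl none)) = 0 := hw (Sum.inl k)
    rw [ddir_sub, ddir_add, ddir_add, TV_ddir, ddir_C, ddir_sum, ddir_mul, ddir_C, ddir_X,
      eval_C, dv_pt, ht' (e k)] at h1
    simp only [ddir_mul, ddir_C, ddir_X, eval_C, zero_mul, add_zero] at h1
    have h2 := hη (e k).1 (e k).2 u
    rw [dv_pt] at h2
    have h3 := hlam (e k).1 (e k).2
    have h4 : ∑ l, g (e k).1 l * u l =
        ∑ l : Fin N, pev (pderiv l.castSucc (Ξ (e k).1)) (pt y (t (e k).1)) * u l +
        lam (e k).1 * ∑ l : Fin N, pev (pderiv l.castSucc (P (e k).1)) (pt y (t (e k).1)) * u l +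
        ∑ l : Fin N, b (e k).1 l * u l := by
      rw [Finset.mul_sum, ← Finset.sum_add_distrib, ← Finset.sum_add_distrib]
      refine Finset.sum_congr rfl fun l _ => ?_
      rw [hg]
      ring
    rw [h4]
    have h5 : (∑ l : Fin N, b (e k).1 l * (TV_pt T u s' t' (Sum.inl (some l)))) =
        ∑ l : Fin N, b (e k).1 l * u l := rfl
    have h6 : TV_pt T u s' t' (Sum.inl none) = s' := rfl
    rw [h5, h6] at h1
    linear_combination h1 + lam (e k).1 * h2 - dη (e k).1 u * h3
  -- the vector (u, s')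
  have hus : (fun j : Option (Fin N) => Option.elim j s' fun l => u l) = 0 := by
    by_contra hw0
    let M : Matrix (Option (Fin N)) (Option (Fin N)) ℝ :=
      Matrix.of fun k j => Option.elim j (-sg (col (e k).1)) fun l => g (e k).1 l
    have hM : M.mulVec (fun j : Option (Fin N) => Option.elim j s' fun l => u l) = 0 := by
      funext k
      have h1 := heq k
      rw [Matrix.mulVec, dotProduct, Fintype.sum_option]
      simp only [M, Matrix.of_apply, Option.elim_none, Option.elim_some, Pi.zero_apply]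
      linarith
    have hdet : M.det = 0 := Matrix.exists_mulVec_eq_zero_iff.mp ⟨_, hw0, hM⟩
    obtain ⟨c, hc0, hc⟩ := Matrix.exists_vecMul_eq_zero_iff.mpr hdet
    have hcn : ∑ k, c k * sg (col (e k).1) = 0 := by
      have h1 := congrFun hc none
      simp only [Matrix.vecMul, dotProduct, M, Matrix.of_apply, Option.elim_none,
        Pi.zero_apply, mul_neg, Finset.sum_neg_distrib, neg_eq_zero] at h1
      exact h1
    have hcs : ∀ l, ∑ k, c k * g (e k).1 l = 0 := by
      intro l
      have h1 := congrFun hc (some l)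
      simp only [Matrix.vecMul, dotProduct, M, Matrix.of_apply, Option.elim_some,
        Pi.zero_apply] at h1
      exact h1
    let c' : ι → ℝ := fun i => if h : i ∈ T then c (e.symm ⟨i, h⟩) else 0
    have hsum : ∀ f : ι → ℝ, ∑ i ∈ T, c' i * f i = ∑ k, c k * f (e k).1 := by
      intro f
      rw [← Finset.sum_coe_sort T fun i => c' i * f i]
      refine (Fintype.sum_equiv e _ _ fun k => ?_).symm
      simp [c']
    have hc' : ∀ i, c' i = 0 := by
      refine hv.trans c' (fun i hi => by simp [c', hi]) ?_ ?_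
      · rw [hsum fun i => sg (col i)]
        exact hcn
      · ext u'
        simp only [_root_.sum_apply, _root_.smul_apply, _root_.zero_apply, smul_eq_mul]
        rw [hsum fun i => fderiv ℝ (pert φ a b i) y u']
        have h1 : ∀ k, c k * fderiv ℝ (pert φ a b (e k).1) y u' =
            ∑ l, c k * g (e k).1 l * u' l := by
          intro k
          rw [hgd _ (e k).2, Finset.mul_sum]
          exact Finset.sum_congr rfl fun l _ => by ring
        rw [Finset.sum_congr rfl fun k _ => h1 k, Finset.sum_comm]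
        refine Finset.sum_eq_zero fun l _ => ?_
        rw [← Finset.sum_mul, hcs l, zero_mul]
    apply hc0
    funext k
    have h5 := hc' (e k).1
    simpa [c'] using h5
  have hs0 : s' = 0 := congrFun hus none
  have hu0 : u = 0 := by
    ext l
    exact congrFun hus (some l)
  funext k
  rcases k with (_ | l) | i
  · exact hs0
  · show u l = 0
    rw [hu0]
    rfl
  · show t' i.1 = 0
    rw [ht' i, hu0]
    have h1 := hη i.1 i.2 0
    rw [dv_pt] at h1
    have h2 : pev (pderiv (Fin.last N) (P i.1)) (pt y (t i.1)) * dη i.1 0 = 0 := by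
      simpa using h1
    rcases mul_eq_zero.1 h2 with h4 | h4
    · exact absurd h4 (hPh i.1 i.2)
    · exact h4

end aux

private theorem TV_ncard_union_le {α β : Type} [Fintype β] (S : Set α) (f : β → Set α) (M : ℕ)
    (hS : S ⊆ ⋃ b, f b) (hf : ∀ b, (f b).Finite ∧ (f b).ncard ≤ M) :
    S.Finite ∧ S.ncard ≤ Fintype.card β * M := by
  classical
  have hfin : (⋃ b, f b).Finite := Set.finite_iUnion fun b => (hf b).1
  refine ⟨hfin.subset hS, (Set.ncard_le_ncard hS hfin).trans ?_⟩
  have h2 : (⋃ b, f b) = ((Finset.univ.biUnion fun b => (hf b).1.toFinset : Finset α) : Set α) := by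
    ext x
    simp
  rw [h2, Set.ncard_coe_finset]
  refine Finset.card_biUnion_le.trans ?_
  calc ∑ b, ((hf b).1.toFinset).card ≤ ∑ _b : β, M := by
        refine Finset.sum_le_sum fun b _ => ?_
        have h3 := (hf b).2
        rwa [Set.ncard_eq_toFinset_card _ (hf b).1] at h3
    _ = Fintype.card β * M := by rw [Finset.sum_const, Finset.card_univ, smul_eq_mul]

/-- Tame families have a bounded number of transversal vertices with a given support.
Proof.  As `UC.poly_V_bound` (Pool/Agent/UC/PolyV.lean) and `tame_ND` (Pool/Agent/KR/TND.lean,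
copy the choice of the types: for r : T → Fin m consider the set S_r of the vertices v such that
HasType (P i (r i)) (Ξ i (r i)) (φ i) v.1 for all i ∈ T; (m+1)^(N+1) pieces).  If T.card ≠ N + 1 the
set is empty.  For fixed r: unknowns y_l (l < N), h_i (i ∈ T), t, that is
κ = Fin N ⊕ ({i // i ∈ T} ⊕ Unit), 2N + 2 unknowns; equations: for i ∈ T: P_i(y, h_i) = 0 and
Ξ_i(y, h_i) + a_i + ∑ b_il y_l - sg (col i) t = 0, 2 (N + 1) equations, indexed by κ through a
bijection κ ≃ {i // i ∈ T} ⊕ {i // i ∈ T} (equal cardinalities).  `UC.bezout_set` with D + 1; the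
map v ↦ (v.1, h_i = t_i(v), v.2) is injective.
Zeros: type_jet gives P_i(pt y t_i) = 0 and φ_i y = Ξ_i(pt y t_i); IsV.on.
Injectivity of the derivative: let w = (u, h', t').  First equations: dv x_i (pt u h'_i) P_i = 0,
so h'_i = dη_i u (dv_pt, the vertical derivative of P_i is not 0).  Second equations:
fderiv (pert φ a b i) y u = sg (col i) t' for i ∈ T (as in TInj: dv x_i (pt u (dη_i u)) Ξ_i =
∑ (Ξ_l + lam P_l) u_l = fderiv (φ i) y u).  If (u, t') ≠ 0, the linear map
(u, t') ↦ (fderiv (pert φ a b i) y u - sg (col i) t')_{i ∈ T} between spaces of dimension N + 1 is not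
injective, hence not surjective, so some c ≠ 0 on T annihilates its range: ∑ c_i sg (col i) = 0
(take u = 0) and ∑ c_i • fderiv (pert φ a b i) y = 0: c = 0 by IsV.trans, contradiction.  So u = 0,
t' = 0, and h'_i = 0 (linear equation with nonzero coefficient). -/
theorem tame_V (N D m : ℕ) : ∃ C1 : ℕ, ∀ (ι : Type) [Fintype ι] [DecidableEq ι]
    (φ : ι → E N → ℝ), (∀ i, Tame D m (φ i)) → (∀ i, ContDiff ℝ 2 (φ i)) →
    ∀ (col : ι → Bool) (a : ι → ℝ) (b : ι → E N) (T : Finset ι),
      {v : E N × ℝ | IsV Set.univ (pert φ a b) col T v.1 v.2}.Finite ∧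
      {v : E N × ℝ | IsV Set.univ (pert φ a b) col T v.1 v.2}.ncard ≤ C1 := by
  refine ⟨(m + 1) ^ (N + 1) * ((2 * N + 2) * (D + 1) + 1) ^ (2 * N + 2), ?_⟩
  intro ι _ _ φ hT hφ col a b T
  classical
  by_cases hcard : T.card = N + 1
  swap
  · have hempty : {v : E N × ℝ | IsV Set.univ (pert φ a b) col T v.1 v.2} = ∅ := by
      ext v
      simp only [Set.mem_ofPred_eq, Set.mem_empty_iff_false, iff_false]
      exact fun h => hcard h.card
    rw [hempty]
    exact ⟨Set.finite_empty, by simp⟩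
  have hce : Fintype.card (Option (Fin N)) = Fintype.card {i // i ∈ T} := by
    rw [Fintype.card_option, Fintype.card_fin, Fintype.card_coe, hcard]
  obtain ⟨e⟩ : Nonempty (Option (Fin N) ≃ {i // i ∈ T}) := ⟨Fintype.equivOfCardEq hce⟩
  choose P Ξ hdeg htype using hT
  have hm : 0 < m := by
    obtain ⟨r, -⟩ := htype (e none).1 0
    exact r.pos
  -- the pieces
  let ext : ({i // i ∈ T} → Fin m) → ι → Fin m := fun r i =>
    if h : i ∈ T then r ⟨i, h⟩ else ⟨0, hm⟩
  let S : ({i // i ∈ T} → Fin m) → Set (E N × ℝ) := fun r =>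
    {v | IsV Set.univ (pert φ a b) col T v.1 v.2 ∧
      ∀ i ∈ T, HasType (P i (ext r i)) (Ξ i (ext r i)) (φ i) v.1}
  have hcover : {v : E N × ℝ | IsV Set.univ (pert φ a b) col T v.1 v.2} ⊆ ⋃ r, S r := by
    intro v hv
    choose r hr using fun i => htype i v.1
    refine Set.mem_iUnion.2 ⟨fun i => r i.1, hv, fun i hi => ?_⟩
    have h1 : ext (fun i => r i.1) i = r i := by simp [ext, hi]
    rw [h1]
    exact hr i
  have hpiece : ∀ r, (S r).Finite ∧ (S r).ncard ≤ ((2 * N + 2) * (D + 1) + 1) ^ (2 * N + 2) := by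
    intro r
    let P' : ι → MvPolynomial (Fin (N + 1)) ℝ := fun i => P i (ext r i)
    let Ξ' : ι → MvPolynomial (Fin (N + 1)) ℝ := fun i => Ξ i (ext r i)
    have hex : ∀ v : E N × ℝ, ∃ (t lam : ι → ℝ) (dη : ι → E N → ℝ), v ∈ S r →
        (∀ i ∈ T, pev (P' i) (pt v.1 (t i)) = 0) ∧
        (∀ i ∈ T, pev (pderiv (Fin.last N) (P' i)) (pt v.1 (t i)) ≠ 0) ∧
        (∀ i ∈ T, φ i v.1 = pev (Ξ' i) (pt v.1 (t i))) ∧
        (∀ i ∈ T, lam i * pev (pderiv (Fin.last N) (P' i)) (pt v.1 (t i)) +
          pev (pderiv (Fin.last N) (Ξ' i)) (pt v.1 (t i)) = 0) ∧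
        (∀ i ∈ T, ∀ u, dv (pt v.1 (t i)) (pt u (dη i u)) (P' i) = 0) ∧
        (∀ i ∈ T, ∀ e, fderiv ℝ (φ i) v.1 e =
          ∑ l : Fin N, (pev (pderiv l.castSucc (Ξ' i)) (pt v.1 (t i)) +
            lam i * pev (pderiv l.castSucc (P' i)) (pt v.1 (t i))) * e l) := by
      intro v
      by_cases hv : v ∈ S r
      · obtain ⟨-, hty⟩ := hv
        have hj : ∀ i, ∃ (t lam : ℝ) (dη : E N → ℝ), i ∈ T →
            pev (P' i) (pt v.1 t) = 0 ∧ pev (pderiv (Fin.last N) (P' i)) (pt v.1 t) ≠ 0 ∧
            φ i v.1 = pev (Ξ' i) (pt v.1 t) ∧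
            lam * pev (pderiv (Fin.last N) (P' i)) (pt v.1 t) +
              pev (pderiv (Fin.last N) (Ξ' i)) (pt v.1 t) = 0 ∧
            (∀ u, dv (pt v.1 t) (pt u (dη u)) (P' i) = 0) ∧
            (∀ e, fderiv ℝ (φ i) v.1 e = ∑ l : Fin N,
              (pev (pderiv l.castSucc (Ξ' i)) (pt v.1 t) +
              lam * pev (pderiv l.castSucc (P' i)) (pt v.1 t)) * e l) := by
          intro i
          by_cases hi : i ∈ T
          · obtain ⟨t, lam, dη, dlam, h1, h2, h3, h4, h5, h6, -⟩ := type_jet (hty i hi)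
            exact ⟨t, lam, dη, fun _ => ⟨h1, h2, h3, h4, h5, h6⟩⟩
          · exact ⟨0, 0, 0, fun h => absurd h hi⟩
        choose t lam dη hj using hj
        exact ⟨t, lam, dη, fun _ => ⟨fun i hi => (hj i hi).1,
          fun i hi => (hj i hi).2.1, fun i hi => (hj i hi).2.2.1,
          fun i hi => (hj i hi).2.2.2.1, fun i hi => (hj i hi).2.2.2.2.1,
          fun i hi => (hj i hi).2.2.2.2.2⟩⟩
      · exact ⟨0, 0, 0, fun h => absurd h hv⟩
    choose t lam dη hex using hex
    obtain ⟨hfin, hle⟩ := bezout_set (D + 1) (TV_sys P' Ξ' col a b e)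
      (TV_deg P' Ξ' col a b e D fun i => hdeg i _) (S r)
      (fun v => TV_pt T v.1 v.2 (t v)) (by
        intro v _ v' _ h
        refine Prod.ext ?_ (congrFun h (Sum.inl none))
        ext l
        exact congrFun h (Sum.inl (some l))) (by
        intro v hv
        obtain ⟨h1, h2, h3, h4, h5, h6⟩ := hex v hv
        refine ⟨fun k => ?_, fun w hw => TV_inj P' Ξ' φ hφ col a b e v.1 v.2 (t v) (lam v)
          (dη v) hv.1 h2 h4 h5 h6 w hw⟩
        rcases k with k | i
        · show eval (TV_pt T v.1 v.2 (t v)) (rename (TV_emb (e k)) (Ξ' (e k).1) +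
            C (a (e k).1) + ∑ l : Fin N, C (b (e k).1 l) * X (Sum.inl (some l)) -
            C (sg (col (e k).1)) * X (Sum.inl none)) = 0
          rw [map_sub, map_add, map_add, TV_eval, eval_C, map_sum, map_mul, eval_C, eval_X,
            sub_eq_zero]
          have h7 := hv.1.on (e k).1 (e k).2
          rw [pert, h3 (e k).1 (e k).2, TV_inner] at h7
          refine Eq.trans ?_ h7
          congr 1
          refine Finset.sum_congr rfl fun l _ => ?_
          rw [map_mul, eval_C, eval_X]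
          rfl
        · show eval (TV_pt T v.1 v.2 (t v)) (rename (TV_emb i) (P' i.1)) = 0
          rw [TV_eval]
          exact h1 i.1 i.2)
    refine ⟨hfin, hle.trans (le_of_eq ?_)⟩
    have h1 : Fintype.card (TV_K N T) = 2 * N + 2 := by
      simp only [TV_K, Fintype.card_sum, Fintype.card_option, Fintype.card_fin,
        Fintype.card_coe]
      omega
    rw [h1]
  obtain ⟨hfin, hle⟩ := TV_ncard_union_le _ S _ hcover hpiece
  refine ⟨hfin, hle.trans (Nat.mul_le_mul_right _ ?_)⟩
  rw [Fintype.card_fun, Fintype.card_fin, Fintype.card_coe, hcard]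
  exact Nat.pow_le_pow_left (Nat.le_succ m) _

end KR
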