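import Pool.Agent.UC.Bound
import Pool.Agent.KR.TND
import Pool.Agent.KR.TV

/-!
# KR (MP_5a1161_co): the vertex bound for families of tame functions
-/

namespace KR

open UC

theorem tame_vertex_bound (N D m : ℕ) (ρ : ℝ) (hρ : 0 < ρ) : ∃ C : ℝ, 0 ≤ C ∧
    ∀ (ι : Type) [Fintype ι] [DecidableEq ι] (φ : ι → E N → ℝ),
      (∀ i, Tame D m (φ i)) → (∀ i, ContDiff ℝ 2 (φ i)) →
      ∀ (col : ι → Bool), Both col Finset.univ →
      {v : E N × ℝ | ∃ T, IsV Set.univ φ col T v.1 v.2}.Finite ∧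
      ({v : E N × ℝ | ∃ T, IsV Set.univ φ col T v.1 v.2}.ncard : ℝ) ≤
        C * (Fintype.card ι : ℝ) ^ ((N : ℝ) + ρ) := by
  obtain ⟨C0, h0⟩ := tame_ND N D m
  obtain ⟨C1, h1⟩ := tame_V N D m
  obtain ⟨C, hC, hmain⟩ := vertex_bound N C0 C1 ρ hρ
  refine ⟨C, hC, ?_⟩
  intro ι _ _ φ hT hφ col hcol
  refine hmain ι Set.univ isOpen_univ (fun y _ => Set.subset_univ _) φ
    (fun i => (hφ i).contDiffOn) col hcol ?_ ?_
  · intro a b T hTb _ hT2
    exact h0 ι φ hT hφ col a b T hTb hT2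
  · intro a b T
    exact h1 ι φ hT hφ col a b T

end KR
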