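import Pool.Agent.KR.XTJ

open MvPolynomial Filter Topology UC3

namespace KR

open UC

private theorem XTame_const {N : ℕ} {F : E N → ℝ} {c : ℝ} {y : E N}
    (h : J2 F (fun _ => c) y) : HasType (X (Fin.last N)) (C c) F y := by
  refine ⟨fun _ => 0, contDiffAt_const, Eventually.of_forall fun z => ?_, ?_, ?_⟩
  · unfold pev
    rw [eval_X, pt_last]
  · rw [pderiv_X_self]
    unfold pev
    rw [map_one]
    exact one_ne_zero
  · have e1 : (fun z : E N => pev (C c) (pt z ((fun _ => (0 : ℝ)) z))) = fun _ => c := by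
      funext z
      unfold pev
      rw [eval_C]
    rw [e1]
    exact h

/-- The extension is tame.
Proof.  M0 from UC3.extF_loc (KR/XLoc.lean) with P = pP Q, p j = pP (q j) (pP_contDiff).  Types: index
set Option (Finset (Fin k) × Fin 3), which has 3 * 2^k + 1 elements (Fintype.card_option,
Fintype.card_prod, Fintype.card_finset; transport to Fin by Fintype.equivFinOfCardEq).
none ↦ (X last, C (top + 1/2)), with η = 0: the polynomial X last vanishes at pt z 0, its vertical
derivative is 1.  some (A, κ) ↦ (Q, xiP q top M A κ); degrees by xiP_deg.  At a point y: second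
alternative of extF_loc: type none (J2_of_eventuallyEq).  First alternative with (y,t) ∈ O:
UC3.patch_local gives η with η y = t, C^2 at y, (z, η z) ∈ O and pP Q (z, η z) = 0 near y; the
vertical derivative at (y,t) is ≠ 0 by hd and pP_fderiv_vert; ext_jet gives A, κ. -/
theorem ext_tame {N k : ℕ} (D : ℕ) (Q : MvPolynomial (Fin (N + 1)) ℝ)
    (q : Fin k → MvPolynomial (Fin (N + 1)) ℝ) (hQ : Q.totalDegree ≤ D)
    (hq : ∀ j, (q j).totalDegree ≤ D) (top : ℝ) (O K : Set (E N × ℝ)) (hO : Single O)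
    (hO0 : ∀ z ∈ O, pP Q z = 0) (hd : ∀ z ∈ O, fderiv ℝ (pP Q) z (0, 1) ≠ 0)
    (hopen : ∀ z ∈ O, ∀ᶠ z' in 𝓝 z, pP Q z' = 0 → z' ∈ O) (hK : IsCompact K) (hOK : O ⊆ K)
    (hZ : ∀ z ∈ K, pP Q z = 0 → z ∉ O → ∃ j, pP (q j) z < 0) :
    ∃ M0 : ℝ, ∀ M, M0 ≤ M →
      Tame (12 * D + 4) (3 * 2 ^ k + 1) (extF top M (fun j => pP (q j)) O) := by
  classical
  obtain ⟨M0, hM0⟩ := UC3.extF_loc (top := top) (pP_contDiff Q) (p := fun j => pP (q j))
    (fun j => pP_contDiff (q j)) hO hO0 hopen hK hOK hZ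
  refine ⟨M0, fun M hM => ?_⟩
  have hcard : Fintype.card (Option (Finset (Fin k) × Fin 3)) = 3 * 2 ^ k + 1 := by
    rw [Fintype.card_option, Fintype.card_prod, Fintype.card_finset, Fintype.card_fin,
      Fintype.card_fin, mul_comm]
  let e : Option (Finset (Fin k) × Fin 3) ≃ Fin (3 * 2 ^ k + 1) :=
    Fintype.equivFinOfCardEq hcard
  refine ⟨fun r => (e.symm r).elim (X (Fin.last N)) (fun _ => Q),
    fun r => (e.symm r).elim (C (top + 1 / 2)) (fun a => xiP q top M a.1 a.2), ?_, ?_⟩
  · intro r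
    beta_reduce
    generalize e.symm r = o
    cases o with
    | none =>
      simp only [Option.elim_none]
      rw [totalDegree_X, totalDegree_C]
      omega
    | some a =>
      simp only [Option.elim_some]
      exact ⟨by omega, xiP_deg D q hq top M a.1 a.2⟩
  · intro y
    rcases hM0 M hM y with ⟨t, ht⟩ | hev
    · obtain ⟨η, hη0, hηc, hηe, -⟩ := patch_local (pP_contDiff Q) hO0 hopen ht (hd _ ht)
      obtain ⟨A, κ, hJ⟩ := ext_jet q top M O hO y η hηc (hηe.mono fun z h => h.2)
      refine ⟨e (some (A, κ)), ?_⟩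
      simp only [Equiv.symm_apply_apply, Option.elim_some]
      refine ⟨η, hηc, hηe.mono fun z h => h.1, ?_, hJ⟩
      have h1 := hd _ ht
      rw [pP_fderiv_vert] at h1
      rw [hη0]
      exact h1
    · refine ⟨e none, ?_⟩
      simp only [Equiv.symm_apply_apply, Option.elim_none]
      refine XTame_const (J2_of_eventuallyEq hev)

/-- Constant functions are tame.
Proof.  One type (X last, C c) with η = 0. -/
theorem const_tame {N : ℕ} (D m : ℕ) (hD : 1 ≤ D) (hm : 1 ≤ m) (c : ℝ) :
    Tame (N := N) D m (fun _ => c) := by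
  refine ⟨fun _ => X (Fin.last N), fun _ => C c, fun r => ⟨?_, ?_⟩, fun y => ⟨⟨0, hm⟩, ?_⟩⟩
  · rw [totalDegree_X]
    exact hD
  · rw [totalDegree_C]
    exact Nat.zero_le _
  · exact XTame_const (J2_refl _ _)

end KR
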