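import Pool.Agent.KR.PatchDefs
import Pool.Agent.KR.XTame
import Pool.Agent.KR.TBound

/-!
# KR (MP_5a1161_co): the patch theorem
-/

open MvPolynomial Filter Topology UC3

namespace KR

open UC

section
variable {N D k : ℕ} {ι : Type} [Fintype ι] [DecidableEq ι]

/-- The functions of a family of patches: their extensions and two constants. -/
noncomputable def pfun (top M : ℝ) (pa : ι → Patch N D k) : ι ⊕ Bool → E N → ℝ
  | Sum.inl a => extF top M (fun j => pP ((pa a).q j)) (pa a).O
  | Sum.inr _ => fun _ => top + 1 / 2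

/-- The colours. -/
def pcol (col : ι → Bool) : ι ⊕ Bool → Bool
  | Sum.inl a => col a
  | Sum.inr β => β

omit [Fintype ι] in
theorem patch_isV (top M : ℝ) (hM : 0 < M) (pa : ι → Patch N D k) (col : ι → Bool)
    (T : Finset ι) (y : E N) (t : ℝ) (ht : |t| < top) (h : PVert pa col T y t) :
    IsV Set.univ (pfun top M pa) (pcol col) (T.map Function.Embedding.inl) y t := by
  have hsg : ∀ β, sg β * t < top := by
    intro β
    cases β
    · have := neg_abs_le t
      simp only [sg]
      linarith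
    · have := le_abs_self t
      simp only [sg]
      linarith
  refine ⟨Set.mem_univ _, by rw [Finset.card_map]; exact h.card, ?_, ?_, ?_⟩
  · intro i hi
    obtain ⟨a, ha, rfl⟩ := Finset.mem_map.1 hi
    obtain ⟨h1, h2⟩ := h.on a ha
    exact extF_eq (pa a).single h1 h2 (hsg _).le
  · intro i hi
    rcases i with a | β
    · have ha : a ∉ T := fun ha => hi (Finset.mem_map.2 ⟨a, ha, rfl⟩)
      by_contra hle
      obtain ⟨s, hs1, hs2, hs3⟩ := extF_le hM (hsg (col a)) (not_lt.1 hle)
      obtain ⟨h1, j, hj⟩ := h.off a ha s hs1 hs2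
      exact absurd (hs3 h1 j) (not_le.2 hj)
    · have := hsg β
      simp only [pcol, pfun]
      linarith
  · intro c hc0 hc1 hc2
    rw [Finset.sum_map] at hc1 hc2
    simp only [Function.Embedding.inl_apply, pcol] at hc1 hc2
    have hder : ∀ a ∈ T, fderiv ℝ (pfun top M pa (Sum.inl a)) y =
        -(fderiv ℝ (pP (pa a).Q) (y, sg (col a) * t) (0, 1))⁻¹ •
          (fderiv ℝ (pP (pa a).Q) (y, sg (col a) * t)).comp (.inl ℝ (E N) ℝ) := by
      intro a ha
      obtain ⟨h1, h2⟩ := h.on a ha
      exact extF_fderiv (pP_contDiff _) (fun j => pP_contDiff _) (pa a).single (pa a).zero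
        (pa a).isOpen h1 ((pa a).vert _ h1) h2 (hsg _)
    have hne : ∀ a ∈ T, fderiv ℝ (pP (pa a).Q) (y, sg (col a) * t) (0, 1) ≠ 0 :=
      fun a ha => (pa a).vert _ (h.on a ha).1
    have key := h.trans (fun a => if a ∈ T then
      c (Sum.inl a) * (fderiv ℝ (pP (pa a).Q) (y, sg (col a) * t) (0, 1))⁻¹ else 0)
      (fun a ha => by simp [ha]) ?_
    · intro i
      rcases i with a | β
      · by_cases ha : a ∈ T
        · have h1 := key a
          rw [if_pos ha] at h1
          rcases mul_eq_zero.1 h1 with h2 | h2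
          · exact h2
          · exact absurd (inv_eq_zero.1 h2) (hne a ha)
        · exact hc0 _ fun h2 => by
            obtain ⟨a', ha', h3⟩ := Finset.mem_map.1 h2
            exact ha (Sum.inl_injective h3 ▸ ha')
      · exact hc0 _ fun h2 => by
          obtain ⟨a', ha', h3⟩ := Finset.mem_map.1 h2
          simp at h3
    · intro u s
      have h1 : ∀ a ∈ T, (if a ∈ T then
          c (Sum.inl a) * (fderiv ℝ (pP (pa a).Q) (y, sg (col a) * t) (0, 1))⁻¹ else 0) *
          fderiv ℝ (pP (pa a).Q) (y, sg (col a) * t) (u, sg (col a) * s) =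
          c (Sum.inl a) * sg (col a) * s -
            (c (Sum.inl a) • fderiv ℝ (pfun top M pa (Sum.inl a)) y) u := by
        intro a ha
        rw [if_pos ha]
        have h2 : ((u, sg (col a) * s) : E N × ℝ) = (u, 0) + (sg (col a) * s) • (0, 1) := by
          ext <;> simp
        rw [h2, map_add, map_smul, hder a ha]
        simp only [smul_eq_mul, smul_apply, ContinuousLinearMap.comp_apply,
          ContinuousLinearMap.inl_apply]
        field_simp [hne a ha]
        ring
      rw [Finset.sum_congr rfl h1, Finset.sum_sub_distrib, ← Finset.sum_mul, hc1, zero_mul]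
      have h3 := congrArg (fun L : E N →L[ℝ] ℝ => L u) hc2
      simp only [sum_apply, zero_apply] at h3
      rw [h3, sub_zero]

end

/-- THE PATCH THEOREM. -/
theorem patch_bound (N D k : ℕ) (ρ : ℝ) (hρ : 0 < ρ) : ∃ C : ℝ, 0 ≤ C ∧
    ∀ (ι : Type) [Fintype ι] [DecidableEq ι] (pa : ι → Patch N D k) (col : ι → Bool)
      (V : Finset (E N × ℝ)), (∀ v ∈ V, ∃ T, PVert pa col T v.1 v.2) →
      (V.card : ℝ) ≤ C * (Fintype.card ι : ℝ) ^ ((N : ℝ) + ρ) := by
  obtain ⟨C, hC, hmain⟩ := tame_vertex_bound N (12 * D + 4) (3 * 2 ^ k + 1) ρ hρ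
  refine ⟨C * 3 ^ ((N : ℝ) + ρ), by positivity, ?_⟩
  intro ι _ _ pa col V hV
  classical
  rcases V.eq_empty_or_nonempty with rfl | ⟨v0, hv0⟩
  · simp only [Finset.card_empty, Nat.cast_zero]
    positivity
  -- the index set is not empty
  obtain ⟨T0, hT0⟩ := hV v0 hv0
  have hcard : 1 ≤ Fintype.card ι := by
    have h1 := hT0.card
    have h2 := Finset.card_le_univ T0
    omega
  -- the constants
  obtain ⟨top, htop⟩ : ∃ top : ℝ, ∀ v ∈ V, |v.2| < top := by
    refine ⟨∑ v ∈ V, |v.2| + 1, fun v hv => ?_⟩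
    have := Finset.single_le_sum (f := fun v : E N × ℝ => |v.2|) (fun v _ => abs_nonneg _) hv
    linarith
  have hex : ∀ a, ∃ M0 : ℝ, ∀ M, M0 ≤ M →
      Tame (12 * D + 4) (3 * 2 ^ k + 1) (extF top M (fun j => pP ((pa a).q j)) (pa a).O) ∧
      ContDiff ℝ 2 (extF top M (fun j => pP ((pa a).q j)) (pa a).O) := by
    intro a
    obtain ⟨M1, h1⟩ := ext_tame D (pa a).Q (pa a).q (pa a).degQ (pa a).degq top (pa a).O
      (pa a).K (pa a).single (pa a).zero (pa a).vert (pa a).isOpen (pa a).compact (pa a).sub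
      (pa a).bad
    obtain ⟨M2, h2⟩ := extF_contDiff (top := top) (P := pP (pa a).Q) (pP_contDiff _)
      (p := fun j => pP ((pa a).q j)) (fun j => pP_contDiff _) (O := (pa a).O) (K := (pa a).K)
      (pa a).single (pa a).zero (pa a).vert (pa a).isOpen (pa a).compact (pa a).sub (pa a).bad
    exact ⟨max M1 M2, fun M hM => ⟨h1 M ((le_max_left _ _).trans hM),
      h2 M ((le_max_right _ _).trans hM)⟩⟩
  choose M0 hM0 using hex
  obtain ⟨M, hM, hMa⟩ : ∃ M : ℝ, 0 < M ∧ ∀ a, M0 a ≤ M := by
    refine ⟨∑ a, |M0 a| + 1, by positivity, fun a => ?_⟩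
    have := Finset.single_le_sum (f := fun a => |M0 a|) (fun a _ => abs_nonneg _)
      (Finset.mem_univ a)
    have h2 := le_abs_self (M0 a)
    linarith
  have hb := hmain (ι ⊕ Bool) (pfun top M pa) ?_ ?_ (pcol col) ?_
  · obtain ⟨hfin, hle⟩ := hb
    have h1 : V.card ≤ {v : E N × ℝ | ∃ T, IsV Set.univ (pfun top M pa) (pcol col) T v.1
        v.2}.ncard := by
      rw [← Set.ncard_coe_finset V]
      refine Set.ncard_le_ncard (fun v hv => ?_) hfin
      obtain ⟨T, hT⟩ := hV v hv
      exact ⟨_, patch_isV top M hM pa col T v.1 v.2 (htop v hv) hT⟩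
    have h2 : (V.card : ℝ) ≤ C * (Fintype.card (ι ⊕ Bool) : ℝ) ^ ((N : ℝ) + ρ) :=
      le_trans (by exact_mod_cast h1) hle
    refine h2.trans ?_
    rw [mul_assoc, ← Real.mul_rpow (by norm_num) (by positivity)]
    refine mul_le_mul_of_nonneg_left ?_ hC
    refine Real.rpow_le_rpow (by positivity) ?_ (by positivity)
    rw [Fintype.card_sum, Fintype.card_bool]
    push_cast
    have : (1 : ℝ) ≤ Fintype.card ι := by exact_mod_cast hcard
    linarith
  · intro i
    rcases i with a | β
    · exact (hM0 a M (hMa a)).1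
    · exact const_tame _ _ (by omega) (by omega) _
  · intro i
    rcases i with a | β
    · exact (hM0 a M (hMa a)).2
    · exact contDiff_const
  · intro β
    exact ⟨Sum.inr β, Finset.mem_univ _, rfl⟩

end KR
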