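import Pool.Agent.KR.L_Patch
import Pool.Agent.KR.L_On
import Pool.Agent.KR.L_Off
import Pool.Agent.KR.L_Card
import Pool.Agent.KR.Patch

open MvPolynomial Metric Filter Topology Pool.Agent.MP_5a1161_co
open UC (E)

namespace KR

theorem lcore_chain {N : ℕ} (J : (E N × ℝ) ≃ₗ[ℝ] Sp (N + 1)) (P : MvPolynomial (Fin (N + 1)) ℝ)
    (f : E N × ℝ → ℝ) (hf : ∀ z, f z = pv P (J z)) (z w : E N × ℝ) :
    fderiv ℝ f z w = fderiv ℝ (pv P) (J z) (J w) := by
  have h0 : f = fun z => pv P (J z) := funext hf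
  let JL : (E N × ℝ) →L[ℝ] Sp (N + 1) := LinearMap.toContinuousLinearMap (J : (E N × ℝ) →ₗ[ℝ] Sp (N + 1))
  have hJL : ∀ z, JL z = J z := fun z => rfl
  have h1 : HasFDerivAt (pv P) (fderiv ℝ (pv P) (JL z)) (JL z) :=
    ((pv_contDiff P 1).differentiable (by norm_num) _).hasFDerivAt
  have h2 : HasFDerivAt (fun z => pv P (JL z)) ((fderiv ℝ (pv P) (JL z)).comp JL) z :=
    h1.comp z JL.hasFDerivAt
  have h3 : f = fun z => pv P (JL z) := h0
  rw [h3, h2.fderiv]
  rfl

/-- Theorem LC for one vertical direction. -/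
theorem lc_core (N s b : ℕ) (κ c0 ρ : ℝ) (hκ : 0 < κ) (hc0 : 0 < c0) (hρ : 0 < ρ) :
    ∃ C : ℝ, 0 ≤ C ∧ ∀ (ι : Type) [Fintype ι] [DecidableEq ι] (D : ι → Desc (N + 1) s)
      (J : (E N × ℝ) ≃ₗ[ℝ] Sp (N + 1)) (V : Finset (Sp (N + 1))) (T : Sp (N + 1) → Finset ι)
      (l : Sp (N + 1) → ι → Fin s) (τ : Sp (N + 1) → ι → SignType) (q : ℝ),
      LHyp b κ c0 D J V T l τ q → (V.card : ℝ) ≤ C * (Fintype.card ι : ℝ) ^ ((N : ℝ) + ρ) := by
  classical
  obtain ⟨C0, hC0, hpb⟩ := patch_bound N (2 * b + 1) (Fintype.card (PIdx N s)) ρ hρ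
  set C1 : ℝ := 2 * s * 3 * 3 ^ s * (2 * (32 * N / (c0 ^ 2 * κ)) + 3) ^ N with hC1
  have hC1pos : 0 ≤ C1 := by positivity
  refine ⟨C0 * C1 ^ ((N : ℝ) + ρ), by positivity, ?_⟩
  intro ι _ _ D J V T l τ q h
  obtain ⟨θ, hθ⟩ := exists_marg h
  have hmem : ∀ α : {α // α ∈ IX κ c0 D J V T l τ}, ∃ w ∈ V, ∃ i ∈ T w, lidx κ c0 D J l τ w i = α.1 := by
    intro α
    obtain ⟨w, hw, h1⟩ := Finset.mem_biUnion.1 α.2
    obtain ⟨i, hi, h2⟩ := Finset.mem_image.1 h1
    exact ⟨w, hw, i, hi, h2⟩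
  choose w hw i hi hidx using hmem
  have hpatch : ∀ α : {α // α ∈ IX κ c0 D J V T l τ},
      ∃ pa : Patch N (2 * b + 1) (Fintype.card (PIdx N s)),
      (∀ z, pP pa.Q z = pv ((D (i α)).P (l (w α) (i α)))
        (cht J (lidx κ c0 D J l τ (w α) (i α)).1 z)) ∧
      pa.O = zn κ c0 D J l τ (lidx κ c0 D J l τ (w α) (i α)).1 (i α) (w α) ∧
      ∀ z, (∀ j, 0 ≤ pP (pa.q j) z) ↔
        ∀ j, 0 ≤ pn κ c0 D J l τ θ (lidx κ c0 D J l τ (w α) (i α)).1 (i α) (w α) j z := by
    intro α
    exact exists_patch (cht_isChart h.chart _) (h.round (i α)).2 hκ (h.round (i α)).1 hc0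
      (h.adm _ (hw α) _ (hi α)) (h.typ _ (hw α) _ (hi α)).ne (asd_pos h _).1 (asd_pos h _).2 hθ.pos
      (by unfold hsd; linarith)
  choose pa hpaQ hpaO hpaq using hpatch
  let col : {α // α ∈ IX κ c0 D J V T l τ} → Bool := fun α => (lidx κ c0 D J l τ (w α) (i α)).1
  have hinj : Function.Injective (fun v : Sp (N + 1) => J.symm v) := J.symm.injective
  have hcardV : (V.image (fun v => J.symm v)).card = V.card :=
    Finset.card_image_of_injective _ hinj
  have hPV : ∀ z ∈ V.image (fun v => J.symm v), ∃ T', PVert pa col T' z.1 z.2 := by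
    intro z hz
    obtain ⟨v, hv, rfl⟩ := Finset.mem_image.1 hz
    set T' : Finset {α // α ∈ IX κ c0 D J V T l τ} :=
      Finset.univ.filter (fun α => α.1 ∈ (T v).image (lidx κ c0 D J l τ v)) with hT'
    have hTm : ∀ α, α ∈ T' ↔ i α ∈ T v ∧ lidx κ c0 D J l τ v (i α) = α.1 := by
      intro α
      rw [hT', Finset.mem_filter, Finset.mem_image]
      constructor
      · rintro ⟨-, i', hi', h1⟩
        have h2 : i' = i α := by
          have h3 := h1.trans (hidx α).symm
          exact congrArg (fun x : LIdx N s ι => x.2.1) h3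
        rw [← h2]
        exact ⟨hi', h1⟩
      · rintro ⟨h1, h2⟩
        exact ⟨Finset.mem_univ _, i α, h1, h2⟩
    refine ⟨T', ?_, ?_, ?_, ?_⟩
    · -- cardinality
      have hsub : (T v).image (lidx κ c0 D J l τ v) ⊆ IX κ c0 D J V T l τ := by
        intro x hx
        exact Finset.mem_biUnion.2 ⟨v, hv, hx⟩
      have h1 : T'.map (Function.Embedding.subtype _) = (T v).image (lidx κ c0 D J l τ v) := by
        ext x
        simp only [Finset.mem_map, Function.Embedding.subtype_apply]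
        constructor
        · rintro ⟨α, hα, rfl⟩
          exact (Finset.mem_filter.1 hα).2
        · intro hx
          exact ⟨⟨x, hsub hx⟩, Finset.mem_filter.2 ⟨Finset.mem_univ _, hx⟩, rfl⟩
      have h2 : T'.card = ((T v).image (lidx κ c0 D J l τ v)).card := by
        rw [← h1, Finset.card_map]
      rw [h2, Finset.card_image_of_injective]
      · exact (h.reg v hv).card
      · intro a a' haa
        exact congrArg (fun x : LIdx N s ι => x.2.1) haa
    · -- on
      intro α hα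
      obtain ⟨h1, h2⟩ := (hTm α).1 hα
      have he : lidx κ c0 D J l τ v (i α) = lidx κ c0 D J l τ (w α) (i α) := by rw [h2, hidx α]
      have h3 := on_pp h hθ v (w α) hv (hw α) (i α) h1 (hi α) he
      have hl : l (w α) (i α) = l v (i α) :=
        (congrArg (fun x : LIdx N s ι => x.2.2.1) he).symm
      have h4 : zpt J (lidx κ c0 D J l τ (w α) (i α)).1 v ∈ (pa α).O := by
        rw [hpaO α]
        refine zone_of_pp hc0 (asd_pos h _).1 (asd_pos h _).2 hθ.pos ?_ h3
        rw [cht_zpt, hl]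
        exact ((h.reg v hv).zero _ h1 _).2 rfl
      exact ⟨h4, (hpaq α _).2 h3⟩
    · -- off
      intro α hα s0 hs0 hz0
      have hno : ¬ (i α ∈ T v ∧ lidx κ c0 D J l τ v (i α) = lidx κ c0 D J l τ (w α) (i α)) := by
        rintro ⟨h1, h2⟩
        exact hα ((hTm α).2 ⟨h1, h2.trans (hidx α)⟩)
      rw [hpaO α] at hz0
      obtain ⟨h1, j, hj⟩ := off_pp h hθ v (w α) hv (hw α) (i α) (hi α) s0 hs0 hz0 hno
      refine ⟨h1, ?_⟩
      by_contra hcon
      push Not at hcon
      exact absurd ((hpaq α _).1 hcon j) (not_le.2 hj)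
    · -- transversality
      intro c hc0' hc1 α
      by_contra hne
      have hα : α ∈ T' := by
        by_contra hα
        exact hne (hc0' α hα)
      -- the coefficients on T v
      have hmemT : ∀ a : {a // a ∈ T v}, lidx κ c0 D J l τ v a.1 ∈ IX κ c0 D J V T l τ := fun a =>
        Finset.mem_biUnion.2 ⟨v, hv, Finset.mem_image.2 ⟨a.1, a.2, rfl⟩⟩
      let g : {a // a ∈ T v} → ℝ := fun a => c ⟨lidx κ c0 D J l τ v a.1, hmemT a⟩
      have hterm : ∀ β ∈ T', ∀ (u : E N) (t : ℝ),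
          fderiv ℝ (pP (pa β).Q) ((J.symm v).1, UC.sg (col β) * (J.symm v).2) (u, UC.sg (col β) * t)
            = fderiv ℝ (pv ((D (i β)).P (l v (i β)))) v (J (u, t)) := by
        intro β hβ u t
        obtain ⟨h1, h2⟩ := (hTm β).1 hβ
        have he : lidx κ c0 D J l τ v (i β) = lidx κ c0 D J l τ (w β) (i β) := by rw [h2, hidx β]
        have hl : l (w β) (i β) = l v (i β) :=
          (congrArg (fun x : LIdx N s ι => x.2.2.1) he).symm
        have h3 := lcore_chain (cht J (lidx κ c0 D J l τ (w β) (i β)).1) _ (pP (pa β).Q) (hpaQ β)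
          ((J.symm v).1, UC.sg (col β) * (J.symm v).2) (u, UC.sg (col β) * t)
        rw [h3, hl]
        have h4 : cht J (lidx κ c0 D J l τ (w β) (i β)).1
            ((J.symm v).1, UC.sg (col β) * (J.symm v).2) = v := cht_zpt J _ v
        have h5 : cht J (lidx κ c0 D J l τ (w β) (i β)).1 (u, UC.sg (col β) * t) = J (u, t) := by
          rw [cht_apply]
          congr 1
          have h6 : UC.sg (col β) * UC.sg (col β) = 1 := by cases col β <;> simp [UC.sg]
          have h7 : UC.sg (lidx κ c0 D J l τ (w β) (i β)).1 * (UC.sg (col β) * t) = t := by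
            have : UC.sg (lidx κ c0 D J l τ (w β) (i β)).1 = UC.sg (col β) := rfl
            rw [this, ← mul_assoc, h6, one_mul]
          rw [h7]
        rw [h4, h5]
      have hsum : ∑ a : {a // a ∈ T v}, g a • fderiv ℝ (pv ((D a.1).P (l v a.1))) v = 0 := by
        ext x
        obtain ⟨⟨u, t⟩, rfl⟩ := J.surjective x
        have h1 := hc1 u t
        rw [Finset.sum_congr rfl (fun β hβ => by rw [hterm β hβ u t])] at h1
        rw [ContinuousLinearMap.sum_apply, ContinuousLinearMap.zero_apply, ← h1]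
        symm
        refine Finset.sum_bij' (fun β hβ => (⟨i β, ((hTm β).1 hβ).1⟩ : {a // a ∈ T v}))
          (fun a _ => (⟨lidx κ c0 D J l τ v a.1, hmemT a⟩ : {α // α ∈ IX κ c0 D J V T l τ}))
          ?_ ?_ ?_ ?_ ?_
        · intro β hβ
          exact Finset.mem_univ _
        · intro a _
          exact Finset.mem_filter.2 ⟨Finset.mem_univ _, Finset.mem_image.2 ⟨a.1, a.2, rfl⟩⟩
        · intro β hβ
          exact Subtype.ext ((hTm β).1 hβ).2
        · intro a _
          apply Subtype.ext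
          have h2 := hidx ⟨lidx κ c0 D J l τ v a.1, hmemT a⟩
          exact congrArg (fun x : LIdx N s ι => x.2.1) h2
        · intro β hβ
          have h2 : (⟨lidx κ c0 D J l τ v (i β), hmemT ⟨i β, ((hTm β).1 hβ).1⟩⟩ :
              {α // α ∈ IX κ c0 D J V T l τ}) = β := Subtype.ext ((hTm β).1 hβ).2
          simp only [g, h2, smul_apply, smul_eq_mul]
      have hg := Fintype.linearIndependent_iff.1 (h.reg v hv).indep g hsum
        ⟨i α, ((hTm α).1 hα).1⟩
      have h2 : (⟨lidx κ c0 D J l τ v (i α), hmemT ⟨i α, ((hTm α).1 hα).1⟩⟩ :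
          {α // α ∈ IX κ c0 D J V T l τ}) = α := Subtype.ext ((hTm α).1 hα).2
      apply hne
      have h3 : c ⟨lidx κ c0 D J l τ v (i α), hmemT ⟨i α, ((hTm α).1 hα).1⟩⟩ = 0 := hg
      rwa [h2] at h3
  have hfin := hpb {α // α ∈ IX κ c0 D J V T l τ} pa col (V.image (fun v => J.symm v)) hPV
  rw [hcardV, Fintype.card_coe] at hfin
  refine hfin.trans ?_
  have hcard := card_IX h
  have hp : 0 ≤ (N : ℝ) + ρ := by positivity
  calc C0 * ((IX κ c0 D J V T l τ).card : ℝ) ^ ((N : ℝ) + ρ)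
      ≤ C0 * (C1 * (Fintype.card ι : ℝ)) ^ ((N : ℝ) + ρ) :=
        mul_le_mul_of_nonneg_left (Real.rpow_le_rpow (by positivity) hcard hp) hC0
    _ = C0 * C1 ^ ((N : ℝ) + ρ) * (Fintype.card ι : ℝ) ^ ((N : ℝ) + ρ) := by
        rw [Real.mul_rpow hC1pos (by positivity)]
        ring

end KR
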