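import Pool.Agent.KR.PatchDefs
import Pool.Agent.KR.L_Chart

/-!
# KR, block L: the data of Theorem LC for one vertical direction
-/

open MvPolynomial Metric Filter Topology Pool.Agent.MP_5a1161_co
open UC (E)

namespace KR

/-- The hypotheses of Theorem LC for one vertical direction: the chart J; every vertex v ∈ V has the support T v,
the polynomials l v i and the admissible signs τ v i; all inner normals at the vertices are steep; and one of the
bodies of every vertex is large and below the vertex. -/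
structure LHyp {N s : ℕ} {ι : Type} (b : ℕ) (κ c0 : ℝ) (D : ι → Desc (N + 1) s)
    (J : (E N × ℝ) ≃ₗ[ℝ] Sp (N + 1)) (V : Finset (Sp (N + 1))) (T : Sp (N + 1) → Finset ι)
    (l : Sp (N + 1) → ι → Fin s) (τ : Sp (N + 1) → ι → SignType) (q : ℝ) : Prop where
  hN : 1 ≤ N
  kpos : 0 < κ
  cpos : 0 < c0
  cle : c0 ≤ 1
  round : RoundFam κ b D
  chart : IsChart J
  qpos : 0 < q
  close : ∀ v ∈ V, ∀ w ∈ V, dist v w ≤ q
  reg : ∀ v ∈ V, RegV D (T v) (l v) v
  adm : ∀ v ∈ V, ∀ i ∈ T v, Adm (D i) (l v i) (τ v i) ((D i).sv v)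
  typ : ∀ v ∈ V, ∀ i ∈ T v, Typ (D i) (l v i) ((D i).sv v) v
  steep : ∀ v ∈ V, ∀ i ∈ T v, c0 * ‖fderiv ℝ (pv ((D i).P (l v i))) v‖ ≤
    |fderiv ℝ (pv ((D i).P (l v i))) v (J (0, 1))|
  floor : ∀ v ∈ V, ∃ i ∈ T v, 2 * q ≤ c0 * (κ * diam (D i).set) ∧
    (τ v i : ℝ) * fderiv ℝ (pv ((D i).P (l v i))) v (J (0, 1)) ≤ 0

/-- The side of the grid cubes of a body. -/
noncomputable def asd (N : ℕ) (κ c0 : ℝ) {d s : ℕ} (D : Desc d s) : ℝ :=
  c0 ^ 2 * κ * diam D.set / (32 * N)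

/-- The half height of the boxes of a body. -/
noncomputable def hsd (κ c0 : ℝ) {d s : ℕ} (D : Desc d s) : ℝ := c0 * (κ * diam D.set) / 4

/-- The indices of the patches: colour, body, polynomial, sign, signs of the other polynomials, cube. -/
abbrev LIdx (N s : ℕ) (ι : Type) := Bool × ι × Fin s × SignType × (Fin s → SignType) × (Fin N → ℤ)

open Classical in
/-- The index of the patch of the body i at the vertex v. -/
noncomputable def lidx {N s : ℕ} {ι : Type} (κ c0 : ℝ) (D : ι → Desc (N + 1) s)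
    (J : (E N × ℝ) ≃ₗ[ℝ] Sp (N + 1)) (l : Sp (N + 1) → ι → Fin s) (τ : Sp (N + 1) → ι → SignType)
    (v : Sp (N + 1)) (i : ι) : LIdx N s ι :=
  (decide (0 < (τ v i : ℝ) * fderiv ℝ (pv ((D i).P (l v i))) v (J (0, 1))), i, l v i, τ v i, (D i).sv v,
    cubeOf (asd N κ c0 (D i)) (J.symm v).1)

open Classical in
/-- The set of the indices which occur. -/
noncomputable def IX {N s : ℕ} {ι : Type} (κ c0 : ℝ) (D : ι → Desc (N + 1) s)
    (J : (E N × ℝ) ≃ₗ[ℝ] Sp (N + 1)) (V : Finset (Sp (N + 1))) (T : Sp (N + 1) → Finset ι)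
    (l : Sp (N + 1) → ι → Fin s) (τ : Sp (N + 1) → ι → SignType) : Finset (LIdx N s ι) :=
  V.biUnion fun v => (T v).image (lidx κ c0 D J l τ v)

/-- The corner of the cube of the vertex w for the body i. -/
noncomputable def cnr {N s : ℕ} (κ c0 : ℝ) (D : Desc (N + 1) s) (J : (E N × ℝ) ≃ₗ[ℝ] Sp (N + 1))
    (w : Sp (N + 1)) : Fin N → ℝ := fun k => (cubeOf (asd N κ c0 D) (J.symm w).1 k : ℝ) * asd N κ c0 D

/-- The point of the chart of colour χ with value v. -/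
noncomputable def zpt {N : ℕ} (J : (E N × ℝ) ≃ₗ[ℝ] Sp (N + 1)) (χ : Bool) (v : Sp (N + 1)) : E N × ℝ :=
  ((J.symm v).1, UC.sg χ * (J.symm v).2)

/-- The zone of the body i for the representative w and the colour χ. -/
noncomputable def zn {N s : ℕ} {ι : Type} (κ c0 : ℝ) (D : ι → Desc (N + 1) s)
    (J : (E N × ℝ) ≃ₗ[ℝ] Sp (N + 1)) (l : Sp (N + 1) → ι → Fin s) (τ : Sp (N + 1) → ι → SignType)
    (χ : Bool) (i : ι) (w : Sp (N + 1)) : Set (E N × ℝ) :=
  Zone (cht J χ) (D i) (l w i) (τ w i) ((D i).sv w) c0 (cnr κ c0 (D i) J w) (asd N κ c0 (D i))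
    (UC.sg χ * (J.symm w).2) (hsd κ c0 (D i))

/-- The penalties of the body i for the representative w and the colour χ. -/
noncomputable def pn {N s : ℕ} {ι : Type} (κ c0 : ℝ) (D : ι → Desc (N + 1) s)
    (J : (E N × ℝ) ≃ₗ[ℝ] Sp (N + 1)) (l : Sp (N + 1) → ι → Fin s) (τ : Sp (N + 1) → ι → SignType)
    (θ : ℝ) (χ : Bool) (i : ι) (w : Sp (N + 1)) : PIdx N s → E N × ℝ → ℝ :=
  pp (cht J χ) (D i) (l w i) (τ w i) ((D i).sv w) c0 (cnr κ c0 (D i) J w) (asd N κ c0 (D i))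
    (UC.sg χ * (J.symm w).2) (hsd κ c0 (D i)) θ

/-- The margin θ is small: below all the nonzero values and strict inequalities at the vertices. -/
structure Marg {N s : ℕ} {ι : Type} (κ c0 : ℝ) (D : ι → Desc (N + 1) s)
    (J : (E N × ℝ) ≃ₗ[ℝ] Sp (N + 1)) (V : Finset (Sp (N + 1))) (T : Sp (N + 1) → Finset ι)
    (l : Sp (N + 1) → ι → Fin s) (θ : ℝ) : Prop where
  pos : 0 < θ
  val : ∀ v ∈ V, ∀ i ∈ T v, ∀ l', l' ≠ l v i → θ ≤ |pv ((D i).P l') v|
  der : ∀ v ∈ V, ∀ i ∈ T v, θ ≤ |fderiv ℝ (pv ((D i).P (l v i))) v (J (0, 1))|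
  cub : ∀ v ∈ V, ∀ i ∈ T v, ∀ k, (J.symm v).1 k ≤ cnr κ c0 (D i) J v k + asd N κ c0 (D i) - θ

end KR
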