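import Pool.Agent.UC.DD
import Pool.Agent.UC.PolyND
import Pool.Agent.UC.PolyV

/-!
# KR (MP_5a1161_co): coordinates, tame functions

`pt y h` is the point of R^(N+1) with base point y and height h (last coordinate).
-/

open MvPolynomial Filter Topology

namespace KR

open UC

variable {N : ℕ}

/-- The point (y,h). -/
noncomputable def pt (y : E N) (h : ℝ) : E (N + 1) :=
  WithLp.toLp 2 (Fin.snoc (α := fun _ => ℝ) (fun k => y k) h)

/-- The base point. -/
noncomputable def bs (x : E (N + 1)) : E N := WithLp.toLp 2 (fun k : Fin N => x k.castSucc)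

/-- The height. -/
def ht (x : E (N + 1)) : ℝ := x (Fin.last N)

@[simp] theorem pt_castSucc (y : E N) (h : ℝ) (k : Fin N) : pt y h k.castSucc = y k := by
  simp [pt]

@[simp] theorem pt_last (y : E N) (h : ℝ) : pt y h (Fin.last N) = h := by
  simp [pt]

@[simp] theorem bs_apply (x : E (N + 1)) (k : Fin N) : bs x k = x k.castSucc := rfl

@[simp] theorem ht_pt (y : E N) (h : ℝ) : ht (pt y h) = h := pt_last y h

@[simp] theorem bs_pt (y : E N) (h : ℝ) : bs (pt y h) = y := by
  ext k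
  simp

theorem pt_bs_ht (x : E (N + 1)) : pt (bs x) (ht x) = x := by
  ext k
  refine Fin.lastCases ?_ (fun i => ?_) k
  · simp [ht]
  · simp

/-- The linear map (y,h) ↦ pt y h. -/
noncomputable def ptL (N : ℕ) : (E N × ℝ) →L[ℝ] E (N + 1) :=
  LinearMap.toContinuousLinearMap
    { toFun := fun p => pt p.1 p.2
      map_add' := fun p q => by
        ext k
        refine Fin.lastCases ?_ (fun i => ?_) k <;> simp
      map_smul' := fun r p => by
        ext k
        refine Fin.lastCases ?_ (fun i => ?_) k <;> simp }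

theorem ptL_apply (p : E N × ℝ) : ptL N p = pt p.1 p.2 := rfl

/-- The directional derivative of Q at x in direction w. -/
noncomputable def dv {n : ℕ} (x w : E n) (Q : MvPolynomial (Fin n) ℝ) : ℝ :=
  ddir (fun k => x k) (fun k => w k) Q

theorem dv_eq {n : ℕ} (x w : E n) (Q : MvPolynomial (Fin n) ℝ) :
    dv x w Q = ∑ k, pev (pderiv k Q) x * w k := rfl

theorem dv_fderiv {n : ℕ} (x w : E n) (Q : MvPolynomial (Fin n) ℝ) :
    fderiv ℝ (pev Q) x w = dv x w Q := pev_fderiv Q x w

theorem dv_pt (x : E (N + 1)) (u : E N) (t : ℝ) (Q : MvPolynomial (Fin (N + 1)) ℝ) :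
    dv x (pt u t) Q = ∑ l : Fin N, pev (pderiv l.castSucc Q) x * u l +
      pev (pderiv (Fin.last N) Q) x * t := by
  rw [dv_eq, Fin.sum_univ_castSucc]
  simp

/-- F and G have the same 2-jet at y. -/
def J2 (F G : E N → ℝ) (y : E N) : Prop :=
  F y = G y ∧ fderiv ℝ F y = fderiv ℝ G y ∧
    fderiv ℝ (fun z => fderiv ℝ F z) y = fderiv ℝ (fun z => fderiv ℝ G z) y

/-- F has at y the 2-jet of Ξ(z, η(z)), where η is a C^2 germ with P(z, η(z)) = 0 and the vertical
derivative of P does not vanish. -/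
def HasType (P Ξ : MvPolynomial (Fin (N + 1)) ℝ) (F : E N → ℝ) (y : E N) : Prop :=
  ∃ η : E N → ℝ, ContDiffAt ℝ 2 η y ∧ (∀ᶠ z in 𝓝 y, pev P (pt z (η z)) = 0) ∧
    pev (pderiv (Fin.last N) P) (pt y (η y)) ≠ 0 ∧ J2 F (fun z => pev Ξ (pt z (η z))) y

/-- Tame functions: m types (P_r, Ξ_r) of degree at most D, one of which occurs at every point. -/
def Tame (D m : ℕ) (F : E N → ℝ) : Prop :=
  ∃ P Ξ : Fin m → MvPolynomial (Fin (N + 1)) ℝ,
    (∀ r, (P r).totalDegree ≤ D ∧ (Ξ r).totalDegree ≤ D) ∧ ∀ y, ∃ r, HasType (P r) (Ξ r) F y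

end KR
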