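import Pool.Agent.KR.Tops
import Pool.Agent.KR.Pt
import Pool.Agent.UC3.Ext

/-!
# KR, block L: definitions for Theorem LC

Points of `Sp (N+1)` are described by a linear chart `J : (E N × ℝ) ≃ₗ[ℝ] Sp (N+1)` with
`‖J z‖ ^ 2 = ‖z.1‖ ^ 2 + z.2 ^ 2`; the vertical unit vector is `J (0, 1)`.
-/

open MvPolynomial Metric Filter Topology Pool.Agent.MP_5a1161_co
open UC (E)

namespace KR

/-- The linear chart is isometric for the Euclidean norm of the product. -/
def IsChart {N : ℕ} (J : (E N × ℝ) ≃ₗ[ℝ] Sp (N + 1)) : Prop :=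
  ∀ z : E N × ℝ, ‖J z‖ ^ 2 = ‖z.1‖ ^ 2 + z.2 ^ 2

/-- The vector of the signs of the describing polynomials at a point. -/
noncomputable def Desc.sv {d s : ℕ} (D : Desc d s) (x : Sp d) : Fin s → SignType :=
  fun j => SignType.sign (pv (D.P j) x)

/-- The sign `τ` (which is `1` or `-1`) is admissible for the polynomial `l` and the signs `σ` of the other
polynomials: the described set is `{τ P_l ≥ 0}` near a boundary point with these signs. -/
def Adm {d s : ℕ} (D : Desc d s) (l : Fin s) (τ : SignType) (σ : Fin s → SignType) : Prop :=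
  (τ = 1 ∨ τ = -1) ∧ D.Φ (Function.update σ l τ) ∧ D.Φ (Function.update σ l 0) ∧
    ¬ D.Φ (Function.update σ l (-τ))

/-- `x` is a regular zero of the polynomial `l`, and the other polynomials have the nonzero signs `σ` at `x`. -/
structure Typ {d s : ℕ} (D : Desc d s) (l : Fin s) (σ : Fin s → SignType) (x : Sp d) : Prop where
  zero : pv (D.P l) x = 0
  sign : ∀ l', l' ≠ l → SignType.sign (pv (D.P l') x) = σ l'
  ne : ∀ l', l' ≠ l → σ l' ≠ 0
  grad : fderiv ℝ (pv (D.P l)) x ≠ 0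

/-- The number of the half open grid cube of side `a` which contains `y`. -/
noncomputable def cubeOf {N : ℕ} (a : ℝ) (y : E N) : Fin N → ℤ := fun k => ⌊y k / a⌋

/-- The zone of a piece: the points `z` such that `J z` is a boundary point of type `(l, τ, σ)` with steep inner
normal, in the open box of half height `2 H` around the height `hw` over the cube of side `3 a` around the cube
with corner `β` and side `a`. -/
def Zone {N s : ℕ} (J : (E N × ℝ) ≃ₗ[ℝ] Sp (N + 1)) (D : Desc (N + 1) s) (l : Fin s) (τ : SignType)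
    (σ : Fin s → SignType) (c0 : ℝ) (β : Fin N → ℝ) (a hw H : ℝ) : Set (E N × ℝ) :=
  {z | pv (D.P l) (J z) = 0 ∧ (∀ l', l' ≠ l → SignType.sign (pv (D.P l') (J z)) = σ l') ∧
    c0 / 2 * ‖fderiv ℝ (pv (D.P l)) (J z)‖ < (τ : ℝ) * fderiv ℝ (pv (D.P l)) (J z) (J (0, 1)) ∧
    (∀ k, β k - a < z.1 k ∧ z.1 k < β k + 2 * a) ∧ |z.2 - hw| < 2 * H}

/-- The index set of the penalty functions. -/
abbrev PIdx (N s : ℕ) := (Fin s ⊕ Bool) ⊕ ((Fin N × Bool) ⊕ Bool)

open Classical in
/-- The penalty functions of a piece. -/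
noncomputable def pp {N s : ℕ} (J : (E N × ℝ) ≃ₗ[ℝ] Sp (N + 1)) (D : Desc (N + 1) s) (l : Fin s) (τ : SignType)
    (σ : Fin s → SignType) (c0 : ℝ) (β : Fin N → ℝ) (a hw H θ : ℝ) : PIdx N s → E N × ℝ → ℝ
  | .inl (.inl l') => fun z => if l' = l then 1 else (σ l' : ℝ) * pv (D.P l') (J z) - θ
  | .inl (.inr true) => fun z => (τ : ℝ) * fderiv ℝ (pv (D.P l)) (J z) (J (0, 1)) - θ
  | .inl (.inr false) => fun z => (fderiv ℝ (pv (D.P l)) (J z) (J (0, 1))) ^ 2
      - c0 ^ 2 * ‖fderiv ℝ (pv (D.P l)) (J z)‖ ^ 2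
  | .inr (.inl (k, true)) => fun z => z.1 k - β k
  | .inr (.inl (k, false)) => fun z => β k + a - θ - z.1 k
  | .inr (.inr true) => fun z => z.2 - hw + H
  | .inr (.inr false) => fun z => hw + H - z.2

end KR
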