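import Pool.Agent.KR.L_Defs
import Pool.Agent.Lib.MP_5a1161_co_h27.Dirs

open MvPolynomial Metric Filter Topology Pool.Agent.MP_5a1161_co
open UC (E)

namespace KR

/-- Directions: a finite set of unit vectors, with -u for every u, such that for any N + 1 unit vectors one
direction is transversal to all of them, with a uniform constant.
Proof: `Pool.Agent.MP_5a1161_co.dirs N hN` gives W, c₀, Λ with ‖w‖ ≤ Λ (w 0 = 1, so w ≠ 0), and for ν : Fin (N+1) →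
Sp (N+1) unit vectors some ω a ∈ W (take a = 0) with c₀ ≤ |⟪ν k, ω a⟫| for all k.  Take
W' = the image of W under w ↦ ‖w‖⁻¹ w together with the negatives, c0 = min 1 (c₀ / Λ):
|⟪ν k, ‖w‖⁻¹ w⟫| ≥ c₀/‖w‖ ≥ c₀/Λ.  For the finset T of N + 1 elements use T.equivFinOfCardEq. -/
theorem unit_dirs (N : ℕ) (hN : 1 ≤ N) : ∃ (W : Finset (Sp (N + 1))) (c0 : ℝ), 0 < c0 ∧ c0 ≤ 1 ∧
    (∀ u ∈ W, ‖u‖ = 1) ∧ (∀ u ∈ W, -u ∈ W) ∧
    ∀ (ι : Type) (T : Finset ι) (ν : ι → Sp (N + 1)), T.card = N + 1 → (∀ i ∈ T, ‖ν i‖ = 1) →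
      ∃ u ∈ W, ∀ i ∈ T, c0 ≤ |inner ℝ (ν i) u| := by
  classical
  obtain ⟨W, c₀, c₁, Λ, hc₀, -, hΛ, hW1, hWΛ, hdir, -⟩ := dirs N hN
  have hpos : ∀ w ∈ W, 0 < ‖w‖ := by
    intro w hw
    rw [norm_pos_iff]
    rintro rfl
    have := hW1 _ hw
    simp at this
  refine ⟨W.image (fun w => ‖w‖⁻¹ • w) ∪ W.image (fun w => -(‖w‖⁻¹ • w)), min 1 (c₀ / Λ),
    lt_min one_pos (div_pos hc₀ hΛ), min_le_left _ _, ?_, ?_, ?_⟩
  · intro u hu
    rcases Finset.mem_union.1 hu with h | h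
    · obtain ⟨w, hw, rfl⟩ := Finset.mem_image.1 h
      rw [norm_smul, norm_inv, norm_norm, inv_mul_cancel₀ (hpos w hw).ne']
    · obtain ⟨w, hw, rfl⟩ := Finset.mem_image.1 h
      rw [norm_neg, norm_smul, norm_inv, norm_norm, inv_mul_cancel₀ (hpos w hw).ne']
  · intro u hu
    rcases Finset.mem_union.1 hu with h | h
    · obtain ⟨w, hw, rfl⟩ := Finset.mem_image.1 h
      exact Finset.mem_union_right _ (Finset.mem_image.2 ⟨w, hw, rfl⟩)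
    · obtain ⟨w, hw, rfl⟩ := Finset.mem_image.1 h
      rw [neg_neg]
      exact Finset.mem_union_left _ (Finset.mem_image.2 ⟨w, hw, rfl⟩)
  · intro ι T ν hT hν
    let e := T.equivFinOfCardEq hT
    obtain ⟨ω, -, hω, hωc⟩ := hdir (fun k => ν (e.symm k).1)
      (fun k => hν _ (e.symm k).2)
    refine ⟨‖ω 0‖⁻¹ • ω 0, Finset.mem_union_left _ (Finset.mem_image.2 ⟨_, hω 0, rfl⟩), ?_⟩
    intro i hi
    have h1 := hωc 0 (e ⟨i, hi⟩)
    simp only [Equiv.symm_apply_apply] at h1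
    have h2 := hpos _ (hω 0)
    rw [real_inner_smul_right, abs_mul, abs_inv, abs_norm]
    refine (min_le_right _ _).trans ?_
    rw [div_eq_inv_mul]
    exact mul_le_mul (inv_anti₀ h2 (hWΛ _ (hω 0))) h1 hc₀.le (inv_nonneg.2 h2.le)

/-- The same for functionals: for N + 1 nonzero functionals L i there is u in W with c0 ‖L i‖ ≤ |L i u|.
Proof: ν i = ‖L i‖⁻¹ • (InnerProductSpace.toDual ℝ _).symm (L i); ⟪(toDual).symm L, u⟫ = L u
(InnerProductSpace.toDual_symm_apply), the norm is preserved. -/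
theorem dirs_dual (N : ℕ) (hN : 1 ≤ N) : ∃ (W : Finset (Sp (N + 1))) (c0 : ℝ), 0 < c0 ∧ c0 ≤ 1 ∧
    (∀ u ∈ W, ‖u‖ = 1) ∧ (∀ u ∈ W, -u ∈ W) ∧
    ∀ (ι : Type) (T : Finset ι) (L : ι → (Sp (N + 1) →L[ℝ] ℝ)), T.card = N + 1 → (∀ i ∈ T, L i ≠ 0) →
      ∃ u ∈ W, ∀ i ∈ T, c0 * ‖L i‖ ≤ |L i u| := by
  obtain ⟨W, c0, hc0, hc1, hu, hneg, hdir⟩ := unit_dirs N hN
  refine ⟨W, c0, hc0, hc1, hu, hneg, ?_⟩
  intro ι T L hT hL
  have hLn : ∀ i ∈ T, 0 < ‖L i‖ := fun i hi => norm_pos_iff.2 (hL i hi)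
  obtain ⟨u, huW, hui⟩ := hdir ι T
    (fun i => ‖L i‖⁻¹ • (InnerProductSpace.toDual ℝ (Sp (N + 1))).symm (L i)) hT
    (fun i hi => by
      rw [norm_smul, norm_inv, norm_norm, LinearIsometryEquiv.norm_map,
        inv_mul_cancel₀ (hLn i hi).ne'])
  refine ⟨u, huW, fun i hi => ?_⟩
  have h1 := hui i hi
  rw [real_inner_smul_left, InnerProductSpace.toDual_symm_apply, abs_mul, abs_inv, abs_norm,
    ← div_eq_inv_mul, le_div_iff₀ (hLn i hi)] at h1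
  exact h1

end KR
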