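import Pool.Agent.KR.L_Chart

open MvPolynomial Metric Filter Topology Pool.Agent.MP_5a1161_co
open UC (E)

namespace KR

/-- (2.1) The Lipschitz sheet, one direction.  The ball `closedBall z r ⊆ c` contains `J w`, the vector z - J w
points steeply down, and J v (at distance ≤ q, which is small against r) is not an interior point of c.
Proof.  If w.2 ≤ v.2 the left side is ≤ 0 and the right side ≥ 0.  Let h = w.2 - v.2 > 0, a = ‖v.1 - w.1‖.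
‖J v - z‖ ≥ r (otherwise J v is in the open ball, so in the interior of c) and ‖J w - z‖ ≤ r.  With n = z - J w:
r² ≤ ‖J v - z‖² = ‖J v - J w‖² - 2 ⟪J v - J w, n⟫ + ‖n‖², ‖n‖ ≤ r, so 2 ⟪J v - J w, n⟫ ≤ ‖J v - J w‖² ≤
q ‖J v - J w‖ ≤ q (a + h)  (‖J v - J w‖² = a² + h² ≤ (a + h)²).
J v - J w = J (v.1 - w.1, 0) - h J (0,1), so ⟪J v - J w, n⟫ = ⟪J (v.1 - w.1, 0), n⟫ - h ⟪J (0,1), n⟫ ≥
- a r + h c0 r   (‖J (v.1 - w.1, 0)‖ = a by IsChart, ‖n‖ ≤ r, Cauchy-Schwarz).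
So 2 (h c0 r - a r) ≤ q (a + h) ≤ (c0 r / 2) (a + h), and with c0 ≤ 1, r > 0: h (2 c0 - c0/2) ≤ a (2 + c0/2),
h ≤ a (5/2) / (3 c0/2) ≤ 4/c0 a. -/
theorem sheet {N : ℕ} {J : (E N × ℝ) ≃ₗ[ℝ] Sp (N + 1)} (hJ : IsChart J) (c : Set (Sp (N + 1)))
    (v w : E N × ℝ) (z : Sp (N + 1)) (r q c0 : ℝ) (hc0 : 0 < c0) (hc1 : c0 ≤ 1) (hr : 0 < r)
    (hq : 2 * q ≤ c0 * r) (hz : closedBall z r ⊆ c) (hw : J w ∈ closedBall z r)
    (hdown : inner ℝ (z - J w) (J (0, 1)) ≤ - c0 * r) (hv : J v ∉ interior c)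
    (hd : dist (J v) (J w) ≤ q) : w.2 - v.2 ≤ 4 / c0 * ‖v.1 - w.1‖ := by
  have ha : 0 ≤ ‖v.1 - w.1‖ := norm_nonneg _
  have hrhs : 0 ≤ 4 / c0 * ‖v.1 - w.1‖ := by positivity
  rcases le_or_gt (w.2 - v.2) 0 with hh | hh
  · exact hh.trans hrhs
  obtain ⟨h, eh⟩ : ∃ h, h = w.2 - v.2 := ⟨_, rfl⟩
  obtain ⟨a, ea⟩ : ∃ a, a = ‖v.1 - w.1‖ := ⟨_, rfl⟩
  obtain ⟨n, en⟩ : ∃ n, n = z - J w := ⟨_, rfl⟩
  obtain ⟨y, ey⟩ : ∃ y, y = J v - J w := ⟨_, rfl⟩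
  rw [← eh] at hh ⊢
  rw [← ea] at ha hrhs ⊢
  rw [← en] at hdown
  have hn : ‖n‖ ≤ r := by
    rw [en, norm_sub_rev, ← dist_eq_norm]
    exact mem_closedBall.1 hw
  have hvz : r ≤ ‖J v - z‖ := by
    by_contra hcon
    push Not at hcon
    apply hv
    have h1 : J v ∈ ball z r := by rw [mem_ball, dist_eq_norm]; exact hcon
    exact interior_mono hz (interior_maximal ball_subset_closedBall isOpen_ball h1)
  have hyn : J v - z = y - n := by rw [ey, en]; abel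
  have hexp : ‖y - n‖ ^ 2 = ‖y‖ ^ 2 - 2 * inner ℝ y n + ‖n‖ ^ 2 := norm_sub_sq_real y n
  have h1 : r ^ 2 ≤ ‖y - n‖ ^ 2 := by
    rw [← hyn]
    exact pow_le_pow_left₀ hr.le hvz 2
  have h2 : ‖n‖ ^ 2 ≤ r ^ 2 := pow_le_pow_left₀ (norm_nonneg _) hn 2
  have hy2 : ‖y‖ ^ 2 = a ^ 2 + h ^ 2 := by
    rw [ey, ← map_sub, hJ (v - w), ea, eh, Prod.fst_sub, Prod.snd_sub]
    ring
  have hya : ‖y‖ ≤ a + h := by
    have h3 : ‖y‖ ^ 2 ≤ (a + h) ^ 2 := by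
      rw [hy2]
      nlinarith [mul_nonneg ha hh.le]
    exact le_of_sq_le_sq h3 (by linarith)
  have hyq : ‖y‖ ≤ q := by
    rw [ey, ← dist_eq_norm]
    exact hd
  have hq0 : 0 ≤ q := (norm_nonneg y).trans hyq
  have h3 : ‖y‖ ^ 2 ≤ q * (a + h) := by
    rw [sq]
    exact mul_le_mul hyq hya (norm_nonneg _) hq0
  -- decomposition of the difference
  have hdec : y = J (v.1 - w.1, 0) - h • J (0, 1) := by
    rw [ey, ← map_sub, ← map_smul, ← map_sub]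
    congr 1
    ext
    · simp
    · simp [eh]
  have hJn : ‖J (v.1 - w.1, 0)‖ = a := by
    have h4 := hJ (v.1 - w.1, 0)
    have h5 : ‖J (v.1 - w.1, 0)‖ ^ 2 = a ^ 2 := by
      rw [h4, ea]
      simp
    exact (sq_eq_sq₀ (norm_nonneg _) ha).1 h5
  have hcs : - (a * r) ≤ inner ℝ (J (v.1 - w.1, 0)) n := by
    have h4 := abs_real_inner_le_norm (J (v.1 - w.1, 0)) n
    rw [hJn] at h4
    have h5 := mul_le_mul_of_nonneg_left hn ha
    have h6 := (abs_le.1 (h4.trans h5)).1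
    exact h6
  have hin : inner ℝ y n = inner ℝ (J (v.1 - w.1, 0)) n - h * inner ℝ n (J (0, 1)) := by
    rw [hdec, inner_sub_left, real_inner_smul_left, real_inner_comm n (J (0, 1))]
  have h7 : h * inner ℝ n (J (0, 1)) ≤ h * (- c0 * r) := mul_le_mul_of_nonneg_left hdown hh.le
  have h8 : q * (a + h) ≤ c0 * r / 2 * (a + h) :=
    mul_le_mul_of_nonneg_right (by linarith) (by linarith)
  have h9 : r * (2 * (h * c0) - 2 * a) ≤ r * (c0 / 2 * (a + h)) := by nlinarith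
  have h10 : 2 * (h * c0) - 2 * a ≤ c0 / 2 * (a + h) := le_of_mul_le_mul_left h9 hr
  have h11 : c0 * a ≤ a := by nlinarith
  rw [div_mul_eq_mul_div, le_div_iff₀ hc0]
  nlinarith

end KR
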