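import Pool.Agent.KR.L_Data
import Pool.Agent.KR.L_Sheet
import Pool.Agent.KR.L_Ball
import Pool.Agent.KR.L_Reg

open MvPolynomial Metric Filter Topology Pool.Agent.MP_5a1161_co
open UC (E)

namespace KR

private theorem l_lip_one {N s : ℕ} {ι : Type} {b : ℕ} {κ c0 : ℝ} {D : ι → Desc (N + 1) s}
    {J : (E N × ℝ) ≃ₗ[ℝ] Sp (N + 1)} {V : Finset (Sp (N + 1))} {T : Sp (N + 1) → Finset ι}
    {l : Sp (N + 1) → ι → Fin s} {τ : Sp (N + 1) → ι → SignType} {q : ℝ}
    (h : LHyp b κ c0 D J V T l τ q) (v w : Sp (N + 1)) (hv : v ∈ V) (hw : w ∈ V) :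
    (J.symm w).2 - (J.symm v).2 ≤ 4 / c0 * ‖(J.symm v).1 - (J.symm w).1‖ := by
  obtain ⟨i, hi, hq, hdn⟩ := h.floor w hw
  have hround : IsRound κ (D i).set := (h.round i).1
  have hr : 0 < κ * diam (D i).set := mul_pos h.kpos (round_diam_pos hround)
  obtain ⟨z, hz1, hz2⟩ := hround.round w ((h.reg w hw).front i hi)
  have ha := h.adm w hw i hi
  have ht := h.typ w hw i hi
  have hb := typ_ball (D i) (l w i) (τ w i) ((D i).sv w) w ha ht z _ hr hz2 hz1 (J (0, 1))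
  have hpos : 0 < ‖fderiv ℝ (pv ((D i).P (l w i))) w‖ := norm_pos_iff.mpr ht.grad
  have hst := h.steep w hw i hi
  have habs : |(τ w i : ℝ) * fderiv ℝ (pv ((D i).P (l w i))) w (J (0, 1))| =
      |fderiv ℝ (pv ((D i).P (l w i))) w (J (0, 1))| := by
    rw [abs_mul]
    rcases ha.1 with h1 | h1
    · rw [h1]
      simp
    · rw [h1]
      simp
  rw [← habs, abs_of_nonpos hdn] at hst
  have h1 : (τ w i : ℝ) * fderiv ℝ (pv ((D i).P (l w i))) w (J (0, 1)) /
      ‖fderiv ℝ (pv ((D i).P (l w i))) w‖ ≤ -c0 := by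
    rw [div_le_iff₀ hpos]
    linarith
  have h2 : inner ℝ (z - w) (J (0, 1)) ≤ -c0 * (κ * diam (D i).set) := by
    rw [hb]
    have h3 := mul_le_mul_of_nonneg_left h1 hr.le
    linarith
  have h4 := sheet h.chart (D i).set (J.symm v) (J.symm w) z (κ * diam (D i).set) q c0 h.cpos h.cle
    hr hq hz2 (by rw [J.apply_symm_apply]; exact hz1) (by rw [J.apply_symm_apply]; exact h2)
    (by rw [J.apply_symm_apply]; exact reg_not_interior (h.reg v hv) i)
    (by rw [J.apply_symm_apply, J.apply_symm_apply]; exact h.close v hv w hw)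
  exact h4

/-- (2.1) The vertices are on a Lipschitz sheet.
Proof: by symmetry (v, w) it suffices to bound (J.symm w).2 - (J.symm v).2 (abs_le).  Let i be the floor body of w
(LHyp.floor), r = κ diam > 0 (round_diam_pos).  w is on the frontier (RegV.front), so there is z with
w ∈ closedBall z r ⊆ (D i).set (IsRound.round).  typ_ball with u = J (0,1): ⟪z - w, u⟫ = r (τ DP u / ‖DP‖), and
τ DP u ≤ 0 (floor) with |τ DP u| = |DP u| ≥ c0 ‖DP‖ (steep; τ = ±1 by Adm), so τ DP u ≤ -c0 ‖DP‖ and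
⟪z - w, u⟫ ≤ - c0 r.  v is not interior (reg_not_interior).  Apply `sheet` to J.symm v, J.symm w
(J (J.symm v) = v). -/
theorem lip {N s : ℕ} {ι : Type} {b : ℕ} {κ c0 : ℝ} {D : ι → Desc (N + 1) s}
    {J : (E N × ℝ) ≃ₗ[ℝ] Sp (N + 1)} {V : Finset (Sp (N + 1))} {T : Sp (N + 1) → Finset ι}
    {l : Sp (N + 1) → ι → Fin s} {τ : Sp (N + 1) → ι → SignType} {q : ℝ}
    (h : LHyp b κ c0 D J V T l τ q) (v w : Sp (N + 1)) (hv : v ∈ V) (hw : w ∈ V) :
    |(J.symm w).2 - (J.symm v).2| ≤ 4 / c0 * ‖(J.symm v).1 - (J.symm w).1‖ := by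
  rw [abs_le]
  constructor
  · have h1 := l_lip_one h w v hw hv
    rw [norm_sub_rev] at h1
    linarith
  · exact l_lip_one h v w hv hw

end KR
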