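import Pool.Agent.KR.L_Defs

open MvPolynomial Metric Filter Topology Pool.Agent.MP_5a1161_co
open UC (E)

namespace KR

/-- Polynomial functions are smooth.
Proof: `pv Q` is `UC.pev Q` (definitionally, `rfl` or unfold); in Pool/Agent/UC/DD.lean there is
its smoothness
(`pev_contDiff` or similar); or `MvPolynomial.induction_on` with ContDiff.add, ContDiff.mul and the
coordinates `x ↦ x i`. -/
theorem pv_contDiff {d : ℕ} (Q : MvPolynomial (Fin d) ℝ) (n : WithTop ℕ∞) :
    ContDiff ℝ n (pv Q) := by
  induction Q using MvPolynomial.induction_on with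
  | C a =>
    have h : pv (C a : MvPolynomial (Fin d) ℝ) = fun _ => a := by
      funext x
      simp [pv]
    rw [h]
    exact contDiff_const
  | add p q hp hq =>
    have h : pv (p + q) = fun x => pv p x + pv q x := by
      funext x
      simp [pv]
    rw [h]
    exact hp.add hq
  | mul_X p i hp =>
    have h : pv (p * X i) = fun x => pv p x * x i := by
      funext x
      simp [pv]
    rw [h]
    exact hp.mul (EuclideanSpace.proj i : Sp d →L[ℝ] ℝ).contDiff

/-- (0.1) Near a regular zero of admissible type the set is `{τ P_l ≥ 0}`.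
Proof: near x the signs of P_l' (l' ≠ l) are σ l' (they are nonzero and P_l' is continuous; Fin s
is finite,
`Filter.eventually_all`).  For such z the vector of signs of D at z is
`Function.update σ l (sign (P_l z))`.
Now τ = 1 or -1 and sign (P_l z) is 1, 0 or -1: by `Adm` the set contains z exactly if the sign is
τ or 0, that
is 0 ≤ τ P_l z.  (The value σ l is irrelevant since it is overwritten by the update.) -/
theorem typ_local {d s : ℕ} (D : Desc d s) (l : Fin s) (τ : SignType) (σ : Fin s → SignType)
    (x : Sp d)
    (ha : Adm D l τ σ) (ht : Typ D l σ x) :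
    ∀ᶠ z in 𝓝 x, (z ∈ D.set ↔ 0 ≤ (τ : ℝ) * pv (D.P l) z) := by
  have hcont : ∀ l', Continuous (pv (D.P l')) := fun l' => (pv_contDiff (D.P l') 0).continuous
  have hsig : ∀ᶠ z in 𝓝 x, ∀ l', l' ≠ l → SignType.sign (pv (D.P l') z) = σ l' := by
    rw [Filter.eventually_all]
    intro l'
    by_cases hl : l' = l
    · exact Filter.Eventually.of_forall fun z h => absurd hl h
    · have h1 := ht.sign l' hl
      have h2 := ht.ne l' hl
      rcases lt_trichotomy (pv (D.P l') x) 0 with h3 | h3 | h3
      · filter_upwards [(hcont l').continuousAt.eventually_lt_const h3] with z hz _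
        rw [sign_neg hz, ← h1, sign_neg h3]
      · exfalso
        apply h2
        rw [← h1, h3, sign_zero]
      · filter_upwards [(hcont l').continuousAt.eventually_const_lt h3] with z hz _
        rw [sign_pos hz, ← h1, sign_pos h3]
  filter_upwards [hsig] with z hz
  have hup : (fun j => SignType.sign (pv (D.P j) z)) =
      Function.update σ l (SignType.sign (pv (D.P l) z)) := by
    funext j
    by_cases hj : j = l
    · rw [hj, Function.update_self]
    · rw [Function.update_of_ne hj]
      exact hz j hj
  have hmem : z ∈ D.set ↔ D.Φ (Function.update σ l (SignType.sign (pv (D.P l) z))) := by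
    rw [← hup]
    rfl
  obtain ⟨hτ, g1, g2, g3⟩ := ha
  rw [hmem]
  rcases hτ with rfl | rfl
  · rw [SignType.coe_one, one_mul]
    rcases lt_trichotomy (pv (D.P l) z) 0 with h3 | h3 | h3
    · rw [sign_neg h3]
      exact ⟨fun h => absurd h g3, fun h => absurd h (not_le.2 h3)⟩
    · rw [h3, sign_zero]
      exact ⟨fun _ => le_rfl, fun _ => g2⟩
    · rw [sign_pos h3]
      exact ⟨fun _ => h3.le, fun _ => g1⟩
  · rw [SignType.coe_neg_one, neg_one_mul, neg_neg] at *
    rcases lt_trichotomy (pv (D.P l) z) 0 with h3 | h3 | h3
    · rw [sign_neg h3]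
      exact ⟨fun _ => by linarith, fun _ => g1⟩
    · rw [h3, sign_zero]
      exact ⟨fun _ => by simp, fun _ => g2⟩
    · rw [sign_pos h3]
      exact ⟨fun h => absurd h g3, fun h => absurd h (by linarith)⟩

/-- (0.1) Such a point is on the frontier.
Proof: x ∈ D.set by typ_local at x (P_l x = 0, `Filter.Eventually.self_of_nhds`).  It is not an
interior point:
there is w with DP_l(x) w ≠ 0, and replacing w by -w, τ DP_l(x) w < 0; the function t ↦ τ P_l(x + t
w) has
negative derivative and value 0 at t = 0, so it is negative for small t > 0; these points tend to x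
and are not in
D.set by typ_local.  (frontier = closure \ interior; `mem_frontier_iff_...`, or show
`∃ᶠ z in 𝓝 x, z ∉ D.set`.) -/
theorem typ_frontier {d s : ℕ} (D : Desc d s) (l : Fin s) (τ : SignType) (σ : Fin s → SignType)
    (x : Sp d)
    (ha : Adm D l τ σ) (ht : Typ D l σ x) : x ∈ frontier D.set := by
  have hloc := typ_local D l τ σ x ha ht
  have hx : x ∈ D.set := by
    rw [hloc.self_of_nhds, ht.zero, mul_zero]
  refine ⟨subset_closure hx, fun hint => ?_⟩
  have hev : ∀ᶠ z in 𝓝 x, z ∈ D.set := by
    filter_upwards [isOpen_interior.mem_nhds hint] with z hz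
    exact interior_subset hz
  have hmin : IsLocalMin (fun z => (τ : ℝ) * pv (D.P l) z) x := by
    filter_upwards [hev, hloc] with z h1 h2
    rw [ht.zero, mul_zero]
    exact h2.1 h1
  have hdiff : DifferentiableAt ℝ (pv (D.P l)) x :=
    (pv_contDiff (D.P l) 1).differentiable one_ne_zero x
  have h3 := hmin.fderiv_eq_zero
  rw [fderiv_const_mul hdiff] at h3
  rcases smul_eq_zero.1 h3 with h4 | h4
  · rcases ha.1 with rfl | rfl
    · rw [SignType.coe_one] at h4
      exact one_ne_zero h4
    · rw [SignType.coe_neg_one] at h4
      norm_num at h4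
  · exact ht.grad h4

end KR
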