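import Pool.Agent.KR.L_Core
import Pool.Agent.KR.L_Dir

open MvPolynomial Metric Filter Topology Pool.Agent.MP_5a1161_co
open UC (E)

namespace KR

/-- Theorem LC (block L). -/
theorem lc (N s b : ℕ) (hN : 1 ≤ N) (κ ρ : ℝ) (hκ : 0 < κ) (hρ : 0 < ρ) : LCStatement N s b κ ρ := by
  classical
  obtain ⟨W, c0, hc0, hc1, hW1, hWn, hW⟩ := dirs_dual N hN
  obtain ⟨C, hC, hcore⟩ := lc_core N s b κ c0 ρ hκ hc0 hρ
  refine ⟨2 / (κ * c0), W.card * C + 1, by positivity, by positivity, ?_⟩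
  intro ι _ _ D hD V q hq hclose hV
  have hp : 0 ≤ (N : ℝ) + ρ := by positivity
  have hnp : 0 ≤ (Fintype.card ι : ℝ) ^ ((N : ℝ) + ρ) := by positivity
  rcases V.eq_empty_or_nonempty with rfl | ⟨v0, hv0⟩
  · simp only [Finset.card_empty, Nat.cast_zero]
    positivity
  obtain ⟨T0, l0, -, i0, -, -⟩ := hV v0 hv0
  haveI : Nonempty (ι → Fin s) := ⟨l0⟩
  haveI : Nonempty ι := ⟨i0⟩
  choose! T l hreg i1 hi1 hbig using hV
  have hty : ∀ v ∈ V, ∀ i ∈ T v, (∃ τ, Adm (D i) (l v i) τ ((D i).sv v)) ∧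
      Typ (D i) (l v i) ((D i).sv v) v := fun v hv i hi =>
    reg_typ hκ (hreg v hv) i hi (hD i).1
  let τ : Sp (N + 1) → ι → SignType := fun v i =>
    if h : ∃ τ, Adm (D i) (l v i) τ ((D i).sv v) then h.choose else 0
  have hτ : ∀ v ∈ V, ∀ i ∈ T v, Adm (D i) (l v i) (τ v i) ((D i).sv v) := by
    intro v hv i hi
    have h := (hty v hv i hi).1
    have h1 : τ v i = h.choose := dif_pos h
    rw [h1]
    exact h.choose_spec
  let VV : Sp (N + 1) → Finset (Sp (N + 1)) := fun u => V.filter (fun v =>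
    (∀ i ∈ T v, c0 * ‖fderiv ℝ (pv ((D i).P (l v i))) v‖ ≤ |fderiv ℝ (pv ((D i).P (l v i))) v u|) ∧
    (τ v (i1 v) : ℝ) * fderiv ℝ (pv ((D (i1 v)).P (l v (i1 v)))) v u ≤ 0)
  have hcover : V ⊆ W.biUnion VV := by
    intro v hv
    obtain ⟨u, hu, hu1⟩ := hW ι (T v) (fun i => fderiv ℝ (pv ((D i).P (l v i))) v)
      (hreg v hv).card (fun i hi => (hty v hv i hi).2.grad)
    rcases le_total ((τ v (i1 v) : ℝ) * fderiv ℝ (pv ((D (i1 v)).P (l v (i1 v)))) v u) 0 with h1 | h1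
    · exact Finset.mem_biUnion.2 ⟨u, hu, Finset.mem_filter.2 ⟨hv, hu1, h1⟩⟩
    · refine Finset.mem_biUnion.2 ⟨-u, hWn u hu, Finset.mem_filter.2 ⟨hv, fun i hi => ?_, ?_⟩⟩
      · rw [map_neg, abs_neg]
        exact hu1 i hi
      · rw [map_neg, mul_neg]
        linarith
  have hone : ∀ u ∈ W, ((VV u).card : ℝ) ≤ C * (Fintype.card ι : ℝ) ^ ((N : ℝ) + ρ) := by
    intro u hu
    obtain ⟨J, hJ, hJu⟩ := exists_chart N u (hW1 u hu)
    refine hcore ι D J (VV u) T l τ q ?_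
    have hsub : ∀ v ∈ VV u, v ∈ V := fun v hv => (Finset.mem_filter.1 hv).1
    refine ⟨hN, hκ, hc0, hc1, hD, hJ, hq, fun v hv w hw => hclose v (hsub v hv) w (hsub w hw),
      fun v hv => hreg v (hsub v hv), fun v hv => hτ v (hsub v hv),
      fun v hv i hi => (hty v (hsub v hv) i hi).2, ?_, ?_⟩
    · intro v hv i hi
      rw [hJu]
      exact (Finset.mem_filter.1 hv).2.1 i hi
    · intro v hv
      refine ⟨i1 v, hi1 v (hsub v hv), ?_, ?_⟩
      · have h1 := hbig v (hsub v hv)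
        rw [div_mul_eq_mul_div, div_le_iff₀ (by positivity)] at h1
        linarith
      · rw [hJu]
        exact (Finset.mem_filter.1 hv).2.2
  have h1 : (V.card : ℝ) ≤ ∑ u ∈ W, ((VV u).card : ℝ) := by
    exact_mod_cast (Finset.card_le_card hcover).trans Finset.card_biUnion_le
  have h2 : ∑ u ∈ W, ((VV u).card : ℝ) ≤ W.card * (C * (Fintype.card ι : ℝ) ^ ((N : ℝ) + ρ)) := by
    have := Finset.sum_le_sum hone
    rwa [Finset.sum_const, nsmul_eq_mul] at this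
  calc (V.card : ℝ) ≤ W.card * (C * (Fintype.card ι : ℝ) ^ ((N : ℝ) + ρ)) := h1.trans h2
    _ ≤ (W.card * C + 1) * (Fintype.card ι : ℝ) ^ ((N : ℝ) + ρ) := by nlinarith

end KR
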