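import Pool.Agent.KR.L_Data
import Pool.Agent.KR.L_Zone
import Pool.Agent.KR.L_Reg

open MvPolynomial Metric Filter Topology Pool.Agent.MP_5a1161_co
open UC (E)

namespace KR

/-- The function is a polynomial of degree at most d in the coordinates. -/
def l_patch_P {N : ℕ} (d : ℕ) (f : E N × ℝ → ℝ) : Prop :=
  ∃ Q : MvPolynomial (Fin (N + 1)) ℝ, Q.totalDegree ≤ d ∧ ∀ z, pP Q z = f z

theorem l_patch_mono {N d d' : ℕ} {f : E N × ℝ → ℝ} (h : l_patch_P d f) (hd : d ≤ d') :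
    l_patch_P d' f := by
  obtain ⟨Q, h1, h2⟩ := h
  exact ⟨Q, h1.trans hd, h2⟩

theorem l_patch_const {N : ℕ} (d : ℕ) (c : ℝ) : l_patch_P d (fun _ : E N × ℝ => c) := by
  refine ⟨C c, ?_, fun z => ?_⟩
  · rw [totalDegree_C]
    exact Nat.zero_le _
  · simp [pP, UC.pev]

theorem l_patch_add {N d : ℕ} {f g : E N × ℝ → ℝ} (hf : l_patch_P d f) (hg : l_patch_P d g) :
    l_patch_P d (fun z => f z + g z) := by
  obtain ⟨P, h1, h2⟩ := hf
  obtain ⟨Q, h3, h4⟩ := hg
  refine ⟨P + Q, (totalDegree_add P Q).trans (max_le h1 h3), fun z => ?_⟩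
  change pP (P + Q) z = f z + g z
  rw [← h2, ← h4]
  simp [pP, UC.pev]

theorem l_patch_mul {N d e : ℕ} {f g : E N × ℝ → ℝ} (hf : l_patch_P d f) (hg : l_patch_P e g) :
    l_patch_P (d + e) (fun z => f z * g z) := by
  obtain ⟨P, h1, h2⟩ := hf
  obtain ⟨Q, h3, h4⟩ := hg
  refine ⟨P * Q, (totalDegree_mul P Q).trans (add_le_add h1 h3), fun z => ?_⟩
  change pP (P * Q) z = f z * g z
  rw [← h2, ← h4]
  simp [pP, UC.pev]

theorem l_patch_cmul {N d : ℕ} {f : E N × ℝ → ℝ} (c : ℝ) (hf : l_patch_P d f) :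
    l_patch_P d (fun z => c * f z) := by
  have h := l_patch_mul (l_patch_const (N := N) 0 c) hf
  rwa [zero_add] at h

theorem l_patch_sub {N d : ℕ} {f g : E N × ℝ → ℝ} (hf : l_patch_P d f) (hg : l_patch_P d g) :
    l_patch_P d (fun z => f z - g z) := by
  have h := l_patch_add hf (l_patch_cmul (-1) hg)
  have h1 : (fun z => f z - g z) = fun z => f z + -1 * g z := by
    funext z
    ring
  rw [h1]
  exact h

theorem l_patch_sum {N d n : ℕ} {f : Fin n → E N × ℝ → ℝ} (hf : ∀ k, l_patch_P d (f k)) :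
    l_patch_P d (fun z => ∑ k, f k z) := by
  choose Q h1 h2 using hf
  refine ⟨∑ k, Q k, totalDegree_finsetSum_le fun k _ => h1 k, fun z => ?_⟩
  simp only [← h2]
  simp [pP, UC.pev, map_sum]

theorem l_patch_pv {N : ℕ} (J : (E N × ℝ) ≃ₗ[ℝ] Sp (N + 1)) (P : MvPolynomial (Fin (N + 1)) ℝ)
    {d : ℕ} (hd : P.totalDegree ≤ d) : l_patch_P d (fun z => pv P (J z)) := by
  obtain ⟨Q, h1, h2⟩ := chart_poly J P
  exact ⟨Q, h1.trans hd, h2⟩

theorem l_patch_fderiv {n : ℕ} (P : MvPolynomial (Fin n) ℝ) (x u : Sp n) :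
    fderiv ℝ (pv P) x u = ∑ k, pv (pderiv k P) x * u k := UC.pev_fderiv_sum P x u

theorem l_patch_norm {n : ℕ} (P : MvPolynomial (Fin n) ℝ) (x : Sp n) :
    ‖fderiv ℝ (pv P) x‖ ^ 2 = ∑ k, pv (pderiv k P) x * pv (pderiv k P) x := by
  have h1 : fderiv ℝ (pv P) x =
      innerSL ℝ (WithLp.toLp 2 (fun k => pv (pderiv k P) x) : Sp n) := by
    ext u
    rw [l_patch_fderiv, innerSL_apply_apply, PiLp.inner_apply]
    refine Finset.sum_congr rfl fun k _ => ?_
    simp [mul_comm]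
  rw [h1, innerSL_apply_norm, EuclideanSpace.norm_sq_eq]
  refine Finset.sum_congr rfl fun k _ => ?_
  rw [Real.norm_eq_abs, sq_abs, sq]

theorem l_patch_dir {N : ℕ} (J : (E N × ℝ) ≃ₗ[ℝ] Sp (N + 1)) (P : MvPolynomial (Fin (N + 1)) ℝ)
    {d : ℕ} (hd : P.totalDegree ≤ d) (u : Sp (N + 1)) :
    l_patch_P d (fun z => fderiv ℝ (pv P) (J z) u) := by
  have h1 : (fun z => fderiv ℝ (pv P) (J z) u) =
      fun z => ∑ k, u k * pv (pderiv k P) (J z) := by
    funext z
    rw [l_patch_fderiv]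
    exact Finset.sum_congr rfl fun k _ => mul_comm _ _
  rw [h1]
  exact l_patch_sum fun k => l_patch_cmul _
    (l_patch_pv J (pderiv k P) (UC.totalDegree_pderiv_le_of P k d hd))

theorem l_patch_nsq {N : ℕ} (J : (E N × ℝ) ≃ₗ[ℝ] Sp (N + 1)) (P : MvPolynomial (Fin (N + 1)) ℝ)
    {d : ℕ} (hd : P.totalDegree ≤ d) :
    l_patch_P (d + d) (fun z => ‖fderiv ℝ (pv P) (J z)‖ ^ 2) := by
  have h1 : (fun z => ‖fderiv ℝ (pv P) (J z)‖ ^ 2) =
      fun z => ∑ k, pv (pderiv k P) (J z) * pv (pderiv k P) (J z) := by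
    funext z
    exact l_patch_norm P (J z)
  rw [h1]
  exact l_patch_sum fun k => l_patch_mul
    (l_patch_pv J (pderiv k P) (UC.totalDegree_pderiv_le_of P k d hd))
    (l_patch_pv J (pderiv k P) (UC.totalDegree_pderiv_le_of P k d hd))

theorem l_patch_X {N : ℕ} (k : Fin N) : l_patch_P 1 (fun z : E N × ℝ => z.1 k) := by
  refine ⟨X k.castSucc, (totalDegree_X _).le, fun z => ?_⟩
  simp [pP, UC.pev]

theorem l_patch_Y {N : ℕ} : l_patch_P 1 (fun z : E N × ℝ => z.2) := by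
  refine ⟨X (Fin.last N), (totalDegree_X _).le, fun z => ?_⟩
  simp [pP, UC.pev]

/-- The penalty functions are polynomials of degree at most 2 b + 1 in the coordinates.
Proof: chart_poly for the following polynomials on Sp (N+1) (totalDegree ≤ max(..) ≤ 2 b):
constants; C (σ l') * P_l' - C θ; the derivative in the fixed direction u = J (0,1):
fderiv (pv P) x u = ∑ k, pv (pderiv k P) x * u k (UC.pev_fderiv or KR.dv_fderiv / dv_eq: pv is UC.pev by rfl), so
C τ * ∑ k, C (u k) * pderiv k P - C θ; and for the square: (∑ k, C (u k) * pderiv k P)^2 -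
C (c0^2) * ∑ k, (pderiv k P)^2, where ‖fderiv (pv P) x‖² = ∑ k, (pv (pderiv k P) x)²: the functional
v ↦ ∑ k, a k * v k on Euclidean space has norm squared ∑ a k ² (it is the inner product with the vector a:
`innerSL_apply_norm` / `InnerProductSpace.toDual` norm, EuclideanSpace.norm_sq_eq).
pderiv lowers the degree: `MvPolynomial.totalDegree_pderiv_le`-type lemma (search; e.g. in UC/*.lean or
Lib/Warren46 there is one), at least totalDegree (pderiv k P) ≤ totalDegree P.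
The faces of the box: X k.castSucc - C .., C .. - X k.castSucc, X (Fin.last N) - C ..: degree ≤ 1. -/
theorem pp_poly {N s b : ℕ} (J : (E N × ℝ) ≃ₗ[ℝ] Sp (N + 1)) (D : Desc (N + 1) s)
    (hdeg : ∀ l, (D.P l).totalDegree ≤ b) (l : Fin s) (τ : SignType) (σ : Fin s → SignType) (c0 : ℝ)
    (β : Fin N → ℝ) (a hw H θ : ℝ) (j : PIdx N s) :
    ∃ Q : MvPolynomial (Fin (N + 1)) ℝ, Q.totalDegree ≤ 2 * b + 1 ∧
      ∀ z, pP Q z = pp J D l τ σ c0 β a hw H θ j z := by
  change l_patch_P (2 * b + 1) (fun z => pp J D l τ σ c0 β a hw H θ j z)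
  rcases j with (l' | (_ | _)) | (⟨k, (_ | _)⟩ | (_ | _))
  · by_cases hl : l' = l
    · have h1 : (fun z => pp J D l τ σ c0 β a hw H θ (.inl (.inl l')) z) = fun _ => 1 := by
        funext z
        simp only [pp]
        rw [if_pos hl]
      rw [h1]
      exact l_patch_const _ _
    · have h1 : (fun z => pp J D l τ σ c0 β a hw H θ (.inl (.inl l')) z) =
          fun z => (σ l' : ℝ) * pv (D.P l') (J z) - θ := by
        funext z
        simp only [pp]
        rw [if_neg hl]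
      rw [h1]
      exact l_patch_sub (l_patch_cmul _ (l_patch_pv J (D.P l') ((hdeg l').trans (by omega))))
        (l_patch_const _ _)
  · change l_patch_P (2 * b + 1) (fun z => (fderiv ℝ (pv (D.P l)) (J z) (J (0, 1))) ^ 2
      - c0 ^ 2 * ‖fderiv ℝ (pv (D.P l)) (J z)‖ ^ 2)
    refine l_patch_sub ?_ (l_patch_cmul _ (l_patch_mono (l_patch_nsq J (D.P l) (hdeg l))
      (by omega)))
    simp only [sq]
    exact l_patch_mono (l_patch_mul (l_patch_dir J (D.P l) (hdeg l) _)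
      (l_patch_dir J (D.P l) (hdeg l) _)) (by omega)
  · change l_patch_P (2 * b + 1) (fun z => (τ : ℝ) * fderiv ℝ (pv (D.P l)) (J z) (J (0, 1)) - θ)
    exact l_patch_sub (l_patch_cmul _ (l_patch_dir J (D.P l) ((hdeg l).trans (by omega)) _))
      (l_patch_const _ _)
  · change l_patch_P (2 * b + 1) (fun z => β k + a - θ - z.1 k)
    exact l_patch_sub (l_patch_const _ _) (l_patch_mono (l_patch_X k) (by omega))
  · change l_patch_P (2 * b + 1) (fun z => z.1 k - β k)
    exact l_patch_sub (l_patch_mono (l_patch_X k) (by omega)) (l_patch_const _ _)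
  · change l_patch_P (2 * b + 1) (fun z => hw + H - z.2)
    exact l_patch_sub (l_patch_const _ _) (l_patch_mono l_patch_Y (by omega))
  · change l_patch_P (2 * b + 1) (fun z => z.2 - hw + H)
    exact l_patch_add (l_patch_sub (l_patch_mono l_patch_Y (by omega)) (l_patch_const _ _))
      (l_patch_const _ _)

/-- The zone of a body is a patch.
Proof: Q from chart_poly (P := D.P l; pP Q z = UC.pev Q (pt z.1 z.2) is its definition), q j from pp_poly through
an equivalence Fin (card) ≃ PIdx N s (`Fintype.equivFin`), O = Zone .., K = ZBox β a hw H.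
single: zone_single; zero: first condition of Zone; vert: fderiv (pP Q) z (0,1) = fderiv (pv P_l) (J z) (J (0,1))
(chain rule: pP Q = pv P_l ∘ J as functions, J is linear and continuous), which is ≠ 0 since in the zone
c0/2 ‖..‖ < τ * it, 0 ≤ c0/2 ‖..‖; isOpen: zone_open; compact: zbox_compact; sub: Zone ⊆ ZBox (strict to weak);
bad: contrapositive of zone_of_pp (a, H, θ > 0). -/
theorem exists_patch {N s b : ℕ} {J : (E N × ℝ) ≃ₗ[ℝ] Sp (N + 1)} (hJ : IsChart J) {D : Desc (N + 1) s}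
    (hdeg : ∀ l, (D.P l).totalDegree ≤ b) {κ : ℝ} (hκ : 0 < κ) (hround : IsRound κ D.set) {l : Fin s}
    {τ : SignType} {σ : Fin s → SignType} {c0 : ℝ} {β : Fin N → ℝ} {a hw H θ : ℝ} (hc0 : 0 < c0)
    (ha : Adm D l τ σ) (hσ : ∀ l', l' ≠ l → σ l' ≠ 0) (ha0 : 0 < a) (hH : 0 < H) (hθ : 0 < θ)
    (h4H : 4 * H ≤ c0 * (κ * diam D.set)) :
    ∃ pa : Patch N (2 * b + 1) (Fintype.card (PIdx N s)),
      (∀ z, pP pa.Q z = pv (D.P l) (J z)) ∧ pa.O = Zone J D l τ σ c0 β a hw H ∧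
      ∀ z, (∀ j, 0 ≤ pP (pa.q j) z) ↔ ∀ j, 0 ≤ pp J D l τ σ c0 β a hw H θ j z := by
  have hdiam : 0 < diam D.set := round_diam_pos hround
  obtain ⟨Q, hQ1, hQ2⟩ := chart_poly J (D.P l)
  have hQ2' : ∀ z, pP Q z = pv (D.P l) (J z) := hQ2
  choose q hq1 hq2 using pp_poly J D hdeg l τ σ c0 β a hw H θ
  have hall : ∀ z, (∀ j, 0 ≤ pP (q ((Fintype.equivFin (PIdx N s)).symm j)) z) ↔
      ∀ j, 0 ≤ pp J D l τ σ c0 β a hw H θ j z := by
    intro z
    constructor
    · intro h j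
      have h1 := h (Fintype.equivFin (PIdx N s) j)
      rw [Equiv.symm_apply_apply, hq2] at h1
      exact h1
    · intro h j
      rw [hq2]
      exact h _
  have hJd : ∀ z : E N × ℝ, HasFDerivAt (fun w : E N × ℝ => J w)
      (J.toContinuousLinearEquiv : (E N × ℝ) →L[ℝ] Sp (N + 1)) z := fun z =>
    (J.toContinuousLinearEquiv : (E N × ℝ) →L[ℝ] Sp (N + 1)).hasFDerivAt
  have hvert : ∀ z, fderiv ℝ (pP Q) z (0, 1) = fderiv ℝ (pv (D.P l)) (J z) (J (0, 1)) := by
    intro z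
    have h1 : HasFDerivAt (pv (D.P l)) (fderiv ℝ (pv (D.P l)) (J z)) (J z) :=
      ((pv_contDiff (D.P l) 1).differentiable one_ne_zero (J z)).hasFDerivAt
    have h2 := h1.comp z (hJd z)
    have h3 : (pv (D.P l) ∘ fun w : E N × ℝ => J w) = pP Q := by
      funext w
      exact (hQ2' w).symm
    rw [h3] at h2
    rw [h2.fderiv]
    rfl
  refine ⟨{
    Q := Q
    q := fun j => q ((Fintype.equivFin (PIdx N s)).symm j)
    O := Zone J D l τ σ c0 β a hw H
    K := ZBox β a hw H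
    degQ := hQ1.trans ((hdeg l).trans (by omega))
    degq := fun j => hq1 _
    single := zone_single hJ hc0 hσ ha hκ hround hdiam h4H
    zero := fun z hz => (hQ2' z).trans hz.1
    vert := fun z hz => ?_
    isOpen := fun z hz => ?_
    compact := zbox_compact β a hw H
    sub := fun z hz => ⟨fun k => ⟨(hz.2.2.2.1 k).1.le, (hz.2.2.2.1 k).2.le⟩, hz.2.2.2.2.le⟩
    bad := fun z _ hz0 hz => ?_ }, hQ2', rfl, hall⟩
  · rw [hvert]
    intro h0
    have h1 := hz.2.2.1
    rw [h0, mul_zero] at h1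
    have h2 : 0 ≤ c0 / 2 * ‖fderiv ℝ (pv (D.P l)) (J z)‖ := by positivity
    linarith
  · filter_upwards [zone_open hσ z hz] with z' h1 h2
    exact h1 ((hQ2' z').symm.trans h2)
  · by_contra hno
    push Not at hno
    exact hz (zone_of_pp hc0 ha0 hH hθ ((hQ2' z).symm.trans hz0) ((hall z).1 hno))

end KR
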