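import Pool.Agent.KR.Pt
import Pool.Agent.UC3.Ext

/-!
# KR (MP_5a1161_co): polynomials as functions on E N × ℝ
-/

open MvPolynomial Filter Topology

namespace KR

open UC

variable {N : ℕ}

/-- The polynomial Q as a function on E N × ℝ. -/
noncomputable def pP (Q : MvPolynomial (Fin (N + 1)) ℝ) (z : E N × ℝ) : ℝ := pev Q (pt z.1 z.2)

theorem pev_contDiff {n : ℕ} (Q : MvPolynomial (Fin n) ℝ) {m : WithTop ℕ∞} :
    ContDiff ℝ m (pev Q) := by
  unfold pev
  induction Q using MvPolynomial.induction_on with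
  | C a =>
    simp only [eval_C]
    exact contDiff_const
  | add p q hp hq =>
    simp only [map_add]
    exact hp.add hq
  | mul_X p j hp =>
    simp only [map_mul, eval_X]
    exact hp.mul (EuclideanSpace.proj j : E n →L[ℝ] ℝ).contDiff

theorem pP_contDiff (Q : MvPolynomial (Fin (N + 1)) ℝ) {m : WithTop ℕ∞} :
    ContDiff ℝ m (pP Q) := (pev_contDiff Q).comp (ptL N).contDiff

theorem pP_fderiv (Q : MvPolynomial (Fin (N + 1)) ℝ) (z w : E N × ℝ) :
    fderiv ℝ (pP Q) z w = dv (pt z.1 z.2) (pt w.1 w.2) Q := by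
  have h1 : HasFDerivAt (pev Q) (fderiv ℝ (pev Q) (ptL N z)) (ptL N z) :=
    ((pev_contDiff Q (m := 1)).differentiable (by norm_num) _).hasFDerivAt
  have h2 : HasFDerivAt (pP Q) ((fderiv ℝ (pev Q) (ptL N z)).comp (ptL N)) z :=
    h1.comp z (ptL N).hasFDerivAt
  rw [h2.fderiv]
  exact dv_fderiv _ _ _

theorem pP_fderiv_vert (Q : MvPolynomial (Fin (N + 1)) ℝ) (z : E N × ℝ) :
    fderiv ℝ (pP Q) z (0, 1) = pev (pderiv (Fin.last N) Q) (pt z.1 z.2) := by
  rw [pP_fderiv, dv_pt]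
  simp

end KR
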