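import Pool.Agent.UC.VDefs
import Pool.Agent.KR.XPol

/-!
# KR (MP_5a1161_co): patches

A patch is a piece O of the zero set of a polynomial Q which is a graph over a subset of E N, with
sign conditions q j that cut it out of the zero set inside the compact set K.  Patches of colour
true are given in the coordinates (y,t), patches of colour false in the coordinates (y,-t).
-/

open MvPolynomial Filter Topology UC3

namespace KR

open UC

/-- A patch with k conditions of degree at most D. -/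
structure Patch (N D k : ℕ) where
  Q : MvPolynomial (Fin (N + 1)) ℝ
  q : Fin k → MvPolynomial (Fin (N + 1)) ℝ
  O : Set (E N × ℝ)
  K : Set (E N × ℝ)
  degQ : Q.totalDegree ≤ D
  degq : ∀ j, (q j).totalDegree ≤ D
  single : Single O
  zero : ∀ z ∈ O, pP Q z = 0
  vert : ∀ z ∈ O, fderiv ℝ (pP Q) z (0, 1) ≠ 0
  isOpen : ∀ z ∈ O, ∀ᶠ z' in 𝓝 z, pP Q z' = 0 → z' ∈ O
  compact : IsCompact K
  sub : O ⊆ K
  bad : ∀ z ∈ K, pP Q z = 0 → z ∉ O → ∃ j, pP (q j) z < 0

/-- The point (y,t) is a vertex of the family of patches pa with support T. -/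
structure PVert {N D k : ℕ} {ι : Type} (pa : ι → Patch N D k) (col : ι → Bool) (T : Finset ι)
    (y : E N) (t : ℝ) : Prop where
  card : T.card = N + 1
  on : ∀ a ∈ T, (y, sg (col a) * t) ∈ (pa a).O ∧ ∀ j, 0 ≤ pP ((pa a).q j) (y, sg (col a) * t)
  off : ∀ a, a ∉ T → ∀ s, s ≤ sg (col a) * t → (y, s) ∈ (pa a).O →
    s = sg (col a) * t ∧ ∃ j, pP ((pa a).q j) (y, s) < 0
  trans : ∀ c : ι → ℝ, (∀ a, a ∉ T → c a = 0) →
    (∀ (u : E N) (s : ℝ), ∑ a ∈ T, c a * fderiv ℝ (pP (pa a).Q) (y, sg (col a) * t)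
      (u, sg (col a) * s) = 0) → ∀ a, c a = 0

end KR
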