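import Pool.Agent.UC.Defs

/-!
# KR, block S (all scales): cubes, a smallest cube containing a given portion of the bodies
-/

open Finset Metric

namespace KR

open UC

variable {d : ℕ}

/-- The closed cube with centre x and half side q. -/
def cube (x : E d) (q : ℝ) : Set (E d) := {z | ∀ k, |z k - x k| ≤ q}

theorem abs_coord_le (z w : E d) (k : Fin d) : |z k - w k| ≤ dist z w := by
  rw [dist_eq_norm]
  have := PiLp.norm_apply_le (z - w) k
  simpa using this

theorem dist_le_of_coord (z w : E d) (q : ℝ) (hq : 0 ≤ q) (h : ∀ k, |z k - w k| ≤ q) :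
    dist z w ≤ Real.sqrt d * q := by
  rw [EuclideanSpace.dist_eq]
  have h1 : ∑ k, dist (z k) (w k) ^ 2 ≤ d * q ^ 2 := by
    calc ∑ k, dist (z k) (w k) ^ 2 ≤ ∑ _k : Fin d, q ^ 2 := by
          refine Finset.sum_le_sum (fun k _ => ?_)
          rw [Real.dist_eq]
          exact pow_le_pow_left₀ (abs_nonneg _) (h k) 2
      _ = d * q ^ 2 := by simp
  calc Real.sqrt (∑ k, dist (z k) (w k) ^ 2) ≤ Real.sqrt (d * q ^ 2) := Real.sqrt_le_sqrt h1
    _ = Real.sqrt d * q := by
        rw [Real.sqrt_mul (by positivity), Real.sqrt_sq hq]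

theorem diam_le_of_cube (c : Set (E d)) (x : E d) (q : ℝ) (hq : 0 ≤ q) (h : c ⊆ cube x q) :
    diam c ≤ Real.sqrt d * (2 * q) := by
  refine diam_le_of_forall_dist_le (by positivity) (fun z hz w hw => ?_)
  refine dist_le_of_coord z w (2 * q) (by positivity) (fun k => ?_)
  have h1 := h hz k
  have h2 := h hw k
  rw [abs_le] at h1 h2 ⊢
  constructor <;> linarith [h1.1, h1.2, h2.1, h2.2]

open Classical in
/-- The bodies of S inside the cube. -/
noncomputable def inside {ι : Type} (c : ι → Set (E d)) (S : Finset ι) (x : E d) (q : ℝ) : Finset ι :=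
  S.filter (fun i => c i ⊆ cube x q)

theorem mem_inside {ι : Type} {c : ι → Set (E d)} {S : Finset ι} {x : E d} {q : ℝ} {i : ι} :
    i ∈ inside c S x q ↔ i ∈ S ∧ c i ⊆ cube x q := by
  classical
  unfold inside
  rw [Finset.mem_filter]

/-- A cube containing at least θ bodies such that no cube of half its size does. -/
theorem min_cube {ι : Type} (c : ι → Set (E d)) (S : Finset ι)
    (hc : ∀ i ∈ S, Bornology.IsBounded (c i)) (hd : ∀ i ∈ S, 0 < diam (c i)) (θ : ℝ) (hθ : 0 < θ)
    (hθS : θ ≤ S.card) :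
    ∃ (x : E d) (q : ℝ), 0 < q ∧ θ ≤ (inside c S x q).card ∧
      ∀ x', ((inside c S x' (q / 2)).card : ℝ) < θ := by
  classical
  have hS : S.Nonempty := by
    rw [← Finset.card_pos]
    by_contra h
    have : S.card = 0 := by omega
    rw [this] at hθS; simp at hθS; linarith
  -- everything is in a big cube
  obtain ⟨D, hD0, hD⟩ : ∃ D : ℝ, 0 < D ∧ ∀ i ∈ S, c i ⊆ cube 0 D := by
    have hb : Bornology.IsBounded (⋃ i ∈ S, c i) := by
      rw [Bornology.isBounded_biUnion_finset]
      exact hc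
    obtain ⟨R, hR⟩ := hb.subset_closedBall (0 : E d)
    refine ⟨max R 1, lt_max_of_lt_right one_pos, fun i hi z hz k => ?_⟩
    have h1 : z ∈ closedBall (0 : E d) R := hR (Set.mem_biUnion hi hz)
    have h2 := abs_coord_le z 0 k
    exact h2.trans ((mem_closedBall.1 h1).trans (le_max_left _ _))
  -- the least diameter
  obtain ⟨i0, hi0, hmin⟩ := S.exists_min_image (fun i => diam (c i)) hS
  have hδ := hd i0 hi0
  -- small cubes contain nothing
  have hsmall : ∃ n : ℕ, ∀ x, ((inside c S x (D / 2 ^ n)).card : ℝ) < θ := by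
    obtain ⟨n, hn⟩ := pow_unbounded_of_one_lt (Real.sqrt d * (2 * D) / diam (c i0)) (one_lt_two)
    refine ⟨n, fun x => ?_⟩
    have h2n : (0 : ℝ) < 2 ^ n := by positivity
    have hemp : inside c S x (D / 2 ^ n) = ∅ := by
      rw [Finset.eq_empty_iff_forall_notMem]
      intro i hi
      obtain ⟨hiS, hic⟩ := mem_inside.1 hi
      have h1 := diam_le_of_cube (c i) x (D / 2 ^ n) (by positivity) hic
      have h2 := hmin i hiS
      rw [div_lt_iff₀ hδ] at hn
      have h3 : Real.sqrt d * (2 * (D / 2 ^ n)) = Real.sqrt d * (2 * D) / 2 ^ n := by ring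
      rw [h3, le_div_iff₀ h2n] at h1
      have h4 : diam (c i0) * 2 ^ n ≤ diam (c i) * 2 ^ n :=
        mul_le_mul_of_nonneg_right h2 h2n.le
      nlinarith
    rw [hemp]; simpa using hθ
  let n := Nat.find hsmall
  have hn := Nat.find_spec hsmall
  have hn0 : n ≠ 0 := by
    intro h0
    have h1 := hn 0
    have h2 : Nat.find hsmall = 0 := h0
    rw [h2] at h1
    have h3 : inside c S 0 (D / 2 ^ 0) = S := by
      ext i
      rw [mem_inside]
      simp only [pow_zero, div_one]
      exact ⟨fun h => h.1, fun h => ⟨h, hD i h⟩⟩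
    rw [h3] at h1
    linarith
  obtain ⟨m, hm⟩ := Nat.exists_eq_succ_of_ne_zero hn0
  have hm' := Nat.find_min hsmall (show m < Nat.find hsmall by
    have : Nat.find hsmall = m.succ := hm
    omega)
  push Not at hm'
  obtain ⟨x, hx⟩ := hm'
  refine ⟨x, D / 2 ^ m, by positivity, hx, fun x' => ?_⟩
  have h1 := hn x'
  have h2 : Nat.find hsmall = m.succ := hm
  rw [h2] at h1
  have h3 : D / 2 ^ m / 2 = D / 2 ^ m.succ := by
    rw [pow_succ]; field_simp
  rw [h3]; exact h1

end KR
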