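import Pool.Agent.KR.SCube

/-!
# KR, block S (all scales): the induction over minimal cubes

`scales`: a bound `CL * |S|^p` for vertices in a set of diameter `q` with one body of diameter `≥ K q` through each
(hypothesis `LC`) implies a bound `C * |S|^p` for all vertices.
-/

open Finset Metric

namespace KR

open UC

variable {d : ℕ}

theorem card_le_classes {α β : Type} [DecidableEq β] (V : Finset α) (cl : α → β)
    (t : Finset β) (hm : ∀ v ∈ V, cl v ∈ t) (B : ℝ)
    (hB : ∀ b ∈ t, ((V.filter (fun v => cl v = b)).card : ℝ) ≤ B) : (V.card : ℝ) ≤ t.card * B := by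
  rw [Finset.card_eq_sum_card_fiberwise hm]
  push_cast
  calc ∑ b ∈ t, ((V.filter (fun v => cl v = b)).card : ℝ) ≤ ∑ _b ∈ t, B := Finset.sum_le_sum hB
    _ = t.card * B := by rw [Finset.sum_const, nsmul_eq_mul]

/-- The class of a point of the cube. -/
noncomputable def cls (x : E d) (q : ℝ) (m : ℕ) (v : E d) : Fin d → ℕ :=
  fun k => ⌊(v k - x k + q) * m / (2 * q)⌋₊

theorem cls_mem (x : E d) (q : ℝ) (hq : 0 < q) (m : ℕ) (v : E d) (hv : v ∈ cube x q) :
    cls x q m v ∈ Fintype.piFinset (fun _ : Fin d => Finset.range (m + 1)) := by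
  rw [Fintype.mem_piFinset]
  intro k
  rw [Finset.mem_range, Nat.lt_succ_iff]
  apply Nat.floor_le_of_le
  have h := abs_le.1 (hv k)
  rw [div_le_iff₀ (by positivity)]
  have : v k - x k + q ≤ 2 * q := by linarith [h.2]
  nlinarith [mul_le_mul_of_nonneg_right this (Nat.cast_nonneg (α := ℝ) m)]

theorem cls_close (x : E d) (q : ℝ) (hq : 0 < q) (m : ℕ) (hm : 0 < m) (v w : E d)
    (hv : v ∈ cube x q) (hw : w ∈ cube x q) (h : cls x q m v = cls x q m w) (k : Fin d) :
    |v k - w k| ≤ 2 * q / m := by
  have hmr : (0 : ℝ) < m := by exact_mod_cast hm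
  have h1 := congrFun h k
  unfold cls at h1
  have hv0 : 0 ≤ (v k - x k + q) * m / (2 * q) := by
    have := abs_le.1 (hv k)
    have : 0 ≤ v k - x k + q := by linarith [this.1]
    positivity
  have hw0 : 0 ≤ (w k - x k + q) * m / (2 * q) := by
    have := abs_le.1 (hw k)
    have : 0 ≤ w k - x k + q := by linarith [this.1]
    positivity
  have a1 := Nat.floor_le hv0
  have a2 := Nat.lt_floor_add_one ((v k - x k + q) * m / (2 * q))
  have a3 := Nat.floor_le hw0
  have a4 := Nat.lt_floor_add_one ((w k - x k + q) * m / (2 * q))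
  rw [h1] at a1 a2
  set n : ℝ := (⌊(w k - x k + q) * m / (2 * q)⌋₊ : ℝ)
  have e : (v k - x k + q) * m / (2 * q) - (w k - x k + q) * m / (2 * q)
      = (v k - w k) * (m / (2 * q)) := by ring
  have hpos : 0 < (m : ℝ) / (2 * q) := by positivity
  have b1 : (v k - w k) * (m / (2 * q)) ≤ 1 := by rw [← e]; linarith
  have b2 : -1 ≤ (v k - w k) * (m / (2 * q)) := by rw [← e]; linarith
  have c1 : v k - w k ≤ 1 / (m / (2 * q)) := (le_div_iff₀ hpos).2 b1
  have c2 : -(1 / (m / (2 * q))) ≤ v k - w k := by
    rw [← neg_div]
    exact (div_le_iff₀ hpos).2 b2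
  have c3 : 1 / ((m : ℝ) / (2 * q)) = 2 * q / m := by field_simp
  rw [c3] at c1 c2
  exact abs_le.2 ⟨c2, c1⟩

theorem scales (d : ℕ) (p K CL : ℝ) (hp : 1 < p) (hK : 0 < K) (hCL : 0 ≤ CL) :
    ∃ C : ℝ, 0 ≤ C ∧ ∀ (ι : Type) [DecidableEq ι] (c : ι → Set (E d))
      (_ : ∀ i, Bornology.IsBounded (c i)) (_ : ∀ i, 0 < diam (c i)) (V : Finset (E d))
      (T : E d → Finset ι) (_ : ∀ v ∈ V, (T v).Nonempty) (_ : ∀ v ∈ V, ∀ i ∈ T v, v ∈ c i)
      (_ : ∀ (S : Finset ι) (V' : Finset (E d)) (q : ℝ), V' ⊆ V → 0 < q →
        (∀ v ∈ V', T v ⊆ S) → (∀ v ∈ V', ∀ w ∈ V', dist v w ≤ q) →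
        (∀ v ∈ V', ∃ i ∈ T v, K * q ≤ diam (c i)) → (V'.card : ℝ) ≤ CL * (S.card : ℝ) ^ p),
      ∀ S : Finset ι, ((V.filter (fun v => T v ⊆ S)).card : ℝ) ≤ C * (S.card : ℝ) ^ p := by
  classical
  -- the constants
  obtain ⟨m1, hm1⟩ : ∃ m1 : ℕ, 8 * K * Real.sqrt d + 1 ≤ m1 := exists_nat_ge _
  have hm1pos : (0 : ℝ) < m1 := by
    have : 0 ≤ 8 * K * Real.sqrt d := by positivity
    linarith
  obtain ⟨A, hA1, hA2⟩ : ∃ A : ℝ, 1 < A ∧ 2 * (9 : ℝ) ^ d ≤ A ^ (p - 1) := by
    have hp1 : 0 < p - 1 := by linarith
    have h9 : (1 : ℝ) ≤ 9 ^ d := one_le_pow₀ (by norm_num)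
    refine ⟨(2 * (9 : ℝ) ^ d) ^ (1 / (p - 1)), ?_, ?_⟩
    · exact Real.one_lt_rpow (by linarith) (by positivity)
    · rw [← Real.rpow_mul (by positivity)]
      rw [one_div, inv_mul_cancel₀ hp1.ne', Real.rpow_one]
  have hA0 : 0 < A := by linarith
  set M1 : ℝ := ((m1 : ℝ) + 1) ^ d with hM1
  have hM1pos : 0 < M1 := by positivity
  refine ⟨2 * A * M1 * CL, by positivity, ?_⟩
  intro ι _ c hb hdiam V T hT hmem LC
  set C : ℝ := 2 * A * M1 * CL with hC
  have hC0 : 0 ≤ C := by positivity
  have main : ∀ n : ℕ, ∀ S : Finset ι, S.card ≤ n →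
      ((V.filter (fun v => T v ⊆ S)).card : ℝ) ≤ C * (S.card : ℝ) ^ p := by
    intro n
    induction n with
    | zero =>
      intro S hS
      have hS0 : S = ∅ := Finset.card_eq_zero.1 (Nat.le_zero.1 hS)
      have : V.filter (fun v => T v ⊆ S) = ∅ := by
        rw [Finset.filter_eq_empty_iff]
        intro v hv hsub
        rw [hS0] at hsub
        obtain ⟨i, hi⟩ := hT v hv
        exact absurd (hsub hi) (Finset.notMem_empty i)
      rw [this]
      simp only [Finset.card_empty, Nat.cast_zero]
      positivity
    | succ n ih =>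
      intro S hS
      by_cases hS0 : S.card = 0
      · exact ih S (by omega)
      have hs : (0 : ℝ) < S.card := by exact_mod_cast Nat.pos_of_ne_zero hS0
      have hs1 : (1 : ℝ) ≤ S.card := by exact_mod_cast Nat.one_le_iff_ne_zero.2 hS0
      set s : ℝ := (S.card : ℝ) with hsdef
      have hsA : 0 < s / A := by positivity
      have hsA' : s / A < s := by
        rw [div_lt_iff₀ hA0]; nlinarith
      obtain ⟨x, q, hq, hin, hout⟩ := min_cube c S (fun i _ => hb i) (fun i _ => hdiam i) (s / A)
        hsA hsA'.le
      set S0 := inside c S x q with hS0def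
      have hS0sub : S0 ⊆ S := fun i hi => (mem_inside.1 hi).1
      -- case (a)
      have hcardA : ((S \ S0).card : ℝ) ≤ s - s / A := by
        have := Finset.card_sdiff_add_card_eq_card hS0sub
        have h2 : ((S \ S0).card : ℝ) + S0.card = s := by
          rw [hsdef]; exact_mod_cast this
        linarith
      have hcardA' : (S \ S0).card ≤ n := by
        have h1 : ((S \ S0).card : ℝ) < S.card := by linarith
        have h2 : (S \ S0).card < S.card := by exact_mod_cast h1
        omega
      have ha := ih (S \ S0) hcardA'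
      have ha' : ((V.filter (fun v => T v ⊆ S \ S0)).card : ℝ) ≤ C * ((1 - 1 / A) * s ^ p) := by
        refine ha.trans (mul_le_mul_of_nonneg_left ?_ hC0)
        have h1 : ((S \ S0).card : ℝ) ≤ (1 - 1 / A) * s := by
          have : (1 - 1 / A) * s = s - s / A := by ring
          rw [this]; exact hcardA
        have hA3 : 0 ≤ 1 - 1 / A := by
          rw [sub_nonneg, div_le_one hA0]; exact hA1.le
        have hA4 : 1 - 1 / A ≤ 1 := by
          have : 0 < 1 / A := by positivity
          linarith
        calc ((S \ S0).card : ℝ) ^ p ≤ ((1 - 1 / A) * s) ^ p :=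
              Real.rpow_le_rpow (by positivity) h1 (by linarith)
          _ = (1 - 1 / A) ^ p * s ^ p := Real.mul_rpow hA3 hs.le
          _ ≤ (1 - 1 / A) * s ^ p := by
              refine mul_le_mul_of_nonneg_right ?_ (by positivity)
              calc (1 - 1 / A) ^ p ≤ (1 - 1 / A) ^ (1 : ℝ) :=
                    Real.rpow_le_rpow_of_exponent_ge_of_imp hA3 hA4 hp.le (fun _ h => by linarith)
                _ = 1 - 1 / A := Real.rpow_one _
      -- the vertices meeting S0 are in the cube
      set V1 := V.filter (fun v => T v ⊆ S ∧ ¬ T v ⊆ S \ S0 ∧ ∃ i ∈ T v, q / 4 ≤ diam (c i))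
        with hV1
      set V2 := V.filter (fun v => T v ⊆ S ∧ ¬ T v ⊆ S \ S0 ∧ ∀ i ∈ T v, diam (c i) < q / 4)
        with hV2
      have hcube : ∀ v ∈ V, T v ⊆ S → ¬ T v ⊆ S \ S0 → v ∈ cube x q := by
        intro v hv h1 h2
        rw [Finset.not_subset] at h2
        obtain ⟨i, hi, hi'⟩ := h2
        have hi0 : i ∈ S0 := by
          by_contra h3
          exact hi' (Finset.mem_sdiff.2 ⟨h1 hi, h3⟩)
        exact (mem_inside.1 hi0).2 (hmem v hv i hi)
      have hsplit : ((V.filter (fun v => T v ⊆ S)).card : ℝ)
          ≤ (V.filter (fun v => T v ⊆ S \ S0)).card + (V1.card + V2.card) := by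
        have hsub : V.filter (fun v => T v ⊆ S) ⊆
            V.filter (fun v => T v ⊆ S \ S0) ∪ (V1 ∪ V2) := by
          intro v hv
          rw [Finset.mem_filter] at hv
          by_cases h1 : T v ⊆ S \ S0
          · exact Finset.mem_union_left _ (Finset.mem_filter.2 ⟨hv.1, h1⟩)
          · refine Finset.mem_union_right _ ?_
            by_cases h2 : ∃ i ∈ T v, q / 4 ≤ diam (c i)
            · exact Finset.mem_union_left _ (Finset.mem_filter.2 ⟨hv.1, hv.2, h1, h2⟩)
            · push Not at h2
              exact Finset.mem_union_right _ (Finset.mem_filter.2 ⟨hv.1, hv.2, h1, h2⟩)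
        have h1 := (Finset.card_le_card hsub).trans (Finset.card_union_le _ _)
        have h2 := Finset.card_union_le V1 V2
        have h3 : (V.filter (fun v => T v ⊆ S)).card
            ≤ (V.filter (fun v => T v ⊆ S \ S0)).card + (V1.card + V2.card) := by omega
        exact_mod_cast h3
      -- case (b1)
      have hb1 : (V1.card : ℝ) ≤ M1 * (CL * s ^ p) := by
        have hq' : 0 < q / (4 * K) := by positivity
        have := card_le_classes V1 (cls x q m1)
          (Fintype.piFinset (fun _ : Fin d => Finset.range (m1 + 1)))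
          (fun v hv => by
            rw [hV1, Finset.mem_filter] at hv
            exact cls_mem x q hq m1 v (hcube v hv.1 hv.2.1 hv.2.2.1)) (CL * s ^ p)
          (fun b _ => by
            refine LC S (V1.filter (fun v => cls x q m1 v = b)) (q / (4 * K)) ?_ hq' ?_ ?_ ?_
            · exact (Finset.filter_subset _ _).trans (Finset.filter_subset _ _)
            · intro v hv
              rw [Finset.mem_filter, hV1, Finset.mem_filter] at hv
              exact hv.1.2.1
            · intro v hv w hw
              rw [Finset.mem_filter, hV1, Finset.mem_filter] at hv hw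
              have hclose := cls_close x q hq m1 (by exact_mod_cast hm1pos) v w
                (hcube v hv.1.1 hv.1.2.1 hv.1.2.2.1) (hcube w hw.1.1 hw.1.2.1 hw.1.2.2.1)
                (hv.2.trans hw.2.symm)
              have h1 := dist_le_of_coord v w (2 * q / m1) (by positivity) hclose
              refine h1.trans ?_
              rw [mul_div_assoc', div_le_div_iff₀ hm1pos (by positivity)]
              nlinarith [mul_nonneg hq.le (Real.sqrt_nonneg (d : ℝ))]
            · intro v hv
              rw [Finset.mem_filter, hV1, Finset.mem_filter] at hv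
              obtain ⟨i, hi, hid⟩ := hv.1.2.2.2
              refine ⟨i, hi, ?_⟩
              have : K * (q / (4 * K)) = q / 4 := by field_simp
              rw [this]; exact hid)
        rw [Fintype.card_piFinset] at this
        simpa [hM1] using this
      -- case (b2)
      have hb2 : (V2.card : ℝ) ≤ 9 ^ d * (C * (s / A) ^ p) := by
        have := card_le_classes V2 (cls x q 8)
          (Fintype.piFinset (fun _ : Fin d => Finset.range (8 + 1)))
          (fun v hv => by
            rw [hV2, Finset.mem_filter] at hv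
            exact cls_mem x q hq 8 v (hcube v hv.1 hv.2.1 hv.2.2.1)) (C * (s / A) ^ p)
          (fun b _ => by
            rcases (V2.filter (fun v => cls x q 8 v = b)).eq_empty_or_nonempty with he | ⟨v0, hv0⟩
            · rw [he]
              simp only [Finset.card_empty, Nat.cast_zero]
              positivity
            · have hv0' := hv0
              rw [Finset.mem_filter, hV2, Finset.mem_filter] at hv0'
              set Sg := inside c S v0 (q / 2) with hSg
              have hSgc := hout v0
              have hsub : V2.filter (fun v => cls x q 8 v = b) ⊆ V.filter (fun v => T v ⊆ Sg) := by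
                intro v hv
                rw [Finset.mem_filter, hV2, Finset.mem_filter] at hv
                refine Finset.mem_filter.2 ⟨hv.1.1, fun i hi => ?_⟩
                refine mem_inside.2 ⟨hv.1.2.1 hi, fun z hz k => ?_⟩
                have h1 := cls_close x q hq 8 (by norm_num) v v0
                  (hcube v hv.1.1 hv.1.2.1 hv.1.2.2.1)
                  (hcube v0 hv0'.1.1 hv0'.1.2.1 hv0'.1.2.2.1) (hv.2.trans hv0'.2.symm) k
                have h2 : dist z v ≤ diam (c i) := dist_le_diam_of_mem (hb i) hz (hmem v hv.1.1 i hi)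
                have h3 := abs_coord_le z v k
                have h4 := hv.1.2.2.2 i hi
                have h5 : |z k - v0 k| ≤ |z k - v k| + |v k - v0 k| := abs_sub_le _ _ _
                have h6 : 2 * q / ((8 : ℕ) : ℝ) = q / 4 := by push_cast; ring
                rw [h6] at h1
                linarith
              have h1 : ((V2.filter (fun v => cls x q 8 v = b)).card : ℝ)
                  ≤ (V.filter (fun v => T v ⊆ Sg)).card := by
                exact_mod_cast Finset.card_le_card hsub
              have h2 : (Sg.card : ℝ) < S.card := hSgc.trans hsA'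
              have h2' : Sg.card < S.card := by exact_mod_cast h2
              have h3 := ih Sg (by omega)
              refine h1.trans (h3.trans (mul_le_mul_of_nonneg_left ?_ hC0))
              exact Real.rpow_le_rpow (by positivity) hSgc.le (by linarith))
        rw [Fintype.card_piFinset] at this
        simpa using this
      -- the sum
      have hApow : (9 : ℝ) ^ d * (s / A) ^ p ≤ 1 / (2 * A) * s ^ p := by
        rw [Real.div_rpow hs.le hA0.le]
        have h1 : A ^ p = A ^ (p - 1) * A := by
          rw [← Real.rpow_add_one hA0.ne']; ring_nf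
        rw [h1]
        have h2 : 0 < A ^ (p - 1) := by positivity
        have h3 : 0 < s ^ p := by positivity
        rw [mul_div_assoc', div_le_iff₀ (by positivity)]
        have h4 : 1 / (2 * A) * s ^ p * (A ^ (p - 1) * A) = s ^ p * (A ^ (p - 1) / 2) := by
          field_simp
        rw [h4]
        nlinarith
      have hM : M1 * CL = C * (1 / (2 * A)) := by
        rw [hC]; field_simp
      calc ((V.filter (fun v => T v ⊆ S)).card : ℝ)
          ≤ C * ((1 - 1 / A) * s ^ p) + (M1 * (CL * s ^ p) + 9 ^ d * (C * (s / A) ^ p)) := by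
            linarith
        _ = C * ((1 - 1 / A) * s ^ p) + ((M1 * CL) * s ^ p + C * (9 ^ d * (s / A) ^ p)) := by ring
        _ ≤ C * ((1 - 1 / A) * s ^ p) + ((C * (1 / (2 * A))) * s ^ p
              + C * (1 / (2 * A) * s ^ p)) := by
            rw [hM]
            have := mul_le_mul_of_nonneg_left hApow hC0
            linarith
        _ = C * s ^ p := by field_simp; ring
  intro S
  exact main S.card S le_rfl

end KR
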