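import Pool.Agent.KR.TDefs

open MvPolynomial

namespace KR

open UC

section
variable {N : ℕ} {ι : Type} [DecidableEq ι] {T : Finset ι}

omit [DecidableEq ι] in
private theorem TLem_comp (y : E N) (t mu c : ι → ℝ) (s : Bool → ℝ) (i : {i // i ∈ T}) :
    (tpt T y t mu c s : TI N T → ℝ) ∘ (emb i) = fun k => pt y (t i.1) k := by
  funext k
  refine Fin.lastCases ?_ (fun l => ?_) k
  · rw [Function.comp_apply, emb, Fin.lastCases_last, pt_last]
    rfl
  · rw [Function.comp_apply, emb, Fin.lastCases_castSucc, pt_castSucc]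
    rfl

/-- Evaluation of a renamed polynomial at a point of the system.
Proof.  eval_rename; (tpt T y t mu c s) ∘ (emb i) = fun k => pt y (t i) k by Fin.lastCases
(Fin.lastCases_last, Fin.lastCases_castSucc, pt_last, pt_castSucc). -/
theorem eval_emb (y : E N) (t mu c : ι → ℝ) (s : Bool → ℝ) (i : {i // i ∈ T})
    (Q : MvPolynomial (Fin (N + 1)) ℝ) :
    eval (tpt T y t mu c s) (rename (emb i) Q) = pev Q (pt y (t i.1)) := by
  rw [eval_rename, TLem_comp]
  rfl

/-- Directional derivative of a renamed polynomial at a point of the system, in the direction of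
another point of the system.
Proof.  UC.ddir_rename, and the composition with emb as in eval_emb. -/
theorem ddir_emb (y u : E N) (t mu c t' mu' c' : ι → ℝ) (s s' : Bool → ℝ) (i : {i // i ∈ T})
    (Q : MvPolynomial (Fin (N + 1)) ℝ) :
    ddir (tpt T y t mu c s) (tpt T u t' mu' c' s') (rename (emb i) Q) =
      dv (pt y (t i.1)) (pt u (t' i.1)) Q := by
  rw [ddir_rename, TLem_comp, TLem_comp]
  rfl

/-- Every vector is a point of the system.
Proof.  Take u = toLp of w ∘ inl, t i = if h : i ∈ T then w (vH ⟨i,h⟩) else 0, and so on; funext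
over the five cases. -/
theorem exists_tpt (w : TI N T → ℝ) : ∃ (u : E N) (t mu c : ι → ℝ) (s : Bool → ℝ),
    (∀ i, i ∉ T → c i = 0) ∧ w = tpt T u t mu c s := by
  refine ⟨WithLp.toLp 2 (fun l => w (vY l)), fun i => if h : i ∈ T then w (vH ⟨i, h⟩) else 0,
    fun i => if h : i ∈ T then w (vM ⟨i, h⟩) else 0,
    fun i => if h : i ∈ T then w (vC ⟨i, h⟩) else 0, fun β => w (vS β), ?_, ?_⟩
  · intro i hi
    simp [hi]
  · funext k
    rcases k with l | i | i | i | β
    · rfl
    · simp [tpt, vH]
    · simp [tpt, vM]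
    · simp [tpt, vC]
    · rfl

end

end KR
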