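import Pool.Agent.KR.Tops
import Pool.Agent.KR.SMain

/-!
# KR (MP_5a1161_co): the number of regular vertices, from Theorem LC
-/

open MvPolynomial Pool.Agent.MP_5a1161_co Metric

namespace KR

/-- A round body has positive diameter. -/
theorem u1_diam_pos {N : ℕ} {κ : ℝ} {c : Set (Sp (N + 1))} (h : IsRound κ c) :
    0 < Metric.diam c := by
  obtain ⟨x, hx⟩ := h.body
  have h1 : c ∈ nhds x := mem_interior_iff_mem_nhds.1 hx
  have h2 : c.Infinite := infinite_of_mem_nhds x h1
  exact Metric.diam_pos h2.nontrivial h.compact.isBounded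

/-- Regular vertices of a subfamily. -/
theorem RegV.restrict {ι : Type} [DecidableEq ι] {d s : ℕ} {D : ι → Desc d s} {T : Finset ι}
    {l : ι → Fin s} {x : Sp d} (h : RegV D T l x) (S : Finset ι) (hTS : T ⊆ S) :
    RegV (fun i : S => D i.1) (T.subtype (· ∈ S)) (fun i => l i.1) x := by
  refine ⟨?_, ?_, ?_, ?_, ?_⟩
  · rw [Finset.card_subtype, Finset.filter_true_of_mem (fun i hi => hTS hi)]
    exact h.card
  · intro i
    rw [h.mem i.1, Finset.mem_subtype]
  · intro i hi
    exact h.front i.1 (Finset.mem_subtype.1 hi)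
  · intro i hi l'
    exact h.zero i.1 (Finset.mem_subtype.1 hi) l'
  · exact h.indep.comp
      (fun i : (T.subtype (· ∈ S)) => (⟨i.1.1, Finset.mem_subtype.1 i.2⟩ : T))
      (fun i j hij => by
        have h1 : i.1.1 = j.1.1 := congrArg (fun z : T => z.1) hij
        exact Subtype.ext (Subtype.ext h1))

/-- Block S, the bound (U1) from Theorem LC. -/
theorem u1 (N s b : ℕ) (hN : 1 ≤ N) (κ ρ : ℝ) (hr : 0 < ρ)
    (hLC : LCStatement N s b κ ρ) : U1Statement N s b κ ρ := by
  classical
  obtain ⟨K, C, hK, hC, hLC⟩ := hLC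
  have hp : (1 : ℝ) < (N : ℝ) + ρ := by
    have : (1 : ℝ) ≤ N := by exact_mod_cast hN
    linarith
  obtain ⟨C', hC'0, hC'⟩ := scales (N + 1) ((N : ℝ) + ρ) K C hp hK hC.le
  refine ⟨C' + 1, by linarith, ?_⟩
  intro ι _ _ D hD
  have hex : ∀ v, (∃ T l, RegV D T l v) → ∃ T : Finset ι, ∃ l, RegV D T l v := fun v h => h
  let T : Sp (N + 1) → Finset ι := fun v =>
    if h : ∃ T : Finset ι, ∃ l, RegV D T l v then h.choose else ∅
  have hT : ∀ v, (∃ T l, RegV D T l v) → ∃ l, RegV D (T v) l v := by
    intro v hv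
    have h1 : T v = hv.choose := dif_pos hv
    rw [h1]
    exact hv.choose_spec
  -- every finite set of regular vertices is small
  have key : ∀ V : Finset (Sp (N + 1)), (∀ v ∈ V, ∃ T l, RegV D T l v) →
      (V.card : ℝ) ≤ C' * (Fintype.card ι : ℝ) ^ ((N : ℝ) + ρ) := by
    intro V hV
    have h1 := hC' ι (fun i => (D i).set) (fun i => (hD i).1.compact.isBounded)
      (fun i => u1_diam_pos (hD i).1) V T
      (fun v hv => by
        obtain ⟨l, hl⟩ := hT v (hV v hv)
        rw [← Finset.card_pos, hl.card]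
        exact Nat.succ_pos N)
      (fun v hv i hi => by
        obtain ⟨l, hl⟩ := hT v (hV v hv)
        exact (hl.mem i).2 hi)
      (fun S V' q hV' hq hS hdist hbig => by
        have h2 := hLC S (fun i : S => D i.1) (fun i => hD i.1) V' q hq hdist
          (fun v hv => by
            obtain ⟨l, hl⟩ := hT v (hV v (hV' hv))
            obtain ⟨i, hi, hiq⟩ := hbig v hv
            exact ⟨_, _, hl.restrict S (hS v hv), ⟨i, hS v hv hi⟩, Finset.mem_subtype.2 hi, hiq⟩)
        rwa [Fintype.card_coe] at h2) Finset.univ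
    rw [Finset.filter_true_of_mem (fun v _ => Finset.subset_univ _), Finset.card_univ] at h1
    exact h1
  have hfin : {v | ∃ T l, RegV D T l v}.Finite := by
    by_contra hinf
    obtain ⟨n, hn⟩ := exists_nat_gt (C' * (Fintype.card ι : ℝ) ^ ((N : ℝ) + ρ))
    obtain ⟨V, hV, hcard⟩ := Set.Infinite.exists_subset_card_eq hinf n
    have h1 := key V (fun v hv => hV hv)
    rw [hcard] at h1
    linarith
  refine ⟨hfin, ?_⟩
  rw [Set.ncard_eq_toFinset_card _ hfin]
  refine (key _ (fun v hv => by simpa using hv)).trans ?_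
  refine mul_le_mul_of_nonneg_right (by linarith) ?_
  exact Real.rpow_nonneg (Nat.cast_nonneg _) _

end KR
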