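import Pool.Agent.KR.XJet
import Pool.Agent.UC3.Cut

open Filter Topology UC3

namespace KR

/-- The middle branch of the cutoff. -/
noncomputable def xmid (top s : ℝ) : ℝ := top + ((s - top) - (s - top) ^ 3 + (s - top) ^ 4 / 2)

private theorem XCJ_jet {f g f' g' f'' g'' : ℝ → ℝ} (h1 : ∀ s, HasDerivAt f (f' s) s)
    (h2 : ∀ s, HasDerivAt f' (f'' s) s) (k1 : ∀ s, HasDerivAt g (g' s) s)
    (k2 : ∀ s, HasDerivAt g' (g'' s) s) {s : ℝ} (e0 : f s = g s) (e1 : f' s = g' s)
    (e2 : f'' s = g'' s) : JJ2 f g s := by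
  have a1 : deriv f = f' := funext fun s => (h1 s).deriv
  have a2 : deriv f' = f'' := funext fun s => (h2 s).deriv
  have b1 : deriv g = g' := funext fun s => (k1 s).deriv
  have b2 : deriv g' = g'' := funext fun s => (k2 s).deriv
  refine ⟨e0, ?_, ?_⟩
  · rw [a1, b1, e1]
  · rw [a1, b1, a2, b2, e2]

/-- At every point the cutoff has the 2-jet of one of its three branches.
Proof.  Use UC3.hasDerivAt_glue as in the proof of UC3.cut_contDiff (Pool/Agent/UC3/Cut.lean): with
q' s = 1 - 3 (s - top)^2 + 2 (s - top)^3 and q'' s = - 6 (s - top) + 6 (s - top)^2,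
deriv (cut top) = fun s => if s ≤ top then 1 else if s ≤ top + 1 then q' s else 0, and the
derivative of this function is fun s => if s ≤ top then 0 else if s ≤ top + 1 then q'' s else 0.
For s ≤ top take the first branch (values s, 1, 0), for top < s ≤ top + 1 the second, for
s > top + 1 the third. -/
theorem cut_jet (top s : ℝ) : JJ2 (cut top) (fun s => s) s ∨ JJ2 (cut top) (xmid top) s ∨
    JJ2 (cut top) (fun _ => top + 1 / 2) s := by
  let q : ℝ → ℝ := fun s => top + ((s - top) - (s - top) ^ 3 + (s - top) ^ 4 / 2)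
  let q' : ℝ → ℝ := fun s => 1 - 3 * (s - top) ^ 2 + 2 * (s - top) ^ 3
  let q'' : ℝ → ℝ := fun s => -6 * (s - top) + 6 * (s - top) ^ 2
  have h0 : ∀ s, HasDerivAt (fun s : ℝ => s - top) 1 s := fun s => (hasDerivAt_id s).sub_const top
  have c1 : ∀ s, HasDerivAt q (q' s) s := by
    intro s
    have := (((h0 s).sub ((h0 s).pow 3)).add (((h0 s).pow 4).div_const 2)).const_add top
    refine this.congr_deriv ?_
    simp only [q']; norm_num; ring
  have c2 : ∀ s, HasDerivAt q' (q'' s) s := by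
    intro s
    have := ((((h0 s).pow 2).const_mul 3).const_sub 1).add (((h0 s).pow 3).const_mul 2)
    refine this.congr_deriv ?_
    simp only [q'']; norm_num; ring
  have d1 : ∀ s : ℝ, HasDerivAt (fun _ : ℝ => top + 1 / 2) 0 s := fun s => hasDerivAt_const s _
  have d2 : ∀ s : ℝ, HasDerivAt (fun _ : ℝ => (0 : ℝ)) 0 s := fun s => hasDerivAt_const s 0
  have e1 : ∀ s : ℝ, HasDerivAt (fun s : ℝ => s) 1 s := fun s => hasDerivAt_id s
  have e2 : ∀ s : ℝ, HasDerivAt (fun _ : ℝ => (1 : ℝ)) 0 s := fun s => hasDerivAt_const s 1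
  have g1 := hasDerivAt_glue (top + 1) c1 d1 (by simp only [q]; ring) (by simp only [q']; ring)
  have g2 := hasDerivAt_glue (top + 1) c2 d2 (by simp only [q']; ring) (by simp only [q'']; ring)
  have k1 := hasDerivAt_glue top e1 g1 (by simp [q]) (by simp [q'])
  have k2 := hasDerivAt_glue top e2 g2 (by simp [q']) (by simp [q''])
  have hcut : cut top =
      fun s => if s ≤ top then s else (if s ≤ top + 1 then q s else top + 1 / 2) := by
    funext s; rfl
  have hmid : xmid top = q := rfl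
  rw [hcut, hmid]
  rcases le_or_gt s top with h | h
  · left
    exact XCJ_jet k1 k2 e1 e2 (if_pos h) (if_pos h) (if_pos h)
  · right
    rcases le_or_gt s (top + 1) with h' | h'
    · left
      refine XCJ_jet k1 k2 c1 c2 ?_ ?_ ?_
      · rw [if_neg (not_le.2 h), if_pos h']
      · rw [if_neg (not_le.2 h), if_pos h']
      · rw [if_neg (not_le.2 h), if_pos h']
    · right
      refine XCJ_jet k1 k2 d1 d2 ?_ ?_ ?_
      · rw [if_neg (not_le.2 h), if_neg (not_le.2 h')]
      · rw [if_neg (not_le.2 h), if_neg (not_le.2 h')]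
      · rw [if_neg (not_le.2 h), if_neg (not_le.2 h')]

private theorem XCJ_pen : pen = fun s => if s ≤ 0 then (-s) ^ 3 else 0 := by
  funext s
  unfold pen
  split_ifs with h
  · rw [max_eq_left (by linarith)]
  · rw [max_eq_right (by linarith)]; norm_num

private theorem XCJ_a1 (s : ℝ) : HasDerivAt (fun s : ℝ => (-s) ^ 3) (-3 * (-s) ^ 2) s := by
  have := ((hasDerivAt_id s).neg.pow 3)
  refine this.congr_deriv ?_
  simp

private theorem XCJ_a2 (s : ℝ) : HasDerivAt (fun s : ℝ => -3 * (-s) ^ 2) (6 * (-s)) s := by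
  have := ((hasDerivAt_id s).neg.pow 2).const_mul (-3 : ℝ)
  refine this.congr_deriv ?_
  simp; ring

private theorem XCJ_b (s : ℝ) : HasDerivAt (fun _ : ℝ => (0 : ℝ)) 0 s := hasDerivAt_const s 0

/-- Proof.  As for cut_jet: pen = fun s => if s ≤ 0 then (-s)^3 else 0, first derivative
if s ≤ 0 then -3 (-s)^2 else 0, second derivative if s ≤ 0 then 6 (-s) else 0; at s ≥ 0 all are
0. -/
theorem pen_jet_nonneg {s : ℝ} (h : 0 ≤ s) : JJ2 pen (fun _ => 0) s := by
  have k1 := hasDerivAt_glue 0 XCJ_a1 XCJ_b (by norm_num) (by norm_num)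
  have k2 := hasDerivAt_glue 0 XCJ_a2 XCJ_b (by norm_num) (by norm_num)
  rw [XCJ_pen]
  rcases eq_or_lt_of_le h with h0 | h0
  · refine XCJ_jet k1 k2 XCJ_b XCJ_b ?_ ?_ ?_
    · rw [if_pos h0.symm.le, ← h0]; norm_num
    · rw [if_pos h0.symm.le, ← h0]; norm_num
    · rw [if_pos h0.symm.le, ← h0]; norm_num
  · exact XCJ_jet k1 k2 XCJ_b XCJ_b (if_neg (not_le.2 h0)) (if_neg (not_le.2 h0))
      (if_neg (not_le.2 h0))

/-- Proof.  The same formulas, or local agreement. -/
theorem pen_jet_neg {s : ℝ} (h : s < 0) : JJ2 pen (fun s => (-s) ^ 3) s := by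
  have k1 := hasDerivAt_glue 0 XCJ_a1 XCJ_b (by norm_num) (by norm_num)
  have k2 := hasDerivAt_glue 0 XCJ_a2 XCJ_b (by norm_num) (by norm_num)
  rw [XCJ_pen]
  exact XCJ_jet k1 k2 XCJ_a1 XCJ_a2 (if_pos h.le) (if_pos h.le) (if_pos h.le)

end KR
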