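import Pool.Agent.KR.Pt

open Filter Topology

namespace KR

open UC

/-- Equality of 2-jets of functions of one variable. -/
def JJ2 (f g : ℝ → ℝ) (s : ℝ) : Prop :=
  f s = g s ∧ deriv f s = deriv g s ∧ deriv (deriv f) s = deriv (deriv g) s

variable {N : ℕ}

private theorem XJet_diff {F : E N → ℝ} {y : E N} (hF : ContDiffAt ℝ 2 F y) :
    (∀ᶠ z in 𝓝 y, DifferentiableAt ℝ F z) ∧ DifferentiableAt ℝ (fun z => fderiv ℝ F z) y := by
  refine ⟨?_, ?_⟩
  · filter_upwards [hF.eventually (by simp)] with z hz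
    exact hz.differentiableAt (by norm_num)
  · have h1 : ContDiffAt ℝ 1 (fderiv ℝ F) y := hF.fderiv_right (by norm_num)
    exact h1.differentiableAt (by norm_num)

private theorem XJet_add {F F' : E N → ℝ} {y : E N} (hF : ContDiffAt ℝ 2 F y)
    (hF' : ContDiffAt ℝ 2 F' y) :
    fderiv ℝ (fun z => F z + F' z) y = fderiv ℝ F y + fderiv ℝ F' y ∧
    fderiv ℝ (fun z => fderiv ℝ (fun z => F z + F' z) z) y =
      fderiv ℝ (fun z => fderiv ℝ F z) y + fderiv ℝ (fun z => fderiv ℝ F' z) y := by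
  obtain ⟨a1, a2⟩ := XJet_diff hF
  obtain ⟨b1, b2⟩ := XJet_diff hF'
  have h1 : (fun z => fderiv ℝ (fun z => F z + F' z) z) =ᶠ[𝓝 y]
      fun z => fderiv ℝ F z + fderiv ℝ F' z := by
    filter_upwards [a1, b1] with z hz hz'
    exact fderiv_fun_add hz hz'
  exact ⟨h1.eq_of_nhds, h1.fderiv_eq.trans (fderiv_fun_add a2 b2)⟩

private theorem XJet_comp {f : ℝ → ℝ} {g : E N → ℝ} {y : E N} (hf : ContDiff ℝ 2 f)
    (hg : ContDiffAt ℝ 2 g y) :
    fderiv ℝ (fun z => f (g z)) y = deriv f (g y) • fderiv ℝ g y ∧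
    fderiv ℝ (fun z => fderiv ℝ (fun z => f (g z)) z) y =
      deriv f (g y) • fderiv ℝ (fun z => fderiv ℝ g z) y +
        (deriv (deriv f) (g y) • fderiv ℝ g y).smulRight (fderiv ℝ g y) := by
  obtain ⟨b1, b2⟩ := XJet_diff hg
  have hfd : Differentiable ℝ f := hf.differentiable (by norm_num)
  have hf1 : Differentiable ℝ (deriv f) := by
    have h2 : ContDiff ℝ (1 + 1) f := by
      have e : (1 + 1 : WithTop ℕ∞) = 2 := one_add_one_eq_two
      rw [e]
      exact hf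
    exact (contDiff_succ_iff_deriv.1 h2).2.2.differentiable (by norm_num)
  have h1 : (fun z => fderiv ℝ (fun z => f (g z)) z) =ᶠ[𝓝 y]
      fun z => deriv f (g z) • fderiv ℝ g z := by
    filter_upwards [b1] with z hz
    exact ((hfd (g z)).hasDerivAt.comp_hasFDerivAt z hz.hasFDerivAt).fderiv
  refine ⟨h1.eq_of_nhds, h1.fderiv_eq.trans ?_⟩
  have h3 : HasFDerivAt (fun z => deriv f (g z)) (deriv (deriv f) (g y) • fderiv ℝ g y) y :=
    (hf1 (g y)).hasDerivAt.comp_hasFDerivAt y b1.self_of_nhds.hasFDerivAt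
  exact (h3.smul b2.hasFDerivAt).fderiv

theorem J2_refl (F : E N → ℝ) (y : E N) : J2 F F y := ⟨rfl, rfl, rfl⟩

theorem J2_trans {F G H : E N → ℝ} {y : E N} (h1 : J2 F G y) (h2 : J2 G H y) : J2 F H y :=
  ⟨h1.1.trans h2.1, h1.2.1.trans h2.2.1, h1.2.2.trans h2.2.2⟩

/-- Proof.  F = G near y: eq_of_nhds, EventuallyEq.fderiv_eq, and eventually (near y) fderiv F z =
fderiv G z (Filter.EventuallyEq.fderiv), so the derivatives of z ↦ fderiv F z agree at y. -/
theorem J2_of_eventuallyEq {F G : E N → ℝ} {y : E N} (h : F =ᶠ[𝓝 y] G) : J2 F G y := by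
  exact ⟨h.eq_of_nhds, h.fderiv_eq, h.fderiv.fderiv_eq⟩

/-- Sums.
Proof.  Near y the functions are differentiable (ContDiffAt of order 2 gives ContDiffAt near y for
finite order, `ContDiffAt.eventually`), so fderiv (F + F') z = fderiv F z + fderiv F' z near y, and
z ↦ fderiv F z is differentiable at y. -/
theorem J2_add {F G F' G' : E N → ℝ} {y : E N} (hF : ContDiffAt ℝ 2 F y)
    (hG : ContDiffAt ℝ 2 G y) (hF' : ContDiffAt ℝ 2 F' y) (hG' : ContDiffAt ℝ 2 G' y)
    (h1 : J2 F G y) (h2 : J2 F' G' y) :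
    J2 (fun z => F z + F' z) (fun z => G z + G' z) y := by
  obtain ⟨a0, a1, a2⟩ := h1
  obtain ⟨b0, b1, b2⟩ := h2
  obtain ⟨c1, c2⟩ := XJet_add hF hF'
  obtain ⟨d1, d2⟩ := XJet_add hG hG'
  refine ⟨?_, ?_, ?_⟩
  · show F y + F' y = G y + G' y
    rw [a0, b0]
  · rw [c1, d1, a1, b1]
  · rw [c2, d2, a2, b2]

/-- Composition with functions of one variable.
Proof.  Near y: fderiv (f ∘ g) z = deriv f (g z) • fderiv g z.  Its derivative at y in direction u
is (deriv (deriv f) (g y) * fderiv g y u) • fderiv g y + deriv f (g y) • fderiv (fderiv g) y u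
(f is C^2: deriv f is differentiable).  The same for f' and g'; all terms agree. -/
theorem J2_comp {f f' : ℝ → ℝ} {g g' : E N → ℝ} {y : E N} (hf : ContDiff ℝ 2 f)
    (hf' : ContDiff ℝ 2 f') (hg : ContDiffAt ℝ 2 g y) (hg' : ContDiffAt ℝ 2 g' y)
    (h1 : JJ2 f f' (g y)) (h2 : J2 g g' y) :
    J2 (fun z => f (g z)) (fun z => f' (g' z)) y := by
  obtain ⟨a0, a1, a2⟩ := h1
  obtain ⟨b0, b1, b2⟩ := h2
  obtain ⟨c1, c2⟩ := XJet_comp hf hg
  obtain ⟨d1, d2⟩ := XJet_comp hf' hg'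
  refine ⟨?_, ?_, ?_⟩
  · show f (g y) = f' (g' y)
    rw [a0, b0]
  · rw [c1, d1, ← b0, a1, b1]
  · rw [c2, d2, ← b0, a1, a2, b1, b2]

/-- Finite sums.
Proof.  Induction on the finset, J2_add, ContDiffAt.sum. -/
theorem J2_sum {α : Type} (s : Finset α) {F G : α → E N → ℝ} {y : E N}
    (hF : ∀ a ∈ s, ContDiffAt ℝ 2 (F a) y) (hG : ∀ a ∈ s, ContDiffAt ℝ 2 (G a) y)
    (h : ∀ a ∈ s, J2 (F a) (G a) y) :
    J2 (fun z => ∑ a ∈ s, F a z) (fun z => ∑ a ∈ s, G a z) y := by
  classical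
  induction s using Finset.induction_on with
  | empty =>
    simp only [Finset.sum_empty]
    exact J2_refl _ _
  | insert a s ha ih =>
    simp only [Finset.sum_insert ha]
    refine J2_add (hF a (Finset.mem_insert_self a s)) (hG a (Finset.mem_insert_self a s))
      (ContDiffAt.sum fun b hb => hF b (Finset.mem_insert_of_mem hb))
      (ContDiffAt.sum fun b hb => hG b (Finset.mem_insert_of_mem hb))
      (h a (Finset.mem_insert_self a s))
      (ih (fun b hb => hF b (Finset.mem_insert_of_mem hb))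
        (fun b hb => hG b (Finset.mem_insert_of_mem hb))
        (fun b hb => h b (Finset.mem_insert_of_mem hb)))

end KR
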