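import Pool.Agent.UC3.Ext

/-!
# KR (MP_5a1161_co): the local structure of the extension (after the proof of Lemma X, helper2)
-/

open Filter Topology

namespace UC3

variable {Y : Type*} [NormedAddCommGroup Y] [NormedSpace ℝ Y]
variable {κ : Type*} [Fintype κ]

/-- The dichotomy in the proof of Lemma X. -/
theorem extF_loc {top : ℝ} {P : Y × ℝ → ℝ} (hP : ContDiff ℝ 2 P) {p : κ → Y × ℝ → ℝ}
    (hp : ∀ j, ContDiff ℝ 2 (p j)) {O K : Set (Y × ℝ)}
    (hO : Single O) (hO0 : ∀ z ∈ O, P z = 0)
    (hopen : ∀ z ∈ O, ∀ᶠ z' in 𝓝 z, P z' = 0 → z' ∈ O)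
    (hK : IsCompact K) (hOK : O ⊆ K) (hZ : ∀ z ∈ K, P z = 0 → z ∉ O → ∃ j, p j z < 0) :
    ∃ M0 : ℝ, ∀ M, M0 ≤ M → ∀ y, (∃ t, (y, t) ∈ O) ∨
      (extF top M p O =ᶠ[𝓝 y] fun _ => top + 1 / 2) := by
  -- the bad part is compact
  let Z : Set (Y × ℝ) := {z | z ∈ K ∧ P z = 0 ∧ z ∉ O}
  have hZc : IsCompact Z := by
    refine hK.of_isClosed_subset ?_ (fun z hz => hz.1)
    rw [← isOpen_compl_iff, isOpen_iff_mem_nhds]
    intro z hz
    by_cases hzK : z ∈ K
    · by_cases hzP : P z = 0
      · have hzO : z ∈ O := by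
          by_contra hzO
          exact hz ⟨hzK, hzP, hzO⟩
        filter_upwards [hopen z hzO] with z' hz' hmem
        exact hmem.2.2 (hz' hmem.2.1)
      · have : ∀ᶠ z' in 𝓝 z, P z' ≠ 0 := hP.continuous.continuousAt.eventually_ne hzP
        filter_upwards [this] with z' hz' hmem
        exact hz' hmem.2.1
    · have : ∀ᶠ z' in 𝓝 z, z' ∈ Kᶜ := hK.isClosed.isOpen_compl.mem_nhds hzK
      filter_upwards [this] with z' hz' hmem
      exact hz' hmem.1
  have hpc : Continuous (pens p) := (pens_contDiff hp).continuous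
  have hpos : ∀ z ∈ Z, 0 < pens p z := by
    intro z hz
    obtain ⟨j, hj⟩ := hZ z hz.1 hz.2.1 hz.2.2
    exact Finset.sum_pos' (fun _ _ => pen_nonneg _) ⟨j, Finset.mem_univ _, pen_pos hj⟩
  obtain ⟨M0, hM0⟩ : ∃ M0 : ℝ, ∀ M, M0 ≤ M → ∀ z ∈ Z, top + 1 < z.2 + M * pens p z := by
    rcases Z.eq_empty_or_nonempty with hemp | hne
    · exact ⟨0, fun M _ z hz => by rw [hemp] at hz; exact absurd hz (Set.notMem_empty z)⟩
    · obtain ⟨z1, hz1, hmin⟩ := hZc.exists_isMinOn hne hpc.continuousOn
      obtain ⟨z2, hz2, hmin2⟩ := hZc.exists_isMinOn hne (continuous_snd.continuousOn)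
      have hc := hpos z1 hz1
      refine ⟨max 0 ((top + 2 - z2.2) / pens p z1), fun M hM z hz => ?_⟩
      have h1 : pens p z1 ≤ pens p z := hmin hz
      have h2 : z2.2 ≤ z.2 := hmin2 hz
      have hM1 : 0 ≤ M := (le_max_left _ _).trans hM
      have hM2 : (top + 2 - z2.2) / pens p z1 ≤ M := (le_max_right _ _).trans hM
      rw [div_le_iff₀ hc] at hM2
      have h3 : M * pens p z1 ≤ M * pens p z := mul_le_mul_of_nonneg_left h1 hM1
      linarith
  refine ⟨M0, fun M hM y => ?_⟩
  by_cases hy : ∃ t, (y, t) ∈ O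
  · exact Or.inl hy
  · push Not at hy
    refine Or.inr ?_
    have hev : extF top M p O =ᶠ[𝓝 y] fun _ => top + 1 / 2 := by
      by_contra hne
      -- a sequence of points of `O` over points tending to `y`
      have hfr : ∃ᶠ x in 𝓝 y, x ∈ {x | extF top M p O x ≠ top + 1 / 2} :=
        Filter.not_eventually.1 hne
      have hne' : (𝓝 y ⊓ 𝓟 {x | extF top M p O x ≠ top + 1 / 2}).NeBot :=
        Filter.frequently_mem_iff_neBot.1 hfr
      have hex : ∀ x, extF top M p O x ≠ top + 1 / 2 → ∃ t, (x, t) ∈ O ∧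
          t + M * pens p (x, t) < top + 1 := by
        intro x hx
        by_cases hxO : ∃ t, (x, t) ∈ O
        · obtain ⟨t, ht⟩ := hxO
          refine ⟨t, ht, ?_⟩
          by_contra hge
          exact hx (by rw [extF_of_mem hO ht, cut_of_ge (not_lt.1 hge)])
        · push Not at hxO
          exact absurd (extF_of_not hxO) hx
      choose! s hs using hex
      set l := 𝓝 y ⊓ 𝓟 {x | extF top M p O x ≠ top + 1 / 2} with hl
      have hmem : ∀ᶠ x in l, (x, s x) ∈ O ∧ s x + M * pens p (x, s x) < top + 1 := by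
        have : ∀ᶠ x in 𝓟 {x | extF top M p O x ≠ top + 1 / 2}, (x, s x) ∈ O ∧
            s x + M * pens p (x, s x) < top + 1 := by
          rw [Filter.eventually_principal]; exact fun x hx => hs x hx
        exact this.filter_mono inf_le_right
      have hK' : ∀ᶠ x in l, (x, s x) ∈ K := hmem.mono (fun x hx => hOK hx.1)
      obtain ⟨z0, hz0K, hz0⟩ := hK.exists_mapClusterPt_of_frequently (l := l)
        (f := fun x => (x, s x)) hK'.frequently
      obtain ⟨U, hUl, hU⟩ := mapClusterPt_iff_ultrafilter.1 hz0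
      -- the first component of the cluster point is `y`
      have hz1 : z0.1 = y := by
        have h1 : Tendsto (fun x => x) (U : Filter Y) (𝓝 z0.1) :=
          (continuous_fst.tendsto z0).comp hU
        have h2 : Tendsto (fun x : Y => x) (U : Filter Y) (𝓝 y) :=
          tendsto_id.mono_left (hUl.trans inf_le_left)
        exact tendsto_nhds_unique h1 h2
      have hz0O : z0 ∉ O := by
        intro h
        apply hy z0.2
        rw [← hz1]; exact h
      have hz0P : P z0 = 0 := by
        have h1 : Tendsto (fun x => P (x, s x)) (U : Filter Y) (𝓝 (P z0)) :=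
          (hP.continuous.tendsto z0).comp hU
        have h2 : Tendsto (fun x => P (x, s x)) (U : Filter Y) (𝓝 0) := by
          refine tendsto_const_nhds.congr' ?_
          filter_upwards [hmem.filter_mono hUl] with x hx
          exact (hO0 _ hx.1).symm
        exact tendsto_nhds_unique h1 h2
      have hz0M := hM0 M hM z0 ⟨hz0K, hz0P, hz0O⟩
      have hcl : ∃ᶠ x in l, top + 1 < s x + M * pens p (x, s x) := by
        have hopen' : IsOpen {z : Y × ℝ | top + 1 < z.2 + M * pens p z} :=
          isOpen_lt continuous_const (continuous_snd.add (continuous_const.mul hpc))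
        exact hz0.frequently (hopen'.mem_nhds hz0M)
      obtain ⟨x, hx1, hx2⟩ := (hcl.and_eventually hmem).exists
      linarith [hx2.2]
    exact hev

end UC3
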