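import Pool.Agent.KR.XPol
import Pool.Agent.KR.XLoc
import Pool.Agent.KR.XCJ

open MvPolynomial Filter Topology UC3

namespace KR

open UC

/-- The type polynomial number κ (0 : identity branch, 1 : middle branch, 2 : constant branch) for
the set A of the negative p_j. -/
noncomputable def xiP {N k : ℕ} (q : Fin k → MvPolynomial (Fin (N + 1)) ℝ) (top M : ℝ)
    (A : Finset (Fin k)) (κ : Fin 3) : MvPolynomial (Fin (N + 1)) ℝ :=
  let Q := X (Fin.last N) + C M * ∑ j ∈ A, (- q j) ^ 3
  if κ = 0 then Q else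
    if κ = 1 then C top + ((Q - C top) - (Q - C top) ^ 3 + C (1 / 2) * (Q - C top) ^ 4)
    else C (top + 1 / 2)

private theorem XTJ_add {n d : ℕ} {P Q : MvPolynomial (Fin n) ℝ} (hP : P.totalDegree ≤ d)
    (hQ : Q.totalDegree ≤ d) : (P + Q).totalDegree ≤ d :=
  (totalDegree_add P Q).trans (max_le hP hQ)

private theorem XTJ_sub {n d : ℕ} {P Q : MvPolynomial (Fin n) ℝ} (hP : P.totalDegree ≤ d)
    (hQ : Q.totalDegree ≤ d) : (P - Q).totalDegree ≤ d :=
  (totalDegree_sub P Q).trans (max_le hP hQ)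

private theorem XTJ_pow {n d : ℕ} {P : MvPolynomial (Fin n) ℝ} (hP : P.totalDegree ≤ d) (k : ℕ) :
    (P ^ k).totalDegree ≤ k * d :=
  (totalDegree_pow P k).trans (Nat.mul_le_mul_left k hP)

private theorem XTJ_C {n d : ℕ} (a : ℝ) : (C a : MvPolynomial (Fin n) ℝ).totalDegree ≤ d := by
  rw [totalDegree_C]
  exact Nat.zero_le d

private theorem XTJ_Cmul {n d : ℕ} (a : ℝ) {P : MvPolynomial (Fin n) ℝ} (hP : P.totalDegree ≤ d) :
    (C a * P).totalDegree ≤ d := by
  refine (totalDegree_mul (C a) P).trans ?_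
  rw [totalDegree_C, zero_add]
  exact hP

/-- the values of the polynomial Q -/
private theorem XTJ_Q {N k : ℕ} (q : Fin k → MvPolynomial (Fin (N + 1)) ℝ) (M : ℝ)
    (A : Finset (Fin k)) (z : E N) (h : ℝ) :
    pev (X (Fin.last N) + C M * ∑ j ∈ A, (- q j) ^ 3) (pt z h) =
      h + M * ∑ j, if j ∈ A then (- pP (q j) (z, h)) ^ 3 else 0 := by
  rw [Finset.sum_ite_mem, Finset.univ_inter]
  unfold pP pev
  rw [map_add, eval_X, pt_last, map_mul, eval_C, map_sum]
  congr 2
  refine Finset.sum_congr rfl fun j _ => ?_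
  rw [map_pow, map_neg]

/-- Degrees.
Proof.  totalDegree_add, totalDegree_mul, totalDegree_pow, totalDegree_finset_sum_le: the degree of
Q is at most max 1 (3 D) ≤ 3 D + 1, so everything is at most 4 (3 D + 1). -/
theorem xiP_deg {N k : ℕ} (D : ℕ) (q : Fin k → MvPolynomial (Fin (N + 1)) ℝ)
    (hq : ∀ j, (q j).totalDegree ≤ D) (top M : ℝ) (A : Finset (Fin k)) (κ : Fin 3) :
    (xiP q top M A κ).totalDegree ≤ 12 * D + 4 := by
  have hQ : (X (Fin.last N) + C M * ∑ j ∈ A, (- q j) ^ 3 :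
      MvPolynomial (Fin (N + 1)) ℝ).totalDegree ≤ 3 * D + 1 := by
    refine XTJ_add ?_ (XTJ_Cmul M (totalDegree_finsetSum_le fun j _ => ?_))
    · rw [totalDegree_X]
      omega
    · refine (XTJ_pow (d := D) ?_ 3).trans (by omega)
      rw [totalDegree_neg]
      exact hq j
  unfold xiP
  simp only
  split_ifs
  · exact hQ.trans (by omega)
  · have h1 := XTJ_sub hQ (XTJ_C (n := N + 1) (d := 3 * D + 1) top)
    refine XTJ_add (XTJ_C top) (XTJ_add (XTJ_sub (h1.trans (by omega)) ?_) (XTJ_Cmul _ ?_))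
    · exact (XTJ_pow h1 3).trans (by omega)
    · exact (XTJ_pow h1 4).trans (by omega)
  · exact XTJ_C _

/-- The 2-jet of the extension at a point over the patch.
Proof.  Let G z = η z + M * pens (fun j => pP (q j)) (z, η z).  Near y: extF z = cut top (G z)
(extF_of_mem).  A = {j | pP (q j) (y, η y) < 0}.  Each z ↦ pen (pP (q j) (z, η z)) has at y the 2-jet
of z ↦ (- pP (q j) (z, η z))^3 if j ∈ A (pen_jet_neg and J2_comp), of 0 otherwise (pen_jet_nonneg,
J2_comp), so G has the 2-jet of z ↦ pev (X last + C M * ∑ j ∈ A, (- q j)^3) (pt z (η z)) (J2_sum;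
write the sum over all j as a sum of terms ite, Finset.sum_filter; multiplication by M is J2_comp
with the function fun s => M * s; J2_add).  Then cut_jet at G y and J2_comp give κ.  Finally
J2_of_eventuallyEq and J2_trans.  ContDiffAt of z ↦ (z, η z): contDiffAt_id.prodMk hη;
UC3.pen_contDiff, UC3.cut_contDiff, pP_contDiff. -/
theorem ext_jet {N k : ℕ} (q : Fin k → MvPolynomial (Fin (N + 1)) ℝ) (top M : ℝ)
    (O : Set (E N × ℝ)) (hO : Single O) (y : E N) (η : E N → ℝ) (hη : ContDiffAt ℝ 2 η y)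
    (hηO : ∀ᶠ z in 𝓝 y, (z, η z) ∈ O) :
    ∃ (A : Finset (Fin k)) (κ : Fin 3),
      J2 (extF top M (fun j => pP (q j)) O) (fun z => pev (xiP q top M A κ) (pt z (η z))) y := by
  classical
  have hc : ∀ j, ContDiffAt ℝ 2 (fun z => pP (q j) (z, η z)) y := fun j =>
    ContDiffAt.comp (g := pP (q j)) (f := fun z => (z, η z)) y (pP_contDiff (q j)).contDiffAt
      (contDiffAt_id.prodMk hη)
  obtain ⟨A, hA⟩ : ∃ A : Finset (Fin k),
      A = Finset.univ.filter (fun j => pP (q j) (y, η y) < 0) := ⟨_, rfl⟩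
  have hmem : ∀ j, j ∈ A ↔ pP (q j) (y, η y) < 0 := fun j => by
    rw [hA, Finset.mem_filter]
    exact ⟨fun h => h.2, fun h => ⟨Finset.mem_univ j, h⟩⟩
  have hcube : ContDiff ℝ 2 (fun s : ℝ => (-s) ^ 3) := (contDiff_neg).pow 3
  have hF : ∀ j, ContDiffAt ℝ 2 (fun z => pen (pP (q j) (z, η z))) y := fun j =>
    ContDiffAt.comp (g := pen) (f := fun z => pP (q j) (z, η z)) y pen_contDiff.contDiffAt (hc j)
  have hG : ∀ j, ContDiffAt ℝ 2 (fun z => if j ∈ A then (- pP (q j) (z, η z)) ^ 3 else 0) y := by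
    intro j
    by_cases hj : j ∈ A
    · simp only [if_pos hj]
      exact (hc j).neg.pow 3
    · simp only [if_neg hj]
      exact contDiffAt_const
  have hj2 : ∀ j, J2 (fun z => pen (pP (q j) (z, η z)))
      (fun z => if j ∈ A then (- pP (q j) (z, η z)) ^ 3 else 0) y := by
    intro j
    by_cases hj : j ∈ A
    · simp only [if_pos hj]
      exact J2_comp (f := pen) (f' := fun s => (-s) ^ 3) pen_contDiff hcube (hc j) (hc j)
        (pen_jet_neg ((hmem j).1 hj)) (J2_refl _ _)
    · simp only [if_neg hj]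
      exact J2_comp (f := pen) (f' := fun _ => 0) pen_contDiff contDiff_const (hc j) (hc j)
        (pen_jet_nonneg (not_lt.1 fun h => hj ((hmem j).2 h))) (J2_refl _ _)
  have hsum := J2_sum Finset.univ (fun j _ => hF j) (fun j _ => hG j) (fun j _ => hj2 j)
  have hFs : ContDiffAt ℝ 2 (fun z => ∑ j, pen (pP (q j) (z, η z))) y :=
    ContDiffAt.sum fun j _ => hF j
  have hGs : ContDiffAt ℝ 2
      (fun z => ∑ j, if j ∈ A then (- pP (q j) (z, η z)) ^ 3 else 0) y :=
    ContDiffAt.sum fun j _ => hG j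
  have hM : ContDiff ℝ 2 (fun s : ℝ => M * s) := contDiff_const.mul contDiff_id
  have hmul : J2 (fun z => M * ∑ j, pen (pP (q j) (z, η z)))
      (fun z => M * ∑ j, if j ∈ A then (- pP (q j) (z, η z)) ^ 3 else 0) y :=
    J2_comp (f := fun s => M * s) (f' := fun s => M * s) hM hM hFs hGs ⟨rfl, rfl, rfl⟩ hsum
  have hadd := J2_add hη hη (contDiffAt_const.mul hFs) (contDiffAt_const.mul hGs)
    (J2_refl η y) hmul
  have hcG : ContDiffAt ℝ 2 (fun z => η z + M * ∑ j, pen (pP (q j) (z, η z))) y :=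
    hη.add (contDiffAt_const.mul hFs)
  have hcH : ContDiffAt ℝ 2
      (fun z => η z + M * ∑ j, if j ∈ A then (- pP (q j) (z, η z)) ^ 3 else 0) y :=
    hη.add (contDiffAt_const.mul hGs)
  have hloc : extF top M (fun j => pP (q j)) O =ᶠ[𝓝 y]
      fun z => cut top (η z + M * ∑ j, pen (pP (q j) (z, η z))) := by
    filter_upwards [hηO] with z hz
    rw [extF_of_mem hO hz]
    rfl
  have h1 := J2_of_eventuallyEq hloc
  rcases cut_jet top (η y + M * ∑ j, pen (pP (q j) (y, η y))) with h2 | h2 | h2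
  · refine ⟨A, 0, J2_trans h1 ?_⟩
    have h3 := J2_comp (cut_contDiff top) contDiff_id hcG hcH h2 hadd
    have h4 : (fun z => pev (xiP q top M A 0) (pt z (η z))) =
        fun z => η z + M * ∑ j, if j ∈ A then (- pP (q j) (z, η z)) ^ 3 else 0 := by
      funext z
      rw [← XTJ_Q]
      rfl
    rw [h4]
    exact h3
  · refine ⟨A, 1, J2_trans h1 ?_⟩
    have hxm : ContDiff ℝ 2 (xmid top) := by
      unfold xmid
      fun_prop
    have h3 := J2_comp (cut_contDiff top) hxm hcG hcH h2 hadd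
    have h4 : (fun z => pev (xiP q top M A 1) (pt z (η z))) =
        fun z => xmid top
          (η z + M * ∑ j, if j ∈ A then (- pP (q j) (z, η z)) ^ 3 else 0) := by
      funext z
      rw [← XTJ_Q]
      have h5 : xiP q top M A 1 = C top + (((X (Fin.last N) + C M * ∑ j ∈ A, (- q j) ^ 3) - C top) -
          ((X (Fin.last N) + C M * ∑ j ∈ A, (- q j) ^ 3) - C top) ^ 3 +
          C (1 / 2) * ((X (Fin.last N) + C M * ∑ j ∈ A, (- q j) ^ 3) - C top) ^ 4) := by
        unfold xiP
        simp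
      rw [h5]
      generalize X (Fin.last N) + C M * ∑ j ∈ A, (- q j) ^ 3 = Q
      unfold pev xmid
      simp only [map_add, map_sub, map_mul, map_pow, eval_C]
      ring
    rw [h4]
    exact h3
  · refine ⟨A, 2, J2_trans h1 ?_⟩
    have h3 := J2_comp (cut_contDiff top) contDiff_const hcG hcH h2 hadd
    have h4 : (fun z => pev (xiP q top M A 2) (pt z (η z))) = fun _ => top + 1 / 2 := by
      funext z
      have h5 : xiP q top M A 2 = C (top + 1 / 2) := by
        unfold xiP
        simp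
      rw [h5]
      unfold pev
      rw [eval_C]
    rw [h4]
    exact h3

end KR
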